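import Pool.Agent.Work.MP_a6e60d_ag.Q.Thk

/-!
MP_a6e60d_ag, Q3, generation: closure of a class with two-out-of-three and retracts under
bicartesian squares. `M I a` (`I` a set of roots of the quartic form, `a` a twist) are the rank one
objects over the splitting field; `O j` the line bundles on the projective line.
-/

set_option autoImplicit false

open CategoryTheory Category Limits

attribute [-instance] CategoryTheory.catToReflQuiver

namespace Orl.Q

universe v u

variable {A : Type u} [Category.{v} A] [Abelian A]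

/-- There is a bicartesian square with corners `N`, `M₁`, `M₂`, `M`, i.e. a short exact sequence
`0 → N → M₁ ⊞ M₂ → M → 0`. -/
def Sq (N M₁ M₂ M : A) : Prop :=
  ∃ (a : N ⟶ M₁ ⊞ M₂) (b : M₁ ⊞ M₂ ⟶ M) (w : a ≫ b = 0), (ShortComplex.mk a b w).ShortExact

/-- There is a short exact sequence `0 → N → X → M → 0`. -/
def SES (N X M : A) : Prop :=
  ∃ (a : N ⟶ X) (b : X ⟶ M) (w : a ≫ b = 0), (ShortComplex.mk a b w).ShortExact

theorem Sq.mk {N M₁ M₂ M : A} {a₁ : N ⟶ M₁} {a₂ : N ⟶ M₂} {b₁ : M₁ ⟶ M} {b₂ : M₂ ⟶ M}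
    {w : biprod.lift a₁ a₂ ≫ biprod.desc b₁ b₂ = 0}
    (h : (ShortComplex.mk (biprod.lift a₁ a₂) (biprod.desc b₁ b₂) w).ShortExact) :
    Sq N M₁ M₂ M := ⟨_, _, _, h⟩

section

variable {P : ObjectProperty A}

theorem Sq.p₁ (hP : Thk P) {N M₁ M₂ M : A} (h : Sq N M₁ M₂ M) (h1 : P M₁) (h2 : P M₂)
    (hM : P M) : P N := by
  obtain ⟨a, b, w, hS⟩ := h
  exact hP.sq₁ hS h1 h2 hM

theorem Sq.p₄ (hP : Thk P) {N M₁ M₂ M : A} (h : Sq N M₁ M₂ M) (h1 : P M₁) (h2 : P M₂)
    (hN : P N) : P M := by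
  obtain ⟨a, b, w, hS⟩ := h
  exact hP.sq₄ hS h1 h2 hN

theorem Sq.p₂ (hP : Thk P) {N M₁ M₂ M : A} (h : Sq N M₁ M₂ M) (hN : P N) (hM : P M) :
    P M₁ := by
  obtain ⟨a, b, w, hS⟩ := h
  exact (hP.sq₂ hS hN hM).1

theorem Sq.p₃ (hP : Thk P) {N M₁ M₂ M : A} (h : Sq N M₁ M₂ M) (hN : P N) (hM : P M) :
    P M₂ := by
  obtain ⟨a, b, w, hS⟩ := h
  exact (hP.sq₂ hS hN hM).2

theorem SES.p₁ (hP : Thk P) {N X M : A} (h : SES N X M) (hX : P X) (hM : P M) : P N := by
  obtain ⟨a, b, w, hS⟩ := h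
  exact hP.ses₁ hS hX hM

theorem SES.p₂ (hP : Thk P) {N X M : A} (h : SES N X M) (hN : P N) (hM : P M) : P X := by
  obtain ⟨a, b, w, hS⟩ := h
  exact hP.ses₂ hS hN hM

theorem SES.p₃ (hP : Thk P) {N X M : A} (h : SES N X M) (hN : P N) (hX : P X) : P M := by
  obtain ⟨a, b, w, hS⟩ := h
  exact hP.ses₃ hS hN hX

/-- The Koszul squares alone: two consecutive twists generate all twists. -/
theorem koszul (hP : Thk P) (O : ℤ → A)
    (xt : ∀ j, Sq (O (j - 2)) (O (j - 1)) (O (j - 1)) (O j)) (j₀ : ℤ) (h0 : P (O j₀))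
    (h1 : P (O (j₀ + 1))) (j : ℤ) : P (O j) := by
  have up : ∀ n : ℕ, P (O (j₀ + n)) ∧ P (O (j₀ + n + 1)) := by
    intro n
    induction n with
    | zero => simpa using ⟨h0, h1⟩
    | succ n ih =>
      have e1 : j₀ + ((n + 1 : ℕ) : ℤ) = j₀ + n + 1 := by push_cast; ring
      rw [e1]
      refine ⟨ih.2, ?_⟩
      have h := xt (j₀ + n + 1 + 1)
      have e2 : j₀ + n + 1 + 1 - 2 = j₀ + (n : ℤ) := by ring
      have e3 : j₀ + n + 1 + 1 - 1 = j₀ + (n : ℤ) + 1 := by ring
      rw [e2, e3] at h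
      exact h.p₄ hP ih.2 ih.2 ih.1
  have down : ∀ n : ℕ, P (O (j₀ - n)) ∧ P (O (j₀ - n + 1)) := by
    intro n
    induction n with
    | zero => simpa using ⟨h0, h1⟩
    | succ n ih =>
      have e1 : j₀ - ((n + 1 : ℕ) : ℤ) = j₀ - n - 1 := by push_cast; ring
      have e1' : j₀ - (n : ℤ) - 1 + 1 = j₀ - n := by ring
      rw [e1, e1']
      refine ⟨?_, ih.1⟩
      have h := xt (j₀ - n + 1)
      have e2 : j₀ - n + 1 - 2 = j₀ - (n : ℤ) - 1 := by ring
      have e3 : j₀ - n + 1 - 1 = j₀ - (n : ℤ) := by ring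
      rw [e2, e3] at h
      exact h.p₁ hP ih.1 ih.1 ih.2
  rcases le_total j₀ j with hj | hj
  · obtain ⟨n, hn⟩ := Int.le.dest hj
    rw [← hn]
    exact (up n).1
  · obtain ⟨n, hn⟩ := Int.le.dest hj
    have : j = j₀ - n := by rw [← hn]; ring
    rw [this]
    exact (down n).1

end

/-- The squares between the rank one objects `M I a`. -/
structure SqData (M : Finset (Fin 4) → ℤ → A) : Prop where
  vv : ∀ (I : Finset (Fin 4)) (i j : Fin 4) (a : ℤ), i ∉ I → j ∉ I → i ≠ j →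
    Sq (M I a) (M (insert i I) a) (M (insert j I) a) (M (insert i (insert j I)) a)
  uv : ∀ (I : Finset (Fin 4)) (i j : Fin 4) (a : ℤ), i ∈ I → j ∉ I →
    Sq (M (insert j (I.erase i)) (a - 1)) (M (I.erase i) a) (M (insert j I) (a - 1)) (M I a)
  xt : ∀ (I : Finset (Fin 4)) (a : ℤ), Sq (M I (a - 2)) (M I (a - 1)) (M I (a - 1)) (M I a)

namespace SqData

variable {M : Finset (Fin 4) → ℤ → A} (hM : SqData M) {P : ObjectProperty A} (hP : Thk P)

include hM hP

/-- One twist `a`: all `M I a` from `M ∅ a` and the `M {i} a`. -/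
theorem level (a : ℤ) (h0 : P (M ∅ a)) (h1 : ∀ i, P (M {i} a)) (I : Finset (Fin 4)) :
    P (M I a) := by
  have h : ∀ n : ℕ, ∀ I : Finset (Fin 4), I.card ≤ n → P (M I a) := by
    intro n
    induction n with
    | zero =>
      intro I hI
      have : I = ∅ := by simpa using hI
      rw [this]
      exact h0
    | succ n ih =>
      intro I hI
      by_cases hc : I.card ≤ 1
      · rcases Finset.card_le_one_iff_subset_singleton.1 hc with ⟨i, hi⟩
        rcases Finset.subset_singleton_iff.1 hi with rfl | rfl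
        · exact h0
        · exact h1 i
      · obtain ⟨i, hi, j, hj, hij⟩ := Finset.one_lt_card.1 (not_le.1 hc)
        have h3 := hM.vv ((I.erase i).erase j) i j a (by simp) (by simp) hij
        have e2 : insert j ((I.erase i).erase j) = I.erase i :=
          Finset.insert_erase (by simp [hj, hij.symm])
        have e1 : insert i ((I.erase i).erase j) = I.erase j := by
          rw [Finset.erase_right_comm]
          exact Finset.insert_erase (by simp [hi, hij])
        rw [e2, e1, Finset.insert_erase hi] at h3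
        refine h3.p₄ hP (ih _ ?_) (ih _ ?_) (ih _ ?_)
        · have := Finset.card_erase_of_mem hj
          omega
        · have := Finset.card_erase_of_mem hi
          omega
        · have h4 := Finset.card_erase_of_mem hi
          have h5 := Finset.card_erase_le (s := I.erase i) (a := j)
          omega
  exact h _ I le_rfl

/-- All objects `M I a` from five objects of one twist and one object of the next twist. -/
theorem all_of_level (a₀ : ℤ) (h0 : P (M ∅ a₀)) (h1 : ∀ i, P (M {i} a₀))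
    (h2 : P (M ∅ (a₀ + 1))) (I : Finset (Fin 4)) (a : ℤ) : P (M I a) := by
  have hl : ∀ I, P (M I a₀) := hM.level hP a₀ h0 h1
  have h3 : ∀ i, P (M {i} (a₀ + 1)) := by
    intro i
    obtain ⟨j, hj⟩ : ∃ j : Fin 4, j ≠ i := ⟨i + 1, by revert i; decide⟩
    have h4 := hM.uv {i} i j (a₀ + 1) (by simp) (by simpa using hj)
    have e1 : ({i} : Finset (Fin 4)).erase i = ∅ := by simp
    rw [e1, show a₀ + 1 - 1 = a₀ by ring] at h4
    exact h4.p₄ hP h2 (hl _) (hl _)
  have hl' : ∀ I, P (M I (a₀ + 1)) := hM.level hP (a₀ + 1) h2 h3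
  exact koszul hP (M I) (hM.xt I) a₀ (hl I) (hl' I) a

/-- Generation from the collection over `F` (roots `0, 1, 2` conjugate, `3` rational). -/
theorem gen_F (h0 : P (M ∅ 0)) (h1 : P (M {0} 0)) (h2 : P (M {1} 0)) (h3 : P (M {2} 0))
    (h4 : P (M {3} 0)) (h5 : P (M ∅ 1)) (I : Finset (Fin 4)) (a : ℤ) : P (M I a) :=
  hM.all_of_level hP 0 h0 (by
    intro i
    fin_cases i
    exacts [h1, h2, h3, h4]) (by simpa using h5) I a

/-- Generation from the collection over `L` (root `0` in `L`, roots `1, 2` conjugate, `3` rational),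
base changed to `K`: `M₂(0)` and its conjugate `M₁₂₄(-1)`, `M₁₂(0)` and its conjugate `M₂₄(0)`,
`K₁` and its conjugate `K₁'`. -/
theorem gen_L {K₁ K₁' : A} (s1 : SES (M {0, 1, 2} (-1)) K₁ (M {1, 3} 0))
    (s4 : SES (M {0} 0) K₁' (M {1, 3} 0)) (h2 : P (M {1} 0)) (h124 : P (M {0, 1, 3} (-1)))
    (h12 : P (M {0, 1} 0)) (h24 : P (M {1, 3} 0)) (hK : P K₁) (hK' : P K₁')
    (I : Finset (Fin 4)) (a : ℤ) : P (M I a) := by
  have uv' : ∀ (I N₁ N₂ N₃ : Finset (Fin 4)) (i j : Fin 4), i ∈ I → j ∉ I →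
      insert j (I.erase i) = N₁ → I.erase i = N₂ → insert j I = N₃ →
      Sq (M N₁ (-1)) (M N₂ 0) (M N₃ (-1)) (M I 0) := by
    intro I N₁ N₂ N₃ i j hi hj e1 e2 e3
    have := hM.uv I i j 0 hi hj
    rwa [e1, e2, e3] at this
  have vv' : ∀ (N₁ N₂ N₃ : Finset (Fin 4)) (i j : Fin 4) (a : ℤ), i ≠ j →
      {i} = N₁ → {j} = N₂ → insert i {j} = N₃ →
      Sq (M ∅ a) (M N₁ a) (M N₂ a) (M N₃ a) := by
    intro N₁ N₂ N₃ i j a hij e1 e2 e3
    have h := hM.vv ∅ i j a (by simp) (by simp) hij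
    rw [← e1, ← e2, ← e3]
    simpa using h
  have h123 : P (M {0, 1, 2} (-1)) := s1.p₁ hP hK h24
  have h1 : P (M {0} 0) := s4.p₁ hP hK' h24
  have h0 : P (M ∅ 0) := (vv' {0} {1} {0, 1} 0 1 0 (by decide) rfl rfl rfl).p₁ hP h1 h2 h12
  have k13 : P (M {0, 2} (-1)) :=
    (uv' {0, 1} {0, 2} {0} {0, 1, 2} 1 2 (by decide) (by decide) (by decide) (by decide)
      (by decide)).p₁ hP h1 h123 h12
  have k14 : P (M {0, 3} (-1)) :=
    (uv' {0, 1} {0, 3} {0} {0, 1, 3} 1 3 (by decide) (by decide) (by decide) (by decide)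
      (by decide)).p₁ hP h1 h124 h12
  have k12 : P (M {0, 1} (-1)) :=
    (uv' {1, 3} {0, 1} {1} {0, 1, 3} 3 0 (by decide) (by decide) (by decide) (by decide)
      (by decide)).p₁ hP h2 h124 h24
  have k2 : P (M {1} (-1)) :=
    (uv' {0} {1} ∅ {0, 1} 0 1 (by decide) (by decide) (by decide) (by decide)
      (by decide)).p₁ hP h0 k12 h1
  have k3 : P (M {2} (-1)) :=
    (uv' {0} {2} ∅ {0, 2} 0 2 (by decide) (by decide) (by decide) (by decide)
      (by decide)).p₁ hP h0 k13 h1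
  have k4 : P (M {3} (-1)) :=
    (uv' {0} {3} ∅ {0, 3} 0 3 (by decide) (by decide) (by decide) (by decide)
      (by decide)).p₁ hP h0 k14 h1
  have k1 : P (M {0} (-1)) :=
    (uv' {1} {0} ∅ {0, 1} 1 0 (by decide) (by decide) (by decide) (by decide)
      (by decide)).p₁ hP h0 k12 h2
  have k0 : P (M ∅ (-1)) := (vv' {0} {1} {0, 1} 0 1 (-1) (by decide) rfl rfl rfl).p₁ hP k1 k2 k12
  exact hM.all_of_level hP (-1) k0 (by
    intro i
    fin_cases i
    exacts [k1, k2, k3, k4]) (by simpa using h0) I a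

end SqData

/-- The twists of all objects by `m`. -/
theorem SqData.shift {M : Finset (Fin 4) → ℤ → A} (hM : SqData M) (m : ℤ) :
    SqData (fun I a => M I (m + a)) where
  vv I i j a hi hj hij := hM.vv I i j (m + a) hi hj hij
  uv I i j a hi hj := by
    have h := hM.uv I i j (m + a) hi hj
    rwa [show m + a - 1 = m + (a - 1) by ring] at h
  xt I a := by
    have h := hM.xt I (m + a)
    rwa [show m + a - 1 = m + (a - 1) by ring, show m + a - 2 = m + (a - 2) by ring] at h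

end Orl.Q
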