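import Pool.Agent.Work.MP_a6e60d_ag.Q.Obj

/-!
# The objects `M_I(n)` over a splitting field

`K` is an extension of `k` which contains a square root `s` of `a` and over which the form `q` of
degree four is the product of the linear forms `l 0, l 1, l 2` and `l 3`; in the coordinate `T`
these are `T - r 0`, `T - r 1`, `T - r 2` and `1` (the fourth root is at infinity).  For a set `I`
of roots, `M_I(n)` is the object of the factorisation `q = (product over I) (product over the
complement)`.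
-/

open CategoryTheory LaurentPolynomial Quaternion Orl.LF

set_option linter.unusedSectionVars false

attribute [-instance] CategoryTheory.catToReflQuiver

namespace Orl.Q

variable {k : Type} [Field k] {δ : Dat k}

/-! ### Transport of factorisations -/

section map

variable {κ κ' : Type} [Field κ] [Algebra k κ] [Field κ'] [Algebra k κ']

/-- the map of Laurent polynomials of a homomorphism of the coefficients -/
noncomputable def mapL (γ : κ →ₐ[k] κ') : κ[T;T⁻¹] →+* κ'[T;T⁻¹] :=
  AddMonoidAlgebra.mapRingHom ℤ (γ : κ →+* κ')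

theorem mapL_coeff (γ : κ →ₐ[k] κ') (f : κ[T;T⁻¹]) (m : ℤ) :
    (mapL γ f).coeff m = γ (f.coeff m) := by
  simp [mapL]

@[simp] theorem mapL_C (γ : κ →ₐ[k] κ') (c : κ) : mapL γ (C c) = C (γ c) := by
  rw [mapL]
  exact AddMonoidAlgebra.mapRingHom_single _ _ _

@[simp] theorem mapL_T (γ : κ →ₐ[k] κ') (m : ℤ) : mapL γ (T m) = T m := by
  ext j
  rw [mapL_coeff, T_apply, T_apply]
  split_ifs
  · exact map_one γ
  · exact map_zero γ

theorem mapL_smul (γ : κ →ₐ[k] κ') (c : κ) (f : κ[T;T⁻¹]) :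
    mapL γ (c • f) = γ c • mapL γ f := by
  rw [LaurentPolynomial.smul_eq_C_mul, map_mul, mapL_C, LaurentPolynomial.smul_eq_C_mul]

@[simp] theorem mapL_bc (γ : κ →ₐ[k] κ') (f : k[T;T⁻¹]) : mapL γ (bc κ f) = bc κ' f := by
  ext j
  rw [mapL_coeff, bc_coeff, bc_coeff, γ.commutes]

theorem mapL_injective (γ : κ →ₐ[k] κ') : Function.Injective (mapL γ) := by
  intro f g h
  ext j
  have := congrArg (fun x : κ'[T;T⁻¹] => x.coeff j) h
  simp only [mapL_coeff] at this
  exact γ.injective this

theorem mapL_mem_lat (γ : κ →ₐ[k] κ') {v : Ch} {n : ℤ} {f : κ[T;T⁻¹]} :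
    mapL γ f ∈ lat κ' v n ↔ f ∈ lat κ v n := by
  rw [mem_lat, mem_lat]
  refine forall_congr' fun m => ?_
  rw [mapL_coeff, Ne, Ne, map_eq_zero_iff γ γ.injective]

theorem mapL_comp {κ'' : Type} [Field κ''] [Algebra k κ''] (γ : κ →ₐ[k] κ') (η : κ' →ₐ[k] κ'')
    (f : κ[T;T⁻¹]) : mapL η (mapL γ f) = mapL (η.comp γ) f := by
  ext j
  rw [mapL_coeff, mapL_coeff, mapL_coeff]
  rfl

theorem mapL_id (f : κ[T;T⁻¹]) : mapL (AlgHom.id k κ) f = f := by
  ext j
  rw [mapL_coeff]
  rfl

/-- the image of a factorisation -/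
noncomputable def Fac.map (φ : Fac δ κ) (γ : κ →ₐ[k] κ') : Fac δ κ' where
  s := γ φ.s
  hs := by rw [← map_mul, φ.hs, γ.commutes]
  e := φ.e
  g := mapL γ φ.g
  h := mapL γ φ.h
  hg v := (mapL_mem_lat γ).2 (φ.hg v)
  hh v := (mapL_mem_lat γ).2 (φ.hh v)
  gh := by rw [← map_mul, φ.gh, mapL_bc]

/-- the factorisation with the two factors exchanged and the other square root -/
noncomputable def Fac.swap (φ : Fac δ κ) : Fac δ κ where
  s := -φ.s
  hs := by rw [neg_mul_neg, φ.hs]
  e := 4 - φ.e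
  g := φ.h
  h := φ.g
  hg := φ.hh
  hh v := by rw [sub_sub_cancel]; exact φ.hg v
  gh := by rw [mul_comm, φ.gh]

end map

/-! ### The splitting field -/

/-- the datum of a splitting field -/
structure Spl (δ : Dat k) (K : Type) [Field K] [Algebra k K] where
  /-- a square root of `a` -/
  s : K
  hs : s * s = algebraMap k K δ.a
  s_ne : s ≠ 0
  two_ne : (2 : K) ≠ 0
  /-- the three finite roots of `q` -/
  r : Fin 3 → K
  inj : Function.Injective r
  prod : (T 1 - C (r 0)) * (T 1 - C (r 1)) * (T 1 - C (r 2)) = bc K δ.q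

namespace Spl

variable {K : Type} [Field K] [Algebra k K] (S : Spl δ K)

/-- the linear forms -/
noncomputable def l (i : Fin 4) : K[T;T⁻¹] :=
  if h : i.1 < 3 then T 1 - C (S.r ⟨i.1, h⟩) else 1

theorem l_zero : S.l 0 = T 1 - C (S.r 0) := rfl

theorem l_one : S.l 1 = T 1 - C (S.r 1) := rfl

theorem l_two : S.l 2 = T 1 - C (S.r 2) := rfl

theorem l_three : S.l 3 = 1 := rfl

theorem l_cast (i : Fin 3) : S.l i.castSucc = T 1 - C (S.r i) := by
  have h : (i.castSucc : Fin 4).1 < 3 := i.2
  rw [l, dif_pos h]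
  rfl

theorem l_mem (i : Fin 4) (v : Ch) : S.l i ∈ lat K v 1 := by
  have h1 : (T 1 : K[T;T⁻¹]) ∈ lat K v 1 := by
    have := single_mem_lat (v := v) (n := 1) (m := 1) (by cases v <;> simp [Ch.Ok]) (1 : K)
    rwa [map_one, one_mul] at this
  have h2 : ∀ c : K, (C c : K[T;T⁻¹]) ∈ lat K v 1 := by
    intro c
    have := single_mem_lat (v := v) (n := 1) (m := 0) (by cases v <;> simp [Ch.Ok]) c
    rwa [T_zero, mul_one] at this
  rw [l]
  split_ifs with h
  · exact Submodule.sub_mem _ h1 (h2 _)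
  · rw [← map_one C]
    exact h2 1

theorem prod_mem (I : Finset (Fin 4)) (v : Ch) : ∏ i ∈ I, S.l i ∈ lat K v (I.card : ℤ) := by
  classical
  induction I using Finset.induction_on with
  | empty => simpa using one_mem_lat v
  | insert i I hi ih =>
    rw [Finset.prod_insert hi, Finset.card_insert_of_notMem hi]
    exact lat_mul' (S.l_mem i v) ih (by push_cast; ring)

theorem prod_univ : ∏ i, S.l i = bc K δ.q := by
  rw [Fin.prod_univ_four, l_zero, l_one, l_two, l_three, mul_one, S.prod]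

theorem card_compl (I : Finset (Fin 4)) : ((Iᶜ).card : ℤ) = 4 - I.card := by
  have := Finset.card_add_card_compl I
  rw [Fintype.card_fin] at this
  omega

/-- the factorisation of a set of roots -/
noncomputable def fac (I : Finset (Fin 4)) : Fac δ K where
  s := S.s
  hs := S.hs
  e := I.card
  g := ∏ i ∈ I, S.l i
  h := ∏ i ∈ Iᶜ, S.l i
  hg v := S.prod_mem I v
  hh v := by rw [← card_compl]; exact S.prod_mem Iᶜ v
  gh := by rw [Finset.prod_mul_prod_compl, prod_univ]

@[simp] theorem fac_s (I : Finset (Fin 4)) : (S.fac I).s = S.s := rfl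

@[simp] theorem fac_e (I : Finset (Fin 4)) : (S.fac I).e = I.card := rfl

@[simp] theorem fac_g (I : Finset (Fin 4)) : (S.fac I).g = ∏ i ∈ I, S.l i := rfl

@[simp] theorem fac_h (I : Finset (Fin 4)) : (S.fac I).h = ∏ i ∈ Iᶜ, S.l i := rfl

/-- the object `M_I(n)` -/
noncomputable def M (I : Finset (Fin 4)) (n : ℤ) : ModObj k K δ.Cat := (S.fac I).M n

/-- the object `O(n)` over the splitting field -/
noncomputable def O (n : ℤ) : ModObj k K δ.Cat := (S.fac ∅).O n

theorem l_ne_zero (i : Fin 4) : S.l i ≠ 0 := by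
  rw [l]
  split_ifs with h
  · intro h0
    have h1 := congrArg (fun x : K[T;T⁻¹] => x.coeff 1) h0
    simp only [AddMonoidAlgebra.coeff_sub, Finsupp.sub_apply] at h1
    rw [T_apply, if_pos rfl, C_apply, if_neg (by norm_num), sub_zero] at h1
    exact one_ne_zero h1
  · exact one_ne_zero

theorem prod_ne_zero (I : Finset (Fin 4)) : ∏ i ∈ I, S.l i ≠ 0 :=
  Finset.prod_ne_zero_iff.2 fun i _ => S.l_ne_zero i

end Spl

end Orl.Q
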