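import Pool.Agent.Work.MP_a6e60d_ag.Q.Seq
import Pool.Agent.Work.MP_a6e60d_ag.Q.Spl

/-!
MP_a6e60d_ag, Q3: the squares between the rank one objects attached to the subsets of the roots.
-/

open CategoryTheory Limits LaurentPolynomial Quaternion Orl.LF

set_option linter.unusedSectionVars false
set_option autoImplicit false

attribute [-instance] CategoryTheory.catToReflQuiver

namespace Orl.Q

variable {k : Type} [Field k] {δ : Dat k} {κ : Type} [Field κ] [Algebra k κ]

/-- A family of factorisations indexed by the subsets of a set of linear factors without common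
zeros. -/
structure FacFam {ι : Type} [Fintype ι] [DecidableEq ι] (l : ι → κ[T;T⁻¹])
    (fac : Finset ι → Fac δ κ) : Prop where
  s : ∀ I J, (fac I).s = (fac J).s
  e : ∀ I, (fac I).e = I.card
  g : ∀ I, (fac I).g = ∏ i ∈ I, l i
  h : ∀ I, (fac I).h = ∏ i ∈ Iᶜ, l i
  mem : ∀ i v, l i ∈ lat κ v 1
  bez : ∀ i j, i ≠ j → Bez (l i) (l j) 1 1

namespace FacFam

variable {ι : Type} [Fintype ι] [DecidableEq ι] {l : ι → κ[T;T⁻¹]} {fac : Finset ι → Fac δ κ}
  (F : FacFam l fac)

include F

theorem g_mul {I J K : Finset ι} (hIJ : Disjoint I J) (hK : I ∪ J = K) :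
    (fac K).g = (fac I).g * ∏ i ∈ J, l i := by
  rw [F.g, F.g, ← hK, Finset.prod_union hIJ]

theorem h_mul {I J K : Finset ι} (hIJ : Disjoint I J) (hK : I ∪ J = K) :
    (fac I).h = (fac K).h * ∏ i ∈ J, l i := by
  rw [F.h, F.h, ← Finset.prod_union]
  · refine Finset.prod_congr ?_ fun _ _ => rfl
    ext x
    have : x ∈ I → x ∉ J := fun h1 => Finset.disjoint_left.1 hIJ h1
    rw [← hK]
    simp only [Finset.mem_compl, Finset.mem_union]
    tauto
  · rw [← hK, Finset.disjoint_left]
    intro x hx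
    simp only [Finset.mem_compl, Finset.mem_union, not_or] at hx
    exact hx.2

/-- the square for two disjoint sets of factors -/
theorem vvs {K I J : Finset ι} (a : ℤ) (hKI : Disjoint K I) (hKJ : Disjoint K J)
    (hIJ : Disjoint I J) :
    Sq ((fac K).M a) ((fac (K ∪ I)).M a) ((fac (K ∪ J)).M a) ((fac (K ∪ I ∪ J)).M a) := by
  have hb : Bez (∏ j ∈ J, l j) (∏ i ∈ I, l i) J.card I.card :=
    Bez.prod_prod J I l F.mem fun i hi j hj => F.bez i j fun hij =>
      Finset.disjoint_left.1 hIJ hj (hij ▸ hi)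
  have h1 : Disjoint (K ∪ I) J := Finset.disjoint_union_left.2 ⟨hKJ, hIJ⟩
  have h2 : Disjoint (K ∪ J) I := Finset.disjoint_union_left.2 ⟨hKI, hIJ.symm⟩
  have e1 : ((K ∪ I).card : ℤ) = K.card + I.card := by
    rw [Finset.card_union_of_disjoint hKI]
    push_cast
    ring
  have e2 : ((K ∪ J).card : ℤ) = K.card + J.card := by
    rw [Finset.card_union_of_disjoint hKJ]
    push_cast
    ring
  have e3 : ((K ∪ I ∪ J).card : ℤ) = K.card + I.card + J.card := by
    rw [Finset.card_union_of_disjoint h1, Finset.card_union_of_disjoint hKI]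
    push_cast
    ring
  have u3 : K ∪ J ∪ I = K ∪ I ∪ J := by
    ext x
    simp only [Finset.mem_union]
    tauto
  have g1 := F.g_mul h1 rfl
  have k1 := F.h_mul h1 rfl
  have g2 := F.g_mul h2 u3
  have k2 := F.h_mul h2 u3
  have g3 := F.g_mul hKI rfl
  have k3 := F.h_mul hKI rfl
  have g4 := F.g_mul hKJ rfl
  have k4 := F.h_mul hKJ rfl
  refine Fac.sq (F.s _ _) (F.s _ _) (F.s _ _) (d₁ := 0) (d₂ := 0) (c₁ := J.card) (c₂ := I.card)
    (add_zero _) (add_zero _) (add_zero _) (by rw [F.e, F.e, e1, e3]; ring)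
    (by rw [F.e, F.e, e2, e3]; ring) (by rw [F.e, F.e, e1]; ring)
    (Bez.one_left one_mem_lat) hb ?_ ?_ ?_ ?_ ?_ ?_ ?_ ?_
  · rw [g1]; ring
  · rw [k1]; ring
  · rw [g2]; ring
  · rw [k2]; ring
  · rw [g3]; ring
  · rw [k3]; ring
  · rw [g4]; ring
  · rw [k4]; ring

/-- the square which removes one factor and adds another one -/
theorem uv (I : Finset ι) (i j : ι) (a : ℤ) (hi : i ∈ I) (hj : j ∉ I) :
    Sq ((fac (insert j (I.erase i))).M (a - 1)) ((fac (I.erase i)).M a)
      ((fac (insert j I)).M (a - 1)) ((fac I).M a) := by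
  have hij : i ≠ j := fun h => hj (h ▸ hi)
  have hj' : j ∉ I.erase i := fun h => hj (Finset.mem_of_mem_erase h)
  have d1 : Disjoint (I.erase i) {i} := by simp
  have d2 : Disjoint I {j} := by simpa using hj
  have d3 : Disjoint (I.erase i) {j} := by simpa using hj'
  have d4 : Disjoint (insert j (I.erase i)) {i} := by simp [hij]
  have u1 : I.erase i ∪ {i} = I := by
    rw [Finset.union_comm, ← Finset.insert_eq, Finset.insert_erase hi]
  have u2 : I ∪ {j} = insert j I := by rw [Finset.union_comm, ← Finset.insert_eq]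
  have u3 : I.erase i ∪ {j} = insert j (I.erase i) := by
    rw [Finset.union_comm, ← Finset.insert_eq]
  have u4 : insert j (I.erase i) ∪ {i} = insert j I := by
    rw [Finset.insert_union, u1]
  have c1 : ((I.erase i).card : ℤ) = I.card - 1 := by
    have h1 := Finset.card_erase_of_mem hi
    have h2 := Finset.card_pos.2 ⟨i, hi⟩
    omega
  have c2 : ((insert j I).card : ℤ) = I.card + 1 := by
    rw [Finset.card_insert_of_notMem hj]
    push_cast
    ring
  have c3 : ((insert j (I.erase i)).card : ℤ) = I.card := by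
    rw [Finset.card_insert_of_notMem hj']
    push_cast
    rw [c1]
    ring
  have g1 := F.g_mul d1 u1
  have k1 := F.h_mul d1 u1
  have g2 := F.g_mul d2 u2
  have k2 := F.h_mul d2 u2
  have g3 := F.g_mul d3 u3
  have k3 := F.h_mul d3 u3
  have g4 := F.g_mul d4 u4
  have k4 := F.h_mul d4 u4
  rw [Finset.prod_singleton] at g1 k1 g2 k2 g3 k3 g4 k4
  refine Fac.sq (F.s _ _) (F.s _ _) (F.s _ _) (α₁ := 1) (α₂ := l j) (β₁ := l i) (β₂ := 1)
    (d₁ := 0) (d₂ := 1) (c₁ := 1) (c₂ := 0)
    (by ring) (by ring) (by ring) (by rw [F.e, F.e, c1]; ring)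
    (by rw [F.e, F.e, c2]; ring) (by rw [F.e, F.e, c1, c3]; ring)
    (Bez.one_left (F.mem j)) (Bez.one_right (F.mem i)) ?_ ?_ ?_ ?_ ?_ ?_ ?_ ?_
  · rw [g1]; ring
  · rw [k1]; ring
  · rw [g2]; ring
  · rw [k2]; ring
  · rw [g3]; ring
  · rw [k3]; ring
  · rw [g4]; ring
  · rw [k4]; ring

/-- the square which adds two factors -/
theorem vv (I : Finset ι) (i j : ι) (a : ℤ) (hi : i ∉ I) (hj : j ∉ I) (hij : i ≠ j) :
    Sq ((fac I).M a) ((fac (insert i I)).M a) ((fac (insert j I)).M a)
      ((fac (insert i (insert j I))).M a) := by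
  have h := F.vvs (K := I) (I := {i}) (J := {j}) a (by simpa using hi) (by simpa using hj)
    (by simpa using hij)
  have e1 : I ∪ {i} = insert i I := by rw [Finset.union_comm, ← Finset.insert_eq]
  have e2 : I ∪ {j} = insert j I := by rw [Finset.union_comm, ← Finset.insert_eq]
  have e3 : insert i I ∪ {j} = insert i (insert j I) := by
    rw [Finset.insert_union, e2]
  rw [e1, e2, e3] at h
  exact h

/-- the Koszul square -/
theorem xt (I : Finset ι) (a : ℤ) :
    Sq ((fac I).M (a - 2)) ((fac I).M (a - 1)) ((fac I).M (a - 1)) ((fac I).M a) :=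
  Fac.sq_xt (fac I) a

/-- the square of a set of factors and its complement -/
theorem vvc (I : Finset ι) (a : ℤ) :
    Sq ((fac ∅).M a) ((fac I).M a) ((fac Iᶜ).M a) ((fac Finset.univ).M a) := by
  have h := F.vvs (K := ∅) (I := I) (J := Iᶜ) a (by simp) (by simp) disjoint_compl_right
  have e1 : (∅ : Finset ι) ∪ I = I := Finset.empty_union I
  have e2 : (∅ : Finset ι) ∪ Iᶜ = Iᶜ := Finset.empty_union _
  have e3 : I ∪ Iᶜ = Finset.univ := by
    rw [Finset.union_compl]
  rw [e1, e2, e3] at h
  exact h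

omit F in
/-- **All squares** between the rank one objects. -/
theorem sqData {l : Fin 4 → κ[T;T⁻¹]} {fac : Finset (Fin 4) → Fac δ κ} (F : FacFam l fac) :
    SqData fun I a => (fac I).M a where
  vv := F.vv
  uv := F.uv
  xt := F.xt

end FacFam

namespace Spl

variable {K : Type} [Field K] [Algebra k K] (S : Spl δ K)

theorem bez_cast (i j : Fin 3) (hij : i ≠ j) : Bez (S.l i.castSucc) (S.l j.castSucc) 1 1 := by
  have h := bez_lin (κ := K) (u := 1) (w := S.r i) (u' := 1) (w' := S.r j) (by
    rw [one_mul, one_mul, isUnit_iff_ne_zero, sub_ne_zero]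
    exact fun h => hij (S.inj h).symm)
  rw [S.l_cast, S.l_cast]
  simpa [lin] using h

theorem bez_last (i : Fin 3) : Bez (S.l i.castSucc) (S.l (Fin.last 3)) 1 1 := by
  have h := bez_lin (κ := K) (u := 1) (w := S.r i) (u' := 0) (w' := -1) (by simp)
  have e : S.l (Fin.last 3) = 1 := S.l_three
  rw [S.l_cast, e]
  simpa [lin] using h

/-- Different linear forms have no common zero. -/
theorem bez (i j : Fin 4) (hij : i ≠ j) : Bez (S.l i) (S.l j) 1 1 := by
  induction i using Fin.lastCases with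
  | last =>
    induction j using Fin.lastCases with
    | last => exact absurd rfl hij
    | cast j => exact (S.bez_last j).symm
  | cast i =>
    induction j using Fin.lastCases with
    | last => exact S.bez_last i
    | cast j => exact S.bez_cast i j fun h => hij (congrArg Fin.castSucc h)

theorem facFam : FacFam S.l S.fac where
  s _ _ := rfl
  e _ := rfl
  g _ := rfl
  h _ := rfl
  mem := S.l_mem
  bez := S.bez

/-- **The squares between the objects `M_I(n)`.** -/
theorem sqData : SqData S.M := S.facFam.sqData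

/-- The square of a set of roots and its complement. -/
theorem vvc (I : Finset (Fin 4)) (a : ℤ) : Sq (S.M ∅ a) (S.M I a) (S.M Iᶜ a) (S.M Finset.univ a) :=
  S.facFam.vvc I a

/-- The square of three disjoint sets of roots. -/
theorem vvs {I J L : Finset (Fin 4)} (a : ℤ) (h1 : Disjoint I J) (h2 : Disjoint I L)
    (h3 : Disjoint J L) : Sq (S.M I a) (S.M (I ∪ J) a) (S.M (I ∪ L) a) (S.M (I ∪ J ∪ L) a) :=
  S.facFam.vvs a h1 h2 h3

/-- The Koszul squares of the line bundles. -/
theorem sqO (n : ℤ) : Sq (S.O (n - 2)) (S.O (n - 1)) (S.O (n - 1)) (S.O n) :=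
  Fac.sqO_xt _ n

end Spl

end Orl.Q
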