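import Pool.Agent.Work.MP_a6e60d_ag.Q.Tiled

/-!
# Modules over a tiled algebra, vertex by vertex
-/

open CategoryTheory

set_option linter.unusedSectionVars false

attribute [-instance] CategoryTheory.catToReflQuiver

namespace Orl.Q

variable {k D V : Type} [Field k] [Ring D] [Algebra k D] [Fintype V] [DecidableEq V]

section basics

variable (T : Tiling k D V)

theorem Tiling.single_val (s t : V) (x : D) (hx : x ∈ T.L s t) :
    (T.single s t x hx).1 = Matrix.single s t x := rfl

theorem Tiling.e_mul_e (s : V) : T.e s * T.e s = T.e s := by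
  unfold Tiling.e
  rw [Tiling.single_mul]
  congr 1
  exact one_mul 1

theorem Tiling.e_mul_e_ne {s t : V} (h : s ≠ t) : T.e s * T.e t = 0 :=
  Tiling.single_mul_ne _ _ h

theorem Tiling.e_mul_single (s t : V) {x : D} (hx : x ∈ T.L s t) :
    T.e s * T.single s t x hx = T.single s t x hx := by
  unfold Tiling.e
  rw [Tiling.single_mul]
  congr 1
  exact one_mul x

theorem Tiling.single_mul_e (s t : V) {x : D} (hx : x ∈ T.L s t) :
    T.single s t x hx * T.e t = T.single s t x hx := by
  unfold Tiling.e
  rw [Tiling.single_mul]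
  congr 1
  exact mul_one x

theorem Tiling.single_add (s t : V) {x y : D} (hx : x ∈ T.L s t) (hy : y ∈ T.L s t) :
    T.single s t (x + y) (Submodule.add_mem _ hx hy) = T.single s t x hx + T.single s t y hy := by
  apply Subtype.ext
  simp [Tiling.single, Matrix.single_add]

theorem Tiling.single_smul (s t : V) (c : k) {x : D} (hx : x ∈ T.L s t) :
    T.single s t (c • x) (Submodule.smul_mem _ c hx) = c • T.single s t x hx := by
  apply Subtype.ext
  simp [Tiling.single, Matrix.smul_single]

/-- Every element is the sum of its matrix units. -/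
theorem Tiling.sum_single (A : T.Alg) : A = ∑ s, ∑ t, T.single s t (A.1 s t) (A.2 s t) := by
  apply Subtype.ext
  have h : ((∑ s, ∑ t, T.single s t (A.1 s t) (A.2 s t) : T.Alg) : Matrix V V D) =
      ∑ s, ∑ t, Matrix.single s t (A.1 s t) := by
    rw [AddSubmonoidClass.coe_finsetSum]
    refine Finset.sum_congr rfl fun s _ => ?_
    rw [AddSubmonoidClass.coe_finsetSum]
    rfl
  rw [h]
  exact Matrix.matrix_eq_sum_single _

end basics

/-! ### The component of a module at a vertex -/

section comp

variable {T : Tiling k D V} {N N' N'' : Type} [AddCommGroup N] [Module T.Alg N] [Module k N]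
  [IsScalarTower k T.Alg N] [AddCommGroup N'] [Module T.Alg N'] [Module k N']
  [IsScalarTower k T.Alg N'] [AddCommGroup N''] [Module T.Alg N''] [Module k N'']
  [IsScalarTower k T.Alg N'']

theorem Tiling.sum_e_smul (T : Tiling k D V) {N : Type} [AddCommGroup N] [Module T.Alg N] (n : N) :
    ∑ s, T.e s • n = n := by
  rw [← Finset.sum_smul, T.sum_e, one_smul]

variable (T N) in
/-- the component at the vertex `s` -/
def Tiling.at (s : V) : Submodule k N where
  carrier := {n | T.e s • n = n}
  add_mem' {x y} hx hy := by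
    change T.e s • (x + y) = x + y
    rw [smul_add, hx, hy]
  zero_mem' := smul_zero _
  smul_mem' c x hx := by
    change T.e s • (c • x) = c • x
    rw [smul_comm, hx]

theorem Tiling.mem_at {s : V} {n : N} : n ∈ T.at N s ↔ T.e s • n = n := Iff.rfl

theorem Tiling.e_smul_mem (s : V) (n : N) : T.e s • n ∈ T.at N s := by
  rw [Tiling.mem_at, ← mul_smul, T.e_mul_e]

theorem Tiling.e_smul_of_mem_ne {s t : V} (h : s ≠ t) {n : N} (hn : n ∈ T.at N t) :
    T.e s • n = 0 := by
  rw [Tiling.mem_at] at hn
  rw [← hn, ← mul_smul, T.e_mul_e_ne h, zero_smul]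

theorem Tiling.single_smul_mem {s t : V} {x : D} (hx : x ∈ T.L s t) (n : N) :
    T.single s t x hx • n ∈ T.at N s := by
  rw [Tiling.mem_at, ← mul_smul, T.e_mul_single]

theorem Tiling.single_e_smul {s t : V} {x : D} (hx : x ∈ T.L s t) (n : N) :
    T.single s t x hx • (T.e t • n) = T.single s t x hx • n := by
  rw [← mul_smul, T.single_mul_e]

/-- the operator of an element of `L s t` -/
def Tiling.op {s t : V} {x : D} (hx : x ∈ T.L s t) : T.at N t →ₗ[k] T.at N s where
  toFun n := ⟨T.single s t x hx • n.1, T.single_smul_mem hx _⟩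
  map_add' _ _ := Subtype.ext (smul_add _ _ _)
  map_smul' c n := Subtype.ext (smul_comm _ c n.1)

@[simp] theorem Tiling.op_val {s t : V} {x : D} (hx : x ∈ T.L s t) (n : T.at N t) :
    (Tiling.op hx n).1 = T.single s t x hx • n.1 := rfl

/-- A `T`-linear map on the components. -/
def Tiling.mapAt (f : N →ₗ[T.Alg] N') (s : V) : T.at N s →ₗ[k] T.at N' s where
  toFun n := ⟨f n.1, by rw [Tiling.mem_at, ← f.map_smul, Tiling.mem_at.1 n.2]⟩
  map_add' _ _ := Subtype.ext (f.map_add _ _)
  map_smul' c n := Subtype.ext ((f.restrictScalars k).map_smul c n.1)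

@[simp] theorem Tiling.mapAt_val (f : N →ₗ[T.Alg] N') (s : V) (n : T.at N s) :
    (Tiling.mapAt f s n).1 = f n.1 := rfl

theorem Tiling.op_mapAt (f : N →ₗ[T.Alg] N') {s t : V} {x : D} (hx : x ∈ T.L s t)
    (n : T.at N t) : Tiling.op hx (Tiling.mapAt f t n) = Tiling.mapAt f s (Tiling.op hx n) :=
  Subtype.ext (f.map_smul _ _).symm

end comp

/-! ### Exactness, vertex by vertex (no `k`-structure needed) -/

section exact

variable {T : Tiling k D V} {N N' N'' : Type} [AddCommGroup N] [Module T.Alg N]
  [AddCommGroup N'] [Module T.Alg N'] [AddCommGroup N''] [Module T.Alg N'']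

theorem Tiling.e_smul_e_smul (s : V) (n : N) : T.e s • (T.e s • n) = T.e s • n := by
  rw [← mul_smul, T.e_mul_e]

theorem Tiling.ext_of_e {n m : N} (h : ∀ s, T.e s • n = T.e s • m) : n = m := by
  rw [← T.sum_e_smul n, ← T.sum_e_smul m]
  exact Finset.sum_congr rfl fun s _ => h s

theorem Tiling.injective_iff (f : N →ₗ[T.Alg] N') :
    Function.Injective f ↔ ∀ s (n : N), T.e s • n = n → f n = 0 → n = 0 := by
  constructor
  · intro h s n _ h0
    exact h (by rw [h0, f.map_zero])
  · intro h
    rw [injective_iff_map_eq_zero]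
    intro n hn
    refine T.ext_of_e fun s => ?_
    rw [smul_zero]
    refine h s _ (T.e_smul_e_smul s n) ?_
    rw [f.map_smul, hn, smul_zero]

theorem Tiling.exact_iff (f : N →ₗ[T.Alg] N') (g : N' →ₗ[T.Alg] N'') :
    Function.Exact f g ↔ (∀ s (n : N), T.e s • n = n → g (f n) = 0) ∧
      ∀ s (n : N'), T.e s • n = n → g n = 0 → ∃ m : N, T.e s • m = m ∧ f m = n := by
  constructor
  · intro h
    refine ⟨fun s n _ => h.apply_apply_eq_zero n, fun s n hn h0 => ?_⟩
    obtain ⟨m, hm⟩ := (h n).1 h0
    refine ⟨T.e s • m, T.e_smul_e_smul s m, ?_⟩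
    rw [f.map_smul, hm, hn]
  · rintro ⟨h1, h2⟩ n
    constructor
    · intro h0
      have h3 : ∀ s, ∃ m : N, T.e s • m = m ∧ f m = T.e s • n := fun s =>
        h2 s _ (T.e_smul_e_smul s n) (by rw [g.map_smul, h0, smul_zero])
      choose m hm hm' using h3
      refine ⟨∑ s, m s, ?_⟩
      rw [map_sum]
      simp only [hm']
      exact T.sum_e_smul n
    · rintro ⟨m, rfl⟩
      refine T.ext_of_e fun s => ?_
      rw [smul_zero, ← g.map_smul, ← f.map_smul]
      exact h1 s _ (T.e_smul_e_smul s m)

theorem Tiling.surjective_iff (f : N →ₗ[T.Alg] N') :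
    Function.Surjective f ↔ ∀ s (n : N'), T.e s • n = n → ∃ m : N, T.e s • m = m ∧ f m = n := by
  constructor
  · intro h s n hn
    obtain ⟨m, rfl⟩ := h n
    exact ⟨T.e s • m, T.e_smul_e_smul s m, by rw [f.map_smul, hn]⟩
  · intro h n
    have h3 : ∀ s, ∃ m : N, T.e s • m = m ∧ f m = T.e s • n := fun s =>
      h s _ (T.e_smul_e_smul s n)
    choose m hm hm' using h3
    refine ⟨∑ s, m s, ?_⟩
    rw [map_sum]
    simp only [hm']
    exact T.sum_e_smul n

end exact

/-! ### Maps of lattices -/

section lattice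

variable {T : Tiling k D V} {N N' N'' : Type} [AddCommGroup N] [Module k N] [Module D N]
  [IsScalarTower k D N] [AddCommGroup N'] [Module k N'] [Module D N'] [IsScalarTower k D N']
  [AddCommGroup N''] [Module k N''] [Module D N''] [IsScalarTower k D N'']

/-- the element concentrated at the vertex `s` -/
def Lattice.inj (M : Lattice T N) (s : V) : M.M s →ₗ[k] M.El :=
  LinearMap.single k (fun s => M.M s) s

theorem Lattice.inj_same (M : Lattice T N) (s : V) (n : M.M s) : M.inj s n s = n :=
  Pi.single_eq_same (M := fun s => M.M s) s n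

theorem Lattice.inj_ne (M : Lattice T N) {s t : V} (h : t ≠ s) (n : M.M s) : M.inj s n t = 0 :=
  Pi.single_eq_of_ne (M := fun s => M.M s) h n

theorem Lattice.single_smul (M : Lattice T N) {s t : V} {x : D} (hx : x ∈ T.L s t) (n : M.El) :
    T.single s t x hx • n = M.inj s ⟨x • (n t).1, M.smul_mem hx (n t).2⟩ := by
  ext u
  rw [Lattice.smul_apply]
  by_cases h : u = s
  · subst h
    rw [Lattice.inj_same, Finset.sum_eq_single t]
    · simp [Tiling.single_val]
    · intro v _ hv
      simp [Tiling.single_val, hv.symm]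
    · simp
  · rw [Lattice.inj_ne _ h, Finset.sum_eq_zero]
    · rfl
    · intro v _
      have : ¬ (s = u ∧ t = v) := fun h' => h h'.1.symm
      simp [Tiling.single_val, this]

theorem Lattice.e_smul (M : Lattice T N) (s : V) (n : M.El) : T.e s • n = M.inj s (n s) := by
  unfold Tiling.e
  rw [Lattice.single_smul]
  congr 1
  exact Subtype.ext (one_smul D (n s).1)

theorem Lattice.single_smul_inj (M : Lattice T N) {s t : V} {x : D} (hx : x ∈ T.L s t)
    (n : M.M t) : T.single s t x hx • M.inj t n = M.inj s ⟨x • n.1, M.smul_mem hx n.2⟩ := by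
  rw [Lattice.single_smul]
  congr 1
  exact Subtype.ext (by rw [Lattice.inj_same])

theorem Lattice.sum_inj (M : Lattice T N) (n : M.El) : ∑ s, M.inj s (n s) = n := by
  conv_rhs => rw [← T.sum_e_smul n]
  exact Finset.sum_congr rfl fun s _ => (Lattice.e_smul M s n).symm

theorem Lattice.e_smul_eq_iff (M : Lattice T N) (s : V) (n : M.El) :
    T.e s • n = n ↔ n = M.inj s (n s) := by
  rw [Lattice.e_smul]
  exact eq_comm

/-- A family of maps between the components of two lattices which is compatible with the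
operators. -/
structure Lattice.Fam (M : Lattice T N) (M' : Lattice T N') where
  /-- the maps -/
  f : ∀ s, M.M s →ₗ[k] M'.M s
  smul' : ∀ {s t : V} {x : D} (hx : x ∈ T.L s t) (n : M.M t),
    (f s ⟨x • n.1, M.smul_mem hx n.2⟩).1 = x • (f t n).1

namespace Lattice.Fam

variable {M : Lattice T N} {M' : Lattice T N'} {M'' : Lattice T N''}

@[ext] theorem ext {g h : M.Fam M'} (e : ∀ s n, (g.f s n).1 = (h.f s n).1) : g = h := by
  have : g.f = h.f := by
    funext s
    exact LinearMap.ext fun n => Subtype.ext (e s n)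
  cases g
  cases h
  subst this
  rfl

/-- the linear map of a family -/
def lin (g : M.Fam M') : M.El →ₗ[T.Alg] M'.El where
  toFun x s := g.f s (x s)
  map_add' x y := funext fun s => (g.f s).map_add _ _
  map_smul' A x := by
    ext s
    change (g.f s ⟨∑ t, A.1 s t • (x t).1, _⟩).1 = ∑ t, A.1 s t • (g.f t (x t)).1
    have h : (⟨∑ t, A.1 s t • (x t).1, Submodule.sum_mem _ fun t _ =>
        M.smul_mem (A.2 s t) (x t).2⟩ : M.M s) =
        ∑ t, ⟨A.1 s t • (x t).1, M.smul_mem (A.2 s t) (x t).2⟩ := by
      apply Subtype.ext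
      rw [AddSubmonoidClass.coe_finsetSum]
    rw [h, map_sum, AddSubmonoidClass.coe_finsetSum]
    exact Finset.sum_congr rfl fun t _ => g.smul' (A.2 s t) (x t)

@[simp] theorem lin_apply (g : M.Fam M') (x : M.El) (s : V) : g.lin x s = g.f s (x s) := rfl

theorem lin_inj (g : M.Fam M') (s : V) (n : M.M s) : g.lin (M.inj s n) = M'.inj s (g.f s n) := by
  ext t
  rw [lin_apply]
  by_cases h : t = s
  · subst h
    rw [Lattice.inj_same, Lattice.inj_same]
  · rw [Lattice.inj_ne _ h, Lattice.inj_ne _ h, map_zero]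

/-- the family of a linear map -/
def ofLin (f : M.El →ₗ[T.Alg] M'.El) : M.Fam M' where
  f s := (LinearMap.proj s ∘ₗ (f.restrictScalars k : M.El →ₗ[k] M'.El)) ∘ₗ M.inj s
  smul' {s t x} hx n := by
    change (f (M.inj s ⟨x • n.1, _⟩) s).1 = x • (f (M.inj t n) t).1
    rw [← M.single_smul_inj hx n, f.map_smul, Lattice.single_smul, Lattice.inj_same]

theorem ofLin_f (f : M.El →ₗ[T.Alg] M'.El) (s : V) (n : M.M s) :
    (ofLin f).f s n = f (M.inj s n) s := rfl

theorem map_inj (f : M.El →ₗ[T.Alg] M'.El) (s : V) (n : M.M s) :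
    f (M.inj s n) = M'.inj s ((ofLin f).f s n) := by
  have h : T.e s • M.inj s n = M.inj s n := by rw [Lattice.e_smul, Lattice.inj_same]
  rw [← h, f.map_smul, Lattice.e_smul]
  rfl

/-- The linear maps between two lattices are the families. -/
def equiv : (M.Fam M') ≃ (M.El →ₗ[T.Alg] M'.El) where
  toFun := lin
  invFun := ofLin
  left_inv g := by
    ext s n
    rw [ofLin_f, lin_inj, Lattice.inj_same]
  right_inv f := by
    refine LinearMap.ext fun x => ?_
    conv_rhs => rw [← M.sum_inj x, map_sum]
    conv_lhs => rw [← M.sum_inj x, map_sum]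
    refine Finset.sum_congr rfl fun s _ => ?_
    rw [lin_inj, map_inj]

end Lattice.Fam

/-- The map of lattices of a `D`-linear map. -/
def Lattice.mapD (M : Lattice T N) (M' : Lattice T N') (f : N →ₗ[D] N')
    (h : ∀ s n, n ∈ M.M s → f n ∈ M'.M s) : M.Fam M' where
  f s := (((f.restrictScalars k).comp (M.M s).subtype).codRestrict (M'.M s) fun n => h s _ n.2)
  smul' {_ _ x} _ n := f.map_smul x n.1

@[simp] theorem Lattice.mapD_f {M : Lattice T N} {M' : Lattice T N'} {f : N →ₗ[D] N'}
    {h : ∀ s n, n ∈ M.M s → f n ∈ M'.M s} (s : V) (n : M.M s) :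
    ((M.mapD M' f h).f s n).1 = f n.1 := rfl

/-- The morphism of a family. -/
def Lattice.Fam.hom {M : Lattice T N} {M' : Lattice T N'} (g : M.Fam M') : M.mod ⟶ M'.mod :=
  ModuleCat.ofHom g.lin

theorem Lattice.Fam.hom_injective {M : Lattice T N} {M' : Lattice T N'} {g h : M.Fam M'}
    (e : g.hom = h.hom) : g = h :=
  Lattice.Fam.equiv.injective (congrArg ModuleCat.Hom.hom e)

theorem Lattice.Fam.hom_surjective {M : Lattice T N} {M' : Lattice T N'} (f : M.mod ⟶ M'.mod) :
    ∃ g : M.Fam M', g.hom = f :=
  ⟨Lattice.Fam.equiv.symm f.hom, by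
    apply ModuleCat.hom_ext
    exact Lattice.Fam.equiv.right_inv f.hom⟩

namespace Lattice.Fam

variable {M : Lattice T N} {M' : Lattice T N'} {M'' : Lattice T N''}

/-- the identity -/
def id (M : Lattice T N) : M.Fam M where
  f _ := LinearMap.id
  smul' _ _ := rfl

@[simp] theorem id_f (s : V) (n : M.M s) : ((Lattice.Fam.id M).f s n) = n := rfl

/-- the composition (first `g`, then `h`) -/
def comp (g : M.Fam M') (h : M'.Fam M'') : M.Fam M'' where
  f s := (h.f s).comp (g.f s)
  smul' {s t x} hx n := by
    change (h.f s (g.f s _)).1 = x • (h.f t (g.f t n)).1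
    rw [← h.smul' hx (g.f t n)]
    congr 2
    exact Subtype.ext (g.smul' hx n)

@[simp] theorem comp_f (g : M.Fam M') (h : M'.Fam M'') (s : V) (n : M.M s) :
    (g.comp h).f s n = h.f s (g.f s n) := rfl

theorem hom_id : (Lattice.Fam.id M).hom = 𝟙 M.mod := rfl

theorem hom_comp (g : M.Fam M') (h : M'.Fam M'') : (g.comp h).hom = g.hom ≫ h.hom := rfl

instance : Zero (M.Fam M') := ⟨⟨fun _ => 0, fun _ _ => by simp⟩⟩

instance : Add (M.Fam M') := ⟨fun g h => ⟨fun s => g.f s + h.f s, fun hx n => by
  simp [g.smul' hx, h.smul' hx]⟩⟩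

instance : Neg (M.Fam M') := ⟨fun g => ⟨fun s => - g.f s, fun hx n => by
  simp [g.smul' hx]⟩⟩

@[simp] theorem zero_f (s : V) : (0 : M.Fam M').f s = 0 := rfl

@[simp] theorem add_f (g h : M.Fam M') (s : V) : (g + h).f s = g.f s + h.f s := rfl

@[simp] theorem neg_f (g : M.Fam M') (s : V) : (-g).f s = - g.f s := rfl

theorem hom_zero : (0 : M.Fam M').hom = 0 := rfl

theorem hom_add (g h : M.Fam M') : (g + h).hom = g.hom + h.hom := rfl

theorem hom_neg (g : M.Fam M') : (-g).hom = -g.hom := rfl

/-- Injectivity, vertex by vertex. -/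
theorem lin_injective_iff (g : M.Fam M') :
    Function.Injective g.lin ↔ ∀ s, Function.Injective (g.f s) := by
  constructor
  · intro h s n m hnm
    have h1 : g.lin (M.inj s n) = g.lin (M.inj s m) := by rw [lin_inj, lin_inj, hnm]
    have h2 := congrFun (h h1) s
    rwa [Lattice.inj_same, Lattice.inj_same] at h2
  · intro h x y hxy
    exact funext fun s => h s (congrFun hxy s)

/-- Surjectivity, vertex by vertex. -/
theorem lin_surjective_iff (g : M.Fam M') :
    Function.Surjective g.lin ↔ ∀ s, Function.Surjective (g.f s) := by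
  constructor
  · intro h s n
    obtain ⟨x, hx⟩ := h (M'.inj s n)
    refine ⟨x s, ?_⟩
    have h2 := congrFun hx s
    rwa [Lattice.inj_same, lin_apply] at h2
  · intro h x
    choose y hy using fun s => h s (x s)
    exact ⟨y, funext hy⟩

/-- Exactness, vertex by vertex. -/
theorem lin_exact_iff (g : M.Fam M') (h : M'.Fam M'') :
    Function.Exact g.lin h.lin ↔ ∀ s, Function.Exact (g.f s) (h.f s) := by
  constructor
  · intro e s n
    constructor
    · intro hn
      have h1 : h.lin (M'.inj s n) = 0 := by rw [lin_inj, hn, map_zero]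
      obtain ⟨x, hx⟩ := (e _).1 h1
      refine ⟨x s, ?_⟩
      have h2 := congrFun hx s
      rwa [Lattice.inj_same, lin_apply] at h2
    · rintro ⟨m, rfl⟩
      have h1 := e.apply_apply_eq_zero (M.inj s m)
      rw [lin_inj, lin_inj] at h1
      have h2 := congrFun h1 s
      rwa [Lattice.inj_same] at h2
  · intro e x
    constructor
    · intro hx
      have h1 : ∀ s, ∃ m, g.f s m = x s := fun s => (e s _).1 (congrFun hx s)
      choose y hy using h1
      exact ⟨y, funext hy⟩
    · rintro ⟨y, rfl⟩
      exact funext fun s => (e s).apply_apply_eq_zero (y s)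

end Lattice.Fam

/-! ### The column modules -/

variable (T) in
/-- the column module of the vertex `s`: the projective module `T e_s` -/
def Tiling.col (s : V) : Lattice T D where
  M t := T.L t s
  smul_mem hx hn := T.mul_mem hx hn

theorem Tiling.mem_col {s t : V} {x : D} : x ∈ (T.col s).M t ↔ x ∈ T.L t s := Iff.rfl

/-- the generator of a column module -/
def Tiling.colOne (T : Tiling k D V) (s : V) : (T.col s).El :=
  (T.col s).inj s ⟨1, T.one_mem s⟩

theorem Tiling.e_smul_colOne (s : V) : T.e s • T.colOne s = T.colOne s := by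
  unfold Tiling.colOne
  rw [Lattice.e_smul, Lattice.inj_same]

theorem Tiling.smul_colOne {s t : V} {x : D} (hx : x ∈ T.L t s) :
    T.single t s x hx • T.colOne s = (T.col s).inj t ⟨x, hx⟩ := by
  unfold Tiling.colOne
  rw [Lattice.single_smul_inj]
  congr 1
  exact Subtype.ext (mul_one x)

section

variable {P : Type} [AddCommGroup P] [Module T.Alg P]

theorem Tiling.col_hom_ext {s : V} {f g : (T.col s).El →ₗ[T.Alg] P}
    (h : f (T.colOne s) = g (T.colOne s)) : f = g := by
  refine LinearMap.ext fun x => ?_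
  rw [← (T.col s).sum_inj x, map_sum, map_sum]
  refine Finset.sum_congr rfl fun t _ => ?_
  have h1 : (T.col s).inj t (x t) = T.single t s (x t).1 (x t).2 • T.colOne s :=
    (T.smul_colOne _).symm
  rw [h1, f.map_smul, g.map_smul, h]

/-- the embedding of the column in the algebra -/
def Tiling.colEmb (T : Tiling k D V) (s : V) : (T.col s).El →ₗ[T.Alg] T.Alg where
  toFun x := ∑ t, T.single t s (x t).1 (x t).2
  map_add' x y := by
    rw [← Finset.sum_add_distrib]
    exact Finset.sum_congr rfl fun t _ => T.single_add _ _ _ _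
  map_smul' A x := by
    apply Subtype.ext
    have h1 : ∀ y : (T.col s).El, ((∑ t, T.single t s (y t).1 (y t).2 : T.Alg) : Matrix V V D) =
        ∑ t, Matrix.single t s (y t).1 := by
      intro y
      rw [AddSubmonoidClass.coe_finsetSum]
      rfl
    change ((∑ t, T.single t s ((A • x) t).1 ((A • x) t).2 : T.Alg) : Matrix V V D) =
      A.1 * ((∑ t, T.single t s (x t).1 (x t).2 : T.Alg) : Matrix V V D)
    rw [h1, h1]
    ext i j
    rw [Matrix.mul_apply]
    simp only [Matrix.sum_apply, Matrix.single_apply]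
    by_cases hj : s = j
    · subst hj
      simp [Lattice.smul_apply]
    · simp [hj]

theorem Tiling.colEmb_colOne (s : V) : T.colEmb s (T.colOne s) = T.e s := by
  change ∑ t, T.single t s (T.colOne s t).1 (T.colOne s t).2 = T.e s
  rw [Finset.sum_eq_single s]
  · unfold Tiling.e
    congr 1
    unfold Tiling.colOne
    rw [Lattice.inj_same]
  · intro t _ ht
    have h0 : ∀ z : (T.col s).M t, z = 0 → T.single t s z.1 z.2 = 0 := by
      rintro z rfl
      apply Subtype.ext
      change Matrix.single t s (0 : D) = 0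
      simp
    exact h0 _ (Lattice.inj_ne _ ht _)
  · simp

variable (T) in
/-- the map out of a column module given by an element of the component at `s` -/
def Tiling.colLift (s : V) (n : P) : (T.col s).El →ₗ[T.Alg] P :=
  (LinearMap.toSpanSingleton T.Alg P n).comp (T.colEmb s)

theorem Tiling.colLift_colOne {s : V} {n : P} (hn : T.e s • n = n) :
    T.colLift s n (T.colOne s) = n := by
  change T.colEmb s (T.colOne s) • n = n
  rw [Tiling.colEmb_colOne, hn]

theorem Tiling.e_smul_map_colOne {s : V} (f : (T.col s).El →ₗ[T.Alg] P) :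
    T.e s • f (T.colOne s) = f (T.colOne s) := by
  rw [← f.map_smul, Tiling.e_smul_colOne]

variable (T P) in
/-- The maps out of a column module are the elements of the component. -/
def Tiling.colEquiv (s : V) : ((T.col s).El →ₗ[T.Alg] P) ≃ {n : P // T.e s • n = n} where
  toFun f := ⟨f (T.colOne s), Tiling.e_smul_map_colOne f⟩
  invFun n := T.colLift s n.1
  left_inv f := Tiling.col_hom_ext (Tiling.colLift_colOne (Tiling.e_smul_map_colOne f))
  right_inv n := Subtype.ext (Tiling.colLift_colOne n.2)

end

instance Tiling.col_projective (s : V) : Module.Projective T.Alg (T.col s).El := by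
  refine Module.Projective.of_split (T.colEmb s)
    (LinearMap.toSpanSingleton T.Alg (T.col s).El (T.colOne s)) ?_
  apply Tiling.col_hom_ext
  change T.colEmb s (T.colOne s) • T.colOne s = T.colOne s
  rw [Tiling.colEmb_colOne, Tiling.e_smul_colOne]

instance (s : V) : Projective (T.col s).mod :=
  (IsProjective.iff_projective (R := T.Alg) (T.col s).El).1 inferInstance

end lattice

end Orl.Q
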