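import Pool.Agent.Work.MP_a6e60d_ag.Q.Spl
import Pool.Agent.Work.MP_a6e60d_ag.Q.TiledApi
import Pool.Agent.Work.MP_a6e60d_ag.Gal.Dec

/-!
# Conjugates of the objects `M_I(n)`

An automorphism `g` of `K` over `k` permutes the roots of the form `q` and sends the square root
`s` of `a` to `s` or to `-s`.  The conjugate of `M_I(n)` is `M_J(n)`, `J` the image of `I` under
the inverse of `g`, in the first case, and `M_J(n + |I| - 2)`, `J` the complement of that image,
in the second case.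
-/

open CategoryTheory LaurentPolynomial Quaternion Orl.LF Orl.Gal

set_option linter.unusedSectionVars false

attribute [-instance] CategoryTheory.catToReflQuiver

namespace Orl.Q

/-! ### Semilinear maps of tiled modules -/

section semi

variable {k D V : Type} [Field k] [Ring D] [Algebra k D] [Fintype V] [DecidableEq V]
  {T : Tiling k D V} {N N' : Type} [AddCommGroup N] [Module k N] [Module D N]
  [IsScalarTower k D N] [AddCommGroup N'] [Module k N'] [Module D N'] [IsScalarTower k D N']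
  {κ κ' : Type} [Field κ] [Algebra k κ] [Module κ N] [IsScalarTower k κ N] [SMulCommClass κ D N]
  [Field κ'] [Algebra k κ'] [Module κ' N'] [IsScalarTower k κ' N'] [SMulCommClass κ' D N']
  {M : Lattice T N} (hM : M.Stable κ) {M' : Lattice T N'} (hM' : M'.Stable κ')

/-- the morphism to the restriction of scalars given by a semilinear map of the lattices -/
noncomputable def Lattice.toRes (γ : κ →ₐ[k] κ') (f : N →ₗ[D] N')
    (hf : ∀ s x, x ∈ M.M s → f x ∈ M'.M s) (hc : ∀ (c : κ) (x : N), f (c • x) = γ c • f x) :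
    Lattice.kmod hM ⟶ (resF (ModuleCat.{0} T.Alg) γ).obj (Lattice.kmod hM') :=
  ModObj.homMk (M := Lattice.kmod hM) (N := resObj γ (Lattice.kmod hM')) (M.mapD M' f hf).hom
    (fun c => by
      apply ModuleCat.hom_ext
      refine LinearMap.ext fun x => Lattice.El.ext' fun s => ?_
      exact hc c (x s).1)

theorem Lattice.homPt_toRes (γ : κ →ₐ[k] κ') (f : N →ₗ[D] N')
    (hf : ∀ s x, x ∈ M.M s → f x ∈ M'.M s) (hc : ∀ (c : κ) (x : N), f (c • x) = γ c • f x) :
    ModObj.homPt (Lattice.toRes hM hM' γ f hf hc) = (M.mapD M' f hf).hom := rfl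

/-- an isomorphism with the restriction of scalars -/
noncomputable def Lattice.isoRes (γ : κ →ₐ[k] κ') (f : N ≃ₗ[D] N')
    (hf : ∀ s x, f x ∈ M'.M s ↔ x ∈ M.M s) (hc : ∀ (c : κ) (x : N), f (c • x) = γ c • f x) :
    Lattice.kmod hM ≅ (resF (ModuleCat.{0} T.Alg) γ).obj (Lattice.kmod hM') where
  hom := Lattice.toRes hM hM' γ f.toLinearMap (fun s x hx => (hf s x).2 hx) hc
  inv := ModObj.homMk (M := resObj γ (Lattice.kmod hM')) (N := Lattice.kmod hM)
    (M'.mapD M f.symm.toLinearMap (fun s x hx => (hf s _).1 (by simpa using hx))).hom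
    (fun c => by
      apply ModuleCat.hom_ext
      refine LinearMap.ext fun x => Lattice.El.ext' fun s => ?_
      change f.symm (γ c • (x s).1) = c • f.symm (x s).1
      apply f.injective
      rw [hc, LinearEquiv.apply_symm_apply, LinearEquiv.apply_symm_apply])
  hom_inv_id := ModObj.hom_ext (by
    apply ModuleCat.hom_ext
    refine LinearMap.ext fun x => Lattice.El.ext' fun s => ?_
    exact f.symm_apply_apply (x s).1)
  inv_hom_id := ModObj.hom_ext (by
    apply ModuleCat.hom_ext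
    refine LinearMap.ext fun x => Lattice.El.ext' fun s => ?_
    exact f.apply_symm_apply (x s).1)

end semi

section semi'

variable {k D V : Type} [Field k] [Ring D] [Algebra k D] [Fintype V] [DecidableEq V]
  {T : Tiling k D V} {N N' : Type} [AddCommGroup N] [Module k N] [Module D N]
  [IsScalarTower k D N] [AddCommGroup N'] [Module k N'] [Module D N'] [IsScalarTower k D N']
  {κ : Type} [Field κ] [Algebra k κ] [Module κ N] [IsScalarTower k κ N] [SMulCommClass κ D N]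
  [Module κ N'] [IsScalarTower k κ N'] [SMulCommClass κ D N']
  {M : Lattice T N} (hM : M.Stable κ) {M' : Lattice T N'} (hM' : M'.Stable κ)

/-- an isomorphism of tiled modules with an action of `κ` -/
noncomputable def Lattice.kiso (f : N ≃ₗ[D] N') (hf : ∀ s x, f x ∈ M'.M s ↔ x ∈ M.M s)
    (hc : ∀ (c : κ) (x : N), f (c • x) = c • f x) : Lattice.kmod hM ≅ Lattice.kmod hM' where
  hom := ModObj.homMk (M := Lattice.kmod hM) (N := Lattice.kmod hM')
    (M.mapD M' f.toLinearMap (fun s x hx => (hf s x).2 hx)).hom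
    (fun c => by
      apply ModuleCat.hom_ext
      refine LinearMap.ext fun x => Lattice.El.ext' fun s => ?_
      exact hc c (x s).1)
  inv := ModObj.homMk (M := Lattice.kmod hM') (N := Lattice.kmod hM)
    (M'.mapD M f.symm.toLinearMap (fun s x hx => (hf s _).1 (by simpa using hx))).hom
    (fun c => by
      apply ModuleCat.hom_ext
      refine LinearMap.ext fun x => Lattice.El.ext' fun s => ?_
      change f.symm (c • (x s).1) = c • f.symm (x s).1
      apply f.injective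
      rw [hc, LinearEquiv.apply_symm_apply, LinearEquiv.apply_symm_apply])
  hom_inv_id := ModObj.hom_ext (by
    apply ModuleCat.hom_ext
    refine LinearMap.ext fun x => Lattice.El.ext' fun s => ?_
    exact f.symm_apply_apply (x s).1)
  inv_hom_id := ModObj.hom_ext (by
    apply ModuleCat.hom_ext
    refine LinearMap.ext fun x => Lattice.El.ext' fun s => ?_
    exact f.apply_symm_apply (x s).1)

end semi'

/-! ### The conjugate of the object of a factorisation -/

variable {k : Type} [Field k] {δ : Dat k}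

section fac

variable {κ κ' : Type} [Field κ] [Algebra k κ] [Field κ'] [Algebra k κ']

/-- the element of the generic fibre with two given coordinates -/
def Fac.mkN (φ : Fac δ κ) (a b : κ[T;T⁻¹]) : φ.N := ((a, b) : κ[T;T⁻¹] × κ[T;T⁻¹])

@[simp] theorem Fac.mkN_fst (φ : Fac δ κ) (a b : κ[T;T⁻¹]) : (φ.mkN a b).1 = a := rfl

@[simp] theorem Fac.mkN_snd (φ : Fac δ κ) (a b : κ[T;T⁻¹]) : (φ.mkN a b).2 = b := rfl

/-- the semilinear map between the generic fibres -/
noncomputable def Fac.mapN (φ : Fac δ κ) (ψ : Fac δ κ') (γ : κ →ₐ[k] κ') (hs : ψ.s = γ φ.s)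
    (hg : ψ.g = mapL γ φ.g) (hh : ψ.h = mapL γ φ.h) : φ.N →ₗ[δ.D] ψ.N where
  toFun x := ψ.mkN (mapL γ x.1) (mapL γ x.2)
  map_add' x y := by
    refine Fac.N_ext ψ ?_ ?_
    · exact map_add (mapL γ) x.1 y.1
    · exact map_add (mapL γ) x.2 y.2
  map_smul' d x := by
    refine Fac.N_ext ψ ?_ ?_
    · rw [Fac.mkN_fst, RingHom.id_apply, Fac.smul_fst, Fac.smul_fst, Fac.mkN_fst, Fac.mkN_snd, hs,
        hh]
      simp only [map_add, map_mul, mapL_C, mapL_bc]
    · rw [Fac.mkN_snd, RingHom.id_apply, Fac.smul_snd, Fac.smul_snd, Fac.mkN_fst, Fac.mkN_snd, hs,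
        hg]
      simp only [map_add, map_sub, map_mul, mapL_C, mapL_bc]

theorem Fac.mapN_fst (φ : Fac δ κ) (ψ : Fac δ κ') (γ : κ →ₐ[k] κ') (hs : ψ.s = γ φ.s)
    (hg : ψ.g = mapL γ φ.g) (hh : ψ.h = mapL γ φ.h) (x : φ.N) :
    (φ.mapN ψ γ hs hg hh x).1 = mapL γ x.1 := rfl

theorem Fac.mapN_snd (φ : Fac δ κ) (ψ : Fac δ κ') (γ : κ →ₐ[k] κ') (hs : ψ.s = γ φ.s)
    (hg : ψ.g = mapL γ φ.g) (hh : ψ.h = mapL γ φ.h) (x : φ.N) :
    (φ.mapN ψ γ hs hg hh x).2 = mapL γ x.2 := rfl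

theorem Fac.mapN_smul (φ : Fac δ κ) (ψ : Fac δ κ') (γ : κ →ₐ[k] κ') (hs : ψ.s = γ φ.s)
    (hg : ψ.g = mapL γ φ.g) (hh : ψ.h = mapL γ φ.h) (c : κ) (x : φ.N) :
    φ.mapN ψ γ hs hg hh (c • x) = γ c • φ.mapN ψ γ hs hg hh x :=
  Fac.N_ext ψ (mapL_smul γ c x.1) (mapL_smul γ c x.2)

theorem mapL_symm_apply (γ : κ ≃ₐ[k] κ') (f : κ'[T;T⁻¹]) :
    mapL γ.toAlgHom (mapL γ.symm.toAlgHom f) = f := by
  ext j
  rw [mapL_coeff, mapL_coeff]
  exact γ.apply_symm_apply _

theorem mapL_apply_symm (γ : κ ≃ₐ[k] κ') (f : κ[T;T⁻¹]) :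
    mapL γ.symm.toAlgHom (mapL γ.toAlgHom f) = f := by
  ext j
  rw [mapL_coeff, mapL_coeff]
  exact γ.symm_apply_apply _

/-- the semilinear isomorphism between the generic fibres -/
noncomputable def Fac.mapNE (φ : Fac δ κ) (ψ : Fac δ κ') (γ : κ ≃ₐ[k] κ') (hs : ψ.s = γ φ.s)
    (hg : ψ.g = mapL γ.toAlgHom φ.g) (hh : ψ.h = mapL γ.toAlgHom φ.h) : φ.N ≃ₗ[δ.D] ψ.N where
  toLinearMap := φ.mapN ψ γ.toAlgHom hs hg hh
  invFun x := φ.mkN (mapL γ.symm.toAlgHom x.1) (mapL γ.symm.toAlgHom x.2)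
  left_inv x := Fac.N_ext φ (mapL_apply_symm γ x.1) (mapL_apply_symm γ x.2)
  right_inv x := Fac.N_ext ψ (mapL_symm_apply γ x.1) (mapL_symm_apply γ x.2)

theorem Fac.mapNE_mem (φ : Fac δ κ) (ψ : Fac δ κ') (γ : κ ≃ₐ[k] κ') (hs : ψ.s = γ φ.s)
    (he : ψ.e = φ.e) (hg : ψ.g = mapL γ.toAlgHom φ.g) (hh : ψ.h = mapL γ.toAlgHom φ.h) (n : ℤ)
    (s : Vx) (x : φ.N) : φ.mapNE ψ γ hs hg hh x ∈ (ψ.lat n).M s ↔ x ∈ (φ.lat n).M s := by
  have h1 : φ.mapNE ψ γ hs hg hh x ∈ ψ.pair s.1 n (n + ψ.e - 2) ↔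
      x ∈ φ.pair s.1 n (n + φ.e - 2) := by
    rw [Fac.mem_pair, Fac.mem_pair, he]
    exact and_congr (mapL_mem_lat γ.toAlgHom) (mapL_mem_lat γ.toAlgHom)
  exact h1

theorem Fac.mapNE_smul (φ : Fac δ κ) (ψ : Fac δ κ') (γ : κ ≃ₐ[k] κ') (hs : ψ.s = γ φ.s)
    (hg : ψ.g = mapL γ.toAlgHom φ.g) (hh : ψ.h = mapL γ.toAlgHom φ.h) (c : κ) (x : φ.N) :
    φ.mapNE ψ γ hs hg hh (c • x) = γ.toAlgHom c • φ.mapNE ψ γ hs hg hh x :=
  φ.mapN_smul ψ γ.toAlgHom hs hg hh c x

/-- the object of a factorisation over `κ` is the restriction of the object of its image -/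
noncomputable def Fac.isoResM (φ : Fac δ κ) (ψ : Fac δ κ') (γ : κ ≃ₐ[k] κ') (hs : ψ.s = γ φ.s)
    (he : ψ.e = φ.e) (hg : ψ.g = mapL γ.toAlgHom φ.g) (hh : ψ.h = mapL γ.toAlgHom φ.h) (n : ℤ) :
    φ.M n ≅ (resF δ.Cat γ.toAlgHom).obj (ψ.M n) :=
  Lattice.isoRes (φ.lat_stable n) (ψ.lat_stable n) γ.toAlgHom (φ.mapNE ψ γ hs hg hh)
    (φ.mapNE_mem ψ γ hs he hg hh n) (φ.mapNE_smul ψ γ hs hg hh)

/-! ### The object `O(n)` -/

theorem Fac.mem_latO {φ : Fac δ κ} {n : ℤ} {s : Vx} {x : φ.N} :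
    x ∈ (φ.latO n).M s ↔ (if s.2 then x.1 = 0 else x.1 ∈ Orl.Q.lat κ s.1 n) ∧ x.2 = 0 := by
  obtain ⟨v, b⟩ := s
  cases b
  · simp only [Fac.latO, Bool.false_eq_true, if_false]
    exact Iff.rfl
  · simp only [Fac.latO, if_true, Submodule.mem_bot]
    exact ⟨fun h => by rw [h]; exact ⟨rfl, rfl⟩, fun h => Fac.N_ext φ h.1 h.2⟩

theorem Fac.lsmul_fst (φ : Fac δ κ) (c : k) (x : φ.N) : (c • x).1 = algebraMap k κ c • x.1 := rfl

theorem Fac.lsmul_snd (φ : Fac δ κ) (c : k) (x : φ.N) : (c • x).2 = algebraMap k κ c • x.2 := rfl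

/-- the map between the objects `O(n)` over `κ` and over `κ'` -/
noncomputable def Fac.semO (φ : Fac δ κ) (ψ : Fac δ κ') (γ : κ →ₐ[k] κ') (n : ℤ) :
    (φ.latO n).Fam (ψ.latO n) where
  f s :=
    { toFun := fun x => ⟨ψ.mkN (mapL γ x.1.1) 0, by
        have hx := Fac.mem_latO.1 x.2
        rw [Fac.mem_latO]
        refine ⟨?_, rfl⟩
        obtain ⟨v, b⟩ := s
        cases b
        · exact (mapL_mem_lat γ).2 hx.1
        · have h0 : x.1.1 = 0 := hx.1
          change mapL γ x.1.1 = 0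
          rw [h0, map_zero]⟩
      map_add' := fun x y => Subtype.ext (Fac.N_ext ψ (map_add (mapL γ) x.1.1 y.1.1)
        (add_zero 0).symm)
      map_smul' := fun c x => Subtype.ext (Fac.N_ext ψ (by
        change mapL γ (algebraMap k κ c • x.1.1) = algebraMap k κ' c • mapL γ x.1.1
        rw [mapL_smul, γ.commutes]) (smul_zero _).symm) }
  smul' {s t x} hx y := by
    have hy := Fac.mem_latO.1 y.2
    obtain ⟨v, b⟩ := s
    obtain ⟨w, c⟩ := t
    by_cases h : w ≤ v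
    · cases c
      · cases b
        · have hx' : x ∈ δ.slat v 0 := by
            simpa only [Dat.tiling, Dat.tile, if_pos h] using hx
          obtain ⟨x0, x1, x2, x3⟩ := hx'
          refine Fac.N_ext ψ ?_ ?_
          · change mapL γ (x • y.1).1 = (x • ψ.mkN (mapL γ y.1.1) 0).1
            rw [Fac.smul_fst, Fac.smul_fst, x1, x2, x3, Fac.mkN_fst, Fac.mkN_snd, hy.2]
            simp only [map_zero, mul_zero, add_zero, map_mul, mapL_bc]
          · change (0 : κ'[T;T⁻¹]) = (x • ψ.mkN (mapL γ y.1.1) 0).2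
            rw [Fac.smul_snd, x1, x2, x3, Fac.mkN_snd]
            simp
        · have hx' : x = 0 := by
            simpa only [Dat.tiling, Dat.tile, if_pos h, Submodule.mem_bot] using hx
          subst hx'
          refine Fac.N_ext ψ ?_ ?_
          · change mapL γ ((0 : δ.D) • y.1).1 = ((0 : δ.D) • ψ.mkN (mapL γ y.1.1) 0).1
            rw [zero_smul, zero_smul]
            exact map_zero (mapL γ)
          · change (0 : κ'[T;T⁻¹]) = ((0 : δ.D) • ψ.mkN (mapL γ y.1.1) 0).2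
            rw [zero_smul]
            rfl
      · have h0 : y.1 = 0 := Fac.N_ext φ hy.1 hy.2
        refine Fac.N_ext ψ ?_ ?_
        · change mapL γ (x • y.1).1 = (x • ψ.mkN (mapL γ y.1.1) 0).1
          rw [h0, smul_zero]
          have h1 : ψ.mkN (mapL γ ((0 : φ.N) : φ.N).1) 0 = 0 := Fac.N_ext ψ (map_zero (mapL γ)) rfl
          rw [h1, smul_zero]
          exact map_zero (mapL γ)
        · change (0 : κ'[T;T⁻¹]) = (x • ψ.mkN (mapL γ y.1.1) 0).2
          rw [h0]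
          have h1 : ψ.mkN (mapL γ ((0 : φ.N) : φ.N).1) 0 = 0 := Fac.N_ext ψ (map_zero (mapL γ)) rfl
          rw [h1, smul_zero]
          rfl
    · have hx' : x = 0 := Dat.tile_eq_zero hx h
      subst hx'
      refine Fac.N_ext ψ ?_ ?_
      · change mapL γ ((0 : δ.D) • y.1).1 = ((0 : δ.D) • ψ.mkN (mapL γ y.1.1) 0).1
        rw [zero_smul, zero_smul]
        exact map_zero (mapL γ)
      · change (0 : κ'[T;T⁻¹]) = ((0 : δ.D) • ψ.mkN (mapL γ y.1.1) 0).2
        rw [zero_smul]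
        rfl

theorem Fac.semO_fst (φ : Fac δ κ) (ψ : Fac δ κ') (γ : κ →ₐ[k] κ') (n : ℤ) (s : Vx)
    (x : (φ.latO n).M s) : ((φ.semO ψ γ n).f s x).1.1 = mapL γ x.1.1 := rfl

theorem Fac.semO_snd (φ : Fac δ κ) (ψ : Fac δ κ') (γ : κ →ₐ[k] κ') (n : ℤ) (s : Vx)
    (x : (φ.latO n).M s) : ((φ.semO ψ γ n).f s x).1.2 = 0 := rfl

/-- the object `O(n)` over `κ` is the restriction of the object over `κ'` -/
noncomputable def Fac.isoResO (φ : Fac δ κ) (ψ : Fac δ κ') (γ : κ ≃ₐ[k] κ') (n : ℤ) :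
    φ.O n ≅ (resF δ.Cat γ.toAlgHom).obj (ψ.O n) where
  hom := ModObj.homMk (M := φ.O n) (N := resObj γ.toAlgHom (ψ.O n))
    (φ.semO ψ γ.toAlgHom n).hom (fun c => by
      apply ModuleCat.hom_ext
      refine LinearMap.ext fun x => Lattice.El.ext' fun s => ?_
      exact Fac.N_ext ψ (mapL_smul γ.toAlgHom c (x s).1.1) (smul_zero _).symm)
  inv := ModObj.homMk (M := resObj γ.toAlgHom (ψ.O n)) (N := φ.O n)
    (ψ.semO φ γ.symm.toAlgHom n).hom (fun c => by
      apply ModuleCat.hom_ext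
      refine LinearMap.ext fun x => Lattice.El.ext' fun s => ?_
      refine Fac.N_ext φ ?_ (smul_zero _).symm
      change mapL γ.symm.toAlgHom (γ c • (x s).1.1) = c • mapL γ.symm.toAlgHom (x s).1.1
      rw [mapL_smul]
      congr 1
      exact γ.symm_apply_apply c)
  hom_inv_id := ModObj.hom_ext (by
    apply ModuleCat.hom_ext
    refine LinearMap.ext fun x => Lattice.El.ext' fun s => ?_
    exact Fac.N_ext φ (mapL_apply_symm γ (x s).1.1) (Fac.mem_latO.1 (x s).2).2.symm)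
  inv_hom_id := ModObj.hom_ext (by
    apply ModuleCat.hom_ext
    refine LinearMap.ext fun x => Lattice.El.ext' fun s => ?_
    exact Fac.N_ext ψ (mapL_symm_apply γ (x s).1.1) (Fac.mem_latO.1 (x s).2).2.symm)

/-- the object `O(n)` does not depend on the factorisation -/
noncomputable def Fac.isoO (φ ψ : Fac δ κ) (n : ℤ) : φ.O n ≅ ψ.O n :=
  φ.isoResO ψ (AlgEquiv.refl) n

/-! ### The exchange of the two factors -/

/-- the exchange of the coordinates -/
noncomputable def Fac.swapN (φ ψ : Fac δ κ) (hs : ψ.s = -φ.s) (hg : ψ.g = φ.h)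
    (hh : ψ.h = φ.g) : φ.N ≃ₗ[δ.D] ψ.N where
  toFun x := ψ.mkN x.2 x.1
  map_add' x y := Fac.N_ext ψ rfl rfl
  map_smul' d x := by
    refine Fac.N_ext ψ ?_ ?_
    · rw [Fac.mkN_fst, RingHom.id_apply, Fac.smul_fst, Fac.smul_snd, Fac.mkN_fst, Fac.mkN_snd, hs,
        hh, map_neg]
      ring
    · rw [Fac.mkN_snd, RingHom.id_apply, Fac.smul_fst, Fac.smul_snd, Fac.mkN_fst, Fac.mkN_snd, hs,
        hg, map_neg]
      ring
  invFun x := φ.mkN x.2 x.1
  left_inv x := Fac.N_ext φ rfl rfl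
  right_inv x := Fac.N_ext ψ rfl rfl

theorem Fac.swapN_mem (φ ψ : Fac δ κ) (hs : ψ.s = -φ.s) (hg : ψ.g = φ.h) (hh : ψ.h = φ.g)
    (he : ψ.e = 4 - φ.e) {n m : ℤ} (hm : m = n + φ.e - 2) (s : Vx) (x : φ.N) :
    φ.swapN ψ hs hg hh x ∈ (ψ.lat m).M s ↔ x ∈ (φ.lat n).M s := by
  have h1 : φ.swapN ψ hs hg hh x ∈ ψ.pair s.1 m (m + ψ.e - 2) ↔
      x ∈ φ.pair s.1 n (n + φ.e - 2) := by
    rw [Fac.mem_pair, Fac.mem_pair, he, hm, and_comm]
    have h2 : n + φ.e - 2 + (4 - φ.e) - 2 = n := by ring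
    rw [h2]
    exact Iff.rfl
  exact h1

theorem Fac.swapN_smul (φ ψ : Fac δ κ) (hs : ψ.s = -φ.s) (hg : ψ.g = φ.h) (hh : ψ.h = φ.g)
    (c : κ) (x : φ.N) : φ.swapN ψ hs hg hh (c • x) = c • φ.swapN ψ hs hg hh x :=
  Fac.N_ext ψ rfl rfl

/-- `M_{g,h}(n) ≅ M_{h,g}(n + e - 2)` for the other square root of `a` -/
noncomputable def Fac.isoSwap (φ ψ : Fac δ κ) (hs : ψ.s = -φ.s) (hg : ψ.g = φ.h)
    (hh : ψ.h = φ.g) (he : ψ.e = 4 - φ.e) {n m : ℤ} (hm : m = n + φ.e - 2) : φ.M n ≅ ψ.M m :=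
  Lattice.kiso (φ.lat_stable n) (ψ.lat_stable m) (φ.swapN ψ hs hg hh)
    (φ.swapN_mem ψ hs hg hh he hm) (φ.swapN_smul ψ hs hg hh)

/-- the object of a factorisation over `κ` is the restriction of the object of its image under an
isomorphism which changes the sign of the square root -/
noncomputable def Fac.isoResSwap (φ : Fac δ κ) (ψ : Fac δ κ') (γ : κ ≃ₐ[k] κ')
    (hs : ψ.s = -γ φ.s) (he : ψ.e = 4 - φ.e) (hg : ψ.g = mapL γ.toAlgHom φ.h)
    (hh : ψ.h = mapL γ.toAlgHom φ.g) {n m : ℤ} (hm : m = n + φ.e - 2) :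
    φ.M n ≅ (resF δ.Cat γ.toAlgHom).obj (ψ.M m) :=
  φ.isoSwap φ.swap rfl rfl rfl rfl hm ≪≫
    φ.swap.isoResM ψ γ (by rw [hs, ← map_neg]; rfl) he hg hh m

end fac

/-! ### The objects `M_I(n)` -/

/-- the permutation of the four roots (the last one is at infinity) given by a permutation of the
finite roots -/
def up4 (π : Equiv.Perm (Fin 3)) : Equiv.Perm (Fin 4) where
  toFun i := if h : i.1 < 3 then (π ⟨i.1, h⟩).castSucc else 3
  invFun i := if h : i.1 < 3 then (π.symm ⟨i.1, h⟩).castSucc else 3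
  left_inv i := by
    by_cases h : i.1 < 3
    · simp only [dif_pos h, Fin.val_castSucc, (π ⟨i.1, h⟩).2, dif_pos, Fin.eta,
        Equiv.symm_apply_apply]
      rfl
    · have h3 : i = 3 := by
        apply Fin.ext
        have := i.2
        change i.1 = 3
        omega
      subst h3
      rfl
  right_inv i := by
    by_cases h : i.1 < 3
    · simp only [dif_pos h, Fin.val_castSucc, (π.symm ⟨i.1, h⟩).2, dif_pos, Fin.eta,
        Equiv.apply_symm_apply]
      rfl
    · have h3 : i = 3 := by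
        apply Fin.ext
        have := i.2
        change i.1 = 3
        omega
      subst h3
      rfl

theorem up4_castSucc (π : Equiv.Perm (Fin 3)) (i : Fin 3) :
    up4 π i.castSucc = (π i).castSucc := by
  have h : (i.castSucc : Fin 4).1 < 3 := i.2
  change (if h : (i.castSucc : Fin 4).1 < 3 then (π ⟨(i.castSucc : Fin 4).1, h⟩).castSucc else 3) = _
  rw [dif_pos h]
  rfl

theorem up4_three (π : Equiv.Perm (Fin 3)) : up4 π 3 = 3 := rfl

/-- the image of a set of roots under a permutation of the finite roots -/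
def mv (π : Equiv.Perm (Fin 3)) (I : Finset (Fin 4)) : Finset (Fin 4) :=
  I.map (up4 π).toEmbedding

theorem card_mv (π : Equiv.Perm (Fin 3)) (I : Finset (Fin 4)) : (mv π I).card = I.card :=
  Finset.card_map _

theorem mv_compl (π : Equiv.Perm (Fin 3)) (I : Finset (Fin 4)) : mv π Iᶜ = (mv π I)ᶜ := by
  ext i
  simp only [mv, Finset.mem_map_equiv, Finset.mem_compl]

namespace Spl

variable {K : Type} [Field K] [Algebra k K] (S : Spl δ K)

theorem mapL_l {g : K ≃ₐ[k] K} {π : Equiv.Perm (Fin 3)} (hr : ∀ i, g (S.r i) = S.r (π i))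
    (i : Fin 4) : mapL g.toAlgHom (S.l i) = S.l (up4 π i) := by
  refine Fin.lastCases ?_ (fun j => ?_) i
  · change mapL g.toAlgHom (S.l 3) = S.l (up4 π 3)
    rw [up4_three, l_three, map_one]
  · rw [up4_castSucc, l_cast, l_cast, map_sub, mapL_T, mapL_C, ← hr]
    rfl

theorem mapL_prod {g : K ≃ₐ[k] K} {π : Equiv.Perm (Fin 3)} (hr : ∀ i, g (S.r i) = S.r (π i))
    (I : Finset (Fin 4)) : mapL g.toAlgHom (∏ i ∈ I, S.l i) = ∏ i ∈ mv π I, S.l i := by
  rw [map_prod, mv, Finset.prod_map]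
  exact Finset.prod_congr rfl fun i _ => S.mapL_l hr i

/-- an automorphism which fixes the square root of `a` -/
noncomputable def resM_pos (g : K ≃ₐ[k] K) (π : Equiv.Perm (Fin 3))
    (hr : ∀ i, g (S.r i) = S.r (π i)) (hs : g S.s = S.s) (I : Finset (Fin 4)) (n : ℤ) :
    S.M I n ≅ (resF δ.Cat g.toAlgHom).obj (S.M (mv π I) n) :=
  (S.fac I).isoResM (S.fac (mv π I)) g hs.symm (by rw [fac_e, fac_e, card_mv])
    (S.mapL_prod hr I).symm (by rw [fac_h, fac_h, ← mv_compl]; exact (S.mapL_prod hr Iᶜ).symm) n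

/-- an automorphism which changes the sign of the square root of `a` -/
noncomputable def resM_neg (g : K ≃ₐ[k] K) (π : Equiv.Perm (Fin 3))
    (hr : ∀ i, g (S.r i) = S.r (π i)) (hs : g S.s = -S.s) (I : Finset (Fin 4)) {n m : ℤ}
    (hm : m = n + I.card - 2) :
    S.M I n ≅ (resF δ.Cat g.toAlgHom).obj (S.M (mv π I)ᶜ m) :=
  (S.fac I).isoResSwap (S.fac (mv π I)ᶜ) g (by rw [fac_s, fac_s, hs, neg_neg])
    (by rw [fac_e, fac_e, card_compl, card_mv])
    (by rw [fac_h, fac_g, ← mv_compl]; exact (S.mapL_prod hr Iᶜ).symm)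
    (by rw [fac_h, fac_g, compl_compl]; exact (S.mapL_prod hr I).symm) hm

/-- the object `O(n)` -/
noncomputable def resO (g : K ≃ₐ[k] K) (n : ℤ) :
    S.O n ≅ (resF δ.Cat g.toAlgHom).obj (S.O n) := (S.fac ∅).isoResO (S.fac ∅) g n

/-! ### The action on the roots -/

theorem map_s (g : K ≃ₐ[k] K) : g S.s = S.s ∨ g S.s = -S.s := by
  have h : g S.s * g S.s = S.s * S.s := by rw [← map_mul, S.hs, g.commutes]
  exact mul_self_eq_mul_self_iff.1 h

theorem exists_root (g : K ≃ₐ[k] K) (i : Fin 3) : ∃ j, g (S.r i) = S.r j := by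
  have h1 : ∀ x : Fin 3 → K, (T 1 - C (x 0)) * (T 1 - C (x 1)) * (T 1 - C (x 2)) =
      (Polynomial.toLaurent ((Polynomial.X - Polynomial.C (x 0)) *
        (Polynomial.X - Polynomial.C (x 1)) * (Polynomial.X - Polynomial.C (x 2))) :
          K[T;T⁻¹]) := by
    intro x
    simp only [map_mul, map_sub, Polynomial.toLaurent_X, Polynomial.toLaurent_C]
  have h2 : (T 1 - C (g (S.r 0))) * (T 1 - C (g (S.r 1))) * (T 1 - C (g (S.r 2))) =
      (T 1 - C (S.r 0)) * (T 1 - C (S.r 1)) * (T 1 - C (S.r 2)) := by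
    have h3 := congrArg (mapL g.toAlgHom) S.prod
    rw [mapL_bc, ← S.prod] at h3
    simp only [map_mul, map_sub, mapL_T, mapL_C] at h3
    exact h3
  rw [h1 fun i => g (S.r i), h1 S.r] at h2
  have h4 := Polynomial.toLaurent_injective h2
  have h5 := congrArg (Polynomial.eval (g (S.r i))) h4
  simp only [Polynomial.eval_mul, Polynomial.eval_sub, Polynomial.eval_X,
    Polynomial.eval_C] at h5
  have h6 : (g (S.r i) - g (S.r 0)) * (g (S.r i) - g (S.r 1)) * (g (S.r i) - g (S.r 2)) = 0 := by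
    fin_cases i <;> simp
  rw [h6] at h5
  rcases mul_eq_zero.1 h5.symm with h7 | h7
  · rcases mul_eq_zero.1 h7 with h8 | h8
    · exact ⟨0, sub_eq_zero.1 h8⟩
    · exact ⟨1, sub_eq_zero.1 h8⟩
  · exact ⟨2, sub_eq_zero.1 h7⟩

/-- every automorphism permutes the roots -/
theorem exists_perm (g : K ≃ₐ[k] K) : ∃ π : Equiv.Perm (Fin 3), ∀ i, g (S.r i) = S.r (π i) := by
  choose f hf using S.exists_root g
  have hi : Function.Injective f := by
    intro i j hij
    refine S.inj (g.injective ?_)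
    rw [hf, hf, hij]
  refine ⟨Equiv.ofBijective f ⟨hi, Finite.surjective_of_injective hi⟩, hf⟩

/-! ### The conjugates -/

section conj

variable {E : Type} [Field E] [Algebra k E] [Algebra E K] [IsScalarTower k E K]

/-- the conjugate of `M_I(n)`, `I` the image of `J`, if the square root of `a` is fixed -/
noncomputable def conjM_pos (g : K ≃ₐ[E] K) (π : Equiv.Perm (Fin 3))
    (hr : ∀ i, g (S.r i) = S.r (π i)) (hs : g S.s = S.s) {I J : Finset (Fin 4)}
    (hJ : mv π J = I) (n : ℤ) : (conj k δ.Cat g).obj (S.M I n) ≅ S.M J n :=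
  ((eqToIso (by rw [hJ] : S.M I n = S.M (mv π J) n) : _) |> (conj k δ.Cat g).mapIso) ≪≫
    (S.resM_pos (g.restrictScalars k) π hr hs J n).symm

/-- the conjugate of `M_I(m)`, `I` the complement of the image of `J`, if the sign of the square
root of `a` changes -/
noncomputable def conjM_neg (g : K ≃ₐ[E] K) (π : Equiv.Perm (Fin 3))
    (hr : ∀ i, g (S.r i) = S.r (π i)) (hs : g S.s = -S.s) {I J : Finset (Fin 4)}
    (hJ : (mv π J)ᶜ = I) {n m : ℤ} (hm : m = n + J.card - 2) :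
    (conj k δ.Cat g).obj (S.M I m) ≅ S.M J n :=
  ((eqToIso (by rw [hJ] : S.M I m = S.M (mv π J)ᶜ m) : _) |> (conj k δ.Cat g).mapIso) ≪≫
    (S.resM_neg (g.restrictScalars k) π hr hs J hm).symm

/-- the conjugate of `O(n)` -/
noncomputable def conjO (g : K ≃ₐ[E] K) (n : ℤ) : (conj k δ.Cat g).obj (S.O n) ≅ S.O n :=
  (S.resO (g.restrictScalars k) n).symm

/-- every conjugate of `M_I(n)` is an `M_J(m)` -/
theorem exists_conjM (g : K ≃ₐ[E] K) (I : Finset (Fin 4)) (n : ℤ) :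
    ∃ π : Equiv.Perm (Fin 3), (∀ i, g (S.r i) = S.r (π i)) ∧
      ((g S.s = S.s ∧ Nonempty ((conj k δ.Cat g).obj (S.M I n) ≅ S.M (mv π.symm I) n)) ∨
      (g S.s = -S.s ∧ Nonempty ((conj k δ.Cat g).obj (S.M I n) ≅
        S.M (mv π.symm I)ᶜ (n + I.card - 2)))) := by
  obtain ⟨π, hr⟩ := S.exists_perm (g.restrictScalars k)
  have h1 : mv π (mv π.symm I) = I := by
    ext i
    simp only [mv, Finset.mem_map_equiv]
    have : (up4 π.symm).symm ((up4 π).symm i) = i := by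
      change (up4 π) ((up4 π).symm i) = i
      exact Equiv.apply_symm_apply _ _
    rw [this]
  refine ⟨π, hr, ?_⟩
  rcases S.map_s (g.restrictScalars k) with hs | hs
  · exact Or.inl ⟨hs, ⟨S.conjM_pos g π hr hs h1 n⟩⟩
  · refine Or.inr ⟨hs, ⟨S.conjM_neg g π hr hs (J := (mv π.symm I)ᶜ) ?_ ?_⟩⟩
    · rw [mv_compl, h1, compl_compl]
    · rw [card_compl, card_mv]
      ring

end conj

end Spl

end Orl.Q
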