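import Pool.Agent.Work.MP_a6e60d_ag.Q.Cross
import Pool.Agent.Work.MP_a6e60d_ag.Q.Conj
import Pool.Agent.Work.MP_a6e60d_ag.Fld.Spl

/-!
MP_a6e60d_ag, Q6: the hypotheses on the conjugates for the concrete objects over the field data.
-/

open CategoryTheory CategoryTheory.Abelian CategoryTheory.Limits Module

set_option linter.unusedSectionVars false

attribute [-instance] CategoryTheory.catToReflQuiver

namespace Orl.Q

open Orl.LF Orl.Gal Orl.Fld

variable {k F L K : Type} [Field k] [Field F] [Field L] [Field K] [Algebra k F]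
    [Algebra k L] [Algebra k K] [Algebra F K] [Algebra L K] [IsScalarTower k F K]
    [IsScalarTower k L K]

section spl

variable {δ : Dat k} (S : Spl δ K)

/-- the objects of rank one, uncurried -/
noncomputable abbrev Spl.Mp (x : Finset (Fin 4) × ℤ) : ModObj k K δ.Cat := S.M x.1 x.2

theorem Spl.perm (g : K ≃ₐ[k] K) : Perm S.Mp S.O (conj k δ.Cat g) where
  m x := by
    obtain ⟨π, -, h⟩ := S.exists_conjM g x.1 x.2
    rcases h with ⟨-, h⟩ | ⟨-, h⟩
    · exact ⟨(mv π.symm x.1, x.2), by simp, h⟩
    · refine ⟨((mv π.symm x.1)ᶜ, x.2 + x.1.card - 2), ?_, h⟩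
      have := Finset.card_le_univ x.1
      rw [Fintype.card_fin] at this
      simp only
      omega
  o j := ⟨S.conjO g j⟩

end spl

variable (D : FieldDatum k F L K)

/-- conjugation over the quadratic field -/
theorem exists_rootConj : ∃ l : (K ≃ₐ[F] K) → Fin 4, RootConj F D.spl.Mp l := by
  have h : ∀ g : K ≃ₐ[F] K, ∃ l : Fin 4,
      (∀ m, Nonempty ((conj k D.qd.Cat g).obj (D.spl.Mp ({0}, m)) ≅ D.spl.Mp ({l}, m))) ∧
      l ≠ 3 ∧ (g ≠ 1 → l ≠ 0) := by
    intro g
    let p := D.perm (g.restrictScalars k)
    have hp : ∀ j, g (D.r j) = D.r (p j) := D.perm_spec (g.restrictScalars k)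
    have hs : g D.sK = D.sK := g.commutes D.s
    refine ⟨(p.symm 0).castSucc, fun m => ⟨D.spl.conjM_pos g p hp hs ?_ m⟩, ?_, ?_⟩
    · rw [mv, Finset.map_singleton, Finset.singleton_inj]
      refine (up4_castSucc p (p.symm 0)).trans ?_
      rw [Equiv.apply_symm_apply]
      rfl
    · exact (Fin.castSucc_lt_last _).ne
    · intro hg h0
      apply hg
      have h1 : p.symm 0 = 0 := by
        apply Fin.castSucc_injective
        rw [h0]
        rfl
      have h2 : p 0 = 0 := by
        conv_lhs => rw [← h1]
        exact Equiv.apply_symm_apply _ _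
      -- the sign is one, so `p` is the identity
      have hsign : ((Equiv.Perm.sign p : ℤ) : K) = 1 := by
        have h3 := D.apply_sK (g.restrictScalars k)
        have h4 : (g.restrictScalars k) D.sK = D.sK := hs
        rw [h4] at h3
        exact (mul_right_cancel₀ D.sK_ne (by rw [one_mul]; exact h3)).symm
      have hp1 : p = 1 := by
        have h5 : ∀ p : Equiv.Perm (Fin 3), p 0 = 0 → p = 1 ∨ p = Equiv.swap 1 2 := by decide
        rcases h5 p h2 with h6 | h6
        · exact h6
        · exfalso
          rw [h6] at hsign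
          have h7 : Equiv.Perm.sign (Equiv.swap (1 : Fin 3) 2) = -1 := by decide
          rw [h7] at hsign
          have h8 : (-1 : K) = 1 := by simpa using hsign
          have h9 : (2 : K) = 0 := by linear_combination -h8
          exact D.twoK h9
      have h10 : g.restrictScalars k = 1 := D.ext_aut fun j => by
        change g (D.r j) = D.r j
        rw [hp, hp1]
        rfl
      ext x
      exact congrFun (congrArg DFunLike.coe h10) x
  choose l hl using h
  exact ⟨l, fun g m => (hl g).1 m, fun g => (hl g).2.1, fun g => (hl g).2.2⟩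

end Orl.Q
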