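import Mathlib

/-!
MP_a6e60d_ag, Q3: classes of objects of an abelian category which are closed under isomorphisms,
retracts and the two-out-of-three rule for short exact sequences. They come from thick
subcategories of the derived category, and can be pulled back along exact functors.
-/

set_option autoImplicit false

open CategoryTheory Category Limits Pretriangulated Triangulated DerivedCategory

attribute [-instance] CategoryTheory.catToReflQuiver

namespace Orl.Q

universe w v u v' u'

/-- A class of objects of an abelian category closed under retracts and two-out-of-three. -/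
structure Thk {A : Type u} [Category.{v} A] [Abelian A] (P : ObjectProperty A) : Prop where
  zero : ∀ {X : A}, IsZero X → P X
  retract : ∀ {X Y : A}, Retract X Y → P Y → P X
  ses₁ : ∀ {S : ShortComplex A}, S.ShortExact → P S.X₂ → P S.X₃ → P S.X₁
  ses₂ : ∀ {S : ShortComplex A}, S.ShortExact → P S.X₁ → P S.X₃ → P S.X₂
  ses₃ : ∀ {S : ShortComplex A}, S.ShortExact → P S.X₁ → P S.X₂ → P S.X₃

section

variable {A : Type u} [Category.{v} A] [Abelian A]

namespace Thk

variable {P : ObjectProperty A} (h : Thk P)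

include h

theorem iso {X Y : A} (e : X ≅ Y) (hX : P X) : P Y :=
  h.retract (Retract.ofIso e.symm) hX

theorem iso_iff {X Y : A} (e : X ≅ Y) : P X ↔ P Y := ⟨h.iso e, h.iso e.symm⟩

theorem biprod {X Y : A} (hX : P X) (hY : P Y) : P (X ⊞ Y) :=
  h.ses₂ (S := ShortComplex.mk (biprod.inl : X ⟶ X ⊞ Y) biprod.snd (by simp))
    (ShortComplex.Splitting.shortExact
      { r := biprod.fst
        s := biprod.inr
        id := by simp }) hX hY

theorem biprod_left {X Y : A} (hX : P (X ⊞ Y)) : P X :=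
  h.retract ⟨biprod.inl, biprod.fst, by simp⟩ hX

theorem biprod_right {X Y : A} (hX : P (X ⊞ Y)) : P Y :=
  h.retract ⟨biprod.inr, biprod.snd, by simp⟩ hX

theorem biprod_iff {X Y : A} : P (X ⊞ Y) ↔ P X ∧ P Y :=
  ⟨fun hX => ⟨h.biprod_left hX, h.biprod_right hX⟩, fun hX => h.biprod hX.1 hX.2⟩

/-- The summands of a finite direct sum. -/
theorem of_biproduct {J : Type*} (f : J → A) [HasBiproduct f] (hf : P (⨁ f)) (j : J) : P (f j) := by
  classical
  exact h.retract ⟨biproduct.ι f j, biproduct.π f j, by simp⟩ hf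

/-- A finite direct sum, given by its injections and projections. -/
theorem of_total {J : Type*} [Fintype J] [DecidableEq J] {f : J → A} (hf : ∀ j, P (f j)) {X : A}
    (i : ∀ j, f j ⟶ X) (p : ∀ j, X ⟶ f j) (hip : ∀ j, i j ≫ p j = 𝟙 _)
    (hne : ∀ j j', j ≠ j' → i j ≫ p j' = 0)
    (htot : ∑ j, p j ≫ i j = 𝟙 X) : P X := by
  -- the partial sums over a finite set `s` are retracts; induct on the complement
  suffices H : ∀ (n : ℕ) (s : Finset J), s.card = n → ∀ (Y : A) (i' : ∀ j, f j ⟶ Y)
      (p' : ∀ j, Y ⟶ f j), (∀ j ∈ s, i' j ≫ p' j = 𝟙 _) →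
      (∀ j ∈ s, ∀ j' ∈ s, j ≠ j' → i' j ≫ p' j' = 0) → ∑ j ∈ s, p' j ≫ i' j = 𝟙 Y → P Y from
    H _ Finset.univ rfl X i p (fun j _ => hip j) (fun j _ j' _ hj => hne j j' hj) htot
  intro n
  induction n with
  | zero =>
    intro s hs Y i' p' _ _ ht
    rw [Finset.card_eq_zero] at hs
    subst hs
    rw [Finset.sum_empty] at ht
    exact h.zero ((IsZero.iff_id_eq_zero Y).2 ht.symm)
  | succ n ih =>
    intro s hs Y i' p' h1 h2 ht
    obtain ⟨j, t, hjt, rfl, hc⟩ := Finset.card_eq_succ.1 hs
    -- `Y = f j ⊕ kernel (p' j)`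
    let K := kernel (p' j)
    have hsplit : (ShortComplex.mk (kernel.ι (p' j)) (p' j) (kernel.condition _)).ShortExact := by
      have : IsSplitEpi (p' j) := ⟨⟨⟨i' j, h1 j (Finset.mem_insert_self _ _)⟩⟩⟩
      exact { exact := ShortComplex.exact_kernel _ }
    refine h.ses₂ hsplit ?_ (hf j)
    change P K
    refine ih t hc K
      (fun l => if hl : l ∈ t then kernel.lift (p' j) (i' l)
        (h2 l (Finset.mem_insert_of_mem hl) j (Finset.mem_insert_self _ _)
          (fun hlj => hjt (hlj ▸ hl))) else 0)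
      (fun l => kernel.ι (p' j) ≫ p' l) ?_ ?_ ?_
    · intro l hl
      rw [dif_pos hl, kernel.lift_ι_assoc, h1 l (Finset.mem_insert_of_mem hl)]
    · intro l hl l' hl' hne'
      rw [dif_pos hl, kernel.lift_ι_assoc, h2 l (Finset.mem_insert_of_mem hl) l'
        (Finset.mem_insert_of_mem hl') hne']
    · rw [← cancel_mono (kernel.ι (p' j)), Preadditive.sum_comp, Category.id_comp]
      have : ∀ l ∈ t, (((kernel.ι (p' j) ≫ p' l) ≫ (if hl : l ∈ t then kernel.lift (p' j) (i' l)
        (h2 l (Finset.mem_insert_of_mem hl) j (Finset.mem_insert_self _ _)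
          (fun hlj => hjt (hlj ▸ hl))) else 0)) ≫ kernel.ι (p' j)) =
          kernel.ι (p' j) ≫ p' l ≫ i' l := by
        intro l hl
        rw [dif_pos hl, Category.assoc, kernel.lift_ι, Category.assoc]
      rw [Finset.sum_congr rfl this, ← Preadditive.comp_sum]
      rw [Finset.sum_insert hjt] at ht
      have h3 : ∑ l ∈ t, p' l ≫ i' l = 𝟙 Y - p' j ≫ i' j := by
        rw [← ht]; abel
      rw [h3, Preadditive.comp_sub, Category.comp_id, kernel.condition_assoc, zero_comp, sub_zero]

/-- A finite direct sum. -/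
theorem biproduct {J : Type} [Fintype J] (f : J → A) [HasBiproduct f] (hf : ∀ j, P (f j)) :
    P (⨁ f) := by
  classical
  exact h.of_total hf (fun j => biproduct.ι f j) (fun j => biproduct.π f j) (by simp)
    (fun j j' hj => biproduct.ι_π_ne f hj) biproduct.total

/-- Middle term of a short exact sequence with a chosen square: if three corners of a bicartesian
square belong to `P`, so does the fourth. -/
theorem sq₁ {N M₁ M₂ M : A} {a : N ⟶ M₁ ⊞ M₂} {b : M₁ ⊞ M₂ ⟶ M} {w : a ≫ b = 0}
    (hS : (ShortComplex.mk a b w).ShortExact) (h1 : P M₁) (h2 : P M₂) (hM : P M) : P N :=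
  h.ses₁ hS (h.biprod h1 h2) hM

theorem sq₄ {N M₁ M₂ M : A} {a : N ⟶ M₁ ⊞ M₂} {b : M₁ ⊞ M₂ ⟶ M} {w : a ≫ b = 0}
    (hS : (ShortComplex.mk a b w).ShortExact) (h1 : P M₁) (h2 : P M₂) (hN : P N) : P M :=
  h.ses₃ hS hN (h.biprod h1 h2)

theorem sq₂ {N M₁ M₂ M : A} {a : N ⟶ M₁ ⊞ M₂} {b : M₁ ⊞ M₂ ⟶ M} {w : a ≫ b = 0}
    (hS : (ShortComplex.mk a b w).ShortExact) (hN : P N) (hM : P M) : P M₁ ∧ P M₂ :=
  h.biprod_iff.1 (h.ses₂ hS hN hM)

/-- Pull back along a functor which preserves short exact sequences. -/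
theorem comap {B : Type u'} [Category.{v'} B] [Abelian B] (F : B ⥤ A)
    (hF : ∀ S : ShortComplex B, S.ShortExact → ∃ w : F.map S.f ≫ F.map S.g = 0,
      (ShortComplex.mk (F.map S.f) (F.map S.g) w).ShortExact)
    (hz : ∀ X : B, IsZero X → IsZero (F.obj X)) : Thk (P.inverseImage F) where
  zero hX := h.zero (hz _ hX)
  retract r hY := h.retract (r.map F) hY
  ses₁ {S} hS h2 h3 := by
    obtain ⟨w, hw⟩ := hF S hS
    exact h.ses₁ hw h2 h3
  ses₂ {S} hS h1 h3 := by
    obtain ⟨w, hw⟩ := hF S hS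
    exact h.ses₂ hw h1 h3
  ses₃ {S} hS h1 h2 := by
    obtain ⟨w, hw⟩ := hF S hS
    exact h.ses₃ hw h1 h2

/-- Pull back along an exact functor. -/
theorem comap' {B : Type u'} [Category.{v'} B] [Abelian B] (F : B ⥤ A)
    [F.PreservesZeroMorphisms] [PreservesFiniteLimits F] [PreservesFiniteColimits F] :
    Thk (P.inverseImage F) :=
  h.comap F (fun S hS => ⟨by rw [← F.map_comp, S.zero, F.map_zero], hS.map_of_exact F⟩)
    (fun X hX => F.map_isZero hX)

end Thk

/-- A thick subcategory of the derived category gives a class in the abelian category. -/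
theorem Thk.ofDerived [HasDerivedCategory.{w} A] (Q : ObjectProperty (DerivedCategory A))
    [Q.IsTriangulated] [Q.IsStableUnderRetracts] :
    Thk (Q.inverseImage (singleFunctor A 0)) where
  zero hX := Q.prop_of_isZero ((singleFunctor A 0).map_isZero hX)
  retract r hY := Q.prop_of_retract (r.map (singleFunctor A 0)) hY
  ses₁ hS h2 h3 := Q.ext_of_isTriangulatedClosed₁ _ hS.singleTriangle_distinguished h2 h3
  ses₂ hS h1 h3 := Q.ext_of_isTriangulatedClosed₂ _ hS.singleTriangle_distinguished h1 h3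
  ses₃ hS h1 h2 := Q.ext_of_isTriangulatedClosed₃ _ hS.singleTriangle_distinguished h1 h2

/-- `X` belongs to every `Thk` class which contains the objects `E i`. -/
def InThk {ι : Type*} (E : ι → A) (X : A) : Prop :=
  ∀ P : ObjectProperty A, Thk P → (∀ i, P (E i)) → P X

theorem inThk_thk {ι : Type*} (E : ι → A) : Thk (InThk E) where
  zero hX _ hP _ := hP.zero hX
  retract r hY P hP hE := hP.retract r (hY P hP hE)
  ses₁ hS h2 h3 P hP hE := hP.ses₁ hS (h2 P hP hE) (h3 P hP hE)
  ses₂ hS h1 h3 P hP hE := hP.ses₂ hS (h1 P hP hE) (h3 P hP hE)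
  ses₃ hS h1 h2 P hP hE := hP.ses₃ hS (h1 P hP hE) (h2 P hP hE)

theorem inThk_gen {ι : Type*} (E : ι → A) (i : ι) : InThk E (E i) := fun _ _ hE => hE i

theorem InThk.trans {ι κ : Type*} {E : ι → A} {G : κ → A} (h : ∀ j, InThk E (G j)) {X : A}
    (hX : InThk G X) : InThk E X := hX _ (inThk_thk E) h

/-- The derived version. -/
theorem InThk.derived [HasDerivedCategory.{w} A] {ι : Type*} {E : ι → A} {X : A}
    (hX : InThk E X) (Q : ObjectProperty (DerivedCategory A)) [Q.IsTriangulated]
    [Q.IsStableUnderRetracts] (hE : ∀ i, Q ((singleFunctor A 0).obj (E i))) :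
    Q ((singleFunctor A 0).obj X) := hX _ (Thk.ofDerived Q) hE

/-- The image under an exact functor. -/
theorem InThk.map {B : Type u'} [Category.{v'} B] [Abelian B] (F : A ⥤ B)
    [F.PreservesZeroMorphisms] [PreservesFiniteLimits F] [PreservesFiniteColimits F]
    {ι : Type*} {E : ι → A} {X : A} (hX : InThk E X) : InThk (fun i => F.obj (E i)) (F.obj X) :=
  fun _ hP hE => hX _ (hP.comap' F) hE

end

end Orl.Q
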