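import Pool.Agent.Work.MP_a6e60d_ag.Q.IndE
import Pool.Agent.Work.MP_a6e60d_ag.Gal.Desc

/-!
# Forms of the objects over intermediate fields

For a field `E` between `k` and `K` the object `O(j)` over `E` is `E ⊗_k O(j)`; if `E` contains
the square root of `a`, then `M_∅(n)` and `M_{3}(n)` (`3` is the root at infinity) are defined
over `E`.
-/

open CategoryTheory Limits LaurentPolynomial Quaternion Orl.LF Orl.Gal

set_option linter.unusedSectionVars false

attribute [-instance] CategoryTheory.catToReflQuiver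

namespace Orl.Q

variable {k : Type} [Field k] {δ : Dat k}

section forms

variable {K : Type} [Field K] [Algebra k K] (S : Spl δ K) {E : Type} [Field E] [Algebra k E]
  [Algebra E K] [IsScalarTower k E K]

/-- `K ⊗_E (E ⊗_k X) = K ⊗_k X` -/
noncomputable def indIndC (E K : Type) [Field K] [Algebra k K] [Field E] [Algebra k E]
    [Algebra E K] [IsScalarTower k E K] [Module.Finite k E] [Module.Finite k K]
    [Module.Finite E K] (X : δ.Cat) :
    (indE k E K δ.Cat).obj ((indC k δ.Cat E).obj X) ≅ (indC k δ.Cat K).obj X :=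
  (indTrans k E K δ.Cat k).app ((triv k δ.Cat).obj X)

/-- the form of `O(j)` over `E` -/
noncomputable abbrev Dat.OE (δ : Dat k) (E : Type) [Field E] [Algebra k E] [Module.Finite k E]
    (j : ℤ) : ModObj k E δ.Cat := (indC k δ.Cat E).obj (δ.O j)

/-- `K ⊗_E O(j)_E = O(j)` -/
noncomputable def Spl.indOE [Module.Finite k E] [Module.Finite k K] [Module.Finite E K] (j : ℤ) :
    (indE k E K δ.Cat).obj (δ.OE E j) ≅ S.O j :=
  indIndC E K (δ.O j) ≪≫ S.indCO j

theorem one_mem_lat_one {κ : Type} [Field κ] (v : Ch) : (1 : κ[T;T⁻¹]) ∈ lat κ v 1 := by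
  have := single_mem_lat (v := v) (n := 1) (m := 0) (by cases v <;> simp [Ch.Ok]) (1 : κ)
  rwa [T_zero, mul_one, map_one] at this

include S in
/-- the form `q` has a root at infinity -/
theorem Spl.q_mem (v : Ch) : δ.q ∈ lat k v 3 := by
  have h1 : bc K δ.q ∈ lat K v 3 := by
    rw [← S.prod]
    have h := S.l_mem
    exact lat_mul' (lat_mul' (h 0 v) (h 1 v) rfl) (h 2 v) rfl
  intro m hm
  refine h1 m ?_
  rw [bc_coeff]
  exact fun h => hm ((map_eq_zero _).1 h)

/-- the factorisation `q = 1 * q` over `E` -/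
noncomputable def Spl.form0 (t : E) (ht : algebraMap E K t = S.s) : Fac δ E where
  s := t
  hs := by
    apply (algebraMap E K).injective
    rw [map_mul, ht, S.hs, ← IsScalarTower.algebraMap_apply]
  e := 0
  g := 1
  h := bc E δ.q
  hg := one_mem_lat
  hh v := by
    rw [sub_zero]
    exact bc_mem_lat E (δ.hq v)
  gh := one_mul _

/-- the factorisation `q = l * q'` with `l` the linear form of the root at infinity, over `E` -/
noncomputable def Spl.form1 (t : E) (ht : algebraMap E K t = S.s) : Fac δ E where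
  s := t
  hs := (S.form0 t ht).hs
  e := 1
  g := 1
  h := bc E δ.q
  hg := one_mem_lat_one
  hh v := bc_mem_lat E (S.q_mem v)
  gh := one_mul _

theorem mapL_bc_toAlgHom (f : k[T;T⁻¹]) :
    mapL (IsScalarTower.toAlgHom k E K) (bc E f) = bc K f := mapL_bc _ _

variable [Module.Finite E K]

/-- the form of `M_∅(n)` over `E` -/
noncomputable def Spl.M0 (t : E) (ht : algebraMap E K t = S.s) (n : ℤ) : ModObj k E δ.Cat :=
  (S.form0 t ht).M n

/-- the form of `M_{3}(n)` over `E` -/
noncomputable def Spl.M3 (t : E) (ht : algebraMap E K t = S.s) (n : ℤ) : ModObj k E δ.Cat :=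
  (S.form1 t ht).M n

/-- `K ⊗_E M_∅(n)_E = M_∅(n)` -/
noncomputable def Spl.indM0 (t : E) (ht : algebraMap E K t = S.s) (n : ℤ) :
    (indE k E K δ.Cat).obj (S.M0 t ht n) ≅ S.M ∅ n :=
  (S.form0 t ht).indM (S.fac ∅) ht.symm (by simp [Spl.form0])
    (by simp only [Spl.form0, map_one, Spl.fac_g, Finset.prod_empty])
    (by
      simp only [Spl.form0, Spl.fac_h, mapL_bc, Finset.compl_empty]
      exact S.prod_univ) n

/-- `K ⊗_E M_{3}(n)_E = M_{3}(n)` -/
noncomputable def Spl.indM3 (t : E) (ht : algebraMap E K t = S.s) (n : ℤ) :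
    (indE k E K δ.Cat).obj (S.M3 t ht n) ≅ S.M {3} n :=
  (S.form1 t ht).indM (S.fac {3}) ht.symm (by simp [Spl.form1])
    (by simp only [Spl.form1, map_one, Spl.fac_g, Finset.prod_singleton, Spl.l_three])
    (by
      simp only [Spl.form1, Spl.fac_h, mapL_bc]
      have h1 := Finset.prod_mul_prod_compl {3} S.l
      rwa [Finset.prod_singleton, Spl.l_three, one_mul, S.prod_univ] at h1) n

end forms

end Orl.Q
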