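import Mathlib

/-!
# Groups Ext from a resolution of length one

`0 ⟶ P ⟶ Q ⟶ N ⟶ 0` exact, `P` and `Q` acyclic for `Hom(-, Y)` (for instance projective): then
`Hom(N, Y)` and `Ext^1(N, Y)` are the kernel and the cokernel of `Hom(Q, Y) ⟶ Hom(P, Y)`, and the
other groups vanish.
-/

open CategoryTheory CategoryTheory.Abelian CategoryTheory.Limits

attribute [-instance] CategoryTheory.catToReflQuiver

universe w v u

namespace Orl.Q

variable {C : Type u} [Category.{v} C] [Abelian C] [HasExt.{w} C]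

/-- `X` is acyclic for `Hom(-, Y)` -/
def Acyc (X Y : C) : Prop := ∀ n : ℕ, 1 ≤ n → Subsingleton (Ext.{w} X Y n)

theorem Acyc.of_projective (X Y : C) [Projective X] : Acyc.{w} X Y := by
  intro n hn
  obtain ⟨m, rfl⟩ := Nat.exists_eq_add_of_le' hn
  exact subsingleton_of_forall_eq 0 fun e => Ext.eq_zero_of_projective e

theorem Acyc.eq_zero {X Y : C} (h : Acyc.{w} X Y) {n : ℕ} (hn : 1 ≤ n) (e : Ext.{w} X Y n) :
    e = 0 :=
  @Subsingleton.elim _ (h n hn) _ _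

section

variable {S : ShortComplex C} (hS : S.ShortExact) {Y : C}

include hS

/-- the groups Ext in degree at least two vanish -/
theorem subsingleton_ext_of_two_le (h1 : Acyc.{w} S.X₁ Y) (h2 : Acyc.{w} S.X₂ Y) {n : ℕ}
    (hn : 2 ≤ n) : Subsingleton (Ext.{w} S.X₃ Y n) := by
  obtain ⟨m, rfl⟩ := Nat.exists_eq_add_of_le' hn
  refine subsingleton_of_forall_eq 0 fun x => ?_
  obtain ⟨y, hy⟩ := Ext.contravariant_sequence_exact₃ hS Y x (h2.eq_zero (by lia) _)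
    (n₀ := m + 1) (by lia)
  rw [← hy, h1.eq_zero (by lia) y, Ext.comp_zero]

/-- `N` is acyclic if `Hom(Q, Y) ⟶ Hom(P, Y)` is onto -/
theorem acyc_of_surjective (h1 : Acyc.{w} S.X₁ Y) (h2 : Acyc.{w} S.X₂ Y)
    (h : Function.Surjective fun f : S.X₂ ⟶ Y => S.f ≫ f) : Acyc.{w} S.X₃ Y := by
  intro n hn
  rcases (show n = 1 ∨ 2 ≤ n by lia) with rfl | hn
  · refine subsingleton_of_forall_eq 0 fun x => ?_
    obtain ⟨y, hy⟩ := Ext.contravariant_sequence_exact₃ hS Y x (h2.eq_zero le_rfl _)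
      (n₀ := 0) (by lia)
    obtain ⟨g, hg⟩ := Ext.mk₀_bijective _ _ |>.2 y
    obtain ⟨f, hf⟩ := h g
    have h3 : S.f ≫ f = g := hf
    rw [← hy, ← hg, ← h3, ← Ext.mk₀_comp_mk₀, hS.extClass_comp_assoc]
  · exact subsingleton_ext_of_two_le hS h1 h2 hn

end

section linear

variable {k : Type*} [Field k] [Linear k C] {S : ShortComplex C} (hS : S.ShortExact) {Y : C}

/-- composition with `P ⟶ Q` -/
def pre (k : Type*) [Field k] [Linear k C] (S : ShortComplex C) (Y : C) :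
    (S.X₂ ⟶ Y) →ₗ[k] (S.X₁ ⟶ Y) where
  toFun f := S.f ≫ f
  map_add' _ _ := Preadditive.comp_add _ _ _ _ _ _
  map_smul' _ _ := Linear.comp_smul _ _ _ _ _ _

omit [HasExt.{w} C] in
@[simp] theorem pre_apply (f : S.X₂ ⟶ Y) : pre k S Y f = S.f ≫ f := rfl

/-- `Hom(N, Y)` is the kernel of `Hom(Q, Y) ⟶ Hom(P, Y)` -/
noncomputable def homEquivKer (k : Type*) [Field k] [Linear k C] {S : ShortComplex C}
    (hS : S.ShortExact) (Y : C) : (S.X₃ ⟶ Y) ≃ₗ[k] LinearMap.ker (pre k S Y) :=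
  have := hS.epi_g
  LinearEquiv.ofBijective
    ({ toFun := fun f => ⟨S.g ≫ f, by
          rw [LinearMap.mem_ker, pre_apply, ← Category.assoc, S.zero, zero_comp]⟩
       map_add' := fun f g => by ext; exact Preadditive.comp_add _ _ _ _ _ _
       map_smul' := fun r f => by ext; exact Linear.comp_smul _ _ _ _ _ _ } :
      (S.X₃ ⟶ Y) →ₗ[k] LinearMap.ker (pre k S Y)) (by
    constructor
    · intro f g hfg
      have h1 : S.g ≫ f = S.g ≫ g := congrArg Subtype.val hfg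
      exact (cancel_epi S.g).1 h1
    · rintro ⟨f, hf⟩
      have h1 : S.f ≫ f = 0 := hf
      obtain ⟨l, hl⟩ := CokernelCofork.IsColimit.desc' hS.gIsCokernel f h1
      exact ⟨l, Subtype.ext hl⟩)

omit [HasExt.{w} C] in
theorem homEquivKer_apply (f : S.X₃ ⟶ Y) :
    (homEquivKer k hS Y f : S.X₂ ⟶ Y) = S.g ≫ f := rfl

/-- the connecting map `Hom(P, Y) ⟶ Ext^1(N, Y)` -/
noncomputable def connect (k : Type*) [Field k] [Linear k C] {S : ShortComplex C}
    (hS : S.ShortExact) (Y : C) : (S.X₁ ⟶ Y) →ₗ[k] Ext.{w} S.X₃ Y 1 where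
  toFun f := hS.extClass.comp (Ext.mk₀ f) (add_zero 1)
  map_add' f g := by rw [Ext.mk₀_add, Ext.comp_add]
  map_smul' r f := by rw [Ext.mk₀_smul, Ext.comp_smul, RingHom.id_apply]

include hS in
theorem connect_surjective (h2 : Acyc.{w} S.X₂ Y) :
    Function.Surjective (connect.{w} k hS Y) := by
  intro x
  obtain ⟨y, hy⟩ := Ext.contravariant_sequence_exact₃ hS Y x (h2.eq_zero le_rfl _)
    (n₀ := 0) (by lia)
  obtain ⟨g, hg⟩ := Ext.mk₀_bijective _ _ |>.2 y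
  refine ⟨g, ?_⟩
  rw [← hy, ← hg]
  rfl

theorem ker_connect : LinearMap.ker (connect.{w} k hS Y) = LinearMap.range (pre k S Y) := by
  ext g
  rw [LinearMap.mem_ker, LinearMap.mem_range]
  constructor
  · intro h
    have h1 : hS.extClass.comp (Ext.mk₀ g) (add_zero 1) = 0 := h
    obtain ⟨y, hy⟩ := Ext.contravariant_sequence_exact₁ hS Y (Ext.mk₀ g) (n₁ := 1) (by lia) h1
    obtain ⟨f, hf⟩ := Ext.mk₀_bijective _ _ |>.2 y
    refine ⟨f, ?_⟩
    rw [← hf, Ext.mk₀_comp_mk₀] at hy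
    exact (Ext.mk₀_bijective _ _).1 hy
  · rintro ⟨f, rfl⟩
    change hS.extClass.comp (Ext.mk₀ (S.f ≫ f)) (add_zero 1) = 0
    rw [← Ext.mk₀_comp_mk₀, hS.extClass_comp_assoc]

/-- `Ext^1(N, Y)` is the cokernel of `Hom(Q, Y) ⟶ Hom(P, Y)` -/
noncomputable def extOneEquiv (k : Type*) [Field k] [Linear k C] {S : ShortComplex C}
    (hS : S.ShortExact) {Y : C} (h2 : Acyc.{w} S.X₂ Y) :
    ((S.X₁ ⟶ Y) ⧸ LinearMap.range (pre k S Y)) ≃ₗ[k] Ext.{w} S.X₃ Y 1 :=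
  (Submodule.quotEquivOfEq _ _ (ker_connect hS).symm).trans
    ((connect k hS Y).quotKerEquivOfSurjective (connect_surjective hS h2))

section change

variable {A B : Type*} [AddCommGroup A] [Module k A] [AddCommGroup B] [Module k B]
  (e₂ : (S.X₂ ⟶ Y) ≃ₗ[k] A) (e₁ : (S.X₁ ⟶ Y) ≃ₗ[k] B) (δ : A →ₗ[k] B)
  (he : ∀ f : S.X₂ ⟶ Y, e₁ (S.f ≫ f) = δ (e₂ f))

omit [HasExt.{w} C] in
include he in
theorem map_ker_pre : (LinearMap.ker (pre k S Y)).map (e₂ : (S.X₂ ⟶ Y) →ₗ[k] A) =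
    LinearMap.ker δ := by
  ext a
  rw [Submodule.mem_map, LinearMap.mem_ker]
  constructor
  · rintro ⟨f, hf, rfl⟩
    have h1 : S.f ≫ f = 0 := hf
    change δ (e₂ f) = 0
    rw [← he, h1, map_zero]
  · intro ha
    refine ⟨e₂.symm a, ?_, e₂.apply_symm_apply a⟩
    rw [LinearMap.mem_ker, pre_apply]
    apply e₁.injective
    rw [he, e₂.apply_symm_apply, ha, map_zero]

omit [HasExt.{w} C] in
include he in
theorem map_range_pre : (LinearMap.range (pre k S Y)).map (e₁ : (S.X₁ ⟶ Y) →ₗ[k] B) =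
    LinearMap.range δ := by
  ext b
  rw [Submodule.mem_map, LinearMap.mem_range]
  constructor
  · rintro ⟨_, ⟨f, rfl⟩, rfl⟩
    exact ⟨e₂ f, (he f).symm⟩
  · rintro ⟨a, rfl⟩
    refine ⟨_, ⟨e₂.symm a, rfl⟩, ?_⟩
    change e₁ (S.f ≫ e₂.symm a) = δ a
    rw [he, e₂.apply_symm_apply]

/-- `Hom(N, Y)` is the kernel of `δ` -/
noncomputable def homEquiv : (S.X₃ ⟶ Y) ≃ₗ[k] LinearMap.ker δ :=
  (homEquivKer k hS Y).trans ((e₂.submoduleMap _).trans
    (LinearEquiv.ofEq _ _ (map_ker_pre e₂ e₁ δ he)))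

omit [HasExt.{w} C] in
theorem homEquiv_apply (f : S.X₃ ⟶ Y) :
    (homEquiv hS e₂ e₁ δ he f : A) = e₂ (S.g ≫ f) := rfl

/-- `Ext^1(N, Y)` is the cokernel of `δ` -/
noncomputable def extEquiv (h2 : Acyc.{w} S.X₂ Y) :
    (B ⧸ LinearMap.range δ) ≃ₗ[k] Ext.{w} S.X₃ Y 1 :=
  ((Submodule.Quotient.equiv _ _ e₁ (map_range_pre e₂ e₁ δ he)).symm).trans
    (extOneEquiv k hS h2)

include he hS in
/-- if `δ` is onto then `N` is acyclic -/
theorem acyc_of_surjective' (h1 : Acyc.{w} S.X₁ Y) (h2 : Acyc.{w} S.X₂ Y)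
    (h : Function.Surjective δ) : Acyc.{w} S.X₃ Y := by
  refine acyc_of_surjective hS h1 h2 fun g => ?_
  obtain ⟨a, ha⟩ := h (e₁ g)
  refine ⟨e₂.symm a, ?_⟩
  apply e₁.injective
  change e₁ (S.f ≫ e₂.symm a) = e₁ g
  rw [he, e₂.apply_symm_apply, ha]

end change

end linear

end Orl.Q
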