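import Pool.Agent.Work.MP_a6e60d_ag.Gal.Hom
import Pool.Agent.Work.MP_a6e60d_ag.Gal.Ext
import Pool.Agent.Work.MP_a6e60d_ag.Q.Res

/-!
MP_a6e60d_ag, Q6: finite sums and acyclicity; descent of morphisms along a field extension.
-/

open CategoryTheory CategoryTheory.Abelian CategoryTheory.Limits

attribute [-instance] CategoryTheory.catToReflQuiver

namespace Orl.Q

universe w v u w' v' u'

section acyc

variable {C : Type u} [Category.{v} C] [Abelian C] [HasExt.{w} C]

/-- the class of the objects `X` with `Acyc X Y` is closed under finite sums and retracts -/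
theorem Acyc.of_total {J : Type*} [Fintype J] {X Y : C} {f : J → C} (p : ∀ j, X ⟶ f j)
    (i : ∀ j, f j ⟶ X) (ht : ∑ j, p j ≫ i j = 𝟙 X) (h : ∀ j, Acyc.{w} (f j) Y) :
    Acyc.{w} X Y := by
  intro n hn
  refine subsingleton_of_forall_eq 0 fun x => ?_
  rw [← Ext.mk₀_id_comp x, ← ht, Ext.mk₀_sum, Ext.sum_comp]
  refine Finset.sum_eq_zero fun j _ => ?_
  rw [← Ext.mk₀_comp_mk₀, Ext.comp_assoc_of_second_deg_zero,
    (h j).eq_zero hn ((Ext.mk₀ (i j)).comp x (zero_add n)), Ext.comp_zero]

/-- the class of the objects `Y` with `Acyc X Y` is closed under finite sums and retracts -/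
theorem Acyc.of_total' {J : Type*} [Fintype J] {X Y : C} {f : J → C} (p : ∀ j, Y ⟶ f j)
    (i : ∀ j, f j ⟶ Y) (ht : ∑ j, p j ≫ i j = 𝟙 Y) (h : ∀ j, Acyc.{w} X (f j)) :
    Acyc.{w} X Y := by
  intro n hn
  refine subsingleton_of_forall_eq 0 fun x => ?_
  rw [← Ext.comp_mk₀_id x, ← ht, Ext.mk₀_sum, Ext.comp_sum]
  refine Finset.sum_eq_zero fun j _ => ?_
  rw [← Ext.mk₀_comp_mk₀, ← Ext.comp_assoc_of_third_deg_zero,
    (h j).eq_zero hn (x.comp (Ext.mk₀ (p j)) (add_zero n)), Ext.zero_comp]

theorem Acyc.of_retract_left {X X' Y : C} (r : Retract X X') (h : Acyc.{w} X' Y) :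
    Acyc.{w} X Y :=
  Acyc.of_total (J := Unit) (f := fun _ => X') (fun _ => r.i) (fun _ => r.r) (by simp)
    fun _ => h

theorem Acyc.of_retract_right {X Y Y' : C} (r : Retract Y Y') (h : Acyc.{w} X Y') :
    Acyc.{w} X Y :=
  Acyc.of_total' (J := Unit) (f := fun _ => Y') (fun _ => r.i) (fun _ => r.r) (by simp)
    fun _ => h

theorem Acyc.iso_left {X X' Y : C} (e : X ≅ X') (h : Acyc.{w} X' Y) : Acyc.{w} X Y :=
  h.of_retract_left (Retract.ofIso e)

theorem Acyc.iso_right {X Y Y' : C} (e : Y ≅ Y') (h : Acyc.{w} X Y') : Acyc.{w} X Y :=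
  h.of_retract_right (Retract.ofIso e)

/-- extensions on the left -/
theorem Acyc.ext_left {S : ShortComplex C} (hS : S.ShortExact) {Y : C} (h1 : Acyc.{w} S.X₁ Y)
    (h3 : Acyc.{w} S.X₃ Y) : Acyc.{w} S.X₂ Y := by
  intro n hn
  refine subsingleton_of_forall_eq 0 fun x => ?_
  obtain ⟨y, hy⟩ := Ext.contravariant_sequence_exact₂ hS Y x (h1.eq_zero hn _)
  rw [← hy, h3.eq_zero hn y, Ext.comp_zero]

/-- extensions on the right -/
theorem Acyc.ext_right {S : ShortComplex C} (hS : S.ShortExact) {X : C}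
    (h1 : Acyc.{w} X S.X₁) (h3 : Acyc.{w} X S.X₃) : Acyc.{w} X S.X₂ := by
  intro n hn
  refine subsingleton_of_forall_eq 0 fun x => ?_
  obtain ⟨y, hy⟩ := Ext.covariant_sequence_exact₂ X hS x (h3.eq_zero hn _)
  rw [← hy, h1.eq_zero hn y, Ext.zero_comp]

end acyc

section fin

variable {C : Type u} [Category.{v} C] [Preadditive C] {k : Type*} [Field k] [Linear k C]

/-- finiteness of Hom and finite sums, on the left -/
theorem finite_hom_of_total {J : Type*} [Fintype J] {X Y : C} {f : J → C} (p : ∀ j, X ⟶ f j)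
    (i : ∀ j, f j ⟶ X) (ht : ∑ j, p j ≫ i j = 𝟙 X) (h : ∀ j, Module.Finite k (f j ⟶ Y)) :
    Module.Finite k (X ⟶ Y) := by
  let T : (∀ j, (f j ⟶ Y)) →ₗ[k] (X ⟶ Y) :=
    { toFun := fun a => ∑ j, p j ≫ a j
      map_add' := fun a b => by simp [Finset.sum_add_distrib]
      map_smul' := fun c a => by simp [Finset.smul_sum] }
  refine Module.Finite.of_surjective T fun x => ⟨fun j => i j ≫ x, ?_⟩
  change ∑ j, p j ≫ i j ≫ x = x
  have : ∑ j, p j ≫ i j ≫ x = (∑ j, p j ≫ i j) ≫ x := by
    rw [Preadditive.sum_comp]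
    simp only [Category.assoc]
  rw [this, ht, Category.id_comp]

/-- finiteness of Hom and finite sums, on the right -/
theorem finite_hom_of_total' {J : Type*} [Fintype J] {X Y : C} {f : J → C} (p : ∀ j, Y ⟶ f j)
    (i : ∀ j, f j ⟶ Y) (ht : ∑ j, p j ≫ i j = 𝟙 Y) (h : ∀ j, Module.Finite k (X ⟶ f j)) :
    Module.Finite k (X ⟶ Y) := by
  let T : (∀ j, (X ⟶ f j)) →ₗ[k] (X ⟶ Y) :=
    { toFun := fun a => ∑ j, a j ≫ i j
      map_add' := fun a b => by simp [Finset.sum_add_distrib]
      map_smul' := fun c a => by simp [Finset.smul_sum] }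
  refine Module.Finite.of_surjective T fun x => ⟨fun j => x ≫ p j, ?_⟩
  change ∑ j, (x ≫ p j) ≫ i j = x
  simp only [Category.assoc]
  rw [← Preadditive.comp_sum, ht, Category.comp_id]

theorem finite_hom_iso_left {X X' Y : C} (e : X ≅ X') (h : Module.Finite k (X' ⟶ Y)) :
    Module.Finite k (X ⟶ Y) :=
  finite_hom_of_total (J := Unit) (f := fun _ => X') (fun _ => e.hom) (fun _ => e.inv)
    (by simp) fun _ => h

theorem finite_hom_iso_right {X Y Y' : C} (e : Y ≅ Y') (h : Module.Finite k (X ⟶ Y')) :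
    Module.Finite k (X ⟶ Y) :=
  finite_hom_of_total' (J := Unit) (f := fun _ => Y') (fun _ => e.hom) (fun _ => e.inv)
    (by simp) fun _ => h

end fin

section desc

open Orl.LF Orl.Gal

attribute [local instance] Abelian.hasFiniteBiproducts

variable {k : Type*} [Field k] {E : Type*} {K : Type w} [Field E] [Field K] [Algebra k E]
  [Algebra k K] [Algebra E K] [IsScalarTower k E K]
variable {C : Type u'} [Category.{v'} C] [Abelian C] [Linear k C] [Module.Finite E K]

/-- an element of the extension with a non zero coordinate of `1` -/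
theorem exists_coord_one (E K : Type*) [Field E] [Field K] [Algebra E K] [Module.Finite E K] :
    ∃ i, (Module.finBasis E K).repr 1 i ≠ 0 := by
  by_contra h
  push Not at h
  have : (Module.finBasis E K).repr 1 = 0 := Finsupp.ext h
  rw [map_eq_zero_iff _ (Module.finBasis E K).repr.injective] at this
  exact one_ne_zero this

/-- the map `m ↦ m ⊗ 1` is a split monomorphism -/
theorem exists_retraction_tmk_one (M : ModObj k E C) :
    ∃ r : (resE k E K C).obj ((indE k E K C).obj M) ⟶ M,
      indUnit M ≫ r = 𝟙 M := by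
  obtain ⟨i, hi⟩ := exists_coord_one E K
  let c : E := (Module.finBasis E K).repr 1 i
  -- the `E`-linear functional with value `1` at `1`
  let lam : K →ₗ[E] E := c⁻¹ • (Module.finBasis E K).coord i
  have hlam : lam 1 = 1 := by
    change c⁻¹ * ((Module.finBasis E K).repr 1 i) = 1
    exact inv_mul_cancel₀ hi
  let φ : K →+ (M.pt ⟶ M.pt) :=
    { toFun := fun v => M.act (lam v)
      map_zero' := by rw [map_zero, ModObj.act_zero]
      map_add' := fun v w => by rw [map_add, ModObj.act_add] }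
  have hφ : ∀ (e : E) (v : K), φ (e • v) = M.act e ≫ φ v := fun e v => by
    change M.act (lam (e • v)) = M.act e ≫ M.act (lam v)
    rw [map_smul, smul_eq_mul, ModObj.act_mul]
  have ht : ∀ v : K, tmk M v ≫ tdesc M φ = M.act (lam v) := fun v => tmk_tdesc M φ hφ v
  refine ⟨ModObj.homMk (M := (resE k E K C).obj ((indE k E K C).obj M)) (N := M)
    (tdesc M φ) fun e => ?_, ?_⟩
  · change indAct M (algebraMap E K e) ≫ tdesc M φ = tdesc M φ ≫ M.act e
    refine tens_ext M fun v => ?_
    rw [tmk_indAct_assoc, ← Algebra.smul_def, ht, ← Category.assoc, ht, map_smul, smul_eq_mul,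
      ModObj.act_mul, ModObj.act_comm]
  · refine ModObj.hom_ext ?_
    change tmk M (1 : K) ≫ tdesc M φ = 𝟙 _
    rw [ht, hlam, ModObj.act_one]

/-- if there are no morphisms between the extensions, there are none -/
theorem hom_eq_zero_of_ind {M N : ModObj k E C}
    (h : ∀ f : (indE k E K C).obj M ⟶ (indE k E K C).obj N, f = 0) (f : M ⟶ N) : f = 0 := by
  obtain ⟨r, hr⟩ := exists_retraction_tmk_one (K := K) N
  have h1 : indUnit (K := K) M ≫ (resE k E K C).map ((indE k E K C).map f) =
      f ≫ indUnit N := by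
    refine dn_ext ?_
    change tmk M (1 : K) ≫ tmapL K f = ModObj.homPt f ≫ tmk N (1 : K)
    rw [tmk_tmapL]
  rw [← Category.comp_id f, ← hr, ← Category.assoc, ← h1, h ((indE k E K C).map f),
    Functor.map_zero, comp_zero, zero_comp]

/-- if the endomorphisms of the extension are scalars, so are the endomorphisms -/
theorem exists_act_of_ind {M : ModObj k E C}
    (h : ∀ f : (indE k E K C).obj M ⟶ (indE k E K C).obj M,
      ∃ x : K, ModObj.homPt f = ((indE k E K C).obj M).act x) (f : M ⟶ M) :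
    ∃ x : E, ModObj.homPt f = M.act x := by
  obtain ⟨x, hx⟩ := h ((indE k E K C).map f)
  have h1 : ModObj.homPt f ≫ tmk M (1 : K) = tmk M x := by
    have h2 : tmk M (1 : K) ≫ tmapL K f = ModObj.homPt f ≫ tmk M (1 : K) := tmk_tmapL f 1
    rw [← h2]
    have h3 : tmapL K f = indAct M x := hx
    rw [h3, tmk_indAct, mul_one]
  obtain ⟨i, hi⟩ := exists_coord_one E K
  set c : E := (Module.finBasis E K).repr 1 i with hc
  have h4 : ∀ v : K, tmk M v ≫ tpr M K i = M.act ((Module.finBasis E K).repr v i) := by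
    intro v
    unfold tmk
    rw [Preadditive.sum_comp, Finset.sum_eq_single i]
    · rw [Category.assoc, tin_tpr_self, Category.comp_id]
    · intro j _ hj
      rw [Category.assoc, tin_tpr_ne _ _ hj, comp_zero]
    · simp
  have h5 : ModObj.homPt f ≫ M.act c = M.act ((Module.finBasis E K).repr x i) := by
    rw [← h4 x, ← h1, Category.assoc, h4]
  refine ⟨(Module.finBasis E K).repr x i * c⁻¹, ?_⟩
  rw [ModObj.act_mul, ← h5, Category.assoc, ← ModObj.act_mul, mul_inv_cancel₀ hi,
    ModObj.act_one, Category.comp_id]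

variable [HasExt.{v} (ModObj k E C)] [HasExt.{u} (ModObj k K C)]

/-- if the extensions are acyclic, so are the objects -/
theorem acyc_of_ind {M N : ModObj k E C}
    (h : Acyc.{u} ((indE k E K C).obj M) ((indE k E K C).obj N)) : Acyc.{v} M N := by
  obtain ⟨r, hr⟩ := exists_retraction_tmk_one (K := K) N
  refine Acyc.of_retract_right (Y' := (resE k E K C).obj ((indE k E K C).obj N))
    ⟨indUnit N, r, hr⟩ ?_
  intro n hn
  have := h n hn
  exact (extInd M ((indE k E K C).obj N) n).symm.toEquiv.subsingleton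

end desc

end Orl.Q
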