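import Pool.Agent.Work.MP_a6e60d_ag.Q.TL
import Pool.Agent.Work.MP_a6e60d_ag.Q.Desc

/-!
MP_a6e60d_ag, Q6: the objects of the tilting object over the quadratic field, and the vanishing of
the groups Ext between the different tilting objects (after a twist).
-/

open CategoryTheory CategoryTheory.Abelian CategoryTheory.Limits

attribute [-instance] CategoryTheory.catToReflQuiver

universe w v u

namespace Orl.Q

section

variable {C : Type u} [Category.{v} C] [Abelian C]

/-- The objects of the tilting object over the quadratic field, twisted by `m`; `l` is the root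
which is used (`0` for the object itself, `1`, `2` for the conjugates). -/
def tfl (M : Finset (Fin 4) × ℤ → C) (O : ℤ → C) (l : Fin 4) (m : ℤ) : Fin 6 → C :=
  ![O (m - 2), O (m - 1), M (∅, m), M ({3}, m), M ({l}, m), M (∅, m + 1)]

/-- The objects of the tilting object over the quadratic field, twisted by `m`. -/
abbrev tf (M : Finset (Fin 4) × ℤ → C) (O : ℤ → C) (m : ℤ) : Fin 6 → C := tfl M O 0 m

variable [HasExt.{w} C] {k : Type*} [Field k] [Linear k C] {κ : Type*} {z : κ → (𝟭 C ⟶ 𝟭 C)}
  {M : Finset (Fin 4) × ℤ → C} {O : ℤ → C} (T : Tab.{w} k z M O)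

include T

theorem acyc_tfl (l l' : Fin 4) (m : ℤ) (i j : Fin 6) :
    Acyc.{w} (tfl M O l m i) (tfl M O l' m j) := by
  have mo := T.mo'
  have hc : ∀ i : Fin 4, ({i} : Finset (Fin 4)).card = 1 := fun i => Finset.card_singleton i
  have h0 : (∅ : Finset (Fin 4)).card = 0 := Finset.card_empty
  have hd : ∀ i j : Fin 4, (({i} : Finset (Fin 4)) \ {j}).card ≤ 1 := fun i j =>
    (Finset.card_le_card Finset.sdiff_subset).trans (hc i).le
  have hde : ∀ i : Fin 4, (({i} : Finset (Fin 4)) \ ∅).card ≤ 1 := fun i =>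
    (Finset.card_le_card Finset.sdiff_subset).trans (hc i).le
  have hed : ∀ I : Finset (Fin 4), ((∅ : Finset (Fin 4)) \ I).card = 0 := fun I => by
    rw [Finset.empty_sdiff, Finset.card_empty]
  have oo : ∀ a b : ℤ, -1 ≤ b - a → Acyc.{w} (O a) (O b) := fun a b h => T.oo h
  have om : ∀ (a : ℤ) (I : Finset (Fin 4)) (b : ℤ), 1 ≤ b - a → Acyc.{w} (O a) (M (I, b)) :=
    fun a I b h => T.om (by simp only; omega) (by simp only; omega)
  have mm : ∀ (I : Finset (Fin 4)) (a : ℤ) (J : Finset (Fin 4)) (b : ℤ), a ≤ b →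
      (I \ J).card ≤ 1 → Acyc.{w} (M (I, a)) (M (J, b)) := fun I a J b h h' =>
    T.mm (by simp only [dg]; omega)
  have me : ∀ (a : ℤ) (J : Finset (Fin 4)) (b : ℤ), a - 1 ≤ b →
      Acyc.{w} (M (∅, a)) (M (J, b)) := fun a J b h =>
    T.mm (by simp only [dg, hed]; omega)
  fin_cases i <;> fin_cases j
  · exact oo _ _ (by omega)
  · exact oo _ _ (by omega)
  · exact om _ _ _ (by omega)
  · exact om _ _ _ (by omega)
  · exact om _ _ _ (by omega)
  · exact om _ _ _ (by omega)
  · exact oo _ _ (by omega)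
  · exact oo _ _ (by omega)
  · exact om _ _ _ (by omega)
  · exact om _ _ _ (by omega)
  · exact om _ _ _ (by omega)
  · exact om _ _ _ (by omega)
  · exact mo _ _
  · exact mo _ _
  · exact me _ _ _ (by omega)
  · exact me _ _ _ (by omega)
  · exact me _ _ _ (by omega)
  · exact me _ _ _ (by omega)
  · exact mo _ _
  · exact mo _ _
  · exact mm _ _ _ _ (by omega) (hde _)
  · exact mm _ _ _ _ (by omega) (hd _ _)
  · exact mm _ _ _ _ (by omega) (hd _ _)
  · exact mm _ _ _ _ (by omega) (hde _)
  · exact mo _ _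
  · exact mo _ _
  · exact mm _ _ _ _ (by omega) (hde _)
  · exact mm _ _ _ _ (by omega) (hd _ _)
  · exact mm _ _ _ _ (by omega) (hd _ _)
  · exact mm _ _ _ _ (by omega) (hde _)
  · exact mo _ _
  · exact mo _ _
  · exact me _ _ _ (by omega)
  · exact me _ _ _ (by omega)
  · exact me _ _ _ (by omega)
  · exact me _ _ _ (by omega)

/-- The objects which are acyclic for all objects of twist at least `A`, and have finite
dimensional spaces of maps to all objects. -/
structure Low (k : Type*) [Field k] [Linear k C] (M : Finset (Fin 4) × ℤ → C) (O : ℤ → C)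
    (X : C) (A : ℤ) : Prop where
  m : ∀ y : Finset (Fin 4) × ℤ, A ≤ y.2 → Acyc.{w} X (M y)
  o : ∀ j, A ≤ j → Acyc.{w} X (O j)
  mf : ∀ y, Module.Finite k (X ⟶ M y)
  of : ∀ j, Module.Finite k (X ⟶ O j)

theorem low_M (x : Finset (Fin 4) × ℤ) : Low.{w} k M O (M x) (x.2 + 3) where
  m y hy := T.mm (by
    have h := Finset.card_le_univ (x.1 \ y.1)
    rw [Fintype.card_fin] at h
    simp only [dg]
    omega)
  o j _ := T.mo' x j
  mf y := T.mfin x y
  of j := T.finite_mo x j

theorem low_O (j : ℤ) : Low.{w} k M O (O j) (j + 1) where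
  m y hy := T.om (by omega) (by omega)
  o i hi := T.oo (by omega)
  mf y := T.omfin j y
  of i := T.oofin j i

omit T

namespace Low

theorem mono {X : C} {A B : ℤ} (h : Low.{w} k M O X A) (hAB : A ≤ B) : Low.{w} k M O X B where
  m y hy := h.m y (hAB.trans hy)
  o j hj := h.o j (hAB.trans hj)
  mf := h.mf
  of := h.of

theorem iso {X Y : C} {A : ℤ} (h : Low.{w} k M O X A) (e : X ≅ Y) : Low.{w} k M O Y A where
  m y hy := (h.m y hy).iso_left e.symm
  o j hj := (h.o j hj).iso_left e.symm
  mf y := finite_hom_iso_left e.symm (h.mf y)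
  of j := finite_hom_iso_left e.symm (h.of j)

theorem mid {S : ShortComplex C} (hS : S.ShortExact) {A : ℤ} (h1 : Low.{w} k M O S.X₁ A)
    (h3 : Low.{w} k M O S.X₃ A) : Low.{w} k M O S.X₂ A where
  m y hy := Acyc.mid' hS (h1.m y hy) (h3.m y hy)
  o j hj := Acyc.mid' hS (h1.o j hj) (h3.o j hj)
  mf y := finite_hom_mid' k hS _ (h1.mf y) (h3.mf y)
  of j := finite_hom_mid' k hS _ (h1.of j) (h3.of j)

/-- to the objects over the quadratic field -/
theorem acyc_tf {X : C} {A m : ℤ} (h : Low.{w} k M O X A) (hm : A ≤ m - 2) (l : Fin 4)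
    (j : Fin 6) : Acyc.{w} X (tfl M O l m j) := by
  fin_cases j
  · exact h.o _ (by omega)
  · exact h.o _ (by omega)
  · exact h.m _ (by simp only; omega)
  · exact h.m _ (by simp only; omega)
  · exact h.m _ (by simp only; omega)
  · exact h.m _ (by simp only; omega)

theorem finite_tf {X : C} {A : ℤ} (h : Low.{w} k M O X A) (m : ℤ) (l : Fin 4)
    (j : Fin 6) : Module.Finite k (X ⟶ tfl M O l m j) := by
  fin_cases j
  · exact h.of _
  · exact h.of _
  · exact h.mf _
  · exact h.mf _
  · exact h.mf _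
  · exact h.mf _

/-- to the objects over the cubic field -/
theorem acyc_tl {X K : C} {A : ℤ} (h : Low.{w} k M O X A) (hA : A ≤ -2) (P : KOne M K)
    (j : Fin 5) : Acyc.{w} X (tl M O K j) := by
  fin_cases j
  · exact h.o _ (by omega)
  · exact h.o _ (by omega)
  · exact h.m _ (by simp only; omega)
  · exact P.acyc_to (h.m _ (by simp only; omega)) (h.m _ (by simp only; omega))
  · exact h.m _ (by simp only; omega)

theorem finite_tl {X K : C} {A : ℤ} (h : Low.{w} k M O X A) (P : KOne M K)
    (j : Fin 5) : Module.Finite k (X ⟶ tl M O K j) := by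
  fin_cases j
  · exact h.of _
  · exact h.of _
  · exact h.mf _
  · exact P.finite_to (h.mf _) (h.mf _)
  · exact h.mf _

end Low

/-- The conjugation functor `c` permutes the objects of rank one, with a bounded change of the
twist, and fixes the line bundles. -/
structure Perm (M : Finset (Fin 4) × ℤ → C) (O : ℤ → C) (c : C ⥤ C) : Prop where
  m : ∀ x, ∃ y : Finset (Fin 4) × ℤ, y.2 ≤ x.2 + 2 ∧ Nonempty (c.obj (M x) ≅ M y)
  o : ∀ j, Nonempty (c.obj (O j) ≅ O j)

variable {c : C ⥤ C} (hc : Perm M O c)

include T hc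

theorem low_cM (x : Finset (Fin 4) × ℤ) : Low.{w} k M O (c.obj (M x)) (x.2 + 5) := by
  obtain ⟨y, hy, ⟨e⟩⟩ := hc.m x
  exact ((low_M T y).mono (by omega)).iso e.symm

theorem low_cO (j : ℤ) : Low.{w} k M O (c.obj (O j)) (j + 1) := by
  obtain ⟨e⟩ := hc.o j
  exact (low_O T j).iso e.symm

/-- conjugates of the objects over the quadratic field -/
theorem low_ctf (m : ℤ) (l : Fin 4) (i : Fin 6) :
    Low.{w} k M O (c.obj (tfl M O l m i)) (m + 6) := by
  fin_cases i
  · exact (low_cO T hc _).mono (by omega)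
  · exact (low_cO T hc _).mono (by omega)
  · exact (low_cM T hc _).mono (by simp only; omega)
  · exact (low_cM T hc _).mono (by simp only; omega)
  · exact (low_cM T hc _).mono (by simp only; omega)
  · exact (low_cM T hc _).mono (by simp only; omega)

/-- conjugates of the objects over the cubic field -/
theorem low_ctl [c.Additive] [PreservesFiniteLimits c] [PreservesFiniteColimits c] {K : C}
    (P : KOne M K) (i : Fin 5) : Low.{w} k M O (c.obj (tl M O K i)) 5 := by
  fin_cases i
  · exact (low_cO T hc _).mono (by omega)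
  · exact (low_cO T hc _).mono (by omega)
  · exact (low_cM T hc _).mono (by simp only; omega)
  · exact Low.mid (P.se.map_of_exact c) ((low_cM T hc _).mono (by simp only; omega))
      ((low_cM T hc _).mono (by simp only; omega))
  · exact (low_cM T hc _).mono (by simp only; omega)

end

end Orl.Q
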