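import Pool.Agent.Work.MP_a6e60d_ag.Q.KApi

/-!
# The tiling of the quaternion order: lattices and their maps in elementary terms
-/

open CategoryTheory LaurentPolynomial Quaternion Orl.LF

set_option linter.unusedSectionVars false

attribute [-instance] CategoryTheory.catToReflQuiver

namespace Orl.Q

variable {k : Type} [Field k] {δ : Dat k}

/-! ### The subspaces of the tiling -/

theorem Dat.tile_ff {v w : Ch} (h : w ≤ v) : δ.tile (v, false) (w, false) = δ.slat v 0 := by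
  simp [Dat.tile, h]

theorem Dat.tile_ft {v w : Ch} (h : w ≤ v) : δ.tile (v, false) (w, true) = δ.clat v 0 := by
  simp [Dat.tile, h]

theorem Dat.tile_tt {v w : Ch} (h : w ≤ v) : δ.tile (v, true) (w, true) = δ.clat v 0 := by
  simp [Dat.tile, h]

theorem Dat.tile_tf (v w : Ch) : δ.tile (v, true) (w, false) = ⊥ := by
  by_cases h : w ≤ v <;> simp [Dat.tile, h]

theorem Dat.tile_not {v w : Ch} (h : ¬ w ≤ v) (b c : Bool) : δ.tile (v, b) (w, c) = ⊥ := by
  simp [Dat.tile, h]

theorem Dat.tiling_L (s t : Vx) : δ.tiling.L s t = δ.tile s t := rfl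

theorem Dat.one_mem_clat (v : Ch) : (1 : δ.D) ∈ δ.clat v 0 := Dat.slat_le (Dat.one_mem_slat v)

theorem Dat.mem_clat_mid (n : ℤ) (x : δ.D) : x ∈ δ.clat .mid n :=
  ⟨mem_lat_mid _, mem_lat_mid _, mem_lat_mid _, mem_lat_mid _⟩

theorem Dat.clat_mid (n : ℤ) : δ.clat .mid n = ⊤ := by
  rw [eq_top_iff]
  exact fun x _ => Dat.mem_clat_mid n x

theorem Dat.slat_mid (n m : ℤ) : δ.slat .mid n = δ.slat .mid m := by
  ext x
  simp [Dat.mem_slat, mem_lat_mid]

theorem Dat.one_mem_slat_mid (n : ℤ) : (1 : δ.D) ∈ δ.slat .mid n := by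
  rw [Dat.slat_mid n 0]
  exact Dat.one_mem_slat _

theorem Ch.le_iff {v w : Ch} : v ≤ w ↔ v = w ∨ w = .mid := Iff.rfl

theorem Ch.not_mid_le_zero : ¬ (Ch.mid ≤ Ch.zero) := by
  rintro (h | h) <;> cases h

theorem Ch.not_mid_le_inf : ¬ (Ch.mid ≤ Ch.inf) := by
  rintro (h | h) <;> cases h

theorem Ch.not_zero_le_inf : ¬ (Ch.zero ≤ Ch.inf) := by
  rintro (h | h) <;> cases h

theorem Ch.not_inf_le_zero : ¬ (Ch.inf ≤ Ch.zero) := by
  rintro (h | h) <;> cases h

theorem Dat.one_mem_tile {s t : Vx} (h : t.1 ≤ s.1) (hb : s.2 = true → t.2 = true) :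
    (1 : δ.D) ∈ δ.tile s t := by
  obtain ⟨v, b⟩ := s
  obtain ⟨w, c⟩ := t
  cases b
  · cases c
    · rw [Dat.tile_ff h]
      exact Dat.one_mem_slat v
    · rw [Dat.tile_ft h]
      exact Dat.one_mem_clat v
  · cases c
    · exact absurd (hb rfl) Bool.false_ne_true
    · rw [Dat.tile_tt h]
      exact Dat.one_mem_clat v

/-! ### Lattices -/

section lattice

variable {N N' N'' : Type} [AddCommGroup N] [Module k N] [Module δ.D N]
  [IsScalarTower k δ.D N] [AddCommGroup N'] [Module k N'] [Module δ.D N'] [IsScalarTower k δ.D N']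

namespace Lattice

variable (M : Lattice δ.tiling N) (M' : Lattice δ.tiling N')

theorem mono' {s t : Vx} (h : t.1 ≤ s.1) (hb : s.2 = true → t.2 = true) {n : N}
    (hn : n ∈ M.M t) : n ∈ M.M s := by
  have h1 := M.smul_mem (Dat.one_mem_tile (δ := δ) h hb) hn
  rwa [one_smul] at h1

theorem mono {v w : Ch} (h : v ≤ w) {b : Bool} {n : N} (hn : n ∈ M.M (v, b)) :
    n ∈ M.M (w, b) := M.mono' (s := (w, b)) (t := (v, b)) h id hn

theorem tf {v : Ch} {n : N} (hn : n ∈ M.M (v, true)) : n ∈ M.M (v, false) :=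
  M.mono' (s := (v, false)) (t := (v, true)) (Ch.le_refl v) (fun h => absurd h (by simp)) hn

theorem clat_smul {v : Ch} {x : δ.D} (hx : x ∈ δ.clat v 0) {n : N} (hn : n ∈ M.M (v, true)) :
    x • n ∈ M.M (v, true) :=
  M.smul_mem (s := (v, true)) (t := (v, true))
    (by rw [Dat.tiling_L, Dat.tile_tt (Ch.le_refl v)]; exact hx) hn

theorem slat_smul {v : Ch} {x : δ.D} (hx : x ∈ δ.slat v 0) {b : Bool} {n : N}
    (hn : n ∈ M.M (v, b)) : x • n ∈ M.M (v, b) := by
  cases b
  · exact M.smul_mem (s := (v, false)) (t := (v, false))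
      (by rw [Dat.tiling_L, Dat.tile_ff (Ch.le_refl v)]; exact hx) hn
  · exact M.clat_smul (Dat.slat_le hx) hn

/-- A lattice from its elementary properties. -/
def of (M : Ch → Bool → Submodule k N) (mono : ∀ v w b n, v ≤ w → n ∈ M v b → n ∈ M w b)
    (tf : ∀ v n, n ∈ M v true → n ∈ M v false)
    (cl : ∀ v x n, x ∈ δ.clat v 0 → n ∈ M v true → x • n ∈ M v true)
    (sl : ∀ v x n, x ∈ δ.slat v 0 → n ∈ M v false → x • n ∈ M v false) :
    Lattice δ.tiling N where
  M s := M s.1 s.2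
  smul_mem {s t x n} hx hn := by
    obtain ⟨v, b⟩ := s
    obtain ⟨w, c⟩ := t
    rw [Dat.tiling_L] at hx
    by_cases h : w ≤ v
    · cases b
      · cases c
        · rw [Dat.tile_ff h] at hx
          exact sl v x n hx (mono w v false n h hn)
        · rw [Dat.tile_ft h] at hx
          exact tf v _ (cl v x n hx (mono w v true n h hn))
      · cases c
        · rw [Dat.tile_tf, Submodule.mem_bot] at hx
          rw [hx, zero_smul]
          exact Submodule.zero_mem _
        · rw [Dat.tile_tt h] at hx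
          exact cl v x n hx (mono w v true n h hn)
    · rw [Dat.tile_not h, Submodule.mem_bot] at hx
      rw [hx, zero_smul]
      exact Submodule.zero_mem _

@[simp] theorem of_M (M : Ch → Bool → Submodule k N) (h1 h2 h3 h4) (s : Vx) :
    (Lattice.of (δ := δ) M h1 h2 h3 h4).M s = M s.1 s.2 := rfl

/-- A lattice with equal components at `(v, false)` and `(v, true)`. -/
def hat (M : Ch → Submodule k N) (mono : ∀ v w n, v ≤ w → n ∈ M v → n ∈ M w)
    (cl : ∀ v x n, x ∈ δ.clat v 0 → n ∈ M v → x • n ∈ M v) : Lattice δ.tiling N :=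
  Lattice.of (fun v _ => M v) (fun v w _ n => mono v w n) (fun _ _ h => h) cl
    (fun v x n hx hn => cl v x n (Dat.slat_le hx) hn)

@[simp] theorem hat_M (M : Ch → Submodule k N) (h1 h2) (s : Vx) :
    (Lattice.hat (δ := δ) M h1 h2).M s = M s.1 := rfl

variable {M M'}

/-- The maps of a family agree where they are both defined. -/
theorem Fam.agree (g : M.Fam M') {s t : Vx} (h : t.1 ≤ s.1) (hb : s.2 = true → t.2 = true)
    (n : N) (hn : n ∈ M.M t) (hn' : n ∈ M.M s) : (g.f s ⟨n, hn'⟩).1 = (g.f t ⟨n, hn⟩).1 := by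
  have h1 := (g.smul' (Dat.one_mem_tile (δ := δ) h hb) ⟨n, hn⟩).trans (one_smul _ _)
  have e : (⟨n, hn'⟩ : M.M s) =
      ⟨(1 : δ.D) • n, M.smul_mem (Dat.one_mem_tile (δ := δ) h hb) hn⟩ :=
    Subtype.ext (one_smul _ _).symm
  rw [e]
  exact h1

/-- Every family out of a lattice with component `N` at `(mid, true)` is given by a linear map. -/
theorem Fam.exists_lin (h : M.M (.mid, true) = ⊤) (g : M.Fam M') :
    ∃ (f : N →ₗ[δ.D] N') (hf : ∀ s n, n ∈ M.M s → f n ∈ M'.M s), M.mapD M' f hf = g := by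
  have ht : ∀ n : N, n ∈ M.M (.mid, true) := fun n => by rw [h]; trivial
  have hf' : ∀ n : N, n ∈ M.M (.mid, false) := fun n => M.tf (ht n)
  let f : N →ₗ[δ.D] N' :=
    { toFun := fun n => (g.f (.mid, true) ⟨n, ht n⟩).1
      map_add' := fun n m => by
        have := (g.f (.mid, true)).map_add ⟨n, ht n⟩ ⟨m, ht m⟩
        exact congrArg Subtype.val this
      map_smul' := fun x n => by
        have hx : x ∈ δ.tiling.L (.mid, true) (.mid, true) := by
          rw [Dat.tiling_L, Dat.tile_tt (Ch.le_refl _)]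
          exact Dat.mem_clat_mid 0 x
        exact g.smul' hx ⟨n, ht n⟩ }
  have hfn : ∀ s n (hn : n ∈ M.M s), (g.f s ⟨n, hn⟩).1 = f n := by
    intro s n hn
    have h1 : (g.f (.mid, false) ⟨n, hf' n⟩).1 = (g.f s ⟨n, hn⟩).1 :=
      g.agree (s := (.mid, false)) (t := s) (Ch.le_mid _) (fun h => absurd h (by simp)) n hn _
    have h2 : (g.f (.mid, false) ⟨n, hf' n⟩).1 = (g.f (.mid, true) ⟨n, ht n⟩).1 :=
      g.agree (s := (.mid, false)) (t := (.mid, true)) (Ch.le_mid _)
        (fun h => absurd h (by simp)) n (ht n) _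
    rw [← h1, h2]
    rfl
  refine ⟨f, fun s n hn => ?_, ?_⟩
  · rw [← hfn s n hn]
    exact (g.f s ⟨n, hn⟩).2
  · ext s n
    exact (hfn s n.1 n.2).symm

/-- There are no maps from a lattice of the form `hat W` to one with `W = 0`. -/
theorem Fam.eq_zero_of_hat (h : ∀ v, M.M (v, false) = M.M (v, true))
    (h' : ∀ v, M'.M (v, true) = ⊥) (g : M.Fam M') : g = 0 := by
  ext s n
  obtain ⟨v, b⟩ := s
  have hn : n.1 ∈ M.M (v, true) := by
    cases b
    · rw [← h v]
      exact n.2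
    · exact n.2
  have h1 : (g.f (v, true) ⟨n.1, hn⟩).1 = 0 :=
     (Submodule.mem_bot k).1 ((h' v).le (g.f (v, true) ⟨n.1, hn⟩).2)
  have h2 : (g.f (v, b) n).1 = (g.f (v, true) ⟨n.1, hn⟩).1 :=
    g.agree (s := (v, b)) (t := (v, true)) (Ch.le_refl v) (fun _ => rfl) n.1 hn n.2
  rw [h2, h1]
  rfl

end Lattice

/-! ### Maps out of `O(j)` -/

theorem Dat.latO_M_true (j : ℤ) (v : Ch) : (δ.latO j).M (v, true) = ⊥ := rfl

theorem Dat.latO_M_false (j : ℤ) (v : Ch) : (δ.latO j).M (v, false) = δ.slat v j := rfl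

theorem Dat.latE_M (j : ℤ) (s : Vx) : (δ.latE j).M s = δ.clat s.1 j := rfl

/-- The map out of `O(j)` given by an element. -/
noncomputable def Dat.latOMap {M' : Lattice δ.tiling N'} (j : ℤ) (y : N')
    (hy : ∀ v x, x ∈ δ.slat v j → x • y ∈ M'.M (v, false)) : (δ.latO j).Fam M' :=
  (δ.latO j).mapD M' (LinearMap.toSpanSingleton δ.D N' y) (by
    rintro ⟨v, b⟩ n hn
    cases b
    · exact hy v n hn
    · rw [Dat.latO_M_true, Submodule.mem_bot] at hn
      rw [hn, map_zero]
      exact Submodule.zero_mem _)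

/-- Every map out of `O(j)` is given by an element. -/
theorem Dat.latO_exists {M' : Lattice δ.tiling N'} {j : ℤ} (g : (δ.latO j).Fam M') :
    ∃ (y : N') (hy : ∀ v x, x ∈ δ.slat v j → x • y ∈ M'.M (v, false)),
      Dat.latOMap j y hy = g := by
  have h1 : (1 : δ.D) ∈ (δ.latO j).M (.mid, false) := Dat.one_mem_slat_mid j
  have key : ∀ v (x : δ.D) (hx : x ∈ δ.slat v j),
      (g.f (v, false) ⟨x, hx⟩).1 = x • (g.f (.mid, false) ⟨1, h1⟩).1 := by
    intro v x hx
    have hx' : x ∈ (δ.latO j).M (.mid, false) := Dat.slat_mono (Ch.le_mid v) hx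
    have e1 : (g.f (.mid, false) ⟨x, hx'⟩).1 = (g.f (v, false) ⟨x, hx⟩).1 :=
      g.agree (s := (.mid, false)) (t := (v, false)) (Ch.le_mid v) id x hx hx'
    rw [← e1]
    have hx0 : x ∈ δ.tiling.L (.mid, false) (.mid, false) := by
      rw [Dat.tiling_L, Dat.tile_ff (Ch.le_refl _), Dat.slat_mid 0 j]
      exact Dat.slat_mono (Ch.le_mid v) hx
    have e2 := g.smul' hx0 ⟨1, h1⟩
    rw [← e2]
    congr 3
    exact (mul_one x).symm
  refine ⟨(g.f (.mid, false) ⟨1, h1⟩).1, fun v x hx => ?_, ?_⟩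
  · rw [← key v x hx]
    exact (g.f (v, false) ⟨x, hx⟩).2
  · ext s n
    obtain ⟨v, b⟩ := s
    cases b
    · exact (key v n.1 n.2).symm
    · have hn : n.1 = 0 := (Submodule.mem_bot k).1 n.2
      have hn' : n = 0 := Subtype.ext hn
      rw [hn', map_zero, map_zero]

/-! ### The column modules -/

theorem Dat.col_M (s t : Vx) : (δ.tiling.col s).M t = δ.tile t s := rfl

theorem Dat.col_false_false {v w : Ch} (h : v ≤ w) :
    (δ.tiling.col (v, false)).M (w, false) = δ.slat w 0 := Dat.tile_ff h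

theorem Dat.col_false_true (v w : Ch) : (δ.tiling.col (v, false)).M (w, true) = ⊥ :=
  Dat.tile_tf w v

theorem Dat.col_true {v w : Ch} (h : v ≤ w) (b : Bool) :
    (δ.tiling.col (v, true)).M (w, b) = δ.clat w 0 := by
  cases b
  · exact Dat.tile_ft h
  · exact Dat.tile_tt h

theorem Dat.col_not {v w : Ch} (h : ¬ v ≤ w) (b c : Bool) :
    (δ.tiling.col (v, c)).M (w, b) = ⊥ := Dat.tile_not h b c

/-- The maps from the column module of `(v, b)` to a lattice are the elements of the component. -/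
theorem Tiling.colFam_exists {M' : Lattice δ.tiling N'} {s : Vx} (g : (δ.tiling.col s).Fam M') :
    ∃ (y : N') (hy : ∀ t x, x ∈ δ.tile t s → x • y ∈ M'.M t),
      (δ.tiling.col s).mapD M' (LinearMap.toSpanSingleton δ.D N' y) hy = g := by
  have h1 : (1 : δ.D) ∈ (δ.tiling.col s).M s := δ.tiling.one_mem s
  have key : ∀ t (x : δ.D) (hx : x ∈ δ.tile t s), (g.f t ⟨x, hx⟩).1 = x • (g.f s ⟨1, h1⟩).1 := by
    intro t x hx
    have e2 := g.smul' (s := t) (t := s) hx ⟨1, h1⟩
    rw [← e2]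
    congr 3
    exact (mul_one x).symm
  refine ⟨(g.f s ⟨1, h1⟩).1, fun t x hx => ?_, ?_⟩
  · rw [← key t x hx]
    exact (g.f t ⟨x, hx⟩).2
  · ext t n
    exact (key t n.1 n.2).symm

end lattice

end Orl.Q
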