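import Pool.Agent.Work.MP_a6e60d_ag.Q.Cop

/-!
# Maps between the rank one modules

The `D`- and `κ`-linear maps `M_{g,h} → M_{g',h'}` over `κ[x, 1/x]` are given by pairs `(x, y)`
with `g' x = y g`, `h' y = x h`.
-/

open LaurentPolynomial Quaternion

set_option linter.unusedSectionVars false

namespace Orl.Q

variable {k : Type} [Field k] {δ : Dat k} {κ : Type} [Field κ] [Algebra k κ]

/-! ### The module structure over `κ[x, 1/x]` -/

namespace Fac

variable (φ : Fac δ κ)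

noncomputable instance : Module κ[T;T⁻¹] φ.N :=
  inferInstanceAs (Module κ[T;T⁻¹] (κ[T;T⁻¹] × κ[T;T⁻¹]))

@[simp] theorem rsmul_fst (r : κ[T;T⁻¹]) (x : φ.N) : (r • x).1 = r * x.1 := rfl

@[simp] theorem rsmul_snd (r : κ[T;T⁻¹]) (x : φ.N) : (r • x).2 = r * x.2 := rfl

theorem zero_fst : (0 : φ.N).1 = 0 := rfl

theorem zero_snd : (0 : φ.N).2 = 0 := rfl

/-- the element with the given coordinates -/
def vec (x y : κ[T;T⁻¹]) : φ.N := (x, y)

@[simp] theorem vec_fst (x y : κ[T;T⁻¹]) : (φ.vec x y).1 = x := rfl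

@[simp] theorem vec_snd (x y : κ[T;T⁻¹]) : (φ.vec x y).2 = y := rfl

theorem eq_vec (x : φ.N) : x = φ.vec x.1 x.2 := rfl

theorem eq_sum (x : φ.N) : x = x.1 • φ.vec 1 0 + x.2 • φ.vec 0 1 := by
  ext1
  · simp [Fac.add_fst]
  · simp [Fac.add_snd]

theorem C_smul (c : κ) (x : φ.N) : (C c : κ[T;T⁻¹]) • x = c • x := by
  ext1
  · rw [rsmul_fst, Fac.ksmul_fst, LaurentPolynomial.smul_eq_C_mul]
  · rw [rsmul_snd, Fac.ksmul_snd, LaurentPolynomial.smul_eq_C_mul]

/-- a Laurent polynomial over `k` as an element of the quaternion algebra -/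
noncomputable def sc (f : k[T;T⁻¹]) : δ.D := ⟨f, 0, 0, 0⟩

theorem sc_smul (f : k[T;T⁻¹]) (x : φ.N) : (sc f : δ.D) • x = bc κ f • x := by
  ext1
  · rw [Fac.smul_fst, rsmul_fst]
    simp [sc]
  · rw [Fac.smul_snd, rsmul_snd]
    simp [sc]

/-- the element `i` -/
noncomputable def qi (δ : Dat k) : δ.D := ⟨0, 1, 0, 0⟩

/-- the element `j` -/
noncomputable def qj (δ : Dat k) : δ.D := ⟨0, 0, 1, 0⟩

theorem qi_smul (x : φ.N) : qi δ • x = φ.vec (C φ.s * x.1) (-(C φ.s * x.2)) := by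
  ext1
  · rw [Fac.smul_fst, vec_fst]
    simp [qi]
  · rw [Fac.smul_snd, vec_snd]
    simp [qi]

theorem qj_smul (x : φ.N) : qj δ • x = φ.vec (φ.h * x.2) (φ.g * x.1) := by
  ext1
  · rw [Fac.smul_fst, vec_fst]
    simp [qj]
  · rw [Fac.smul_snd, vec_snd]
    simp [qj]

theorem bc_T (m : ℤ) : bc κ (T m : k[T;T⁻¹]) = T m := by
  rw [bc, T, AddMonoidAlgebra.mapRingHom_single, map_one]
  rfl

theorem sc_T_smul (m : ℤ) (x : φ.N) : (sc (T m) : δ.D) • x = (T m : κ[T;T⁻¹]) • x := by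
  rw [sc_smul, bc_T]

end Fac

/-- a pair of Laurent polynomials which gives a map -/
structure PairMap (φ φ' : Fac δ κ) where
  /-- the first entry -/
  x : κ[T;T⁻¹]
  /-- the second entry -/
  y : κ[T;T⁻¹]
  hg : φ'.g * x = y * φ.g
  hh : φ'.h * y = x * φ.h

namespace PairMap

variable {φ φ' φ'' : Fac δ κ}

/-- the map of a pair -/
noncomputable def lin (p : PairMap φ φ') (hs : φ'.s = φ.s) : φ.N →ₗ[δ.D] φ'.N where
  toFun n := φ'.vec (p.x * n.1) (p.y * n.2)
  map_add' n n' := by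
    ext1
    · simp only [Fac.add_fst, Fac.vec_fst, mul_add]
    · simp only [Fac.add_snd, Fac.vec_snd, mul_add]
  map_smul' d n := by
    have hg := p.hg
    have hh := p.hh
    ext1
    · simp only [RingHom.id_apply, Fac.smul_fst, Fac.vec_fst, Fac.vec_snd, hs]
      linear_combination (-(bc κ d.imJ + C φ.s * bc κ d.imK) * n.2) * hh
    · simp only [RingHom.id_apply, Fac.smul_snd, Fac.vec_fst, Fac.vec_snd, hs]
      linear_combination (-(bc κ d.imJ - C φ.s * bc κ d.imK) * n.1) * hg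

variable (p : PairMap φ φ') (hs : φ'.s = φ.s)

@[simp] theorem lin_fst (n : φ.N) : (p.lin hs n).1 = p.x * n.1 := rfl

@[simp] theorem lin_snd (n : φ.N) : (p.lin hs n).2 = p.y * n.2 := rfl

theorem lin_rsmul (r : κ[T;T⁻¹]) (n : φ.N) : p.lin hs (r • n) = r • p.lin hs n := by
  ext1
  · simp only [lin_fst, Fac.rsmul_fst]
    ring
  · simp only [lin_snd, Fac.rsmul_snd]
    ring

theorem lin_ksmul (c : κ) (n : φ.N) : p.lin hs (c • n) = c • p.lin hs n := by
  rw [← Fac.C_smul, lin_rsmul, Fac.C_smul]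

/-- composition -/
noncomputable def comp (p : PairMap φ φ') (p' : PairMap φ' φ'') : PairMap φ φ'' where
  x := p'.x * p.x
  y := p'.y * p.y
  hg := by linear_combination p.x * p'.hg + p'.y * p.hg
  hh := by linear_combination p.y * p'.hh + p'.x * p.hh

/-- multiplication by a Laurent polynomial -/
noncomputable def smul (t : κ[T;T⁻¹]) (p : PairMap φ φ') : PairMap φ φ' where
  x := t * p.x
  y := t * p.y
  hg := by linear_combination t * p.hg
  hh := by linear_combination t * p.hh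

/-- the identity -/
noncomputable def id (φ : Fac δ κ) : PairMap φ φ where
  x := 1
  y := 1
  hg := by ring
  hh := by ring

theorem ext {p p' : PairMap φ φ'} (h1 : p.x = p'.x) (h2 : p.y = p'.y) : p = p' := by
  cases p
  cases p'
  simp only at h1 h2
  subst h1
  subst h2
  rfl

theorem bc_injective : Function.Injective (bc κ : k[T;T⁻¹] → κ[T;T⁻¹]) := by
  intro f f' h
  ext m
  have h2 := congrArg (fun f : κ[T;T⁻¹] => f.coeff m) h
  simp only [bc_coeff] at h2
  exact (algebraMap k κ).injective h2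

theorem g_ne (φ : Fac δ κ) (hq : δ.q ≠ 0) : φ.g ≠ 0 := by
  intro h
  have h1 := φ.gh
  rw [h, zero_mul] at h1
  exact hq (bc_injective (by rw [← h1, map_zero]))

theorem h_ne (φ : Fac δ κ) (hq : δ.q ≠ 0) : φ.h ≠ 0 := by
  intro h
  have h1 := φ.gh
  rw [h, mul_zero] at h1
  exact hq (bc_injective (by rw [← h1, map_zero]))

/-- a pair with `g' x = y g` gives a map -/
noncomputable def ofG (hq : δ.q ≠ 0) (x y : κ[T;T⁻¹]) (h : φ'.g * x = y * φ.g) : PairMap φ φ' where
  x := x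
  y := y
  hg := h
  hh := by
    refine mul_left_cancel₀ (g_ne φ hq) ?_
    linear_combination (-φ'.h) * h + x * φ'.gh - x * φ.gh

theorem y_eq_zero (hq : δ.q ≠ 0) (h : p.x = 0) : p.y = 0 := by
  have h1 := p.hg
  rw [h, mul_zero] at h1
  exact (mul_eq_zero.1 h1.symm).resolve_right (g_ne φ hq)

theorem x_eq_zero (hq : δ.q ≠ 0) (h : p.y = 0) : p.x = 0 := by
  have h1 := p.hh
  rw [h, mul_zero] at h1
  exact (mul_eq_zero.1 h1.symm).resolve_right (h_ne φ hq)

/-- a nonzero map is injective -/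
theorem lin_injective (hq : δ.q ≠ 0) (h : p.x ≠ 0) : Function.Injective (p.lin hs) := by
  rw [← LinearMap.ker_eq_bot, LinearMap.ker_eq_bot']
  intro n hn
  have h1 := congrArg (fun n : φ'.N => n.1) hn
  have h2 := congrArg (fun n : φ'.N => n.2) hn
  simp only [lin_fst, lin_snd, Fac.zero_fst, Fac.zero_snd] at h1 h2
  ext1
  · exact (mul_eq_zero.1 h1).resolve_left h
  · exact (mul_eq_zero.1 h2).resolve_left fun h3 => h (p.x_eq_zero hq h3)

end PairMap

/-! ### Every linear map is given by a pair -/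

section

variable {φ φ' : Fac δ κ} (hs : φ'.s = φ.s) (h2 : (2 : κ) ≠ 0) (hs0 : φ.s ≠ 0)

theorem Fac.map_rsmul (f : φ.N →ₗ[δ.D] φ'.N) (hf : ∀ (c : κ) n, f (c • n) = c • f n)
    (r : κ[T;T⁻¹]) (n : φ.N) : f (r • n) = r • f n := by
  induction r using LaurentPolynomial.induction_on' with
  | add p q hp hq => rw [add_smul, add_smul, map_add, hp, hq]
  | C_mul_T m c =>
    rw [mul_smul, mul_smul, Fac.C_smul, Fac.C_smul, hf, ← Fac.sc_T_smul, ← Fac.sc_T_smul,
      map_smul]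

include hs h2 hs0 in
/-- every linear map is given by a pair -/
theorem PairMap.exists_lin (f : φ.N →ₗ[δ.D] φ'.N) (hf : ∀ (c : κ) n, f (c • n) = c • f n) :
    ∃ p : PairMap φ φ', p.lin hs = f := by
  have hC : (C φ.s * 2 : κ[T;T⁻¹]) ≠ 0 := by
    have : (C φ.s * 2 : κ[T;T⁻¹]) = C (φ.s * 2) := by rw [map_mul, map_ofNat]
    rw [this]
    intro h
    have h3 := congrArg (fun f : κ[T;T⁻¹] => f.coeff 0) h
    rw [C_apply, if_pos rfl] at h3
    exact mul_ne_zero hs0 h2 h3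
  have a1 : (f (φ.vec 1 0)).2 = 0 := by
    have e : Fac.qi δ • φ.vec 1 0 = (C φ.s : κ[T;T⁻¹]) • φ.vec 1 0 := by
      rw [Fac.qi_smul]
      ext1 <;> simp
    have e1 := congrArg f e
    rw [map_smul, Fac.map_rsmul f hf, Fac.qi_smul] at e1
    have e2 := congrArg (fun n : φ'.N => n.2) e1
    simp only [Fac.vec_snd, Fac.rsmul_snd, hs] at e2
    have e3 : C φ.s * 2 * (f (φ.vec 1 0)).2 = 0 := by linear_combination -e2
    exact (mul_eq_zero.1 e3).resolve_left hC
  have a2 : (f (φ.vec 0 1)).1 = 0 := by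
    have e : Fac.qi δ • φ.vec 0 1 = (-C φ.s : κ[T;T⁻¹]) • φ.vec 0 1 := by
      rw [Fac.qi_smul]
      ext1
      · rw [Fac.rsmul_fst]
        simp
      · rw [Fac.rsmul_snd]
        simp
    have e1 := congrArg f e
    rw [map_smul, Fac.map_rsmul f hf, Fac.qi_smul] at e1
    have e2 := congrArg (fun n : φ'.N => n.1) e1
    simp only [Fac.vec_fst, Fac.rsmul_fst, hs] at e2
    have e3 : C φ.s * 2 * (f (φ.vec 0 1)).1 = 0 := by linear_combination e2
    exact (mul_eq_zero.1 e3).resolve_left hC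
  have a3 : φ'.g * (f (φ.vec 1 0)).1 = (f (φ.vec 0 1)).2 * φ.g := by
    have e : Fac.qj δ • φ.vec 1 0 = φ.g • φ.vec 0 1 := by
      rw [Fac.qj_smul]
      ext1 <;> simp
    have e1 := congrArg f e
    rw [map_smul, Fac.map_rsmul f hf, Fac.qj_smul] at e1
    have e2 := congrArg (fun n : φ'.N => n.2) e1
    simp only [Fac.vec_snd, Fac.rsmul_snd] at e2
    rw [e2, mul_comm]
  have a4 : φ'.h * (f (φ.vec 0 1)).2 = (f (φ.vec 1 0)).1 * φ.h := by
    have e : Fac.qj δ • φ.vec 0 1 = φ.h • φ.vec 1 0 := by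
      rw [Fac.qj_smul]
      ext1 <;> simp
    have e1 := congrArg f e
    rw [map_smul, Fac.map_rsmul f hf, Fac.qj_smul] at e1
    have e2 := congrArg (fun n : φ'.N => n.1) e1
    simp only [Fac.vec_fst, Fac.rsmul_fst] at e2
    rw [e2, mul_comm]
  refine ⟨⟨_, _, a3, a4⟩, LinearMap.ext fun n => ?_⟩
  conv_rhs => rw [φ.eq_sum n, map_add, Fac.map_rsmul f hf, Fac.map_rsmul f hf]
  ext1
  · simp only [PairMap.lin_fst, Fac.add_fst, Fac.rsmul_fst, a2, mul_zero, add_zero]
    ring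
  · simp only [PairMap.lin_snd, Fac.add_snd, Fac.rsmul_snd, a1, mul_zero, zero_add]
    ring

end

end Orl.Q
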