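import Pool.Agent.Work.MP_a6e60d_ag.Q.Tiled
import Pool.Agent.Work.MP_a6e60d_ag.LF.LinFun

/-!
# The quaternion order on the projective line

`Ch` is the set of the three charts of the projective line (`zero`: functions `κ[x]`, `inf`:
functions `κ[1/x]`, `mid`: functions `κ[x, 1/x]`), `lat κ v n` the sections of `O(n)` over `v`.
The quaternion algebra `D = H[k[x, 1/x], a, 0, q]` (`i * i = a`, `j * j = q`, `i * j = - j * i`)
contains the sections `clat v n` of the twist of the quaternion order.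
-/

open CategoryTheory LaurentPolynomial Quaternion

set_option linter.unusedSectionVars false

attribute [-instance] CategoryTheory.catToReflQuiver

namespace Orl.Q

/-- the charts of the projective line -/
inductive Ch | zero | inf | mid
  deriving DecidableEq, Fintype

/-- `v ≤ w`: the chart `w` is contained in the chart `v` (so there is a restriction `v → w`) -/
instance : LE Ch := ⟨fun v w => v = w ∨ w = .mid⟩

instance (v w : Ch) : Decidable (v ≤ w) := inferInstanceAs (Decidable (v = w ∨ w = .mid))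

theorem Ch.le_refl (v : Ch) : v ≤ v := Or.inl rfl

theorem Ch.le_mid (v : Ch) : v ≤ .mid := Or.inr rfl

theorem Ch.le_trans {u v w : Ch} (h : u ≤ v) (h' : v ≤ w) : u ≤ w := by
  rcases h' with rfl | rfl
  · exact h
  · exact Or.inr rfl

/-- the exponents of the monomials which are sections of `O(n)` over the chart -/
def Ch.Ok : Ch → ℤ → ℤ → Prop
  | .zero, _, m => 0 ≤ m
  | .inf, n, m => m ≤ n
  | .mid, _, _ => True

theorem Ch.Ok.add {v : Ch} {n n' m m' : ℤ} (h : v.Ok n m) (h' : v.Ok n' m') :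
    v.Ok (n + n') (m + m') := by
  cases v <;> simp_all [Ch.Ok] <;> omega

theorem Ch.Ok.mono {v w : Ch} (hv : v ≤ w) {n m : ℤ} (h : v.Ok n m) : w.Ok n m := by
  rcases hv with rfl | rfl
  · exact h
  · trivial

section lat

variable (κ : Type) [CommRing κ]

/-- the sections of `O(n)` over the chart `v` -/
def lat (v : Ch) (n : ℤ) : Submodule κ κ[T;T⁻¹] where
  carrier := {f | ∀ m, f.coeff m ≠ 0 → v.Ok n m}
  add_mem' {f g} hf hg m hm := by
    by_contra h
    have h1 : f.coeff m = 0 := by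
      by_contra h'
      exact h (hf m h')
    have h2 : g.coeff m = 0 := by
      by_contra h'
      exact h (hg m h')
    exact hm (by simp [h1, h2])
  zero_mem' m hm := absurd rfl hm
  smul_mem' c f hf m hm := by
    refine hf m fun h => hm ?_
    simp [h]

variable {κ}

theorem mem_lat {v : Ch} {n : ℤ} {f : κ[T;T⁻¹]} :
    f ∈ lat κ v n ↔ ∀ m, f.coeff m ≠ 0 → v.Ok n m := Iff.rfl

theorem mem_lat_mid {n : ℤ} (f : κ[T;T⁻¹]) : f ∈ lat κ .mid n := fun _ _ => trivial

theorem lat_mono {v w : Ch} (h : v ≤ w) {n : ℤ} {f : κ[T;T⁻¹]} (hf : f ∈ lat κ v n) :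
    f ∈ lat κ w n := fun m hm => (hf m hm).mono h

theorem lat_mul {v : Ch} {n n' : ℤ} {f g : κ[T;T⁻¹]} (hf : f ∈ lat κ v n) (hg : g ∈ lat κ v n') :
    f * g ∈ lat κ v (n + n') := by
  classical
  intro m hm
  have h1 : m ∈ (f * g).coeff.support := Finsupp.mem_support_iff.2 hm
  have h2 := AddMonoidAlgebra.support_coeff_mul_subset f g h1
  obtain ⟨x, hx, y, hy, rfl⟩ := Finset.mem_add.1 h2
  exact (hf x (Finsupp.mem_support_iff.1 hx)).add (hg y (Finsupp.mem_support_iff.1 hy))

theorem lat_mul' {v : Ch} {n n' p : ℤ} {f g : κ[T;T⁻¹]} (hf : f ∈ lat κ v n)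
    (hg : g ∈ lat κ v n') (h : n + n' = p) : f * g ∈ lat κ v p := h ▸ lat_mul hf hg

theorem single_mem_lat {v : Ch} {n m : ℤ} (h : v.Ok n m) (c : κ) : C c * T m ∈ lat κ v n := by
  intro m' hm'
  rw [← single_eq_C_mul_T] at hm'
  by_contra h'
  refine hm' ?_
  rw [AddMonoidAlgebra.coeff_single, Finsupp.single_apply]
  split_ifs with h1
  · subst h1
    exact absurd h h'
  · rfl

theorem C_mem_lat (v : Ch) (c : κ) : (C c : κ[T;T⁻¹]) ∈ lat κ v 0 := by
  have h : v.Ok 0 0 := by cases v <;> simp [Ch.Ok]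
  have := single_mem_lat h c
  rwa [T_zero, mul_one] at this

theorem one_mem_lat (v : Ch) : (1 : κ[T;T⁻¹]) ∈ lat κ v 0 := by
  have := C_mem_lat (κ := κ) v 1
  rwa [map_one] at this

end lat

/-! ### The quaternion algebra -/

/-- the datum: `a` and the form `q` of degree four (dehomogenised) -/
structure Dat (k : Type) [Field k] where
  /-- the square of `i` -/
  a : k
  /-- the square of `j` -/
  q : k[T;T⁻¹]
  hq : ∀ v, q ∈ lat k v 4

variable {k : Type} [Field k] (δ : Dat k)

/-- the quaternion algebra over `k[x, 1/x]` -/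
abbrev Dat.D : Type := ℍ[k[T;T⁻¹], C δ.a, 0, δ.q]

/-- the sections of the twist by `O(n)` of the quaternion order over the chart `v` -/
def Dat.clat (v : Ch) (n : ℤ) : Submodule k δ.D where
  carrier := {d | d.re ∈ lat k v n ∧ d.imI ∈ lat k v n ∧ d.imJ ∈ lat k v (n - 2) ∧
    d.imK ∈ lat k v (n - 2)}
  add_mem' hx hy := ⟨Submodule.add_mem _ hx.1 hy.1, Submodule.add_mem _ hx.2.1 hy.2.1,
    Submodule.add_mem _ hx.2.2.1 hy.2.2.1, Submodule.add_mem _ hx.2.2.2 hy.2.2.2⟩
  zero_mem' := ⟨Submodule.zero_mem _, Submodule.zero_mem _, Submodule.zero_mem _,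
    Submodule.zero_mem _⟩
  smul_mem' c _ hx := ⟨Submodule.smul_mem _ c hx.1, Submodule.smul_mem _ c hx.2.1,
    Submodule.smul_mem _ c hx.2.2.1, Submodule.smul_mem _ c hx.2.2.2⟩

/-- the functions on the chart `v`, as a subspace of the quaternion algebra (twisted by `O(n)`) -/
def Dat.slat (v : Ch) (n : ℤ) : Submodule k δ.D where
  carrier := {d | d.re ∈ lat k v n ∧ d.imI = 0 ∧ d.imJ = 0 ∧ d.imK = 0}
  add_mem' hx hy := ⟨Submodule.add_mem _ hx.1 hy.1, by simp [hx.2.1, hy.2.1],
    by simp [hx.2.2.1, hy.2.2.1], by simp [hx.2.2.2, hy.2.2.2]⟩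
  zero_mem' := ⟨Submodule.zero_mem _, rfl, rfl, rfl⟩
  smul_mem' c _ hx := ⟨Submodule.smul_mem _ c hx.1, by simp [hx.2.1],
    by simp [hx.2.2.1], by simp [hx.2.2.2]⟩

variable {δ}

theorem Dat.mem_clat {v : Ch} {n : ℤ} {d : δ.D} : d ∈ δ.clat v n ↔ d.re ∈ lat k v n ∧
    d.imI ∈ lat k v n ∧ d.imJ ∈ lat k v (n - 2) ∧ d.imK ∈ lat k v (n - 2) := Iff.rfl

theorem Dat.mem_slat {v : Ch} {n : ℤ} {d : δ.D} : d ∈ δ.slat v n ↔ d.re ∈ lat k v n ∧
    d.imI = 0 ∧ d.imJ = 0 ∧ d.imK = 0 := Iff.rfl

theorem Dat.slat_le {v : Ch} {n : ℤ} {d : δ.D} (h : d ∈ δ.slat v n) : d ∈ δ.clat v n :=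
  ⟨h.1, by rw [h.2.1]; exact Submodule.zero_mem _, by rw [h.2.2.1]; exact Submodule.zero_mem _,
    by rw [h.2.2.2]; exact Submodule.zero_mem _⟩

theorem Dat.clat_mono {v w : Ch} (h : v ≤ w) {n : ℤ} {d : δ.D} (hd : d ∈ δ.clat v n) :
    d ∈ δ.clat w n :=
  ⟨lat_mono h hd.1, lat_mono h hd.2.1, lat_mono h hd.2.2.1, lat_mono h hd.2.2.2⟩

theorem Dat.slat_mono {v w : Ch} (h : v ≤ w) {n : ℤ} {d : δ.D} (hd : d ∈ δ.slat v n) :
    d ∈ δ.slat w n := ⟨lat_mono h hd.1, hd.2⟩

theorem Dat.one_mem_slat (v : Ch) : (1 : δ.D) ∈ δ.slat v 0 := ⟨one_mem_lat v, rfl, rfl, rfl⟩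

theorem Dat.clat_mul {v : Ch} {n n' : ℤ} {x y : δ.D} (hx : x ∈ δ.clat v n)
    (hy : y ∈ δ.clat v n') : x * y ∈ δ.clat v (n + n') := by
  obtain ⟨x0, x1, x2, x3⟩ := hx
  obtain ⟨y0, y1, y2, y3⟩ := hy
  have ha := C_mem_lat v δ.a
  have hq := δ.hq v
  refine ⟨?_, ?_, ?_, ?_⟩
  · have h : (x * y).re = x.re * y.re + C δ.a * (x.imI * y.imI) + δ.q * (x.imJ * y.imJ)
        - C δ.a * (δ.q * (x.imK * y.imK)) := by
      simp [QuaternionAlgebra.re_mul]
      ring
    rw [h]
    refine Submodule.sub_mem _ (Submodule.add_mem _ (Submodule.add_mem _ (lat_mul' x0 y0 (by ring))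
      (lat_mul' ha (lat_mul x1 y1) (by ring))) (lat_mul' hq (lat_mul x2 y2) (by ring)))
      (lat_mul' ha (lat_mul hq (lat_mul x3 y3)) (by ring))
  · have h : (x * y).imI = x.re * y.imI + x.imI * y.re - δ.q * (x.imJ * y.imK)
        + δ.q * (x.imK * y.imJ) := by
      simp [QuaternionAlgebra.imI_mul]
      ring
    rw [h]
    refine Submodule.add_mem _ (Submodule.sub_mem _ (Submodule.add_mem _ (lat_mul' x0 y1 (by ring))
      (lat_mul' x1 y0 (by ring))) (lat_mul' hq (lat_mul x2 y3) (by ring)))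
      (lat_mul' hq (lat_mul x3 y2) (by ring))
  · have h : (x * y).imJ = x.re * y.imJ + C δ.a * (x.imI * y.imK) + x.imJ * y.re
        - C δ.a * (x.imK * y.imI) := by
      simp [QuaternionAlgebra.imJ_mul]
      ring
    rw [h]
    refine Submodule.sub_mem _ (Submodule.add_mem _ (Submodule.add_mem _ (lat_mul' x0 y2 (by ring))
      (lat_mul' ha (lat_mul x1 y3) (by ring))) (lat_mul' x2 y0 (by ring)))
      (lat_mul' ha (lat_mul x3 y1) (by ring))
  · have h : (x * y).imK = x.re * y.imK + x.imI * y.imJ - x.imJ * y.imI + x.imK * y.re := by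
      simp [QuaternionAlgebra.imK_mul]
    rw [h]
    refine Submodule.add_mem _ (Submodule.sub_mem _ (Submodule.add_mem _ (lat_mul' x0 y3 (by ring))
      (lat_mul' x1 y2 (by ring))) (lat_mul' x2 y1 (by ring))) (lat_mul' x3 y0 (by ring))

theorem Dat.slat_mul {v : Ch} {n n' : ℤ} {x y : δ.D} (hx : x ∈ δ.slat v n)
    (hy : y ∈ δ.slat v n') : x * y ∈ δ.slat v (n + n') := by
  obtain ⟨x0, x1, x2, x3⟩ := hx
  obtain ⟨y0, y1, y2, y3⟩ := hy
  refine ⟨?_, ?_, ?_, ?_⟩
  · have h : (x * y).re = x.re * y.re := by simp [QuaternionAlgebra.re_mul, x1, x2, x3]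
    rw [h]
    exact lat_mul x0 y0
  · simp [QuaternionAlgebra.imI_mul, x1, x2, x3, y1, y2, y3]
  · simp [QuaternionAlgebra.imJ_mul, x1, x2, x3, y1, y2, y3]
  · simp [QuaternionAlgebra.imK_mul, x1, x2, x3, y1, y2, y3]

theorem Dat.clat_mul' {v : Ch} {n n' p : ℤ} {x y : δ.D} (hx : x ∈ δ.clat v n)
    (hy : y ∈ δ.clat v n') (h : n + n' = p) : x * y ∈ δ.clat v p := h ▸ Dat.clat_mul hx hy

/-! ### The tiled algebra -/

/-- the vertices: a chart and a sheaf (`true` = the bundle `E`, `false` = the structure sheaf) -/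
abbrev Vx : Type := Ch × Bool

variable (δ)

/-- the subspaces of the tiling -/
noncomputable def Dat.tile (s t : Vx) : Submodule k δ.D :=
  if t.1 ≤ s.1 then
    match s.2, t.2 with
    | false, false => δ.slat s.1 0
    | false, true => δ.clat s.1 0
    | true, true => δ.clat s.1 0
    | true, false => ⊥
  else ⊥

/-- the tiling -/
noncomputable def Dat.tiling : Tiling k δ.D Vx where
  L := δ.tile
  one_mem s := by
    obtain ⟨v, b⟩ := s
    cases b
    · simpa [Dat.tile, Ch.le_refl] using Dat.one_mem_slat v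
    · simpa [Dat.tile, Ch.le_refl] using Dat.slat_le (Dat.one_mem_slat v)
  mul_mem {s t u x y} hx hy := by
    obtain ⟨v, b⟩ := s
    obtain ⟨w, c⟩ := t
    obtain ⟨z, d⟩ := u
    simp only [Dat.tile] at hx hy ⊢
    by_cases h1 : w ≤ v
    · by_cases h2 : z ≤ w
      · rw [if_pos h1] at hx
        rw [if_pos h2] at hy
        rw [if_pos (Ch.le_trans h2 h1)]
        cases b <;> cases c <;> cases d <;> simp only at hx hy ⊢
        · exact Dat.slat_mul hx (Dat.slat_mono h1 hy)
        · exact Dat.clat_mul' (Dat.slat_le hx) (Dat.clat_mono h1 hy) rfl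
        · rw [Submodule.mem_bot] at hy
          rw [hy, mul_zero]
          exact Submodule.zero_mem _
        · exact Dat.clat_mul' hx (Dat.clat_mono h1 hy) rfl
        · rw [Submodule.mem_bot] at hx
          rw [hx, zero_mul]
          exact Submodule.zero_mem _
        · rw [Submodule.mem_bot] at hx
          rw [hx, zero_mul]
          exact Submodule.zero_mem _
        · rw [Submodule.mem_bot] at hy
          rw [hy, mul_zero]
          exact Submodule.zero_mem _
        · exact Dat.clat_mul' hx (Dat.clat_mono h1 hy) rfl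
      · rw [if_neg h2, Submodule.mem_bot] at hy
        rw [hy, mul_zero]
        exact Submodule.zero_mem _
    · rw [if_neg h1, Submodule.mem_bot] at hx
      rw [hx, zero_mul]
      exact Submodule.zero_mem _

/-- the tiled algebra: its modules are the diagrams over the two charts and their intersection of
modules over `[[O, C], [0, C]]` -/
abbrev Dat.Alg : Type := δ.tiling.Alg

/-- the category -/
abbrev Dat.Cat : Type 1 := ModuleCat.{0} δ.Alg

/-! ### The objects over `k` -/

/-- the lattice of `O(j)` (concentrated in the vertices of the structure sheaf) -/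
noncomputable def Dat.latO (j : ℤ) : Lattice δ.tiling δ.D where
  M s := if s.2 then ⊥ else δ.slat s.1 j
  smul_mem {s t x n} hx hn := by
    obtain ⟨v, b⟩ := s
    obtain ⟨w, c⟩ := t
    simp only [Dat.tiling, Dat.tile] at hx hn ⊢
    cases c
    · by_cases h : w ≤ v
      · rw [if_pos h] at hx
        cases b
        · simp only [Bool.false_eq_true, if_false] at hx hn ⊢
          have := Dat.slat_mul hx (Dat.slat_mono h hn)
          rwa [zero_add] at this
        · simp only [Submodule.mem_bot] at hx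
          rw [hx, zero_smul]
          exact Submodule.zero_mem _
      · rw [if_neg h, Submodule.mem_bot] at hx
        rw [hx, zero_smul]
        exact Submodule.zero_mem _
    · simp only [if_true, Submodule.mem_bot] at hn
      rw [hn, smul_zero]
      exact Submodule.zero_mem _

/-- the lattice of `E(j)` -/
noncomputable def Dat.latE (j : ℤ) : Lattice δ.tiling δ.D where
  M s := δ.clat s.1 j
  smul_mem {s t x n} hx hn := by
    obtain ⟨v, b⟩ := s
    obtain ⟨w, c⟩ := t
    simp only [Dat.tiling, Dat.tile] at hx hn ⊢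
    by_cases h : w ≤ v
    · rw [if_pos h] at hx
      have h1 : x ∈ δ.clat v 0 := by
        cases b <;> cases c <;> simp only at hx
        · exact Dat.slat_le hx
        · exact hx
        · rw [Submodule.mem_bot] at hx
          rw [hx]
          exact Submodule.zero_mem _
        · exact hx
      exact Dat.clat_mul' h1 (Dat.clat_mono h hn) (zero_add j)
    · rw [if_neg h, Submodule.mem_bot] at hx
      rw [hx, zero_smul]
      exact Submodule.zero_mem _

/-- the object `O(j)` -/
noncomputable def Dat.O (j : ℤ) : δ.Cat := (δ.latO j).mod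

/-- the object `E(j)` -/
noncomputable def Dat.E (j : ℤ) : δ.Cat := (δ.latE j).mod

/-! ### Objects over an extension -/

section ext

variable (κ : Type) [Field κ] [Algebra k κ]

/-- base change of Laurent polynomials -/
noncomputable def bc : k[T;T⁻¹] →+* κ[T;T⁻¹] :=
  AddMonoidAlgebra.mapRingHom ℤ (algebraMap k κ)

theorem bc_coeff (f : k[T;T⁻¹]) (m : ℤ) : (bc κ f).coeff m = algebraMap k κ (f.coeff m) := by
  simp [bc]

theorem bc_mem_lat {v : Ch} {n : ℤ} {f : k[T;T⁻¹]} (hf : f ∈ lat k v n) :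
    bc κ f ∈ lat κ v n := by
  intro m hm
  refine hf m fun h => hm ?_
  rw [bc_coeff, h, map_zero]

/-- a factorisation `q = g h` over an extension `κ` of `k` with a square root `s` of `a` -/
structure Fac where
  /-- a square root of `a` -/
  s : κ
  hs : s * s = algebraMap k κ δ.a
  /-- the degree of the first factor -/
  e : ℤ
  /-- the first factor -/
  g : κ[T;T⁻¹]
  /-- the second factor -/
  h : κ[T;T⁻¹]
  hg : ∀ v, g ∈ lat κ v e
  hh : ∀ v, h ∈ lat κ v (4 - e)
  gh : g * h = bc κ δ.q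

variable {δ κ}

/-- the generic fibre of the rank one module of a factorisation -/
def Fac.N (_ : Fac δ κ) : Type := κ[T;T⁻¹] × κ[T;T⁻¹]

variable (φ : Fac δ κ)

noncomputable instance : AddCommGroup φ.N := inferInstanceAs (AddCommGroup (κ[T;T⁻¹] × κ[T;T⁻¹]))

noncomputable instance : Module κ φ.N := inferInstanceAs (Module κ (κ[T;T⁻¹] × κ[T;T⁻¹]))

noncomputable instance : Module k φ.N := Module.compHom φ.N (algebraMap k κ)

instance : IsScalarTower k κ φ.N where
  smul_assoc c x n := by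
    rw [Algebra.smul_def, mul_smul]
    rfl

noncomputable instance : SMul δ.D φ.N :=
  ⟨fun d x => (((bc κ d.re + C φ.s * bc κ d.imI) * x.1 +
      φ.h * (bc κ d.imJ + C φ.s * bc κ d.imK) * x.2,
    φ.g * (bc κ d.imJ - C φ.s * bc κ d.imK) * x.1 +
      (bc κ d.re - C φ.s * bc κ d.imI) * x.2) : κ[T;T⁻¹] × κ[T;T⁻¹])⟩

theorem Fac.smul_fst (d : δ.D) (x : φ.N) : (d • x).1 =
    (bc κ d.re + C φ.s * bc κ d.imI) * x.1 +
      φ.h * (bc κ d.imJ + C φ.s * bc κ d.imK) * x.2 := rfl

theorem Fac.smul_snd (d : δ.D) (x : φ.N) : (d • x).2 =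
    φ.g * (bc κ d.imJ - C φ.s * bc κ d.imK) * x.1 +
      (bc κ d.re - C φ.s * bc κ d.imI) * x.2 := rfl

@[simp] theorem bc_C (c : k) : bc κ (C c) = C (algebraMap k κ c) := by
  rw [bc]
  exact AddMonoidAlgebra.mapRingHom_single _ _ _

theorem Fac.add_fst (x y : φ.N) : (x + y).1 = x.1 + y.1 := rfl

theorem Fac.add_snd (x y : φ.N) : (x + y).2 = x.2 + y.2 := rfl

theorem Fac.Cs : (C φ.s * C φ.s : κ[T;T⁻¹]) = C (algebraMap k κ δ.a) := by
  rw [← map_mul, φ.hs]

@[ext] theorem Fac.N_ext {x y : φ.N} (h1 : x.1 = y.1) (h2 : x.2 = y.2) : x = y :=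
  Prod.ext h1 h2

noncomputable instance : Module δ.D φ.N where
  one_smul x := by
    ext1
    · simp [Fac.smul_fst]
    · simp [Fac.smul_snd]
  mul_smul d e x := by
    have hs := φ.Cs
    have hq := φ.gh
    ext1
    · simp only [Fac.smul_fst, Fac.smul_snd, QuaternionAlgebra.re_mul, QuaternionAlgebra.imI_mul,
        QuaternionAlgebra.imJ_mul, QuaternionAlgebra.imK_mul, map_add, map_sub, map_mul, bc_C,
        ← hs, ← hq, zero_mul, add_zero]
      ring
    · simp only [Fac.smul_fst, Fac.smul_snd, QuaternionAlgebra.re_mul, QuaternionAlgebra.imI_mul,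
        QuaternionAlgebra.imJ_mul, QuaternionAlgebra.imK_mul, map_add, map_sub, map_mul, bc_C,
        ← hs, ← hq, zero_mul, add_zero]
      ring
  smul_zero d := by
    ext1
    · show _ * 0 + _ * 0 = (0 : κ[T;T⁻¹])
      simp
    · show _ * 0 + _ * 0 = (0 : κ[T;T⁻¹])
      simp
  smul_add d x y := by
    ext1
    · simp only [Fac.smul_fst, Fac.add_fst, Fac.add_snd]
      ring
    · simp only [Fac.smul_snd, Fac.add_fst, Fac.add_snd]
      ring
  add_smul d e x := by
    ext1
    · simp only [Fac.smul_fst, Fac.add_fst, QuaternionAlgebra.re_add, QuaternionAlgebra.imI_add,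
        QuaternionAlgebra.imJ_add, QuaternionAlgebra.imK_add, map_add]
      ring
    · simp only [Fac.smul_snd, Fac.add_snd, QuaternionAlgebra.re_add, QuaternionAlgebra.imI_add,
        QuaternionAlgebra.imJ_add, QuaternionAlgebra.imK_add, map_add]
      ring
  zero_smul x := by
    ext1
    · simp [Fac.smul_fst]
      rfl
    · simp [Fac.smul_snd]
      rfl

end ext

end Orl.Q
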