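import Mathlib

/-!
# Cohomology of `O(m)` on the projective line

The map `K[X] × K[X] → K[X, 1/X]`, `(f, g) ↦ f(X) - X^m g(1/X)`: its kernel has dimension
`m + 1` (or zero) and its cokernel has dimension `-m-1` (or zero).
-/

open Polynomial LaurentPolynomial

namespace Orl.Q

variable {K : Type*} [Field K]

theorem coeff_toLaurent (f : K[X]) (j : ℤ) :
    (toLaurent f).coeff j = if 0 ≤ j then f.coeff j.toNat else 0 := by
  induction f using Polynomial.induction_on' with
  | add p q hp hq =>
    rw [map_add, AddMonoidAlgebra.coeff_add, Finsupp.add_apply, hp, hq, Polynomial.coeff_add]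
    split_ifs
    · rfl
    · rw [add_zero]
  | monomial n a =>
    rw [Polynomial.toLaurent_C_mul_T, ← single_eq_C_mul_T, AddMonoidAlgebra.coeff_single,
      Finsupp.single_apply, Polynomial.coeff_monomial]
    by_cases h : 0 ≤ j
    · rw [if_pos h]
      congr 1
      exact propext ⟨fun h1 => by lia, fun h1 => by lia⟩
    · rw [if_neg h, if_neg (by lia)]

theorem coeff_trunc (h : K[T;T⁻¹]) (n : ℕ) : (trunc h).coeff n = h.coeff n := by
  induction h using LaurentPolynomial.induction_on' with
  | add p q hp hq =>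
    rw [map_add, AddMonoidAlgebra.coeff_add, Finsupp.add_apply, Polynomial.coeff_add, hp, hq]
  | C_mul_T m a =>
    rw [trunc_C_mul_T, ← single_eq_C_mul_T, AddMonoidAlgebra.coeff_single, Finsupp.single_apply]
    by_cases h : 0 ≤ m
    · rw [if_pos h, Polynomial.coeff_monomial]
      congr 1
      exact propext ⟨fun h1 => by lia, fun h1 => by lia⟩
    · rw [if_neg h, if_neg (by lia), Polynomial.coeff_zero]

theorem coeff_invert (h : K[T;T⁻¹]) (j : ℤ) : (invert h).coeff j = h.coeff (-j) := by
  induction h using LaurentPolynomial.induction_on' with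
  | add p q hp hq =>
    rw [map_add, AddMonoidAlgebra.coeff_add, Finsupp.add_apply, hp, hq,
      AddMonoidAlgebra.coeff_add, Finsupp.add_apply]
  | C_mul_T m a =>
    rw [map_mul, invert_C, invert_T, ← single_eq_C_mul_T, ← single_eq_C_mul_T,
      AddMonoidAlgebra.coeff_single, AddMonoidAlgebra.coeff_single, Finsupp.single_apply,
      Finsupp.single_apply]
    congr 1
    exact propext ⟨fun h1 => by lia, fun h1 => by lia⟩

theorem coeff_T_mul (m : ℤ) (h : K[T;T⁻¹]) (j : ℤ) : (T m * h).coeff j = h.coeff (j - m) := by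
  induction h using LaurentPolynomial.induction_on' with
  | add p q hp hq =>
    rw [mul_add, AddMonoidAlgebra.coeff_add, Finsupp.add_apply, hp, hq,
      AddMonoidAlgebra.coeff_add, Finsupp.add_apply]
  | C_mul_T n a =>
    rw [mul_left_comm, ← T_add, ← single_eq_C_mul_T, ← single_eq_C_mul_T,
      AddMonoidAlgebra.coeff_single, AddMonoidAlgebra.coeff_single, Finsupp.single_apply,
      Finsupp.single_apply]
    congr 1
    exact propext ⟨fun h1 => by lia, fun h1 => by lia⟩

variable (K)

/-- the map `(f, g) ↦ f(X) - X^m g(1/X)` -/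
noncomputable def lau (m : ℤ) : K[X] × K[X] →ₗ[K] K[T;T⁻¹] :=
  (toLaurentAlg (R := K)).toLinearMap ∘ₗ LinearMap.fst K _ _ -
    (LinearMap.mulLeft K (T m)) ∘ₗ (invert (R := K)).toLinearMap ∘ₗ
      (toLaurentAlg (R := K)).toLinearMap ∘ₗ LinearMap.snd K _ _

variable {K}

theorem lau_apply (m : ℤ) (f g : K[X]) :
    lau K m (f, g) = toLaurent f - T m * invert (toLaurent g) := rfl

theorem coeff_lau (m : ℤ) (f g : K[X]) (j : ℤ) : (lau K m (f, g)).coeff j =
    (if 0 ≤ j then f.coeff j.toNat else 0) - (if j ≤ m then g.coeff (m - j).toNat else 0) := by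
  rw [lau_apply, AddMonoidAlgebra.coeff_sub, Finsupp.sub_apply, coeff_toLaurent, coeff_T_mul,
    coeff_invert, coeff_toLaurent]
  congr 1
  by_cases h : j ≤ m
  · rw [if_pos h, if_pos (by lia)]
    congr 1
    lia
  · rw [if_neg h, if_neg (by lia)]

/-- membership in the image -/
theorem mem_range_lau {m : ℤ} {h : K[T;T⁻¹]} :
    h ∈ LinearMap.range (lau K m) ↔ ∀ j : ℤ, m < j → j < 0 → h.coeff j = 0 := by
  constructor
  · rintro ⟨⟨f, g⟩, rfl⟩ j h1 h2
    rw [coeff_lau, if_neg (by lia), if_neg (by lia), sub_zero]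
  · intro hh
    refine ⟨(trunc h, -trunc (T m * invert (h - toLaurent (trunc h)))), ?_⟩
    ext j
    rw [coeff_lau, Polynomial.coeff_neg, coeff_trunc, coeff_trunc, coeff_T_mul, coeff_invert,
      AddMonoidAlgebra.coeff_sub, Finsupp.sub_apply, coeff_toLaurent, coeff_trunc]
    by_cases h1 : 0 ≤ j
    · rw [if_pos h1, Int.toNat_of_nonneg h1]
      by_cases h2 : j ≤ m
      · rw [if_pos h2, if_pos (by lia), Int.toNat_of_nonneg (by lia),
          show -(m - j - m) = j by lia, Int.toNat_of_nonneg h1]
        ring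
      · rw [if_neg h2]
        ring
    · rw [if_neg h1]
      by_cases h2 : j ≤ m
      · rw [if_pos h2, Int.toNat_of_nonneg (by lia), show -(m - j - m) = j by lia, if_neg h1]
        ring
      · rw [if_neg h2, hh j (by lia) (by lia), sub_zero]

theorem lau_surjective {m : ℤ} (hm : -1 ≤ m) : Function.Surjective (lau K m) := by
  rw [← LinearMap.range_eq_top, eq_top_iff]
  intro h _
  exact mem_range_lau.2 fun j h1 h2 => absurd h1 (by lia)

theorem lau_injective {m : ℤ} (hm : m ≤ -1) : Function.Injective (lau K m) := by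
  rw [← LinearMap.ker_eq_bot, eq_bot_iff]
  rintro ⟨f, g⟩ h
  rw [LinearMap.mem_ker] at h
  have key : ∀ j : ℤ, (if 0 ≤ j then f.coeff j.toNat else 0) -
      (if j ≤ m then g.coeff (m - j).toNat else 0) = 0 := by
    intro j
    rw [← coeff_lau, h]
    rfl
  rw [Submodule.mem_bot]
  refine Prod.ext (Polynomial.ext fun n => ?_) (Polynomial.ext fun n => ?_)
  · have h1 := key n
    rw [if_pos (by lia), if_neg (by lia), sub_zero, Int.toNat_natCast] at h1
    rw [h1]
    rfl
  · have h1 := key (m - n)
    rw [if_neg (by lia), if_pos (by lia), zero_sub, neg_eq_zero] at h1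
    rw [show (m - (m - (n : ℤ))).toNat = n by lia] at h1
    rw [h1]
    rfl

theorem coeff_sum_monomial {N : ℕ} (v : Fin N → K) (n : ℕ) :
    (∑ i : Fin N, Polynomial.monomial (i : ℕ) (v i)).coeff n =
      if h : n < N then v ⟨n, h⟩ else 0 := by
  rw [Polynomial.finsetSum_coeff]
  simp only [Polynomial.coeff_monomial]
  split_ifs with h
  · rw [Finset.sum_eq_single ⟨n, h⟩]
    · rw [if_pos rfl]
    · intro i _ hi
      rw [if_neg fun h1 => hi (Fin.ext h1)]
    · intro h1
      exact absurd (Finset.mem_univ _) h1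
  · refine Finset.sum_eq_zero fun i _ => if_neg fun h1 => h ?_
    rw [← h1]
    exact i.2

theorem coeff_sum_monomial_rev {N : ℕ} (v : Fin N → K) (n : ℕ) :
    (∑ i : Fin N, Polynomial.monomial (N - 1 - (i : ℕ)) (v i)).coeff n =
      if h : n < N then v ⟨N - 1 - n, by lia⟩ else 0 := by
  rw [Polynomial.finsetSum_coeff]
  simp only [Polynomial.coeff_monomial]
  split_ifs with h
  · rw [Finset.sum_eq_single ⟨N - 1 - n, by lia⟩]
    · rw [if_pos (by simp only; lia)]
    · intro i _ hi
      refine if_neg fun h1 => hi (Fin.ext ?_)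
      have := i.2
      simp only
      lia
    · intro h1
      exact absurd (Finset.mem_univ _) h1
  · refine Finset.sum_eq_zero fun i _ => if_neg fun h1 => h ?_
    have := i.2
    lia

/-- the first coefficients of `f` for an element of the kernel -/
noncomputable def kerCoeff (K : Type*) [Field K] (m : ℤ) :
    LinearMap.ker (lau K m) →ₗ[K] (Fin (m + 1).toNat → K) :=
  LinearMap.pi fun i => Polynomial.lcoeff K i ∘ₗ LinearMap.fst K _ _ ∘ₗ Submodule.subtype _

theorem kerCoeff_bijective (m : ℤ) : Function.Bijective (kerCoeff K m) := by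
  constructor
  · rw [← LinearMap.ker_eq_bot, eq_bot_iff]
    rintro ⟨⟨f, g⟩, h⟩ h0
    rw [LinearMap.mem_ker] at h h0
    have key : ∀ j : ℤ, (if 0 ≤ j then f.coeff j.toNat else 0) -
        (if j ≤ m then g.coeff (m - j).toNat else 0) = 0 := by
      intro j
      rw [← coeff_lau, h]
      rfl
    have hf : ∀ n : ℕ, f.coeff n = 0 := by
      intro n
      by_cases hn : (n : ℤ) ≤ m
      · exact congrFun h0 ⟨n, by lia⟩
      · have h1 := key n
        rwa [if_pos (by lia), if_neg hn, sub_zero, Int.toNat_natCast] at h1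
    rw [Submodule.mem_bot]
    refine Subtype.ext (Prod.ext (Polynomial.ext hf) (Polynomial.ext fun n => ?_))
    have h1 := key (m - n)
    rw [if_pos (show m - (n : ℤ) ≤ m by lia), show (m - (m - (n : ℤ))).toNat = n by lia] at h1
    have h2 : (if 0 ≤ m - (n : ℤ) then f.coeff (m - (n : ℤ)).toNat else 0) = 0 := by
      split_ifs
      · exact hf _
      · rfl
    rw [h2, zero_sub, neg_eq_zero] at h1
    rw [h1]
    rfl
  · intro v
    refine ⟨⟨(∑ i : Fin (m + 1).toNat, Polynomial.monomial (i : ℕ) (v i),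
      ∑ i : Fin (m + 1).toNat, Polynomial.monomial ((m + 1).toNat - 1 - (i : ℕ)) (v i)), ?_⟩, ?_⟩
    · rw [LinearMap.mem_ker]
      ext j
      rw [coeff_lau, coeff_sum_monomial, coeff_sum_monomial_rev]
      change _ = (0 : K)
      by_cases h1 : 0 ≤ j
      · by_cases h2 : j ≤ m
        · rw [if_pos h1, if_pos h2, dif_pos (by lia), dif_pos (by lia), sub_eq_zero]
          congr 1
          exact Fin.ext (by simp only; lia)
        · rw [if_pos h1, if_neg h2, dif_neg (by lia), sub_zero]
      · by_cases h2 : j ≤ m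
        · rw [if_neg h1, if_pos h2, dif_neg (by lia), sub_zero]
        · rw [if_neg h1, if_neg h2, sub_zero]
    · funext i
      exact (coeff_sum_monomial v i).trans (dif_pos i.2)

/-- the kernel -/
noncomputable def kerEquiv (K : Type*) [Field K] (m : ℤ) :
    LinearMap.ker (lau K m) ≃ₗ[K] (Fin (m + 1).toNat → K) :=
  LinearEquiv.ofBijective (kerCoeff K m) (kerCoeff_bijective m)

/-- the coefficients between `m` and `0` -/
noncomputable def cokerCoeff (K : Type*) [Field K] (m : ℤ) :
    K[T;T⁻¹] →ₗ[K] (Fin (-m - 1).toNat → K) where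
  toFun h i := h.coeff (m + 1 + (i : ℕ))
  map_add' h h' := by
    funext i
    rw [AddMonoidAlgebra.coeff_add]
    rfl
  map_smul' r h := by
    funext i
    rw [AddMonoidAlgebra.coeff_smul]
    rfl

theorem ker_cokerCoeff (m : ℤ) : LinearMap.ker (cokerCoeff K m) = LinearMap.range (lau K m) := by
  ext h
  rw [mem_range_lau, LinearMap.mem_ker]
  constructor
  · intro h0 j h1 h2
    have h3 := congrFun h0 ⟨(j - m - 1).toNat, by lia⟩
    have h4 : h.coeff (m + 1 + ((j - m - 1).toNat : ℕ)) = 0 := h3
    rwa [show m + 1 + ((j - m - 1).toNat : ℤ) = j by lia] at h4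
  · intro h0
    funext i
    have := i.2
    exact h0 _ (by lia) (by lia)

theorem cokerCoeff_surjective (m : ℤ) : Function.Surjective (cokerCoeff K m) := by
  intro v
  refine ⟨∑ i : Fin (-m - 1).toNat, AddMonoidAlgebra.single (m + 1 + (i : ℕ) : ℤ) (v i), ?_⟩
  funext i
  change (∑ i : Fin (-m - 1).toNat,
    AddMonoidAlgebra.single (m + 1 + (i : ℕ) : ℤ) (v i)).coeff (m + 1 + (i : ℕ)) = v i
  rw [AddMonoidAlgebra.coeff_sum, Finsupp.finsetSum_apply, Finset.sum_eq_single i]
  · rw [AddMonoidAlgebra.coeff_single, Finsupp.single_apply, if_pos rfl]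
  · intro i' _ hi'
    rw [AddMonoidAlgebra.coeff_single, Finsupp.single_apply, if_neg]
    intro h1
    exact hi' (Fin.ext (by lia))
  · intro h1
    exact absurd (Finset.mem_univ _) h1

/-- the cokernel -/
noncomputable def cokerEquiv (K : Type*) [Field K] (m : ℤ) :
    (K[T;T⁻¹] ⧸ LinearMap.range (lau K m)) ≃ₗ[K] (Fin (-m - 1).toNat → K) :=
  (Submodule.quotEquivOfEq _ _ (ker_cokerCoeff m).symm).trans
    ((cokerCoeff K m).quotKerEquivOfSurjective (cokerCoeff_surjective m))

theorem finrank_ker_lau (m : ℤ) : Module.finrank K (LinearMap.ker (lau K m)) = (m + 1).toNat := by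
  rw [(kerEquiv K m).finrank_eq, Module.finrank_fin_fun]

instance finite_ker_lau (m : ℤ) : Module.Finite K (LinearMap.ker (lau K m)) :=
  Module.Finite.equiv (kerEquiv K m).symm

theorem finrank_coker_lau (m : ℤ) :
    Module.finrank K (K[T;T⁻¹] ⧸ LinearMap.range (lau K m)) = (-m - 1).toNat := by
  rw [(cokerEquiv K m).finrank_eq, Module.finrank_fin_fun]

instance finite_coker_lau (m : ℤ) : Module.Finite K (K[T;T⁻¹] ⧸ LinearMap.range (lau K m)) :=
  Module.Finite.equiv (cokerEquiv K m).symm

end Orl.Q
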