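import Pool.Agent.Work.MP_a6e60d_ag.Q.CutHom

/-!
# The maps over the overlap between the rank one objects
-/

open CategoryTheory CategoryTheory.Limits LaurentPolynomial Quaternion Orl.LF

set_option linter.unusedSectionVars false

attribute [-instance] CategoryTheory.catToReflQuiver

namespace Orl.Q

section

variable {k : Type} [Field k] {δ : Dat k} {κ : Type} [Field κ] [Algebra k κ] {φ φ' : Fac δ κ}

/-- every map over the overlap splits -/
theorem Lk.split_mm (l : Lk φ φ') (hs : φ'.s = φ.s) (h2 : (2 : κ) ≠ 0) (hs0 : φ.s ≠ 0)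
    (hq : δ.q ≠ 0) {n n' : ℤ} (hd : -1 ≤ n' - n - l.m)
    (f : Lattice.kmod (Lattice.cut_stable (φ.lat_stable n) .mid) ⟶ φ'.M n') :
    ∃ (f0 : Lattice.kmod (Lattice.cut_stable (φ.lat_stable n) .zero) ⟶ φ'.M n')
      (f1 : Lattice.kmod (Lattice.cut_stable (φ.lat_stable n) .inf) ⟶ φ'.M n'),
      f = Lattice.cutK (φ.lat_stable n) .zero .mid (Ch.le_mid _) ≫ f0 -
        Lattice.cutK (φ.lat_stable n) .inf .mid (Ch.le_mid _) ≫ f1 := by
  obtain ⟨p, hp, hf⟩ := PairMap.exists_homCut hs h2 hs0 f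
  obtain ⟨t, ht⟩ := l.exists_eq_smul hq p
  subst ht
  obtain ⟨t0, t1, h0, h1, h3⟩ := exists_split hd t
  have p0 : (l.toPairMap.smul t0).Pres .zero n n' := l.pres_iff.2 h0
  have p1 : (l.toPairMap.smul t1).Pres .inf n n' := l.pres_iff.2 h1
  refine ⟨(l.toPairMap.smul t0).homCut hs n n' .zero p0,
    (l.toPairMap.smul t1).homCut hs n n' .inf p1, ?_⟩
  rw [PairMap.homCut_comp, PairMap.homCut_comp, ← hf]
  refine PairMap.homCut_sub hs ?_ ?_
  · show t * l.x = t0 * l.x - t1 * l.x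
    rw [h3, sub_mul]
  · show t * l.y = t0 * l.y - t1 * l.y
    rw [h3, sub_mul]

/-- every map over the overlap between line bundles splits -/
theorem Fac.split_homOO {n n' : ℤ} (ha : -1 ≤ n' - n)
    (f : Lattice.kmod (Lattice.cut_stable (φ.latO_stable n) .mid) ⟶
      Lattice.kmod (φ'.latO_stable n')) :
    ∃ (f0 : Lattice.kmod (Lattice.cut_stable (φ.latO_stable n) .zero) ⟶
        Lattice.kmod (φ'.latO_stable n'))
      (f1 : Lattice.kmod (Lattice.cut_stable (φ.latO_stable n) .inf) ⟶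
        Lattice.kmod (φ'.latO_stable n')),
      f = Lattice.cutK (φ.latO_stable n) .zero .mid (Ch.le_mid _) ≫ f0 -
        Lattice.cutK (φ.latO_stable n) .inf .mid (Ch.le_mid _) ≫ f1 := by
  obtain ⟨y, hy, rfl⟩ := Fac.exists_homO f
  obtain ⟨s0, s1, h1, h2, h3⟩ := exists_split ha y.1
  have hy2 : y.2 = 0 := by
    have h := (hy .mid (Ch.le_refl _) 1 (mem_lat_mid 1)).2
    rwa [one_smul] at h
  have key : ∀ v (p : κ[T;T⁻¹]), p ∈ Orl.Q.lat κ v (n' - n) →
      ∀ w, v ≤ w → ∀ r ∈ Orl.Q.lat κ w n, r • φ'.vec p 0 ∈ (φ'.latO n').M (w, false) := by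
    intro v p hp w hvw r hr
    exact ⟨lat_mul' hr (lat_mono hvw hp) (by ring), mul_zero r⟩
  refine ⟨Fac.homO (φ'.latO_stable n') n .zero (φ'.vec s0 0) (key .zero s0 h1),
    Fac.homO (φ'.latO_stable n') n .inf (φ'.vec s1 0) (key .inf s1 h2), ?_⟩
  rw [Fac.homO_comp, Fac.homO_comp]
  refine Fac.homO_sub ?_
  have e : y = φ'.vec (s0 - s1) (0 - 0) := by
    ext1
    · exact h3
    · exact hy2.trans (sub_zero _).symm
  refine e.trans ?_
  ext1
  · rfl
  · rfl

end

end Orl.Q
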