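import Pool.Agent.Work.MP_a6e60d_ag.Q.TabHomO

/-!
# The entries of the table which concern maps only, for the objects over a splitting field
-/

open CategoryTheory CategoryTheory.Limits LaurentPolynomial Quaternion Orl.LF

set_option linter.unusedSectionVars false

attribute [-instance] CategoryTheory.catToReflQuiver

namespace Orl.Q

namespace Spl

variable {k : Type} [Field k] {δ : Dat k} {K : Type} [Field K] [Algebra k K] (S : Spl δ K)

/-- the objects of rank one -/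
noncomputable def Mx (x : Finset (Fin 4) × ℤ) : ModObj k K δ.Cat := S.M x.1 x.2

/-- the map of a section -/
noncomputable def pr (x y : Finset (Fin 4) × ℤ) (t : K[T;T⁻¹]) :
    PairMap (S.fac x.1) (S.fac y.1) := (S.lk x.1 y.1).toPairMap.smul t

theorem pr_pres {x y : Finset (Fin 4) × ℤ} {t : K[T;T⁻¹]} (ht : ∀ v, t ∈ lat K v (dg x y))
    (v : Ch) : (S.pr x y t).Pres v x.2 y.2 :=
  ((S.lk x.1 y.1).pres_iff (v := v)).2 (ht v)

/-- the map of a section -/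
noncomputable def hm (x y : Finset (Fin 4) × ℤ) (t : K[T;T⁻¹])
    (ht : ∀ v, t ∈ lat K v (dg x y)) : S.Mx x ⟶ S.Mx y :=
  (S.pr x y t).hom rfl x.2 y.2 (S.pr_pres ht)

theorem exists_hm {x y : Finset (Fin 4) × ℤ} (f : S.Mx x ⟶ S.Mx y) :
    ∃ (t : K[T;T⁻¹]) (ht : ∀ v, t ∈ lat K v (dg x y)), S.hm x y t ht = f := by
  obtain ⟨p, h, hp⟩ := PairMap.exists_hom (φ := S.fac x.1) (φ' := S.fac y.1) rfl S.two_ne
    S.s_ne f
  obtain ⟨t, ht⟩ := (S.lk x.1 y.1).exists_eq_smul S.q_ne_zero p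
  subst ht
  exact ⟨t, fun v => ((S.lk x.1 y.1).pres_iff (v := v)).1 (h v), hp⟩

theorem hm_zero {x y : Finset (Fin 4) × ℤ} {ht : ∀ v, (0 : K[T;T⁻¹]) ∈ lat K v (dg x y)} :
    S.hm x y 0 ht = 0 := by
  refine PairMap.hom_eq_zero ?_ ?_
  · show 0 * _ = _
    rw [zero_mul]
  · show 0 * _ = _
    rw [zero_mul]

theorem hm_congr {x y : Finset (Fin 4) × ℤ} {t t' : K[T;T⁻¹]} (h : t = t')
    {ht : ∀ v, t ∈ lat K v (dg x y)} {ht' : ∀ v, t' ∈ lat K v (dg x y)} :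
    S.hm x y t ht = S.hm x y t' ht' := by
  subst h
  rfl

theorem tab_mm0 {x y : Finset (Fin 4) × ℤ} (h : dg x y < 0) (f : S.Mx x ⟶ S.Mx y) : f = 0 := by
  obtain ⟨t, ht, rfl⟩ := S.exists_hm f
  have h0 := glob_eq_zero h ht
  subst h0
  exact S.hm_zero

theorem tab_mm1 {x y : Finset (Fin 4) × ℤ} (h : dg x y = 0) (f g : S.Mx x ⟶ S.Mx y)
    (hf : f ≠ 0) : ∃ c : K, g = (zact k K δ.Cat c).app (S.Mx x) ≫ f := by
  obtain ⟨t, ht, rfl⟩ := S.exists_hm f
  obtain ⟨t', ht', rfl⟩ := S.exists_hm g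
  obtain ⟨c, hc⟩ := glob_zero (t := t) fun v => by rw [← h]; exact ht v
  obtain ⟨c', hc'⟩ := glob_zero (t := t') fun v => by rw [← h]; exact ht' v
  have hc0 : c ≠ 0 := by
    rintro rfl
    rw [map_zero] at hc
    subst hc
    exact hf S.hm_zero
  have e : (C (c' / c) * C c : K[T;T⁻¹]) = C c' := by
    rw [← map_mul, div_mul_cancel₀ _ hc0]
  refine ⟨c' / c, PairMap.zact_hom ?_ ?_⟩
  · show t' * _ = C (c' / c) * (t * _)
    rw [hc, hc', ← mul_assoc, e]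
  · show t' * _ = C (c' / c) * (t * _)
    rw [hc, hc', ← mul_assoc, e]

theorem tab_mono {x y : Finset (Fin 4) × ℤ} (f : S.Mx x ⟶ S.Mx y) (hf : f ≠ 0) : Mono f := by
  obtain ⟨t, ht, rfl⟩ := S.exists_hm f
  refine PairMap.mono_hom S.q_ne_zero ?_
  intro h
  have h1 : t * (S.lk x.1 y.1).x = 0 := h
  have h2 : t = 0 := (mul_eq_zero.1 h1).resolve_right ((S.lk x.1 y.1).x_ne_zero S.q_ne_zero)
  subst h2
  exact hf S.hm_zero

theorem tab_mfin [Module.Finite k K] (x y : Finset (Fin 4) × ℤ) :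
    Module.Finite k (S.Mx x ⟶ S.Mx y) :=
  Fac.finite_hom (φ := S.fac x.1) (φ' := S.fac y.1) rfl S.two_ne S.s_ne S.q_ne_zero x.2 y.2

theorem tab_ne (x : Finset (Fin 4) × ℤ) : ¬ IsZero (S.Mx x) := Fac.not_isZero_M _ _

theorem tab_omfin [Module.Finite k K] (j : ℤ) (x : Finset (Fin 4) × ℤ) :
    Module.Finite k (S.O j ⟶ S.Mx x) := Fac.finite_homOM (φ := S.fac ∅) (φ' := S.fac x.1) j x.2

theorem tab_oofin [Module.Finite k K] (i j : ℤ) : Module.Finite k (S.O i ⟶ S.O j) :=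
  Fac.finite_homOO (φ := S.fac ∅) (φ' := S.fac ∅) i j

theorem tab_oo0 {i j : ℤ} (h : j < i) (f : S.O i ⟶ S.O j) : f = 0 := Fac.homOO_eq_zero h f

theorem tab_oo1 (j : ℤ) (f : S.O j ⟶ S.O j) : ∃ c : K, f = (zact k K δ.Cat c).app (S.O j) :=
  Fac.endO j f

theorem tab_one (j : ℤ) : ¬ IsZero (S.O j) := Fac.not_isZero_O _ _

/-- there are no maps from the rank one objects to the line bundles -/
theorem tab_mo0 (x : Finset (Fin 4) × ℤ) (j : ℤ) (f : S.Mx x ⟶ S.O j) : f = 0 := by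
  obtain ⟨g, hg, hf⟩ := Lattice.Fam.khom_surjective (hM := (S.fac x.1).lat_stable x.2)
    (hM' := (S.fac ∅).latO_stable j) f
  have h0 := Lattice.Fam.eq_zero_of_hat (M := (S.fac x.1).lat x.2) (M' := (S.fac ∅).latO j)
    (fun _ => rfl) (fun _ => rfl) g
  rw [← hf]
  subst h0
  rfl

end Spl

end Orl.Q
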