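import Pool.Agent.Work.MP_a6e60d_ag.Q.FacCut
import Pool.Agent.Work.MP_a6e60d_ag.Q.CutMM
import Pool.Agent.Work.MP_a6e60d_ag.Q.TabSpl

/-!
# The groups Ext out of the objects `M_I(n)`
-/

open CategoryTheory CategoryTheory.Abelian CategoryTheory.Limits LaurentPolynomial Quaternion
  Orl.LF

set_option linter.unusedSectionVars false

attribute [-instance] CategoryTheory.catToReflQuiver

universe w

namespace Orl.Q

section

variable {k : Type} [Field k] {δ : Dat k} {κ : Type} [Field κ] [Algebra k κ]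
  [HasExt.{w} (ModObj k κ (ModuleCat.{0} δ.Alg))] {φ φ' : Fac δ κ}

set_option maxHeartbeats 400000 in
theorem Lk.acyc_MM (l : Lk φ φ') (hs : φ'.s = φ.s) (h2 : (2 : κ) ≠ 0) (hs0 : φ.s ≠ 0)
    (hq : δ.q ≠ 0) (hc : ∀ v, Cop v φ.e (4 - φ.e) φ.g φ.h) {n n' : ℤ}
    (hd : -1 ≤ n' - n - l.m) : Acyc.{w} (φ.M n) (φ'.M n') :=
  Lattice.acyc_of_cut (φ.lat_stable n) (φ.acyc_cut _ h2 hs0 (hc .zero) n)
    (φ.acyc_cut _ h2 hs0 (hc .inf) n) (φ.acyc_cut _ h2 hs0 (hc .mid) n)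
    fun f => l.split_mm hs h2 hs0 hq hd f

/-- there are no maps from the parts of `M` to the line bundles -/
theorem Fac.cutMO_eq_zero (v : Ch) (n n' : ℤ)
    (f : Lattice.kmod (Lattice.cut_stable (φ.lat_stable n) v) ⟶
      Lattice.kmod (φ'.latO_stable n')) : f = 0 := by
  obtain ⟨g, hg, hf⟩ := Lattice.Fam.khom_surjective
    (hM := Lattice.cut_stable (φ.lat_stable n) v) (hM' := φ'.latO_stable n') f
  have h0 := Lattice.Fam.eq_zero_of_hat (M := (φ.lat n).cut v) (M' := φ'.latO n')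
    (fun w => by
      by_cases h : v ≤ w
      · rw [Lattice.cut_M (s := (w, false)) h, Lattice.cut_M (s := (w, true)) h]
        rfl
      · rw [Lattice.cut_M_not (s := (w, false)) h, Lattice.cut_M_not (s := (w, true)) h])
    (fun _ => rfl) g
  rw [← hf]
  subst h0
  rfl

set_option maxHeartbeats 400000 in
theorem Fac.acyc_MO (h2 : (2 : κ) ≠ 0) (hs0 : φ.s ≠ 0)
    (hc : ∀ v, Cop v φ.e (4 - φ.e) φ.g φ.h) (n n' : ℤ) : Acyc.{w} (φ.M n) (φ'.O n') :=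
  Lattice.acyc_of_cut (φ.lat_stable n) (φ.acyc_cut _ h2 hs0 (hc .zero) n)
    (φ.acyc_cut _ h2 hs0 (hc .inf) n) (φ.acyc_cut _ h2 hs0 (hc .mid) n)
    fun f => ⟨0, 0, by
      rw [comp_zero, comp_zero, sub_zero]
      exact Fac.cutMO_eq_zero .mid n n' f⟩

end

namespace Spl

variable {k : Type} [Field k] {δ : Dat k} {K : Type} [Field K] [Algebra k K]
  [HasExt.{w} (ModObj k K (ModuleCat.{0} δ.Alg))] (S : Spl δ K)

theorem tab_mm {x y : Finset (Fin 4) × ℤ} (h : -1 ≤ dg x y) : Acyc.{w} (S.Mx x) (S.Mx y) :=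
  Lk.acyc_MM (S.lk x.1 y.1) rfl S.two_ne S.s_ne S.q_ne_zero (fun v => S.fac_cop v x.1) h

theorem tab_mo (x : Finset (Fin 4) × ℤ) (j : ℤ) : Vani.{w} (S.Mx x) (S.O j) :=
  vani_of_acyc (Fac.acyc_MO (φ := S.fac x.1) (φ' := S.fac ∅) S.two_ne S.s_ne
    (fun v => S.fac_cop v x.1) x.2 j) (S.tab_mo0 x j)

end Spl

end Orl.Q
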