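import Pool.Agent.Work.MP_a6e60d_ag.Q.TabExtO
import Pool.Agent.Work.MP_a6e60d_ag.Q.TabExtM

/-!
# The table for the objects over a splitting field
-/

open CategoryTheory CategoryTheory.Abelian CategoryTheory.Limits LaurentPolynomial Quaternion
  Orl.LF

set_option linter.unusedSectionVars false

attribute [-instance] CategoryTheory.catToReflQuiver

universe w

namespace Orl.Q

namespace Spl

variable {k : Type} [Field k] {δ : Dat k} {K : Type} [Field K] [Algebra k K]
  [HasExt.{w} (ModObj k K (ModuleCat.{0} δ.Alg))] (S : Spl δ K)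

/-- the table -/
theorem tab [Module.Finite k K] : Tab.{w} k (zact k K δ.Cat) S.Mx S.O where
  mm h := S.tab_mm h
  mm0 h := S.tab_mm0 h
  mm1 h := S.tab_mm1 h
  mono f hf := S.tab_mono f hf
  mfin := S.tab_mfin
  ne := S.tab_ne
  om ha hb := S.tab_om ha hb
  omfin := S.tab_omfin
  mo := S.tab_mo
  oo h := S.tab_oo h
  oofin := S.tab_oofin
  oo0 h := S.tab_oo0 h
  oo1 := S.tab_oo1
  one := S.tab_one

end Spl

end Orl.Q
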