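import Pool.Agent.Work.MP_a6e60d_ag.Q.TLObj
import Pool.Agent.Work.MP_a6e60d_ag.Q.Desc
import Pool.Agent.Work.MP_a6e60d_ag.Gal.Down

/-!
MP_a6e60d_ag, Q5: the blocks of the tilting object over the cubic field `L`: two line bundles over
`L` and the restrictions of three objects over the quadratic extension `K` of `L`; they are
directed, and their algebras of endomorphisms are the fields `L`, `L`, `K`, `K`, `K`.
-/

open CategoryTheory CategoryTheory.Abelian CategoryTheory.Limits Orl.LF Orl.Gal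

attribute [-instance] CategoryTheory.catToReflQuiver

namespace Orl.Q

section hom

universe w v u

variable {C : Type u} [Category.{v} C] [Abelian C]

namespace KSeq

variable {M : Finset (Fin 4) × ℤ → C} {b b' n n' : Finset (Fin 4) × ℤ} {K : C}
  (P : KSeq M b b' n n' K)

include P

theorem hom_from {Y : C} (h : ∀ f : M n ⟶ Y, f = 0) (h' : ∀ f : M b' ⟶ Y, f = 0) (f : K ⟶ Y) :
    f = 0 := by
  obtain ⟨l, hl⟩ := CokernelCofork.IsColimit.desc' P.se.gIsCokernel f (h _)
  have hl' : P.p' ≫ l = f := hl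
  rw [← hl', h' l, comp_zero]

theorem hom_to {Y : C} (h : ∀ f : Y ⟶ M n, f = 0) (h' : ∀ f : Y ⟶ M b', f = 0) (f : Y ⟶ K) :
    f = 0 := by
  obtain ⟨l, hl⟩ := KernelFork.IsLimit.lift' P.se.fIsKernel f (h' _)
  have hl' : l ≫ P.i = f := hl
  rw [← hl', h l, zero_comp]

/-- A map which is zero on the subobject factors through the quotient. -/
theorem eq_zero_of_i {Y : C} (f : K ⟶ Y) (h : P.i ≫ f = 0) (h' : ∀ f : M b' ⟶ Y, f = 0) :
    f = 0 := by
  obtain ⟨l, hl⟩ := CokernelCofork.IsColimit.desc' P.se.gIsCokernel f h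
  have hl' : P.p' ≫ l = f := hl
  rw [← hl', h' l, comp_zero]

end KSeq

variable [HasExt.{w} C] {k : Type*} [Field k] [Linear k C] {κ : Type*} {z : κ → (𝟭 C ⟶ 𝟭 C)}
  {M : Finset (Fin 4) × ℤ → C} {O : ℤ → C} (T : Tab.{w} k z M O)

include T

/-- The objects of the tilting object are directed. -/
theorem hom_tl {K : C} (P : KOne M K) (i j : Fin 5) (h : j < i)
    (f : tl M O K i ⟶ tl M O K j) : f = 0 := by
  revert f
  have mo : ∀ x j, ∀ f : M x ⟶ O j, f = 0 := fun x j => (T.mo x j).hom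
  have mm : ∀ x y, dg x y < 0 → ∀ f : M x ⟶ M y, f = 0 := fun x y h => T.mm0 h
  fin_cases i <;> fin_cases j <;> first | exact absurd h (by decide) | skip
  · exact T.oo0 (i := -1) (j := -2) (by decide)
  · exact mo _ _
  · exact mo _ _
  · exact P.hom_from (mo _ _) (mo _ _)
  · exact P.hom_from (mo _ _) (mo _ _)
  · exact P.hom_from (mm _ ({1}, 0) (by decide)) (mm _ ({1}, 0) (by decide))
  · exact mo _ _
  · exact mo _ _
  · exact mm ({0, 1}, 0) ({1}, 0) (by decide)
  · exact P.hom_to (mm ({0, 1}, 0) _ (by decide)) (mm ({0, 1}, 0) _ (by decide))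

/-- There are no maps from the conjugate of an object of rank at least two to the object. -/
theorem hom_K'_K {K K' : C} (P' : KOne' M K') (P : KOne M K) (f : K' ⟶ K) : f = 0 := by
  have mm : ∀ x y, dg x y < 0 → ∀ f : M x ⟶ M y, f = 0 := fun x y h => T.mm0 h
  have hw : P.p ≫ P.u + P.p' ≫ P.u' + P.s ≫ P.t = 0 := by
    have h := P.wk
    rwa [biprod.lift_desc, biprod.lift_desc] at h
  have hc : f ≫ P.s = 0 := P'.hom_from (mm _ _ (by decide)) (mm _ _ (by decide)) _
  have hr : (f ≫ P.p) ≫ P.u + (f ≫ P.p') ≫ P.u' = 0 := by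
    have h : f ≫ (P.p ≫ P.u + P.p' ≫ P.u' + P.s ≫ P.t) = 0 := by rw [hw, comp_zero]
    rw [Preadditive.comp_add, Preadditive.comp_add, ← Category.assoc f P.s, hc, zero_comp,
      add_zero] at h
    rwa [Category.assoc, Category.assoc]
  have ha : f ≫ P.p = 0 := by
    refine P'.eq_zero_of_i _ ?_ (mm _ _ (by decide))
    have h1 : P'.i ≫ f ≫ P.p' = 0 := mm _ _ (by decide) _
    have h2 : (P'.i ≫ f ≫ P.p) ≫ P.u = 0 := by
      have h : P'.i ≫ ((f ≫ P.p) ≫ P.u + (f ≫ P.p') ≫ P.u') = 0 := by rw [hr, comp_zero]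
      rw [Preadditive.comp_add, ← Category.assoc P'.i (f ≫ P.p') P.u', h1, zero_comp,
        add_zero] at h
      rwa [Category.assoc]
    have := T.mono P.u P.hu
    rwa [← cancel_mono P.u, zero_comp]
  have hb : f ≫ P.p' = 0 := by
    rw [ha, zero_comp, zero_add] at hr
    have := T.mono P.u' P.hu'
    rwa [← cancel_mono P.u', zero_comp]
  have := P.sk.mono_f
  have : Mono (biprod.lift (biprod.lift P.p P.p') P.s) := P.sk.mono_f
  rw [← cancel_mono (biprod.lift (biprod.lift P.p P.p') P.s), zero_comp]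
  refine biprod.hom_ext _ _ (biprod.hom_ext _ _ ?_ ?_) ?_
  · simpa using ha
  · simpa using hb
  · simpa using hc

/-- The conjugates of the objects of the tilting object are directed. -/
theorem hom_tl' {K K' : C} (P' : KOne' M K') (P : KOne M K) (i j : Fin 5)
    (h : j < i ∨ j = i ∧ 2 ≤ i) (f : tl' M O K' i ⟶ tl M O K j) : f = 0 := by
  revert f
  have mo : ∀ x j, ∀ f : M x ⟶ O j, f = 0 := fun x j => (T.mo x j).hom
  have mm : ∀ x y, dg x y < 0 → ∀ f : M x ⟶ M y, f = 0 := fun x y h => T.mm0 h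
  fin_cases i <;> fin_cases j <;> first | exact absurd h (by decide) | skip
  · exact T.oo0 (i := -1) (j := -2) (by decide)
  · exact mo _ _
  · exact mo _ _
  · exact mm ({0, 1, 3}, -1) ({1}, 0) (by decide)
  · exact P'.hom_from (mo _ _) (mo _ _)
  · exact P'.hom_from (mo _ _) (mo _ _)
  · exact P'.hom_from (mm _ ({1}, 0) (by decide)) (mm _ ({1}, 0) (by decide))
  · exact hom_K'_K T P' P
  · exact mo _ _
  · exact mo _ _
  · exact mm ({1, 3}, 0) ({1}, 0) (by decide)
  · exact P.swap.hom_to (mm ({1, 3}, 0) _ (by decide)) (mm ({1, 3}, 0) _ (by decide))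
  · exact mm ({1, 3}, 0) ({0, 1}, 0) (by decide)

/-- The endomorphisms of the object `K1` are the scalars. -/
theorem end_K {K : C} (P : KOne M K) (f : K ⟶ K) : ∃ c : κ, f = (z c).app K := by
  have mm : ∀ x y, dg x y < 0 → ∀ f : M x ⟶ M y, f = 0 := fun x y h => T.mm0 h
  have h1 : ∀ g : K ⟶ M ({0, 1, 2}, -1), g = 0 :=
    P.swap.hom_from (mm _ _ (by decide)) (mm _ _ (by decide))
  have h2 : P.i' ≫ P.p' ≠ 0 := P.swap.ip_ne T (by decide)
  obtain ⟨c, hc⟩ := T.mm1 (by decide) _ (P.i' ≫ f ≫ P.p') h2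
  let e : K ⟶ K := (z c).app K
  have h5 : P.i' ≫ e = (z c).app _ ≫ P.i' := (z c).naturality P.i'
  have h3 : f ≫ P.p' - e ≫ P.p' = 0 := by
    refine P.swap.eq_zero_of_i _ ?_ (mm ({0, 1}, 0) ({1, 3}, 0) (by decide))
    change P.i' ≫ (f ≫ P.p' - e ≫ P.p') = 0
    rw [Preadditive.comp_sub, hc, ← Category.assoc _ e, h5, Category.assoc]
    exact sub_self _
  refine ⟨c, ?_⟩
  change f = e
  rw [← sub_eq_zero]
  have h4 : (f - e) ≫ P.p' = 0 := by rw [Preadditive.sub_comp, h3]
  obtain ⟨l, hl⟩ := KernelFork.IsLimit.lift' P.se.fIsKernel _ h4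
  have hl' : l ≫ P.i = f - e := hl
  rw [← hl', h1 l, zero_comp]

theorem K_ne {K : C} (P : KOne M K) : ¬ IsZero K := by
  intro h
  have h2 : P.i ≫ P.p ≠ 0 := P.ip_ne T (by decide)
  exact h2 (by rw [h.eq_zero_of_tgt P.i, zero_comp])

theorem tl_ne {K : C} (P : KOne M K) (i : Fin 5) : ¬ IsZero (tl M O K i) := by
  fin_cases i
  · exact T.one _
  · exact T.one _
  · exact T.ne _
  · exact K_ne T P
  · exact T.ne _

/-- The endomorphisms of the objects of the tilting object are the scalars. -/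
theorem end_tl {K : C} (P : KOne M K) (i : Fin 5) (f : tl M O K i ⟶ tl M O K i) :
    ∃ c : κ, f = (z c).app (tl M O K i) := by
  revert f
  fin_cases i
  · exact T.oo1 _
  · exact T.oo1 _
  · exact T.mm1' _
  · exact end_K T P
  · exact T.mm1' _

end hom

section retract

universe v u

variable {C : Type u} [Category.{v} C] [Preadditive C] {X X' Y Y' : C}

theorem hom_of_retract (r : Retract X X') (r' : Retract Y Y') (h : ∀ f : X' ⟶ Y', f = 0)
    (f : X ⟶ Y) : f = 0 := by
  have h1 := h (r.r ≫ f ≫ r'.i)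
  have h2 : r.i ≫ (r.r ≫ f ≫ r'.i) ≫ r'.r = f := by simp
  rw [← h2, h1, zero_comp, comp_zero]

theorem finite_hom_retract {k : Type*} [Field k] [Linear k C] (r : Retract X X')
    (r' : Retract Y Y') (h : Module.Finite k (X' ⟶ Y')) : Module.Finite k (X ⟶ Y) := by
  refine Module.Finite.of_injective
    ((Linear.rightComp k X' r'.i).comp (Linear.leftComp k Y r.r)) fun f g hfg => ?_
  have h1 : (r.r ≫ f) ≫ r'.i = (r.r ≫ g) ≫ r'.i := hfg
  have h2 : ∀ f : X ⟶ Y, r.i ≫ ((r.r ≫ f) ≫ r'.i) ≫ r'.r = f := fun f => by simp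
  rw [← h2 f, h1, h2]

end retract

section scal

universe v' u'

variable {k : Type*} [Field k] {L : Type*} [Field L] [Algebra k L]
variable {C : Type u'} [Category.{v'} C] [Abelian C] [Linear k C]

theorem isZero_pt_imp {M : ModObj k L C} (h : IsZero M.pt) : IsZero M := by
  rw [IsZero.iff_id_eq_zero]
  exact ModObj.hom_ext ((IsZero.iff_id_eq_zero _).1 h)

/-- scalars as endomorphisms -/
def scal (M : ModObj k L C) : L →ₐ[k] End M where
  toFun x := (zact k L C x).app M
  map_one' := ModObj.hom_ext (ModObj.act_one M)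
  map_mul' x y := ModObj.hom_ext (by
    refine (ModObj.act_mul M x y).trans ?_
    exact ModObj.act_comm M x y)
  map_zero' := ModObj.hom_ext (ModObj.act_zero M)
  map_add' x y := ModObj.hom_ext (ModObj.act_add M x y)
  commutes' r := ModObj.hom_ext (ModObj.act_algebraMap M r)

/-- The algebra of endomorphisms is the field if all endomorphisms are scalars. -/
noncomputable def endScal (M : ModObj k L C) (h0 : ¬ IsZero M)
    (h1 : ∀ f : M ⟶ M, ∃ x : L, ModObj.homPt f = M.act x) : L ≃ₐ[k] End M :=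
  AlgEquiv.ofBijective (scal M) (by
    have : Nontrivial (End M) :=
      ⟨0, 1, fun h => h0 ((IsZero.iff_id_eq_zero _).2 h.symm)⟩
    refine ⟨(scal M).toRingHom.injective, fun f => ?_⟩
    obtain ⟨x, hx⟩ := h1 f
    exact ⟨x, ModObj.hom_ext hx.symm⟩)

/-- transport of the property that all endomorphisms are scalars -/
theorem scal_iso {M N : ModObj k L C} (e : M ≅ N)
    (h : ∀ f : N ⟶ N, ∃ x : L, f = (zact k L C x).app N) (f : M ⟶ M) :
    ∃ x : L, ModObj.homPt f = M.act x := by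
  obtain ⟨x, hx⟩ := h (e.inv ≫ f ≫ e.hom)
  refine ⟨x, ?_⟩
  have h1 : f = (zact k L C x).app M := by
    have h2 : f = e.hom ≫ (e.inv ≫ f ≫ e.hom) ≫ e.inv := by simp
    have h3 : e.hom ≫ (zact k L C x).app N = (zact k L C x).app M ≫ e.hom :=
      (zact k L C x).naturality e.hom
    rw [h2, hx, ← Category.assoc, h3]
    exact (Category.assoc _ _ _).trans ((congrArg _ e.hom_inv_id).trans (Category.comp_id _))
  rw [h1]
  rfl

end scal

section blk

attribute [local instance] Abelian.hasFiniteBiproducts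

universe v' u' w w₁ w₂

variable {k : Type*} [Field k] {L : Type*} {K : Type w} [Field L] [Field K] [Algebra k L]
  [Algebra k K] [Algebra L K] [IsScalarTower k L K]
variable {C : Type u'} [Category.{v'} C] [Abelian C] [Linear k C]

/-- The blocks of the tilting object over the cubic field. -/
noncomputable def tlb (OL : ℤ → ModObj k L C) (M : Finset (Fin 4) × ℤ → ModObj k K C)
    (K1 : ModObj k K C) : Fin 5 → ModObj k L C :=
  ![OL (-2), OL (-1), (resE k L K C).obj (M ({1}, 0)), (resE k L K C).obj K1,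
    (resE k L K C).obj (M ({0, 1}, 0))]

variable {OL : ℤ → ModObj k L C} {M : Finset (Fin 4) × ℤ → ModObj k K C}
  {O : ℤ → ModObj k K C} {K1 : ModObj k K C} {τ : K ≃ₐ[L] K} [FiniteDimensional L K]
  (eO : ∀ j, Nonempty ((indE k L K C).obj (OL j) ≅ O j)) (h : TauConj M O τ)

include eO

/-- The blocks are retracts of the restrictions of the objects over `K`. -/
theorem retract_tlb (i : Fin 5) :
    Nonempty (Retract (tlb OL M K1 i) ((resE k L K C).obj (tl M O K1 i))) := by
  have key : ∀ j, Nonempty (Retract (OL j) ((resE k L K C).obj (O j))) := fun j => by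
    obtain ⟨e⟩ := eO j
    obtain ⟨r⟩ := exists_retract_res_ind (K := K) (OL j)
    exact ⟨r.trans (Retract.ofIso ((resE k L K C).mapIso e))⟩
  fin_cases i
  · exact key _
  · exact key _
  · exact ⟨Retract.refl _⟩
  · exact ⟨Retract.refl _⟩
  · exact ⟨Retract.refl _⟩

variable [IsGalois L K] [HasExt.{w₁} (ModObj k L C)] [HasExt.{w₂} (ModObj k K C)]

include h

/-- The higher groups Ext between the blocks vanish. -/
theorem acyc_tlb (T : Tab.{w₂} k (zact k K C) M O) (P : KOne M K1) (i j : Fin 5) :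
    Acyc.{w₁} (tlb OL M K1 i) (tlb OL M K1 j) := by
  obtain ⟨r⟩ := retract_tlb (M := M) (K1 := K1) eO i
  obtain ⟨r'⟩ := retract_tlb (M := M) (K1 := K1) eO j
  exact Acyc.of_retract_left r (Acyc.of_retract_right r' fun n hn =>
    ext_res_subsingleton _ _ n fun g => h.acyc_conj T P g i j n hn)

omit [HasExt.{w₁} (ModObj k L C)] in
/-- The spaces of maps between the blocks are finite-dimensional. -/
theorem finite_tlb (T : Tab.{w₂} k (zact k K C) M O) (P : KOne M K1) (i j : Fin 5) :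
    Module.Finite k (tlb OL M K1 i ⟶ tlb OL M K1 j) := by
  obtain ⟨r⟩ := retract_tlb (M := M) (K1 := K1) eO i
  obtain ⟨r'⟩ := retract_tlb (M := M) (K1 := K1) eO j
  exact finite_hom_retract r r' (finite_hom_res _ _ fun g => h.finite_conj T P g i j)

omit eO [HasExt.{w₁} (ModObj k L C)] [FiniteDimensional L K] [IsGalois L K] in
/-- There are no maps backwards between the conjugates of the objects over `K`. -/
theorem TauConj.hom_conj (T : Tab.{w₂} k (zact k K C) M O) (P : KOne M K1) (g : K ≃ₐ[L] K)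
    (i j : Fin 5) (hij : j < i ∨ j = i ∧ 2 ≤ i ∧ g ≠ 1)
    (f : (conj k C g).obj (tl M O K1 i) ⟶ tl M O K1 j) : f = 0 := by
  rcases h.gal g with rfl | rfl
  · have h1 : j < i := by
      rcases hij with h1 | ⟨_, _, h1⟩
      · exact h1
      · exact absurd rfl h1
    have h2 := hom_tl T P i j h1 ((conjOneIso _).inv ≫ f)
    rw [← Iso.hom_inv_id_assoc (conjOneIso (tl M O K1 i)) f, h2, comp_zero]
  · obtain ⟨P'⟩ := h.kOne P
    obtain ⟨e⟩ := h.iso_tl K1 i
    have h2 := hom_tl' T P' P i j (by tauto) (e.inv ≫ f)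
    rw [← Iso.hom_inv_id_assoc e f, h2, comp_zero]

omit [HasExt.{w₁} (ModObj k L C)] in
/-- The blocks are directed. -/
theorem hom_tlb (T : Tab.{w₂} k (zact k K C) M O) (P : KOne M K1) (i j : Fin 5) (hij : j < i)
    (f : tlb OL M K1 i ⟶ tlb OL M K1 j) : f = 0 := by
  obtain ⟨r⟩ := retract_tlb (M := M) (K1 := K1) eO i
  obtain ⟨r'⟩ := retract_tlb (M := M) (K1 := K1) eO j
  exact hom_of_retract r r' (hom_res_eq_zero _ _ fun g f => h.hom_conj T P g i j (.inl hij) f) f

omit [HasExt.{w₁} (ModObj k L C)] in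
/-- The algebras of endomorphisms of the blocks are the fields `L`, `L`, `K`, `K`, `K`. -/
theorem end_tlb (T : Tab.{w₂} k (zact k K C) M O) (P : KOne M K1) (i : Fin 5) :
    (i < 2 ∧ Nonempty (L ≃ₐ[k] End (tlb OL M K1 i))) ∨
      (2 ≤ i ∧ Nonempty (K ≃ₐ[k] End (tlb OL M K1 i))) := by
  have hL : ∀ j, Nonempty (L ≃ₐ[k] End (OL j)) := fun j => by
    obtain ⟨e⟩ := eO j
    have h0 : ¬ IsZero (OL j) := fun h0 =>
      T.one j (((indE k L K C).map_isZero h0).of_iso e.symm)
    exact ⟨endScal (OL j) h0 (Orl.Gal.exists_act_of_ind (OL j) (fun h => h0 (isZero_pt_imp h))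
      (scal_iso e (T.oo1 j)))⟩
  have hK : ∀ i : Fin 5, 2 ≤ i → Nonempty (K ≃ₐ[k] End ((resE k L K C).obj (tl M O K1 i))) :=
    fun i hi => ⟨endEquiv (tl M O K1 i) (fun h => tl_ne T P i (isZero_pt_imp h))
      (scal_iso (Iso.refl _) (end_tl T P i))
      fun g hg f => h.hom_conj T P g i i (.inr ⟨rfl, hi, hg⟩) f⟩
  fin_cases i
  · exact .inl ⟨by decide, hL _⟩
  · exact .inl ⟨by decide, hL _⟩
  · exact .inr ⟨by decide, hK 2 (by decide)⟩
  · exact .inr ⟨by decide, hK 3 (by decide)⟩
  · exact .inr ⟨by decide, hK 4 (by decide)⟩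

end blk

end Orl.Q
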