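import Pool.Agent.Work.MP_a6e60d_ag.Q.TB
import Pool.Agent.Work.MP_a6e60d_ag.Q.TLBlk

/-!
MP_a6e60d_ag, Q6: vanishing of the groups Ext (in the category `C`) between the blocks over `F` and
the blocks over `L`, after a twist.
-/

open CategoryTheory CategoryTheory.Abelian CategoryTheory.Limits Module

set_option linter.unusedSectionVars false

attribute [-instance] CategoryTheory.catToReflQuiver

namespace Orl.Q

open Orl.LF Orl.Gal

universe w w₁ w₂ v' u'

attribute [local instance] Abelian.hasFiniteBiproducts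

variable {k : Type*} [Field k] {F L : Type*} {K : Type w} [Field F] [Field L] [Field K]
  [Algebra k F] [Algebra k L] [Algebra k K] [Algebra F K] [Algebra L K] [IsScalarTower k F K]
  [IsScalarTower k L K]
variable {C : Type u'} [Category.{v'} C] [Abelian C] [Linear k C] [FiniteDimensional F K]
  [FiniteDimensional L K]
variable {M : Finset (Fin 4) × ℤ → ModObj k K C} {O : ℤ → ModObj k K C}

/-! ### Underlying objects -/

/-- the object underlying `X` is a retract of the object underlying `A` if `A` is the extension of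
scalars of `X` -/
theorem ptRet_of_ind {X : ModObj k F C} {A : ModObj k K C} (e : (indE k F K C).obj X ≅ A) :
    Nonempty (Retract X.pt A.pt) :=
  ⟨(retractPt (K := K) X).trans
    (Retract.ofIso ((ev (k := k) (C := C) (SingleObj.star K)).mapIso e))⟩

theorem FObj.ptRet (t : FObj k F K C M O) (m : ℤ) (i : Fin 6) :
    Nonempty (Retract (t.D m i).pt (tf M O m i.rev).pt) := by
  fin_cases i
  · exact ptRet_of_ind (t.eA (m + 1))
  · exact ⟨Retract.refl _⟩
  · exact ptRet_of_ind (t.eB m)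
  · exact ptRet_of_ind (t.eA m)
  · exact ptRet_of_ind (t.eL (m - 1))
  · exact ptRet_of_ind (t.eL (m - 2))

theorem tlb_ptRet {OL : ℤ → ModObj k L C}
    (eO : ∀ j, Nonempty ((indE k L K C).obj (OL j) ≅ O j)) (K1 : ModObj k K C) (i : Fin 5) :
    Nonempty (Retract (tlb OL M K1 i).pt (tl M O K1 i).pt) := by
  obtain ⟨r⟩ := retract_tlb (M := M) (K1 := K1) eO i
  exact ⟨r.map (ev (k := k) (C := C) (SingleObj.star L))⟩

section pt

variable [FiniteDimensional k K] [IsGalois k K] [HasExt.{w₁} C] [HasExt.{w₂} (ModObj k K C)]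

theorem acyc_pt_of {X Y : C} {A B : ModObj k K C} (rX : Nonempty (Retract X A.pt))
    (rY : Nonempty (Retract Y B.pt))
    (h : ∀ g : K ≃ₐ[k] K, Acyc.{w₂} ((conj k C g).obj A) B) : Acyc.{w₁} X Y :=
  Acyc.of_retract_left rX.some (Acyc.of_retract_right rY.some fun n hn =>
    ext_pt_subsingleton A B n fun g => h g n hn)

theorem finite_pt_of {X Y : C} {A B : ModObj k K C} (rX : Nonempty (Retract X A.pt))
    (rY : Nonempty (Retract Y B.pt))
    (h : ∀ g : K ≃ₐ[k] K, Module.Finite k ((conj k C g).obj A ⟶ B)) :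
    Module.Finite k (X ⟶ Y) := by
  have h1 := finite_hom_pt A B h
  obtain ⟨rX⟩ := rX
  obtain ⟨rY⟩ := rY
  exact finite_hom_of_total (J := Unit) (f := fun _ => A.pt) (fun _ => rX.i) (fun _ => rX.r)
    (by simp) fun _ => finite_hom_of_total' (J := Unit) (f := fun _ => B.pt)
      (fun _ => rY.i) (fun _ => rY.r) (by simp) fun _ => h1

variable {z : K → (𝟭 (ModObj k K C) ⟶ 𝟭 (ModObj k K C))} (T : Tab.{w₂} k z M O)
  (hc : ∀ g : K ≃ₐ[k] K, Perm M O (conj k C g))
  (t : FObj k F K C M O) {OL : ℤ → ModObj k L C}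
  (eO : ∀ j, Nonempty ((indE k L K C).obj (OL j) ≅ O j)) {K1 : ModObj k K C} (P : KOne M K1)

include T hc

/-- from the blocks over `F` to the blocks over `F` with a larger twist -/
theorem acyc_pt_FF {m m' : ℤ} (h : m + 8 ≤ m') (i j : Fin 6) :
    Acyc.{w₁} (t.D m i).pt (t.D m' j).pt :=
  acyc_pt_of (t.ptRet m i) (t.ptRet m' j) fun g =>
    (low_ctf T (hc g) m 0 i.rev).acyc_tf (by omega) 0 j.rev

theorem finite_pt_FF (m m' : ℤ) (i j : Fin 6) :
    Module.Finite k ((t.D m i).pt ⟶ (t.D m' j).pt) :=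
  finite_pt_of (t.ptRet m i) (t.ptRet m' j) fun g =>
    (low_ctf T (hc g) m 0 i.rev).finite_tf m' 0 j.rev

include eO P

/-- from the blocks over `F` to the blocks over `L` -/
theorem acyc_pt_FL {m : ℤ} (h : m ≤ -8) (i : Fin 6) (j : Fin 5) :
    Acyc.{w₁} (t.D m i).pt (tlb OL M K1 j).pt :=
  acyc_pt_of (t.ptRet m i) (tlb_ptRet eO K1 j) fun g =>
    (low_ctf T (hc g) m 0 i.rev).acyc_tl (by omega) P j

theorem finite_pt_FL (m : ℤ) (i : Fin 6) (j : Fin 5) :
    Module.Finite k ((t.D m i).pt ⟶ (tlb OL M K1 j).pt) :=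
  finite_pt_of (t.ptRet m i) (tlb_ptRet eO K1 j) fun g =>
    (low_ctf T (hc g) m 0 i.rev).finite_tl P j

/-- from the blocks over `L` to the blocks over `F` -/
theorem acyc_pt_LF {m : ℤ} (h : 7 ≤ m) (i : Fin 5) (j : Fin 6) :
    Acyc.{w₁} (tlb OL M K1 i).pt (t.D m j).pt :=
  acyc_pt_of (tlb_ptRet eO K1 i) (t.ptRet m j) fun g =>
    (low_ctl T (hc g) P i).acyc_tf (by omega) 0 j.rev

theorem finite_pt_LF (m : ℤ) (i : Fin 5) (j : Fin 6) :
    Module.Finite k ((tlb OL M K1 i).pt ⟶ (t.D m j).pt) :=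
  finite_pt_of (tlb_ptRet eO K1 i) (t.ptRet m j) fun g =>
    (low_ctl T (hc g) P i).finite_tf m 0 j.rev

theorem finite_pt_LL (i j : Fin 5) :
    Module.Finite k ((tlb OL M K1 i).pt ⟶ (tlb OL M K1 j).pt) :=
  finite_pt_of (tlb_ptRet eO K1 i) (tlb_ptRet eO K1 j) fun g =>
    (low_ctl T (hc g) P i).finite_tl P j

end pt

end Orl.Q
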