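import Pool.Agent.Work.MP_a6e60d_ag.Q.MainL
import Pool.Agent.Work.MP_a6e60d_ag.Q.Forms
import Pool.Agent.Work.MP_a6e60d_ag.Q.Cross

/-!
MP_a6e60d_ag, Q6: the blocks over the quadratic field `F` for the concrete data: the family `tF m`
of six objects over `F`, without higher extensions, directed, with the fields `F, F, F, F, K, F` of
endomorphisms, which generates the extensions to `F` of all `O(j)` and `E(j)`; and the action of
the Galois group of `K` over `k` on the objects over `K`.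
-/

open CategoryTheory CategoryTheory.Abelian CategoryTheory.Limits Orl.LF Orl.Gal Orl.Q

set_option linter.unusedSectionVars false

attribute [-instance] CategoryTheory.catToReflQuiver

attribute [local instance] Abelian.hasFiniteBiproducts

namespace Orl.Q.Spl

variable {k : Type} [Field k] {δ : Dat k} {K : Type} [Field K] [Algebra k K] (S : Spl δ K)

/-- The conjugations permute the objects of rank one and fix the line bundles. -/
theorem permConj (g : K ≃ₐ[k] K) : Perm (fun x => S.M x.1 x.2) S.O (conj k δ.Cat g) where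
  m x := by
    obtain ⟨π, _, h | h⟩ := S.exists_conjM g x.1 x.2
    · exact ⟨(_, x.2), by simp, h.2⟩
    · refine ⟨((mv π.symm x.1)ᶜ, x.2 + x.1.card - 2), ?_, h.2⟩
      have h1 := Finset.card_le_univ x.1
      rw [Fintype.card_fin] at h1
      simp only
      omega
  o j := ⟨S.conjO g j⟩

end Orl.Q.Spl

namespace Orl.Fld.FieldDatum

universe w₁ w₂

variable {k F L K : Type} [Field k] [Field F] [Field L] [Field K] [Algebra k F]
    [Algebra k L] [Algebra k K] [Algebra F K] [Algebra L K] [IsScalarTower k F K]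
    [IsScalarTower k L K] (D : FieldDatum k F L K)

/-! ### The Galois group of `K` over `F` -/

/-- the permutation of the roots of an automorphism over `F` -/
noncomputable def permF (g : K ≃ₐ[F] K) : Equiv.Perm (Fin 3) := D.perm (g.restrictScalars k)

theorem permF_spec (g : K ≃ₐ[F] K) (i : Fin 3) : g (D.spl.r i) = D.spl.r (D.permF g i) :=
  D.perm_spec (g.restrictScalars k) i

theorem galF_s (g : K ≃ₐ[F] K) : g D.spl.s = D.spl.s := g.commutes D.s

theorem sign_permF (g : K ≃ₐ[F] K) : Equiv.Perm.sign (D.permF g) = 1 := by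
  have h1 := D.apply_sK (g.restrictScalars k)
  have h2 : (g.restrictScalars k) D.sK = D.sK := D.galF_s g
  rw [h2] at h1
  have h3 : ((Equiv.Perm.sign (D.permF g) : ℤ) : K) = 1 :=
    mul_right_cancel₀ D.sK_ne (h1.symm.trans (one_mul _).symm)
  rcases Int.units_eq_one_or (Equiv.Perm.sign (D.permF g)) with h4 | h4
  · exact h4
  · rw [h4] at h3
    exfalso
    apply D.twoK
    have h5 : (-1 : K) = 1 := by exact_mod_cast h3
    linear_combination -h5

theorem eq_one_of_permF (g : K ≃ₐ[F] K) (h : (D.permF g).symm 0 = 0) : g = 1 := by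
  have h1 : D.permF g = 1 := by
    have h2 := D.sign_permF g
    revert h h2
    generalize D.permF g = p
    revert p
    decide
  have h2 : g.restrictScalars k = (1 : K ≃ₐ[F] K).restrictScalars k := D.ext_aut fun j => by
    have h3 := D.permF_spec g j
    rw [h1] at h3
    exact h3
  ext x
  exact congrArg (fun f : K ≃ₐ[k] K => f x) h2

/-- the root whose `M` is the conjugate of the object of the root `0` -/
noncomputable def lF (g : K ≃ₐ[F] K) : Fin 4 := ((D.permF g).symm 0).castSucc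

/-- The conjugates of `M ({0}, m)` over `F`. -/
theorem rootConj : RootConj F (fun x => D.spl.M x.1 x.2) D.lF where
  iso g m := ⟨D.spl.conjM_pos g (D.permF g) (D.permF_spec g) (D.galF_s g) (by
    rw [mv, Finset.map_singleton, Finset.singleton_inj]
    refine (up4_castSucc (D.permF g) _).trans ?_
    rw [Equiv.apply_symm_apply]
    rfl) m⟩
  ne_three g := (Fin.castSucc_lt_last _).ne
  ne_zero g hg h := hg (D.eq_one_of_permF g (Fin.castSucc_injective 3 h))

/-! ### The objects over `F` -/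

section obj

variable [FiniteDimensional k F] [FiniteDimensional k K] [FiniteDimensional F K]

/-- the honest objects over `F` -/
noncomputable def fobj : FObj k F K D.qd.Cat (fun x => D.spl.M x.1 x.2) D.spl.O where
  A m := D.spl.M0 D.s rfl m
  B m := D.spl.M3 D.s rfl m
  L m := D.qd.OE F m
  eA m := D.spl.indM0 D.s rfl m
  eB m := D.spl.indM3 D.s rfl m
  eL m := D.spl.indOE m

/-- **The blocks over `F`**, twisted by `m`: `O(m-2)`, `O(m-1)`, `M_∅(m)`, `M_3(m)`, the restriction
of `M_0(m)`, `M_∅(m+1)`. -/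
noncomputable def tF (m : ℤ) (i : Fin 6) : ModObj k F D.qd.Cat := D.fobj.D m i.rev

theorem tF_rev (m : ℤ) (i : Fin 6) : D.tF m i.rev = D.fobj.D m i := by
  rw [tF, Fin.rev_rev]

theorem formOf_tF (m : ℤ) (i : Fin 6) :
    FormOf (D.tF m i) (tf (fun x => D.spl.M x.1 x.2) D.spl.O m i) := by
  fin_cases i
  · exact Or.inl ⟨D.fobj.eL (m - 2)⟩
  · exact Or.inl ⟨D.fobj.eL (m - 1)⟩
  · exact Or.inl ⟨D.fobj.eA m⟩
  · exact Or.inl ⟨D.fobj.eB m⟩
  · exact Or.inr ⟨Iso.refl _⟩
  · exact Or.inl ⟨D.fobj.eA (m + 1)⟩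

/-- **Generation**: the blocks over `F` generate the extensions to `F` of `O(j)`, `E(j)`. -/
theorem gen_tF (m : ℤ) {P : ObjectProperty (ModObj k F D.qd.Cat)} (hP : Thk P)
    (h : ∀ i, P (D.tF m i)) (j : ℤ) :
    P ((indC k D.qd.Cat F).obj (D.qd.O j)) ∧ P ((indC k D.qd.Cat F).obj (D.qd.E j)) :=
  D.spl.gen_F_final hP (fun j => ⟨D.spl.indCO j⟩) (fun j => ⟨D.spl.indCE j⟩) m
    (D.sig * D.sig) D.sig (Equiv.addRight 2) (Equiv.addRight 1)
    (fun i => by
      change D.sig (D.sig (D.r i)) = D.r (i + 2)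
      rw [D.sig_r, D.sig_r, add_assoc]
      rfl)
    D.sig_r (D.galF_s _) (D.galF_s _) (by decide) (by decide) (D.tF m) (D.formOf_tF m) h j

end obj

/-! ### Homs and extensions -/

section ext

variable [FiniteDimensional k F] [FiniteDimensional k K] [FiniteDimensional F K] [IsGalois F K]
  [HasExt.{w₁} (ModObj k F D.qd.Cat)] [HasExt.{w₂} (ModObj k K D.qd.Cat)]
  (T : Tab.{w₂} k (zact k K D.qd.Cat) (fun x => D.spl.M x.1 x.2) D.spl.O)

include T

/-- The higher groups Ext between the blocks over `F` vanish. -/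
theorem acyc_tF (m : ℤ) (i j : Fin 6) : Acyc.{w₁} (D.tF m i) (D.tF m j) :=
  D.fobj.acyc D.rootConj T m i.rev j.rev

omit [HasExt.{w₁} (ModObj k F D.qd.Cat)] in
theorem finite_tF (m m' : ℤ) (i j : Fin 6) : Module.Finite k (D.tF m i ⟶ D.tF m' j) :=
  D.fobj.finite D.rootConj T m m' i.rev j.rev

omit [HasExt.{w₁} (ModObj k F D.qd.Cat)] in
/-- The blocks over `F` are directed. -/
theorem hom_tF (m : ℤ) {i j : Fin 6} (hij : j < i) (f : D.tF m i ⟶ D.tF m j) : f = 0 :=
  D.fobj.hom_eq_zero D.rootConj T m (Fin.rev_lt_rev.2 hij) f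

omit [HasExt.{w₁} (ModObj k F D.qd.Cat)] [IsGalois F K] in
theorem tF_ne (m : ℤ) (i : Fin 6) : ¬ IsZero (D.tF m i) := fun h =>
  D.fobj.not_isZero_D T m i.rev
    ((ev (k := k) (C := D.qd.Cat) (SingleObj.star F)).map_isZero h)

omit [HasExt.{w₁} (ModObj k F D.qd.Cat)] in
/-- The algebras of endomorphisms of the blocks over `F`: `K` for the index `4`, `F` for the other
ones. -/
theorem end_tF (m : ℤ) (i : Fin 6) : (i ≠ 4 ∧ Nonempty (F ≃ₐ[k] End (D.tF m i))) ∨
    (i = 4 ∧ Nonempty (K ≃ₐ[k] End (D.tF m i))) := by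
  by_cases hi : i = 4
  · subst hi
    refine Or.inr ⟨rfl, ⟨?_⟩⟩
    change K ≃ₐ[k] End ((resE k F K D.qd.Cat).obj (D.spl.M {0} m))
    refine endEquiv (D.spl.M {0} m) (fun h => T.ne ({0}, m) (isZero_pt_imp h))
      (scal_iso (Iso.refl _) (T.mm1' ({0}, m))) fun g hg f => ?_
    obtain ⟨e⟩ := D.rootConj.iso g m
    have h1 : e.inv ≫ f = 0 := T.mm0 (x := ({D.lF g}, m)) (y := ({0}, m)) (by
      have h2 : ({D.lF g} : Finset (Fin 4)) \ {0} = {D.lF g} := by
        rw [Finset.sdiff_eq_self_iff_disjoint, Finset.disjoint_singleton]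
        exact D.rootConj.ne_zero g hg
      simp only [dg, h2, Finset.card_singleton]
      norm_num) _
    rw [← cancel_epi e.inv, h1, comp_zero]
  · refine Or.inl ⟨hi, ⟨endScal _ (D.tF_ne T m i) fun f => ?_⟩⟩
    refine D.fobj.scalar_D T m i.rev (fun h => hi ?_) f
    rw [← Fin.rev_rev i, h]
    rfl

end ext

/-! ### Cross terms -/

section cross

variable [FiniteDimensional k F] [FiniteDimensional k L] [FiniteDimensional k K]
  [FiniteDimensional F K] [FiniteDimensional L K] [IsGalois k K]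
  [HasExt.{w₁} D.qd.Cat] [HasExt.{w₂} (ModObj k K D.qd.Cat)]
  (T : Tab.{w₂} k (zact k K D.qd.Cat) (fun x => D.spl.M x.1 x.2) D.spl.O)

include T

/-- from the blocks over `F` to the blocks over `F` with a larger twist -/
theorem acyc_pt_FF {m m' : ℤ} (h : m + 8 ≤ m') (i j : Fin 6) :
    Acyc.{w₁} (D.tF m i).pt (D.tF m' j).pt :=
  Orl.Q.acyc_pt_FF T D.spl.permConj D.fobj h i.rev j.rev

/-- from the blocks over `F` to the blocks over `L` -/
theorem acyc_pt_FL {m : ℤ} (h : m ≤ -8) (i : Fin 6) (j : Fin 5) :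
    Acyc.{w₁} (D.tF m i).pt (D.tb j).pt :=
  Orl.Q.acyc_pt_FL T D.spl.permConj D.fobj D.eOL D.spl.kOne h i.rev j

/-- from the blocks over `L` to the blocks over `F` -/
theorem acyc_pt_LF {m : ℤ} (h : 7 ≤ m) (i : Fin 5) (j : Fin 6) :
    Acyc.{w₁} (D.tb i).pt (D.tF m j).pt :=
  Orl.Q.acyc_pt_LF T D.spl.permConj D.fobj D.eOL D.spl.kOne h i j.rev

omit [HasExt.{w₁} D.qd.Cat]

theorem finite_pt_FF (m m' : ℤ) (i j : Fin 6) :
    Module.Finite k ((D.tF m i).pt ⟶ (D.tF m' j).pt) :=
  Orl.Q.finite_pt_FF T D.spl.permConj D.fobj m m' i.rev j.rev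

theorem finite_pt_FL (m : ℤ) (i : Fin 6) (j : Fin 5) :
    Module.Finite k ((D.tF m i).pt ⟶ (D.tb j).pt) :=
  Orl.Q.finite_pt_FL T D.spl.permConj D.fobj D.eOL D.spl.kOne m i.rev j

theorem finite_pt_LF (m : ℤ) (i : Fin 5) (j : Fin 6) :
    Module.Finite k ((D.tb i).pt ⟶ (D.tF m j).pt) :=
  Orl.Q.finite_pt_LF T D.spl.permConj D.fobj D.eOL D.spl.kOne m i j.rev

theorem finite_pt_LL (i j : Fin 5) : Module.Finite k ((D.tb i).pt ⟶ (D.tb j).pt) :=
  Orl.Q.finite_pt_LL T D.spl.permConj D.eOL D.spl.kOne i j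

end cross

end Orl.Fld.FieldDatum
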