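import Pool.Agent.Work.MP_a6e60d_ag.Q.Thk

/-!
MP_a6e60d_ag, Q3: the kernel of a sum of maps, one part of which is already an epimorphism.
-/

set_option autoImplicit false

open CategoryTheory Category Limits

attribute [-instance] CategoryTheory.catToReflQuiver

namespace Orl.Q

universe v u

variable {A : Type u} [Category.{v} A] [Abelian A]

/-- If `0 → N → X → D → 0` (with `X → D` equal to `p`) and `0 → K → X ⊞ B → D → 0` (with
`X ⊞ B → D` equal to `(p, g)`) are short exact, then so is `0 → N → K → B → 0`. -/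
theorem exists_ses_of_kernel {N X D K B : A} {i : N ⟶ X} {p : X ⟶ D} {w : i ≫ p = 0}
    (h : (ShortComplex.mk i p w).ShortExact) {j : K ⟶ X ⊞ B} {g : B ⟶ D}
    {w' : j ≫ biprod.desc p g = 0} (h' : (ShortComplex.mk j (biprod.desc p g) w').ShortExact) :
    ∃ (a : N ⟶ K) (w'' : a ≫ (j ≫ biprod.snd) = 0), a ≫ j = i ≫ biprod.inl ∧
      (ShortComplex.mk a (j ≫ biprod.snd) w'').ShortExact := by
  have hi : Mono i := h.mono_f
  have hj : Mono j := h'.mono_f
  have hp : Epi p := h.epi_g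
  let l1 := h.fIsKernel
  let l2 := h'.fIsKernel
  have e1 : (i ≫ (biprod.inl : X ⟶ X ⊞ B)) ≫ biprod.desc p g = 0 := by simp [w]
  obtain ⟨a, ha⟩ := KernelFork.IsLimit.lift' l2 _ e1
  have ha' : a ≫ j = i ≫ biprod.inl := ha
  have hw : a ≫ (j ≫ biprod.snd) = 0 := by
    rw [← Category.assoc, ha', Category.assoc, biprod.inl_snd, comp_zero]
  have hm : Mono a := by
    have : Mono (a ≫ j) := by rw [ha']; infer_instance
    exact mono_of_mono a j
  have he : Epi (j ≫ (biprod.snd : X ⊞ B ⟶ B)) := by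
    rw [epi_iff_surjective_up_to_refinements]
    intro Z b
    obtain ⟨Z', π, hπ, x, hx⟩ := surjective_up_to_refinements_of_epi p (-(b ≫ g))
    have hk : biprod.lift x (π ≫ b) ≫ biprod.desc p g = 0 := by
      rw [biprod.lift_desc, ← hx]
      simp
    obtain ⟨c, hc⟩ := KernelFork.IsLimit.lift' l2 _ hk
    refine ⟨Z', π, hπ, c, ?_⟩
    have hc' : c ≫ j = biprod.lift x (π ≫ b) := hc
    rw [← Category.assoc, hc', biprod.lift_snd]
  refine ⟨a, hw, ha', ?_⟩
  refine { exact := ShortComplex.exact_of_f_is_kernel _ ?_ }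
  refine KernelFork.IsLimit.ofι' _ _ fun {Z} x hx => ?_
  have hx' : x ≫ (j ≫ biprod.snd) = 0 := hx
  have h1 : (x ≫ j ≫ biprod.fst) ≫ p = 0 := by
    have h2 : (x ≫ j) ≫ biprod.desc p g = 0 := by rw [Category.assoc, w', comp_zero]
    have h3 : x ≫ j = biprod.lift (x ≫ j ≫ biprod.fst) (x ≫ j ≫ biprod.snd) := by
      apply biprod.hom_ext <;> simp
    rw [h3, biprod.lift_desc, hx', zero_comp, add_zero] at h2
    exact h2
  refine ⟨(KernelFork.IsLimit.lift' l1 _ h1).1, ?_⟩
  have h2 : (KernelFork.IsLimit.lift' l1 _ h1).1 ≫ i = x ≫ j ≫ biprod.fst :=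
    (KernelFork.IsLimit.lift' l1 _ h1).2
  rw [← cancel_mono j]
  change (_ ≫ a) ≫ j = x ≫ j
  rw [Category.assoc, ha', ← Category.assoc, h2]
  apply biprod.hom_ext
  · simp
  · simp only [Category.assoc, biprod.inl_snd, comp_zero]
    exact hx'.symm

/-- The class-theoretic consequence. -/
theorem Thk.of_kernel {P : ObjectProperty A} (hP : Thk P) {N X D K B : A} {i : N ⟶ X} {p : X ⟶ D}
    {w : i ≫ p = 0} (h : (ShortComplex.mk i p w).ShortExact) {j : K ⟶ X ⊞ B} {g : B ⟶ D}
    {w' : j ≫ biprod.desc p g = 0} (h' : (ShortComplex.mk j (biprod.desc p g) w').ShortExact)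
    (hK : P K) (hB : P B) : P N := by
  obtain ⟨a, w'', -, h''⟩ := exists_ses_of_kernel h h'
  exact hP.ses₁ h'' hK hB

end Orl.Q
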