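import Pool.Agent.Work.MP_a6e60d_ag.Q.Tab

/-!
MP_a6e60d_ag, Q5: vanishing of the groups Ext between the objects of the tilting object over the
cubic field, from the table of the groups Ext between the objects of rank one.
-/

open CategoryTheory CategoryTheory.Abelian CategoryTheory.Limits

attribute [-instance] CategoryTheory.catToReflQuiver

universe w v u v' u'

namespace Orl.Q

variable {C : Type u} [Category.{v} C] [Abelian C] [HasExt.{w} C]

/-! ### Kernels of maps from three objects of rank one to an object of rank one -/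

/-- The sequences `0 → M n → K → M b' → 0`, `0 → M n' → K → M b → 0` are exact. -/
structure KSeq (M : Finset (Fin 4) × ℤ → C) (b b' n n' : Finset (Fin 4) × ℤ) (K : C) where
  p : K ⟶ M b
  p' : K ⟶ M b'
  i : M n ⟶ K
  i' : M n' ⟶ K
  w : i ≫ p' = 0
  w' : i' ≫ p = 0
  se : (ShortComplex.mk i p' w).ShortExact
  se' : (ShortComplex.mk i' p w').ShortExact

/-- `K` is the kernel of an epimorphism `M b ⊞ M b' ⊞ M m ⟶ M d`, and the sequences
`0 → M n → K → M b' → 0`, `0 → M n' → K → M b → 0` are exact. -/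
structure KPres (M : Finset (Fin 4) × ℤ → C) (b b' n n' m d : Finset (Fin 4) × ℤ) (K : C)
    extends KSeq M b b' n n' K where
  s : K ⟶ M m
  u : M b ⟶ M d
  u' : M b' ⟶ M d
  t : M m ⟶ M d
  hu : u ≠ 0
  hu' : u' ≠ 0
  wk : biprod.lift (biprod.lift p p') s ≫ biprod.desc (biprod.desc u u') t = 0
  sk : (ShortComplex.mk _ _ wk).ShortExact

namespace KSeq

variable {k : Type*} [Field k] [Linear k C] {κ : Type*} {z : κ → (𝟭 C ⟶ 𝟭 C)}
  {M : Finset (Fin 4) × ℤ → C} {O : ℤ → C}
  {b b' n n' : Finset (Fin 4) × ℤ} {K : C} (P : KSeq M b b' n n' K)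

include P

/-- the two sequences exchanged -/
def swap : KSeq M b' b n' n K where
  p := P.p'
  p' := P.p
  i := P.i'
  i' := P.i
  w := P.w'
  w' := P.w
  se := P.se'
  se' := P.se

/-- the image of the two sequences under an exact functor -/
def map {C' : Type u'} [Category.{v'} C'] [Abelian C'] (F : C ⥤ C') [F.Additive]
    [PreservesFiniteLimits F] [PreservesFiniteColimits F] {M' : Finset (Fin 4) × ℤ → C'}
    {β β' ν ν' : Finset (Fin 4) × ℤ} (eb : F.obj (M b) ≅ M' β) (eb' : F.obj (M b') ≅ M' β')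
    (en : F.obj (M n) ≅ M' ν) (en' : F.obj (M n') ≅ M' ν') :
    KSeq M' β β' ν ν' (F.obj K) where
  p := F.map P.p ≫ eb.hom
  p' := F.map P.p' ≫ eb'.hom
  i := en.inv ≫ F.map P.i
  i' := en'.inv ≫ F.map P.i'
  w := by
    rw [Category.assoc, ← F.map_comp_assoc, P.w, F.map_zero, zero_comp, comp_zero]
  w' := by
    rw [Category.assoc, ← F.map_comp_assoc, P.w', F.map_zero, zero_comp, comp_zero]
  se := ShortComplex.shortExact_of_iso
    (ShortComplex.isoMk en (Iso.refl (F.obj K)) eb'
      ((Iso.hom_inv_id_assoc en _).trans (Category.comp_id _).symm) (Category.id_comp _))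
    (P.se.map_of_exact F)
  se' := ShortComplex.shortExact_of_iso
    (ShortComplex.isoMk en' (Iso.refl (F.obj K)) eb
      ((Iso.hom_inv_id_assoc en' _).trans (Category.comp_id _).symm) (Category.id_comp _))
    (P.se'.map_of_exact F)

theorem acyc_from {Y : C} (h : Acyc.{w} (M n) Y) (h' : Acyc.{w} (M b') Y) : Acyc.{w} K Y :=
  Acyc.mid' P.se h h'

theorem acyc_from' {Y : C} (h : Acyc.{w} (M n') Y) (h' : Acyc.{w} (M b) Y) : Acyc.{w} K Y :=
  Acyc.mid' P.se' h h'

theorem acyc_to {Y : C} (h : Acyc.{w} Y (M n)) (h' : Acyc.{w} Y (M b')) : Acyc.{w} Y K :=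
  Acyc.mid P.se h h'

theorem acyc_to' {Y : C} (h : Acyc.{w} Y (M n')) (h' : Acyc.{w} Y (M b)) : Acyc.{w} Y K :=
  Acyc.mid P.se' h h'

theorem vani_from {Y : C} (h : Vani.{w} (M n) Y) (h' : Vani.{w} (M b') Y) : Vani.{w} K Y :=
  Vani.mid' P.se h h'

theorem vani_to {Y : C} (h : Vani.{w} Y (M n)) (h' : Vani.{w} Y (M b')) : Vani.{w} Y K :=
  Vani.mid P.se h h'

omit [HasExt.{w} C] in
theorem finite_from {Y : C} (h : Module.Finite k (M n ⟶ Y)) (h' : Module.Finite k (M b' ⟶ Y)) :
    Module.Finite k (K ⟶ Y) :=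
  finite_hom_mid' k P.se Y h h'

omit [HasExt.{w} C] in
theorem finite_to {Y : C} (h : Module.Finite k (Y ⟶ M n)) (h' : Module.Finite k (Y ⟶ M b')) :
    Module.Finite k (Y ⟶ K) :=
  finite_hom_mid k P.se Y h h'

variable (T : Tab.{w} k z M O)

include T

theorem ip_ne (h : dg n n' < 0) : P.i ≫ P.p ≠ 0 := by
  intro h0
  obtain ⟨l, hl⟩ := KernelFork.IsLimit.lift' P.se'.fIsKernel P.i h0
  have hl' : l ≫ P.i' = P.i := hl
  have h1 : P.i = 0 := by rw [← hl', T.mm0 h l, zero_comp]
  have := P.se.mono_f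
  have h2 : IsZero (M n) := by
    rw [IsZero.iff_id_eq_zero]
    have : Mono P.i := P.se.mono_f
    rw [← cancel_mono P.i, h1, comp_zero, comp_zero]
  exact T.ne n h2

/-- The groups Ext in positive degrees from one kernel to another one. -/
theorem acyc_ker {n₁ n₁' m₁ d₁ : Finset (Fin 4) × ℤ} {K₁ : C}
    (P₁ : KPres M b b' n₁ n₁' m₁ d₁ K₁) (h1 : dg n n' < 0) (h2 : dg n d₁ = 0) (h3 : dg b' d₁ = 0)
    (hb : Acyc.{w} K (M b)) (hb' : Acyc.{w} K (M b')) (hm : Acyc.{w} K (M m₁))
    (hd : Acyc.{w} K (M d₁)) : Acyc.{w} K K₁ := by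
  refine Acyc.left P₁.sk (acyc_biprod (acyc_biprod hb hb') hm) hd ?_
  refine surjective_comp_of P.se ?_ ?_
  · intro f
    obtain ⟨c, hc⟩ := T.mm1 h3 P₁.u' f P₁.hu'
    refine ⟨(z c).app _ ≫ biprod.inr ≫ biprod.inl, ?_⟩
    simp [hc]
  · intro f
    have h4 : P.i ≫ P.p ≫ P₁.u ≠ 0 := by
      rw [← Category.assoc]
      exact T.comp_ne (P.ip_ne T h1) P₁.hu
    obtain ⟨c, hc⟩ := T.mm1 h2 _ f h4
    refine ⟨(z c).app _ ≫ P.p ≫ biprod.inl ≫ biprod.inl, ?_⟩
    have h5 : P.i ≫ (z c).app K = (z c).app (M n) ≫ P.i := (z c).naturality P.i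
    rw [hc, ← Category.assoc, ← Category.assoc, ← Category.assoc, ← Category.assoc, h5]
    simp

end KSeq

/-- The presentation of the object `K1`. -/
abbrev KOne (M : Finset (Fin 4) × ℤ → C) (K : C) : Type _ :=
  KPres M ({0, 1}, 0) ({1, 3}, 0) ({0, 1, 2}, -1) ({1, 2, 3}, -1) ({0, 1, 2, 3}, -1)
    ({0, 1, 3}, 0) K

/-- The sequences of the conjugate of `K1`. -/
abbrev KOne' (M : Finset (Fin 4) × ℤ → C) (K : C) : Type _ :=
  KSeq M ({0, 1}, 0) ({1, 3}, 0) ({0}, 0) ({3}, 0) K

section TL

variable {k : Type*} [Field k] [Linear k C] {κ : Type*} {z : κ → (𝟭 C ⟶ 𝟭 C)}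
  {M : Finset (Fin 4) × ℤ → C} {O : ℤ → C}
  (T : Tab.{w} k z M O) {K K' : C} (P : KOne M K) (P' : KOne' M K')

/-- The objects of the tilting object over the cubic field. -/
def tl (M : Finset (Fin 4) × ℤ → C) (O : ℤ → C) (K : C) : Fin 5 → C :=
  ![O (-2), O (-1), M ({1}, 0), K, M ({0, 1}, 0)]

/-- The conjugate objects. -/
def tl' (M : Finset (Fin 4) × ℤ → C) (O : ℤ → C) (K' : C) : Fin 5 → C :=
  ![O (-2), O (-1), M ({0, 1, 3}, -1), K', M ({1, 3}, 0)]

include T P

theorem acyc_K_K : Acyc.{w} K K := by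
  refine P.acyc_to ?_ ?_
  · exact P.acyc_from' (T.mm (by decide)) (T.mm (by decide))
  · exact P.acyc_from (T.mm (by decide)) (T.mm (by decide))

omit P in
include P' in
theorem acyc_K'_K (P : KOne M K) : Acyc.{w} K' K := by
  refine P'.acyc_ker T P (by decide) (by decide) (by decide) ?_ ?_ ?_ ?_
  · exact P'.acyc_from' (T.mm (by decide)) (T.mm (by decide))
  · exact P'.acyc_from (T.mm (by decide)) (T.mm (by decide))
  · exact P'.acyc_from' (T.mm (by decide)) (T.mm (by decide))
  · exact P'.acyc_from' (T.mm (by decide)) (T.mm (by decide))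

/-- The higher groups Ext of the tilting object over the cubic field vanish. -/
theorem acyc_tl (i j : Fin 5) : Acyc.{w} (tl M O K i) (tl M O K j) := by
  have mo := T.mo'
  fin_cases i <;> fin_cases j
  · exact T.oo (by decide)
  · exact T.oo (by decide)
  · exact T.om (by decide) (by decide)
  · exact P.acyc_to (T.om (by decide) (by decide)) (T.om (by decide) (by decide))
  · exact T.om (by decide) (by decide)
  · exact T.oo (by decide)
  · exact T.oo (by decide)
  · exact T.om (by decide) (by decide)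
  · exact P.acyc_to (T.om (by decide) (by decide)) (T.om (by decide) (by decide))
  · exact T.om (by decide) (by decide)
  · exact mo _ _
  · exact mo _ _
  · exact T.mm (by decide)
  · exact P.acyc_to (T.mm (by decide)) (T.mm (by decide))
  · exact T.mm (by decide)
  · exact P.acyc_from (mo _ _) (mo _ _)
  · exact P.acyc_from (mo _ _) (mo _ _)
  · exact P.acyc_from (T.mm (by decide)) (T.mm (by decide))
  · exact acyc_K_K T P
  · exact P.acyc_from (T.mm (by decide)) (T.mm (by decide))
  · exact mo _ _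
  · exact mo _ _
  · exact T.mm (by decide)
  · exact P.acyc_to (T.mm (by decide)) (T.mm (by decide))
  · exact T.mm (by decide)

omit P in
include P' in
/-- The higher groups Ext from the conjugate of the tilting object vanish. -/
theorem acyc_tl' (P : KOne M K) (i j : Fin 5) : Acyc.{w} (tl' M O K' i) (tl M O K j) := by
  have mo := T.mo'
  fin_cases i <;> fin_cases j
  · exact T.oo (by decide)
  · exact T.oo (by decide)
  · exact T.om (by decide) (by decide)
  · exact P.acyc_to (T.om (by decide) (by decide)) (T.om (by decide) (by decide))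
  · exact T.om (by decide) (by decide)
  · exact T.oo (by decide)
  · exact T.oo (by decide)
  · exact T.om (by decide) (by decide)
  · exact P.acyc_to (T.om (by decide) (by decide)) (T.om (by decide) (by decide))
  · exact T.om (by decide) (by decide)
  · exact mo _ _
  · exact mo _ _
  · exact T.mm (by decide)
  · exact P.acyc_to (T.mm (by decide)) (T.mm (by decide))
  · exact T.mm (by decide)
  · exact P'.acyc_from (mo _ _) (mo _ _)
  · exact P'.acyc_from (mo _ _) (mo _ _)
  · exact P'.acyc_from (T.mm (by decide)) (T.mm (by decide))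
  · exact acyc_K'_K T P' P
  · exact P'.acyc_from' (T.mm (by decide)) (T.mm (by decide))
  · exact mo _ _
  · exact mo _ _
  · exact T.mm (by decide)
  · exact P.acyc_to' (T.mm (by decide)) (T.mm (by decide))
  · exact T.mm (by decide)

/-- The objects of the tilting object have finite-dimensional spaces of maps. -/
theorem finite_tl (i j : Fin 5) : Module.Finite k (tl M O K i ⟶ tl M O K j) := by
  have mo := T.finite_mo
  fin_cases i <;> fin_cases j
  · exact T.oofin _ _
  · exact T.oofin _ _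
  · exact T.omfin _ _
  · exact P.finite_to (T.omfin _ _) (T.omfin _ _)
  · exact T.omfin _ _
  · exact T.oofin _ _
  · exact T.oofin _ _
  · exact T.omfin _ _
  · exact P.finite_to (T.omfin _ _) (T.omfin _ _)
  · exact T.omfin _ _
  · exact mo _ _
  · exact mo _ _
  · exact T.mfin _ _
  · exact P.finite_to (T.mfin _ _) (T.mfin _ _)
  · exact T.mfin _ _
  · exact P.finite_from (mo _ _) (mo _ _)
  · exact P.finite_from (mo _ _) (mo _ _)
  · exact P.finite_from (T.mfin _ _) (T.mfin _ _)
  · exact P.finite_from (P.finite_to (T.mfin _ _) (T.mfin _ _))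
      (P.finite_to (T.mfin _ _) (T.mfin _ _))
  · exact P.finite_from (T.mfin _ _) (T.mfin _ _)
  · exact mo _ _
  · exact mo _ _
  · exact T.mfin _ _
  · exact P.finite_to (T.mfin _ _) (T.mfin _ _)
  · exact T.mfin _ _

omit P in
include P' in
theorem finite_tl' (P : KOne M K) (i j : Fin 5) :
    Module.Finite k (tl' M O K' i ⟶ tl M O K j) := by
  have mo := T.finite_mo
  fin_cases i <;> fin_cases j
  · exact T.oofin _ _
  · exact T.oofin _ _
  · exact T.omfin _ _
  · exact P.finite_to (T.omfin _ _) (T.omfin _ _)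
  · exact T.omfin _ _
  · exact T.oofin _ _
  · exact T.oofin _ _
  · exact T.omfin _ _
  · exact P.finite_to (T.omfin _ _) (T.omfin _ _)
  · exact T.omfin _ _
  · exact mo _ _
  · exact mo _ _
  · exact T.mfin _ _
  · exact P.finite_to (T.mfin _ _) (T.mfin _ _)
  · exact T.mfin _ _
  · exact P'.finite_from (mo _ _) (mo _ _)
  · exact P'.finite_from (mo _ _) (mo _ _)
  · exact P'.finite_from (T.mfin _ _) (T.mfin _ _)
  · exact P'.finite_from (P.finite_to (T.mfin _ _) (T.mfin _ _))
      (P.finite_to (T.mfin _ _) (T.mfin _ _))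
  · exact P'.finite_from (T.mfin _ _) (T.mfin _ _)
  · exact mo _ _
  · exact mo _ _
  · exact T.mfin _ _
  · exact P.finite_to (T.mfin _ _) (T.mfin _ _)
  · exact T.mfin _ _

end TL

end Orl.Q
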