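import Pool.Agent.Work.MP_a6e60d_ag.Q.SqD
import Pool.Agent.Work.MP_a6e60d_ag.Q.Ker3
import Pool.Agent.Work.MP_a6e60d_ag.Q.TL

/-!
MP_a6e60d_ag, Q3/Q5: presentations `KPres` from squares, their images under exact functors, and the
object `K1` of the tilting object over the cubic field.
-/

open CategoryTheory Limits LaurentPolynomial Quaternion Orl.LF

set_option linter.unusedSectionVars false
set_option autoImplicit false

attribute [-instance] CategoryTheory.catToReflQuiver

namespace Orl.Q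

universe v u v' u'

section abstract

variable {C : Type u} [Category.{v} C] [Abelian C]

theorem shortExact_congr {X Y Z : C} {f f' : X ⟶ Y} {g g' : Y ⟶ Z} {w : f ≫ g = 0}
    {w' : f' ≫ g' = 0} (hf : f = f') (hg : g = g') (h : (ShortComplex.mk f g w).ShortExact) :
    (ShortComplex.mk f' g' w').ShortExact := by
  subst hf hg
  exact h

theorem shortExact_congr_mid {X Y Y' Z : C} {f : X ⟶ Y} {g : Y ⟶ Z} {w : f ≫ g = 0}
    {f' : X ⟶ Y'} {g' : Y' ⟶ Z} {w' : f' ≫ g' = 0} (e : Y ≅ Y') (hf : f ≫ e.hom = f')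
    (hg : e.hom ≫ g' = g) (h : (ShortComplex.mk f g w).ShortExact) :
    (ShortComplex.mk f' g' w').ShortExact :=
  ShortComplex.shortExact_of_iso
    (ShortComplex.isoMk (S₁ := ShortComplex.mk f g w) (S₂ := ShortComplex.mk f' g' w')
      (Iso.refl _) e (Iso.refl _) (by simp [hf]) (by simp [hg])) h

/-- The permutation of three summands. -/
@[simps] noncomputable def biprodPerm (A B X : C) : (A ⊞ B) ⊞ X ≅ (A ⊞ X) ⊞ B where
  hom := biprod.lift (biprod.lift (biprod.fst ≫ biprod.fst) biprod.snd) (biprod.fst ≫ biprod.snd)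
  inv := biprod.lift (biprod.lift (biprod.fst ≫ biprod.fst) biprod.snd) (biprod.fst ≫ biprod.snd)
  hom_inv_id := by
    apply biprod.hom_ext
    · apply biprod.hom_ext <;> simp
    · simp
  inv_hom_id := by
    apply biprod.hom_ext
    · apply biprod.hom_ext <;> simp
    · simp

/-- The exchange of the first two of three summands. -/
@[simps] noncomputable def biprodSwap (A B X : C) : (A ⊞ B) ⊞ X ≅ (B ⊞ A) ⊞ X where
  hom := biprod.lift (biprod.lift (biprod.fst ≫ biprod.snd) (biprod.fst ≫ biprod.fst)) biprod.snd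
  inv := biprod.lift (biprod.lift (biprod.fst ≫ biprod.snd) (biprod.fst ≫ biprod.fst)) biprod.snd
  hom_inv_id := by
    apply biprod.hom_ext
    · apply biprod.hom_ext <;> simp
    · simp
  inv_hom_id := by
    apply biprod.hom_ext
    · apply biprod.hom_ext <;> simp
    · simp

/-- The first of the two exact sequences of the kernel of a map from three summands. -/
theorem exists_ses_of_ker3 {A B X D N : C} (u : A ⟶ D) (u' : B ⟶ D) (t : X ⟶ D)
    {a : N ⟶ A ⊞ X} {w : a ≫ biprod.desc u t = 0}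
    (h : (ShortComplex.mk a (biprod.desc u t) w).ShortExact) :
    ∃ (i : N ⟶ kernel (biprod.desc (biprod.desc u u') t))
      (w' : i ≫ (kernel.ι (biprod.desc (biprod.desc u u') t) ≫ biprod.fst ≫ biprod.snd) = 0),
      (ShortComplex.mk i (kernel.ι (biprod.desc (biprod.desc u u') t) ≫ biprod.fst ≫ biprod.snd)
        w').ShortExact := by
  have hep : Epi (biprod.desc u t) := h.epi_g
  have he : Epi (biprod.desc (biprod.desc u u') t) := by
    have e1 : biprod.desc u t =
        biprod.lift (biprod.lift biprod.fst 0) biprod.snd ≫ biprod.desc (biprod.desc u u') t := by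
      apply biprod.hom_ext' <;> simp
    rw [e1] at hep
    exact epi_of_epi (biprod.lift (biprod.lift biprod.fst 0) biprod.snd) _
  have hk : (ShortComplex.mk (kernel.ι (biprod.desc (biprod.desc u u') t))
      (biprod.desc (biprod.desc u u') t) (kernel.condition _)).ShortExact :=
    { exact := ShortComplex.exact_kernel _ }
  have w1 : (kernel.ι (biprod.desc (biprod.desc u u') t) ≫ (biprodPerm A B X).hom) ≫
      biprod.desc (biprod.desc u t) u' = 0 := by
    rw [Category.assoc]
    have e2 : (biprodPerm A B X).hom ≫ biprod.desc (biprod.desc u t) u' =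
        biprod.desc (biprod.desc u u') t := by
      apply biprod.hom_ext'
      · apply biprod.hom_ext' <;> simp
      · simp
    rw [e2, kernel.condition]
  have h' := shortExact_congr_mid (w' := w1) (biprodPerm A B X) rfl (by
    apply biprod.hom_ext'
    · apply biprod.hom_ext' <;> simp
    · simp) hk
  obtain ⟨i, w2, -, hS⟩ := exists_ses_of_kernel h h'
  refine ⟨i, ?_, ?_⟩
  · simpa using w2
  · exact shortExact_congr rfl (by simp) hS

variable {M : Finset (Fin 4) × ℤ → C}

/-- **A presentation from two squares.** -/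
noncomputable def KPres.ofSquares (b b' n n' m d : Finset (Fin 4) × ℤ)
    (u : M b ⟶ M d) (u' : M b' ⟶ M d) (t : M m ⟶ M d) (hu : u ≠ 0) (hu' : u' ≠ 0)
    (h : ∃ (a : M n ⟶ M b ⊞ M m) (w : a ≫ biprod.desc u t = 0),
      (ShortComplex.mk a (biprod.desc u t) w).ShortExact)
    (h' : ∃ (a : M n' ⟶ M b' ⊞ M m) (w : a ≫ biprod.desc u' t = 0),
      (ShortComplex.mk a (biprod.desc u' t) w).ShortExact) :
    KPres M b b' n n' m d (kernel (biprod.desc (biprod.desc u u') t)) :=
  have H : ∃ (i : M n ⟶ kernel (biprod.desc (biprod.desc u u') t))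
      (w' : i ≫ (kernel.ι (biprod.desc (biprod.desc u u') t) ≫ biprod.fst ≫ biprod.snd) = 0),
      (ShortComplex.mk i (kernel.ι (biprod.desc (biprod.desc u u') t) ≫ biprod.fst ≫ biprod.snd)
        w').ShortExact := by
    obtain ⟨a, w, hS⟩ := h
    exact exists_ses_of_ker3 u u' t hS
  have H' : ∃ (i : M n' ⟶ kernel (biprod.desc (biprod.desc u u') t))
      (w' : i ≫ (kernel.ι (biprod.desc (biprod.desc u u') t) ≫ biprod.fst ≫ biprod.fst) = 0),
      (ShortComplex.mk i (kernel.ι (biprod.desc (biprod.desc u u') t) ≫ biprod.fst ≫ biprod.fst)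
        w').ShortExact := by
    obtain ⟨a, w, hS⟩ := h'
    obtain ⟨i, w', hS'⟩ := exists_ses_of_ker3 u' u t hS
    -- the two kernels are isomorphic
    let e : kernel (biprod.desc (biprod.desc u' u) t) ≅
        kernel (biprod.desc (biprod.desc u u') t) :=
      kernel.mapIso _ _ (biprodSwap _ _ _) (Iso.refl _) (by
        apply biprod.hom_ext'
        · apply biprod.hom_ext' <;> simp
        · simp)
    have he : e.hom ≫ kernel.ι (biprod.desc (biprod.desc u u') t) =
        kernel.ι (biprod.desc (biprod.desc u' u) t) ≫ (biprodSwap _ _ _).hom := by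
      simp [e]
    have w2 : (i ≫ e.hom) ≫ (kernel.ι (biprod.desc (biprod.desc u u') t) ≫
        biprod.fst ≫ biprod.fst) = 0 := by
      rw [Category.assoc, ← Category.assoc e.hom, he]
      simpa using w'
    refine ⟨i ≫ e.hom, w2, ?_⟩
    refine shortExact_congr_mid (w := w') (w' := w2) e rfl ?_ hS'
    rw [← Category.assoc, he]
    simp
  have hep : Epi (biprod.desc (biprod.desc u u') t) := by
    obtain ⟨a, w, hS⟩ := h
    have hep : Epi (biprod.desc u t) := hS.epi_g
    have e1 : biprod.desc u t =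
        biprod.lift (biprod.lift biprod.fst 0) biprod.snd ≫ biprod.desc (biprod.desc u u') t := by
      apply biprod.hom_ext' <;> simp
    rw [e1] at hep
    exact epi_of_epi (biprod.lift (biprod.lift biprod.fst 0) biprod.snd) _
  have hl : biprod.lift (biprod.lift
      (kernel.ι (biprod.desc (biprod.desc u u') t) ≫ biprod.fst ≫ biprod.fst)
      (kernel.ι (biprod.desc (biprod.desc u u') t) ≫ biprod.fst ≫ biprod.snd))
      (kernel.ι (biprod.desc (biprod.desc u u') t) ≫ biprod.snd) =
      kernel.ι (biprod.desc (biprod.desc u u') t) := by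
    apply biprod.hom_ext
    · apply biprod.hom_ext <;> simp
    · simp
  { p := kernel.ι (biprod.desc (biprod.desc u u') t) ≫ biprod.fst ≫ biprod.fst
    p' := kernel.ι (biprod.desc (biprod.desc u u') t) ≫ biprod.fst ≫ biprod.snd
    i := H.choose
    i' := H'.choose
    w := H.choose_spec.choose
    w' := H'.choose_spec.choose
    se := H.choose_spec.choose_spec
    se' := H'.choose_spec.choose_spec
    s := kernel.ι (biprod.desc (biprod.desc u u') t) ≫ biprod.snd
    u := u
    u' := u'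
    t := t
    hu := hu
    hu' := hu'
    wk := by rw [hl, kernel.condition]
    sk := shortExact_congr (w := kernel.condition _) hl.symm rfl
      { exact := ShortComplex.exact_kernel _ } }

end abstract

/-! ### The object `K1` -/

variable {k : Type} [Field k] {δ : Dat k}

namespace Spl

variable {K : Type} [Field K] [Algebra k K] (S : Spl δ K)

/-- The map `M_I(a) → M_J(a)` which adds the root `i`. -/
noncomputable def vHom {I J : Finset (Fin 4)} (i : Fin 4) (hI : Disjoint I {i}) (hJ : I ∪ {i} = J)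
    (a : ℤ) : S.M I a ⟶ S.M J a :=
  Fac.pairHom (φ := S.fac I) (φ' := S.fac J) rfl 1 (S.l i)
    (by rw [S.facFam.g_mul hI hJ, Finset.prod_singleton]; ring)
    (by rw [S.facFam.h_mul hI hJ, Finset.prod_singleton]; ring)
    (fun v => by rw [sub_self]; exact one_mem_lat v)
    (fun v => by
      have e : (a + (S.fac J).e) - (a + (S.fac I).e) = 1 := by
        rw [S.fac_e, S.fac_e, ← hJ, Finset.card_union_of_disjoint hI, Finset.card_singleton]
        push_cast
        ring
      rw [e]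
      exact S.l_mem i v)

/-- The map `M_J(a - 1) → M_I(a)` which removes the root `i`. -/
noncomputable def uHom {I J : Finset (Fin 4)} (i : Fin 4) (hI : Disjoint I {i}) (hJ : I ∪ {i} = J)
    {a b : ℤ} (hab : b + 1 = a) : S.M J b ⟶ S.M I a :=
  Fac.pairHom (φ := S.fac J) (φ' := S.fac I) rfl (S.l i) 1
    (by rw [S.facFam.g_mul hI hJ, Finset.prod_singleton]; ring)
    (by rw [S.facFam.h_mul hI hJ, Finset.prod_singleton]; ring)
    (fun v => by
      have e : a - b = 1 := by omega
      rw [e]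
      exact S.l_mem i v)
    (fun v => by
      have e : (a + (S.fac I).e) - (b + (S.fac J).e) = 0 := by
        rw [S.fac_e, S.fac_e, ← hJ, Finset.card_union_of_disjoint hI, Finset.card_singleton]
        push_cast
        omega
      rw [e]
      exact one_mem_lat v)

theorem vHom_ne_zero {I J : Finset (Fin 4)} (i : Fin 4) (hI : Disjoint I {i}) (hJ : I ∪ {i} = J)
    (a : ℤ) : S.vHom i hI hJ a ≠ 0 :=
  Fac.pairHom_ne_zero _ _ _ _ _ _ _ one_ne_zero

theorem uHom_ne_zero {I J : Finset (Fin 4)} (i : Fin 4) (hI : Disjoint I {i}) (hJ : I ∪ {i} = J)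
    {a b : ℤ} (hab : b + 1 = a) : S.uHom i hI hJ hab ≠ 0 :=
  Fac.pairHom_ne_zero _ _ _ _ _ _ _ (S.l_ne_zero i)

/-- The square with the roots `i` (added) and `j` (removed), with its maps. -/
theorem uv_shortExact {I₀ I₁ I₂ I₃ : Finset (Fin 4)} {i j : Fin 4} (h1 : Disjoint I₁ {i})
    (h13 : I₁ ∪ {i} = I₃) (h3 : Disjoint I₃ {j}) (h32 : I₃ ∪ {j} = I₂) (h0 : I₁ ∪ {j} = I₀)
    {a b : ℤ} (hab : b + 1 = a) :
    ∃ (f : S.M I₀ b ⟶ S.M I₁ a ⊞ S.M I₂ b)
      (w : f ≫ biprod.desc (S.vHom i h1 h13 a) (S.uHom j h3 h32 hab) = 0),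
      (ShortComplex.mk f (biprod.desc (S.vHom i h1 h13 a) (S.uHom j h3 h32 hab)) w).ShortExact := by
  have h1j : Disjoint I₁ {j} := by
    rw [← h13, Finset.disjoint_union_left] at h3
    exact h3.1
  have h0i : Disjoint I₀ {i} := by
    rw [← h0, Finset.disjoint_union_left]
    refine ⟨h1, ?_⟩
    rw [← h13, Finset.disjoint_union_left] at h3
    exact h3.2.symm
  have h02 : I₀ ∪ {i} = I₂ := by
    rw [← h0, ← h32, ← h13, Finset.union_assoc, Finset.union_assoc, Finset.union_comm {j}]
  have c1 : (I₃.card : ℤ) = I₁.card + 1 := by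
    rw [← h13, Finset.card_union_of_disjoint h1, Finset.card_singleton]
    push_cast
    ring
  have c2 : (I₂.card : ℤ) = I₃.card + 1 := by
    rw [← h32, Finset.card_union_of_disjoint h3, Finset.card_singleton]
    push_cast
    ring
  have c0 : (I₀.card : ℤ) = I₁.card + 1 := by
    rw [← h0, Finset.card_union_of_disjoint h1j, Finset.card_singleton]
    push_cast
    ring
  have F := S.facFam
  have g1 := F.g_mul h1 h13
  have k1 := F.h_mul h1 h13
  have g2 := F.g_mul h3 h32
  have k2 := F.h_mul h3 h32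
  have g3 := F.g_mul h1j h0
  have k3 := F.h_mul h1j h0
  have g4 := F.g_mul h0i h02
  have k4 := F.h_mul h0i h02
  rw [Finset.prod_singleton] at g1 k1 g2 k2 g3 k3 g4 k4
  have hl := S.l_mem
  obtain ⟨w, h⟩ := Fac.sq_shortExact (φ₀ := S.fac I₀) (φ₁ := S.fac I₁) (φ₂ := S.fac I₂)
    (φ₃ := S.fac I₃) rfl rfl rfl (n₀ := b) (n₁ := a) (n₂ := b) (n₃ := a) (α₁ := 1)
    (α₂ := S.l j) (β₁ := S.l i) (β₂ := 1) (d₁ := 0) (d₂ := 1) (c₁ := 1) (c₂ := 0)
    (by ring) hab hab (by rw [S.fac_e, S.fac_e, c1]; ring)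
    (by rw [S.fac_e, S.fac_e, c2]; omega) (by rw [S.fac_e, S.fac_e, c0]; omega)
    (Bez.one_left (S.l_mem j)) (Bez.one_right (S.l_mem i))
    (by rw [g1]; ring) (by rw [k1]; ring) (by rw [g2]; ring) (by rw [k2]; ring)
    (by rw [g3]; ring) (by rw [k3]; ring) (by rw [g4]; ring) (by rw [k4]; ring)
    (fun v => by rw [show a - b = 1 by omega]; exact hl j v)
    (fun v => by
      rw [show a + (S.fac I₁).e - (b + (S.fac I₀).e) = 0 by rw [S.fac_e, S.fac_e, c0]; omega]
      exact one_mem_lat v)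
    (fun v => by rw [sub_self]; exact Submodule.neg_mem _ (one_mem_lat v))
    (fun v => by
      rw [show b + (S.fac I₂).e - (b + (S.fac I₀).e) = 1 by
        rw [S.fac_e, S.fac_e, c0, c2, c1]; omega]
      exact Submodule.neg_mem _ (hl i v))
    (fun v => by rw [sub_self]; exact one_mem_lat v)
    (fun v => by
      rw [show a + (S.fac I₃).e - (a + (S.fac I₁).e) = 1 by rw [S.fac_e, S.fac_e, c1]; omega]
      exact hl i v)
    (fun v => by rw [show a - b = 1 by omega]; exact hl j v)
    (fun v => by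
      rw [show a + (S.fac I₃).e - (b + (S.fac I₂).e) = 0 by rw [S.fac_e, S.fac_e, c2]; omega]
      exact one_mem_lat v)
  exact ⟨_, w, h⟩

/-- The maps `M_{01}(0) → M_{013}(0)`, `M_{13}(0) → M_{013}(0)` and `M_{0123}(-1) → M_{013}(0)`. -/
noncomputable def k1u : S.M {0, 1} 0 ⟶ S.M {0, 1, 3} 0 :=
  S.vHom 3 (by decide) (by decide) 0

/-- see `k1u` -/
noncomputable def k1u' : S.M {1, 3} 0 ⟶ S.M {0, 1, 3} 0 :=
  S.vHom 0 (by decide) (by decide) 0

/-- see `k1u` -/
noncomputable def k1t : S.M {0, 1, 2, 3} (-1) ⟶ S.M {0, 1, 3} 0 :=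
  S.uHom 2 (by decide) (by decide) (by norm_num)

/-- **The object `K1`**: the kernel of `M_{01}(0) ⊞ M_{13}(0) ⊞ M_{0123}(-1) → M_{013}(0)`. -/
noncomputable def K1 : ModObj k K δ.Cat :=
  kernel (biprod.desc (biprod.desc S.k1u S.k1u') S.k1t)

/-- **The presentation of `K1`.** -/
noncomputable def kOne : KOne (fun x => S.M x.1 x.2) S.K1 :=
  KPres.ofSquares (M := fun x => S.M x.1 x.2) ({0, 1}, 0) ({1, 3}, 0) ({0, 1, 2}, -1)
    ({1, 2, 3}, -1) ({0, 1, 2, 3}, -1) ({0, 1, 3}, 0) S.k1u S.k1u' S.k1t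
    (S.vHom_ne_zero _ _ _ _) (S.vHom_ne_zero _ _ _ _)
    (S.uv_shortExact (by decide) (by decide) (by decide) (by decide) (by decide) (by norm_num))
    (S.uv_shortExact (by decide) (by decide) (by decide) (by decide) (by decide) (by norm_num))

theorem sesK1 : SES (S.M {0, 1, 2} (-1)) S.K1 (S.M {1, 3} 0) := ⟨_, _, _, S.kOne.se⟩

theorem sesK1' : SES (S.M {1, 2, 3} (-1)) S.K1 (S.M {0, 1} 0) := ⟨_, _, _, S.kOne.se'⟩

/-! ### Twists of `K1` -/

/-- The family of the twisted objects of rank one. -/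
noncomputable abbrev Mtw (m : ℤ) (x : Finset (Fin 4) × ℤ) : ModObj k K δ.Cat := S.M x.1 (x.2 + m)

/-- The family of the twisted line bundles. -/
noncomputable abbrev Otw (m : ℤ) (j : ℤ) : ModObj k K δ.Cat := S.O (j + m)

/-- The maps of the presentation of `K1(m)`. -/
noncomputable def k1uTw (m : ℤ) : S.Mtw m ({0, 1}, 0) ⟶ S.Mtw m ({0, 1, 3}, 0) :=
  S.vHom 3 (by decide) (by decide) (0 + m)

/-- see `k1uTw` -/
noncomputable def k1uTw' (m : ℤ) : S.Mtw m ({1, 3}, 0) ⟶ S.Mtw m ({0, 1, 3}, 0) :=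
  S.vHom 0 (by decide) (by decide) (0 + m)

/-- see `k1uTw` -/
noncomputable def k1tTw (m : ℤ) : S.Mtw m ({0, 1, 2, 3}, -1) ⟶ S.Mtw m ({0, 1, 3}, 0) :=
  S.uHom 2 (by decide) (by decide) (by ring)

/-- **The object `K1(m)`**: the kernel of
`M_{01}(m) ⊞ M_{13}(m) ⊞ M_{0123}(m - 1) → M_{013}(m)`. -/
noncomputable def K1Tw (m : ℤ) : ModObj k K δ.Cat :=
  kernel (biprod.desc (biprod.desc (S.k1uTw m) (S.k1uTw' m)) (S.k1tTw m))

/-- **The presentation of `K1(m)`.** -/
noncomputable def kOneTw (m : ℤ) : KOne (S.Mtw m) (S.K1Tw m) :=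
  KPres.ofSquares (M := S.Mtw m) ({0, 1}, 0) ({1, 3}, 0) ({0, 1, 2}, -1)
    ({1, 2, 3}, -1) ({0, 1, 2, 3}, -1) ({0, 1, 3}, 0) (S.k1uTw m) (S.k1uTw' m) (S.k1tTw m)
    (S.vHom_ne_zero _ _ _ _) (S.vHom_ne_zero _ _ _ _)
    (S.uv_shortExact (by decide) (by decide) (by decide) (by decide) (by decide) (by ring))
    (S.uv_shortExact (by decide) (by decide) (by decide) (by decide) (by decide) (by ring))

theorem sesK1Tw (m : ℤ) : SES (S.M {0, 1, 2} (m - 1)) (S.K1Tw m) (S.M {1, 3} m) := by
  have h : SES (S.M {0, 1, 2} (-1 + m)) (S.K1Tw m) (S.M {1, 3} (0 + m)) :=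
    ⟨_, _, _, (S.kOneTw m).se⟩
  rw [show -1 + m = m - 1 by ring, zero_add] at h
  exact h

theorem sesK1Tw' (m : ℤ) : SES (S.M {1, 2, 3} (m - 1)) (S.K1Tw m) (S.M {0, 1} m) := by
  have h : SES (S.M {1, 2, 3} (-1 + m)) (S.K1Tw m) (S.M {0, 1} (0 + m)) :=
    ⟨_, _, _, (S.kOneTw m).se'⟩
  rw [show -1 + m = m - 1 by ring, zero_add] at h
  exact h

/-- The squares of the twisted family. -/
theorem sqDataTw (m : ℤ) : SqData fun I a => S.M I (a + m) where
  vv I i j a hi hj hij := S.sqData.vv I i j (a + m) hi hj hij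
  uv I i j a hi hj := by
    have h := S.sqData.uv I i j (a + m) hi hj
    rwa [show a + m - 1 = a - 1 + m by ring] at h
  xt I a := by
    have h := S.sqData.xt I (a + m)
    rwa [show a + m - 1 = a - 1 + m by ring, show a + m - 2 = a - 2 + m by ring] at h

end Spl

end Orl.Q
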