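import Pool.Agent.Work.MP_a6e60d_ag.Q.Tab
import Pool.Agent.Work.MP_a6e60d_ag.Gal.Ext
import Pool.Agent.Work.MP_a6e60d_ag.Gal.Hom
import Pool.Agent.Work.MP_a6e60d_ag.Gal.Base

/-!
MP_a6e60d_ag, Q5: groups Ext of finite sums and of restrictions of finite sums of module objects.
-/

open CategoryTheory CategoryTheory.Abelian CategoryTheory.Limits Orl.LF Orl.Gal

attribute [-instance] CategoryTheory.catToReflQuiver

namespace Orl.Q

section sum

universe w v u

variable {C : Type u} [Category.{v} C] [Abelian C] [HasExt.{w} C]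

theorem acyc_biproduct_right {ι : Type} [Fintype ι] {X : C} (f : ι → C) [HasBiproduct f]
    (h : ∀ j, Acyc.{w} X (f j)) : Acyc.{w} X (⨁ f) := by
  classical
  intro n hn
  refine subsingleton_of_forall_eq 0 fun x => ?_
  have e : x = ∑ j, (x.comp (Ext.mk₀ (biproduct.π f j)) (add_zero n)).comp
      (Ext.mk₀ (biproduct.ι f j)) (add_zero n) := by
    simp only [Ext.comp_assoc_of_third_deg_zero, Ext.mk₀_comp_mk₀]
    rw [← Ext.comp_sum, ← Ext.mk₀_sum, biproduct.total, Ext.comp_mk₀_id]
  rw [e]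
  refine Finset.sum_eq_zero fun j _ => ?_
  rw [(h j).eq_zero hn (x.comp (Ext.mk₀ (biproduct.π f j)) (add_zero n)), Ext.zero_comp]

theorem acyc_biproduct_left {ι : Type} [Fintype ι] {Y : C} (f : ι → C) [HasBiproduct f]
    (h : ∀ j, Acyc.{w} (f j) Y) : Acyc.{w} (⨁ f) Y := by
  classical
  intro n hn
  refine subsingleton_of_forall_eq 0 fun x => ?_
  have e : x = ∑ j, (Ext.mk₀ (biproduct.π f j)).comp
      ((Ext.mk₀ (biproduct.ι f j)).comp x (zero_add n)) (zero_add n) := by
    simp only [Ext.mk₀_comp_mk₀_assoc]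
    rw [← Ext.sum_comp, ← Ext.mk₀_sum, biproduct.total, Ext.mk₀_id_comp]
  rw [e]
  refine Finset.sum_eq_zero fun j _ => ?_
  rw [(h j).eq_zero hn ((Ext.mk₀ (biproduct.ι f j)).comp x (zero_add n)), Ext.comp_zero]

theorem acyc_biproduct {ι ι' : Type} [Fintype ι] [Fintype ι'] (f : ι → C) (f' : ι' → C)
    [HasBiproduct f] [HasBiproduct f'] (h : ∀ i j, Acyc.{w} (f i) (f' j)) :
    Acyc.{w} (⨁ f) (⨁ f') :=
  acyc_biproduct_left f fun i => acyc_biproduct_right f' fun j => h i j

variable (k : Type*) [Field k] [Linear k C]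

omit [HasExt.{w} C] in
theorem finite_hom_biproduct {ι ι' : Type} [Fintype ι] [Fintype ι'] (f : ι → C) (f' : ι' → C)
    [HasBiproduct f] [HasBiproduct f'] (h : ∀ i j, Module.Finite k (f i ⟶ f' j)) :
    Module.Finite k (⨁ f ⟶ ⨁ f') := by
  classical
  let G : (⨁ f ⟶ ⨁ f') →ₗ[k] (∀ i j, (f i ⟶ f' j)) :=
    { toFun := fun x i j => biproduct.ι f i ≫ x ≫ biproduct.π f' j
      map_add' := fun x y => by
        funext i j
        simp
      map_smul' := fun c x => by
        funext i j
        simp }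
  refine Module.Finite.of_injective G ?_
  intro x y hxy
  refine biproduct.hom_ext' _ _ fun i => biproduct.hom_ext _ _ fun j => ?_
  have h1 := congrFun (congrFun hxy i) j
  simpa [G] using h1

end sum

section gal

universe v' u' w w₁ w₂

variable {k : Type*} [Field k] {E : Type*} {K : Type w} [Field E] [Field K] [Algebra k E]
  [Algebra k K] [Algebra E K] [IsScalarTower k E K]
variable {C : Type u'} [Category.{v'} C] [Abelian C] [Linear k C] [FiniteDimensional E K]
  [IsGalois E K]
variable [HasExt.{w₁} (ModObj k E C)] [HasExt.{w₂} (ModObj k K C)]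

omit [HasExt.{w₁} (ModObj k E C)] [FiniteDimensional E K] [IsGalois E K] in
theorem acyc_conj_biproduct {ι : Type} [Fintype ι] {Y : ModObj k K C} (g : K ≃ₐ[E] K)
    (f : ι → ModObj k K C) [HasBiproduct f]
    (h : ∀ j, Acyc.{w₂} ((conj k C g).obj (f j)) Y) :
    Acyc.{w₂} ((conj k C g).obj (⨁ f)) Y :=
  (acyc_biproduct_left _ h).iso ((conj k C g).mapBiproduct f).symm (Iso.refl Y)

/-- The higher groups Ext between restrictions of sums vanish. -/
theorem acyc_res_biproduct {ι ι' : Type} [Fintype ι] [Fintype ι'] (f : ι → ModObj k K C)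
    (f' : ι' → ModObj k K C) [HasBiproduct f] [HasBiproduct f']
    (h : ∀ (g : K ≃ₐ[E] K) i j, Acyc.{w₂} ((conj k C g).obj (f i)) (f' j)) :
    Acyc.{w₁} ((resE k E K C).obj (⨁ f)) ((resE k E K C).obj (⨁ f')) :=
  fun n hn => ext_res_subsingleton _ _ n fun g =>
    acyc_conj_biproduct g f (fun i => acyc_biproduct_right f' fun j => h g i j) n hn

omit [HasExt.{w₁} (ModObj k E C)] [HasExt.{w₂} (ModObj k K C)] in
/-- The spaces of maps between restrictions of sums are finite-dimensional. -/
theorem finite_hom_res_biproduct {ι ι' : Type} [Fintype ι] [Fintype ι'] (f : ι → ModObj k K C)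
    (f' : ι' → ModObj k K C) [HasBiproduct f] [HasBiproduct f']
    (h : ∀ (g : K ≃ₐ[E] K) i j, Module.Finite k ((conj k C g).obj (f i) ⟶ f' j)) :
    Module.Finite k ((resE k E K C).obj (⨁ f) ⟶ (resE k E K C).obj (⨁ f')) := by
  refine finite_hom_res _ _ fun g => ?_
  have h1 : Module.Finite k ((⨁ ((conj k C g).obj ∘ f)) ⟶ ⨁ f') :=
    finite_hom_biproduct k ((conj k C g).obj ∘ f) f' (h g)
  exact Module.Finite.of_injective (Linear.leftComp k (⨁ f') ((conj k C g).mapBiproduct f).inv)
    fun x y hxy => (cancel_epi ((conj k C g).mapBiproduct f).inv).1 hxy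

end gal

section pt

universe v' u' w w₁ w₂

variable {k : Type*} [Field k] {K : Type w} [Field K] [Algebra k K] [FiniteDimensional k K]
  [IsGalois k K]
variable {C : Type u'} [Category.{v'} C] [Abelian C] [Linear k C]
variable [HasExt.{w₁} C] [HasExt.{w₂} (ModObj k K C)]

/-- The higher groups Ext between the underlying objects of sums vanish. -/
theorem acyc_pt_biproduct {ι ι' : Type} [Fintype ι] [Fintype ι'] (f : ι → ModObj k K C)
    (f' : ι' → ModObj k K C) [HasBiproduct f] [HasBiproduct f']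
    (h : ∀ (g : K ≃ₐ[k] K) i j, Acyc.{w₂} ((conj k C g).obj (f i)) (f' j)) :
    Acyc.{w₁} (⨁ f).pt (⨁ f').pt :=
  fun n hn => ext_pt_subsingleton _ _ n fun g =>
    acyc_conj_biproduct g f (fun i => acyc_biproduct_right f' fun j => h g i j) n hn

omit [HasExt.{w₁} C] [HasExt.{w₂} (ModObj k K C)] in
theorem finite_hom_pt (M N : ModObj k K C)
    (h : ∀ g : K ≃ₐ[k] K, Module.Finite k ((conj k C g).obj M ⟶ N)) :
    Module.Finite k (M.pt ⟶ N.pt) := by
  have h1 := finite_hom_res M N h
  exact Module.Finite.of_surjective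
    ((ev (k := k) (C := C) (SingleObj.star k)).mapLinearMap k
      (X := (resE k k K C).obj M) (Y := (resE k k K C).obj N))
    ((ev (k := k) (C := C) (SingleObj.star k)).map_surjective)

omit [HasExt.{w₁} C] [HasExt.{w₂} (ModObj k K C)] in
/-- The spaces of maps between the underlying objects of sums are finite-dimensional. -/
theorem finite_hom_pt_biproduct {ι ι' : Type} [Fintype ι] [Fintype ι'] (f : ι → ModObj k K C)
    (f' : ι' → ModObj k K C) [HasBiproduct f] [HasBiproduct f']
    (h : ∀ (g : K ≃ₐ[k] K) i j, Module.Finite k ((conj k C g).obj (f i) ⟶ f' j)) :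
    Module.Finite k ((⨁ f).pt ⟶ (⨁ f').pt) := by
  refine finite_hom_pt _ _ fun g => ?_
  have h1 : Module.Finite k ((⨁ ((conj k C g).obj ∘ f)) ⟶ ⨁ f') :=
    finite_hom_biproduct k ((conj k C g).obj ∘ f) f' (h g)
  exact Module.Finite.of_injective (Linear.leftComp k (⨁ f') ((conj k C g).mapBiproduct f).inv)
    fun x y hxy => (cancel_epi ((conj k C g).mapBiproduct f).inv).1 hxy

end pt

end Orl.Q
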