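import Pool.Agent.Work.MP_a6e60d_ag.Q.TL
import Pool.Agent.Work.MP_a6e60d_ag.Q.ResSum

/-!
MP_a6e60d_ag, Q5: the tilting object over the cubic field `L`: the restriction to `L` of the sum of
five objects over the quadratic extension `K` of `L`.
-/

open CategoryTheory CategoryTheory.Abelian CategoryTheory.Limits Orl.LF Orl.Gal

attribute [-instance] CategoryTheory.catToReflQuiver

namespace Orl.Q

attribute [local instance] Abelian.hasFiniteBiproducts

universe v' u' w w₁ w₂

/-- The index of the conjugate of an object of rank one under the automorphism `τ` over `L`: it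
exchanges the roots `1`, `2` and the two components of all fibres. -/
def tauIx (x : Finset (Fin 4) × ℤ) : Finset (Fin 4) × ℤ :=
  ((x.1.image (Equiv.swap (1 : Fin 4) 2))ᶜ, x.2 + (x.1.card : ℤ) - 2)

section conj

variable {k : Type*} [Field k] {E : Type*} {K : Type w} [Field E] [Field K] [Algebra k E]
  [Algebra k K] [Algebra E K] [IsScalarTower k E K]
variable {C : Type u'} [Category.{v'} C] [Preadditive C] [Linear k C]

/-- The conjugate under the identity. -/
def conjOneIso (X : ModObj k K C) : (conj k C (1 : K ≃ₐ[E] K)).obj X ≅ X where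
  hom := ModObj.homMk (M := (conj k C (1 : K ≃ₐ[E] K)).obj X) (N := X) (𝟙 X.pt)
    fun e => (Category.comp_id (X.act e)).trans (Category.id_comp (X.act e)).symm
  inv := ModObj.homMk (M := X) (N := (conj k C (1 : K ≃ₐ[E] K)).obj X) (𝟙 X.pt)
    fun e => (Category.comp_id (X.act e)).trans (Category.id_comp (X.act e)).symm
  hom_inv_id := ModObj.hom_ext (Category.comp_id _)
  inv_hom_id := ModObj.hom_ext (Category.comp_id _)

end conj

variable {k : Type*} [Field k] {L : Type*} {K : Type w} [Field L] [Field K] [Algebra k L]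
  [Algebra k K] [Algebra L K] [IsScalarTower k L K]
variable {C : Type u'} [Category.{v'} C] [Abelian C] [Linear k C]

/-- The hypotheses on the conjugation under the automorphism `τ`. -/
structure TauConj (M : Finset (Fin 4) × ℤ → ModObj k K C) (O : ℤ → ModObj k K C)
    (τ : K ≃ₐ[L] K) : Prop where
  gal : ∀ g : K ≃ₐ[L] K, g = 1 ∨ g = τ
  o : ∀ j, Nonempty ((conj k C τ).obj (O j) ≅ O j)
  m : ∀ x, Nonempty ((conj k C τ).obj (M x) ≅ M (tauIx x))

namespace TauConj

variable {M : Finset (Fin 4) × ℤ → ModObj k K C} {O : ℤ → ModObj k K C} {τ : K ≃ₐ[L] K}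
  (h : TauConj M O τ)

include h

theorem m' {x y : Finset (Fin 4) × ℤ} (e : tauIx x = y) :
    Nonempty ((conj k C τ).obj (M x) ≅ M y) := by
  rw [← e]
  exact h.m x

/-- the sequences of the conjugate of `K1` -/
theorem kOne {K1 : ModObj k K C} (P : KOne M K1) : Nonempty (KOne' M ((conj k C τ).obj K1)) := by
  obtain ⟨e1⟩ := h.m' (x := ({0, 1}, 0)) (y := ({1, 3}, 0)) (by decide)
  obtain ⟨e2⟩ := h.m' (x := ({1, 3}, 0)) (y := ({0, 1}, 0)) (by decide)
  obtain ⟨e3⟩ := h.m' (x := ({0, 1, 2}, -1)) (y := ({3}, 0)) (by decide)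
  obtain ⟨e4⟩ := h.m' (x := ({1, 2, 3}, -1)) (y := ({0}, 0)) (by decide)
  exact ⟨(P.toKSeq.map (conj k C τ) e1 e2 e3 e4).swap⟩

/-- the conjugates of the five objects -/
theorem iso_tl (K1 : ModObj k K C) (i : Fin 5) :
    Nonempty ((conj k C τ).obj (tl M O K1 i) ≅ tl' M O ((conj k C τ).obj K1) i) := by
  fin_cases i
  · exact h.o _
  · exact h.o _
  · exact h.m' (by decide)
  · exact ⟨Iso.refl _⟩
  · exact h.m' (by decide)

variable [HasExt.{w₂} (ModObj k K C)]

theorem acyc_conj (T : Tab.{w₂} k (zact k K C) M O) {K1 : ModObj k K C} (P : KOne M K1)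
    (g : K ≃ₐ[L] K) (i j : Fin 5) :
    Acyc.{w₂} ((conj k C g).obj (tl M O K1 i)) (tl M O K1 j) := by
  rcases h.gal g with rfl | rfl
  · exact (acyc_tl T P i j).iso (conjOneIso _).symm (Iso.refl _)
  · obtain ⟨P'⟩ := h.kOne P
    obtain ⟨e⟩ := h.iso_tl K1 i
    exact (acyc_tl' T P' P i j).iso e.symm (Iso.refl _)

theorem finite_conj (T : Tab.{w₂} k (zact k K C) M O) {K1 : ModObj k K C} (P : KOne M K1)
    (g : K ≃ₐ[L] K) (i j : Fin 5) :
    Module.Finite k ((conj k C g).obj (tl M O K1 i) ⟶ tl M O K1 j) := by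
  have key : ∀ {X Y Z : ModObj k K C} (e : X ≅ Y) (_ : Module.Finite k (Y ⟶ Z)),
      Module.Finite k (X ⟶ Z) := fun {X Y Z} e _ =>
    Module.Finite.of_injective (Linear.leftComp k Z e.inv) fun x y hxy => (cancel_epi e.inv).1 hxy
  rcases h.gal g with rfl | rfl
  · exact key (conjOneIso _) (finite_tl T P i j)
  · obtain ⟨P'⟩ := h.kOne P
    obtain ⟨e⟩ := h.iso_tl K1 i
    exact key e (finite_tl' T P' P i j)

end TauConj

/-! ### The tilting object -/

/-- The tilting object over the cubic field. -/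
noncomputable def TLobj (L : Type*) [Field L] [Algebra k L] [Algebra L K] [IsScalarTower k L K]
    (M : Finset (Fin 4) × ℤ → ModObj k K C) (O : ℤ → ModObj k K C) (K1 : ModObj k K C) :
    ModObj k L C :=
  (resE k L K C).obj (⨁ tl M O K1)

variable {M : Finset (Fin 4) × ℤ → ModObj k K C} {O : ℤ → ModObj k K C} {τ : K ≃ₐ[L] K}
  (h : TauConj M O τ) [FiniteDimensional L K] [IsGalois L K]
  [HasExt.{w₁} (ModObj k L C)] [HasExt.{w₂} (ModObj k K C)]

include h

/-- The higher groups Ext of the tilting object over the cubic field vanish. -/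
theorem acyc_TLobj (T : Tab.{w₂} k (zact k K C) M O) {K1 : ModObj k K C} (P : KOne M K1) :
    Acyc.{w₁} (TLobj L M O K1) (TLobj L M O K1) :=
  acyc_res_biproduct _ _ fun g i j => h.acyc_conj T P g i j

omit [HasExt.{w₁} (ModObj k L C)] in
/-- The algebra of endomorphisms of the tilting object is finite-dimensional. -/
theorem finite_TLobj (T : Tab.{w₂} k (zact k K C) M O) {K1 : ModObj k K C} (P : KOne M K1) :
    Module.Finite k (TLobj L M O K1 ⟶ TLobj L M O K1) :=
  finite_hom_res_biproduct _ _ fun g i j => h.finite_conj T P g i j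

end Orl.Q
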