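import Pool.Agent.Work.MP_a6e60d_ag.Q.GenD
import Pool.Agent.Work.MP_a6e60d_ag.Q.SqD
import Pool.Agent.Work.MP_a6e60d_ag.Q.KOne
import Pool.Agent.Work.MP_a6e60d_ag.Q.Conj
import Pool.Agent.Work.MP_a6e60d_ag.Q.TLObj
import Pool.Agent.Work.MP_a6e60d_ag.Q.TF

/-!
MP_a6e60d_ag, Q3, generation: the objects of the tilting objects over the quadratic and over the
cubic field generate the restrictions of all objects `M_I(a)`, `O(j)` and the extensions of all
`k`-objects which split over `K` into such objects.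
-/

set_option autoImplicit false
set_option linter.unusedSectionVars false

open CategoryTheory Category Limits

attribute [-instance] CategoryTheory.catToReflQuiver

namespace Orl.Q

open Orl.LF Orl.Gal

universe w v' u' w₁

attribute [local instance] Abelian.hasFiniteBiproducts

section abstract

variable {k : Type*} [Field k] {E : Type*} {K : Type w} [Field E] [Field K] [Algebra k E]
  [Algebra k K] [Algebra E K] [IsScalarTower k E K]
variable {C : Type u'} [Category.{v'} C] [Abelian C] [Linear k C]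
variable {P : ObjectProperty (ModObj k E C)} (hP : Thk P)
variable {M : Finset (Fin 4) → ℤ → ModObj k K C} (hM : SqData M) {O : ℤ → ModObj k K C}
  (hO : ∀ j, Sq (O (j - 2)) (O (j - 1)) (O (j - 1)) (O j))

include hP

/-- the summands of a finite direct sum -/
theorem of_res_biproduct {J : Type} [Fintype J] (f : J → ModObj k K C)
    (h : P ((resE k E K C).obj (⨁ f))) (j : J) : P ((resE k E K C).obj (f j)) :=
  (thk_res (K := K) hP).of_biproduct f h j

include hM hO

/-- Generation over the quadratic field: if the restrictions of the six objects of the list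
twisted by `m` are in the class, so are the restrictions of all `M_I(a)` and `O(j)`. -/
theorem gen_tf (m : ℤ) (g₁ g₂ : K ≃ₐ[E] K)
    (c₁ : Nonempty ((conj k C g₁).obj (M {0} m) ≅ M {1} m))
    (c₂ : Nonempty ((conj k C g₂).obj (M {0} m) ≅ M {2} m))
    (h : ∀ i : Fin 6, P ((resE k E K C).obj (tf (fun x => M x.1 x.2) O m i))) :
    (∀ I a, P ((resE k E K C).obj (M I a))) ∧ ∀ j, P ((resE k E K C).obj (O j)) := by
  refine ⟨gen_F_res_shift hP hM m g₁ g₂ c₁ c₂ (h 2) (h 4) (h 3) (h 5),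
    koszul_res hP O hO (m - 2) (h 0) ?_⟩
  have e : m - 2 + 1 = m - 1 := by ring
  rw [e]
  exact h 1

/-- Generation over the cubic field: if the restrictions of the five objects of the list
are in the class, so are the restrictions of all `M_I(a)` and `O(j)`. -/
theorem gen_tl (τ : K ≃ₐ[E] K)
    (c₂ : Nonempty ((conj k C τ).obj (M {1} 0) ≅ M {0, 1, 3} (-1)))
    (c₁₂ : Nonempty ((conj k C τ).obj (M {0, 1} 0) ≅ M {1, 3} 0))
    (c₂₃₄ : Nonempty ((conj k C τ).obj (M {1, 2, 3} (-1)) ≅ M {0} 0))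
    {K₁ : ModObj k K C} (s₁ : SES (M {0, 1, 2} (-1)) K₁ (M {1, 3} 0))
    (s₂ : SES (M {1, 2, 3} (-1)) K₁ (M {0, 1} 0))
    (h : ∀ i : Fin 5, P ((resE k E K C).obj (tl (fun x => M x.1 x.2) O K₁ i))) :
    (∀ I a, P ((resE k E K C).obj (M I a))) ∧ ∀ j, P ((resE k E K C).obj (O j)) :=
  ⟨gen_L_res hP hM τ c₂ c₁₂ c₂₃₄ s₁ s₂ (h 2) (h 4) (h 3), koszul_res hP O hO (-2) (h 0) (h 1)⟩

end abstract

/-! ### Forms -/

section form

variable {k : Type*} [Field k] {E : Type*} {K : Type w} [Field E] [Field K] [Algebra k E]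
  [Algebra k K] [Algebra E K] [IsScalarTower k E K]
variable {C : Type u'} [Category.{v'} C] [Abelian C] [Linear k C] [FiniteDimensional E K]

/-- The `E`-object `X` is either a form of the `K`-object `Y` or its restriction. -/
def FormOf (X : ModObj k E C) (Y : ModObj k K C) : Prop :=
  Nonempty ((indE k E K C).obj X ≅ Y) ∨ Nonempty (X ≅ (resE k E K C).obj Y)

variable {P : ObjectProperty (ModObj k E C)} (hP : Thk P)

include hP

/-- an `E`-object is in the class iff the restriction of its extension is -/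
theorem res_iff {X : ModObj k E C} {Y : ModObj k K C} (e : (indE k E K C).obj X ≅ Y) :
    P ((resE k E K C).obj Y) ↔ P X :=
  ⟨fun h => of_res_ind (K := K) hP (hP.iso ((resE k E K C).mapIso e.symm) h),
    fun h => hP.iso ((resE k E K C).mapIso e) (res_ind (K := K) hP h)⟩

theorem FormOf.iff {X : ModObj k E C} {Y : ModObj k K C} (h : FormOf X Y) :
    P ((resE k E K C).obj Y) ↔ P X := by
  rcases h with ⟨⟨e⟩⟩ | ⟨⟨e⟩⟩
  · exact res_iff hP e
  · exact (hP.iso_iff e).symm

end form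

/-! ### The concrete objects -/

namespace Spl

variable {k : Type} [Field k] {δ : Dat k} {K : Type} [Field K] [Algebra k K] (S : Spl δ K)
variable {E : Type} [Field E] [Algebra k E] [Algebra E K] [IsScalarTower k E K]
variable {P : ObjectProperty (ModObj k E δ.Cat)} (hP : Thk P)

include hP

/-- **Generation over the quadratic field** `E = F`, with honest hypotheses on the Galois group:
some automorphism over `E` fixes the square root of `a` and maps the root `0` to `1`, another one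
maps `0` to `2`. -/
theorem gen_F (m : ℤ) (g₁ g₂ : K ≃ₐ[E] K) (π₁ π₂ : Equiv.Perm (Fin 3))
    (hr₁ : ∀ i, g₁ (S.r i) = S.r (π₁ i)) (hr₂ : ∀ i, g₂ (S.r i) = S.r (π₂ i))
    (hs₁ : g₁ S.s = S.s) (hs₂ : g₂ S.s = S.s) (h₁ : π₁ 1 = 0) (h₂ : π₂ 2 = 0)
    (h : ∀ i : Fin 6, P ((resE k E K δ.Cat).obj (tf (fun x => S.M x.1 x.2) S.O m i))) :
    (∀ I a, P ((resE k E K δ.Cat).obj (S.M I a))) ∧ ∀ j, P ((resE k E K δ.Cat).obj (S.O j)) :=
  gen_tf hP S.sqData S.sqO m g₁ g₂
    ⟨S.conjM_pos g₁ π₁ hr₁ hs₁ (by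
      rw [mv, Finset.map_singleton, Finset.singleton_inj]
      exact (up4_castSucc π₁ 1).trans (by rw [h₁]; rfl)) m⟩
    ⟨S.conjM_pos g₂ π₂ hr₂ hs₂ (by
      rw [mv, Finset.map_singleton, Finset.singleton_inj]
      exact (up4_castSucc π₂ 2).trans (by rw [h₂]; rfl)) m⟩ h

/-- **Generation over the cubic field** `E = L`: `τ` fixes the root `0`, exchanges the roots `1`
and `2` and changes the sign of the square root of `a`. -/
theorem gen_L (τ : K ≃ₐ[E] K) (hr : ∀ i, τ (S.r i) = S.r (Equiv.swap 1 2 i))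
    (hs : τ S.s = -S.s)
    (h : ∀ i : Fin 5, P ((resE k E K δ.Cat).obj (tl (fun x => S.M x.1 x.2) S.O S.K1 i))) :
    (∀ I a, P ((resE k E K δ.Cat).obj (S.M I a))) ∧ ∀ j, P ((resE k E K δ.Cat).obj (S.O j)) :=
  gen_tl hP S.sqData S.sqO τ
    ⟨S.conjM_neg τ _ hr hs (by decide) (by decide)⟩
    ⟨S.conjM_neg τ _ hr hs (by decide) (by decide)⟩
    ⟨S.conjM_neg τ _ hr hs (by decide) (by decide)⟩ S.sesK1 S.sesK1' h

end Spl

/-! ### The extensions of `k`-objects -/

section ind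

variable {k : Type w₁} [Field k] {E : Type*} {K : Type w} [Field E] [Field K] [Algebra k E]
  [Algebra k K] [Algebra E K] [IsScalarTower k E K]
variable {C : Type u'} [Category.{v'} C] [Abelian C] [Linear k C]
variable [FiniteDimensional E K] [FiniteDimensional k E] [FiniteDimensional k K]
variable {P : ObjectProperty (ModObj k E C)} (hP : Thk P)

include hP

theorem gen_indC (X : C) {Y : ModObj k K C} (e : (indC k C K).obj X ≅ Y)
    (hY : P ((resE k E K C).obj Y)) : P ((indC k C E).obj X) :=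
  gen_ind hP ((triv k C).obj X) e hY

theorem gen_indC₂ (X : C) {Y Z : ModObj k K C} (e : (indC k C K).obj X ≅ Y ⊞ Z)
    (hY : P ((resE k E K C).obj Y)) (hZ : P ((resE k E K C).obj Z)) :
    P ((indC k C E).obj X) :=
  gen_ind₂ hP ((triv k C).obj X) e hY hZ

end ind

/-! ### The final statements -/

namespace Spl

variable {k : Type} [Field k] {δ : Dat k} {K : Type} [Field K] [Algebra k K] (S : Spl δ K)
variable {E : Type} [Field E] [Algebra k E] [Algebra E K] [IsScalarTower k E K]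
  [FiniteDimensional E K] [FiniteDimensional k E] [FiniteDimensional k K]
variable {P : ObjectProperty (ModObj k E δ.Cat)} (hP : Thk P)
  (eO : ∀ j, Nonempty ((indC k δ.Cat K).obj (δ.O j) ≅ S.O j))
  (eE : ∀ j, Nonempty ((indC k δ.Cat K).obj (δ.E j) ≅ S.M ∅ j ⊞ S.M Finset.univ (j - 2)))

include hP eO eE

theorem gen_k (h : (∀ I a, P ((resE k E K δ.Cat).obj (S.M I a))) ∧
    ∀ j, P ((resE k E K δ.Cat).obj (S.O j))) (j : ℤ) :
    P ((indC k δ.Cat E).obj (δ.O j)) ∧ P ((indC k δ.Cat E).obj (δ.E j)) :=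
  ⟨gen_indC hP _ (eO j).some (h.2 j), gen_indC₂ hP _ (eE j).some (h.1 _ _) (h.1 _ _)⟩

/-- **Generation over the quadratic field**: if the six objects `X i` (forms or restrictions of the
objects of the list) are in the class, so are the extensions of all `O(j)`, `E(j)`. -/
theorem gen_F_final (m : ℤ) (g₁ g₂ : K ≃ₐ[E] K) (π₁ π₂ : Equiv.Perm (Fin 3))
    (hr₁ : ∀ i, g₁ (S.r i) = S.r (π₁ i)) (hr₂ : ∀ i, g₂ (S.r i) = S.r (π₂ i))
    (hs₁ : g₁ S.s = S.s) (hs₂ : g₂ S.s = S.s) (h₁ : π₁ 1 = 0) (h₂ : π₂ 2 = 0)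
    (X : Fin 6 → ModObj k E δ.Cat) (hX : ∀ i, FormOf (X i) (tf (fun x => S.M x.1 x.2) S.O m i))
    (h : ∀ i, P (X i)) (j : ℤ) :
    P ((indC k δ.Cat E).obj (δ.O j)) ∧ P ((indC k δ.Cat E).obj (δ.E j)) :=
  S.gen_k hP eO eE (S.gen_F hP m g₁ g₂ π₁ π₂ hr₁ hr₂ hs₁ hs₂ h₁ h₂
    fun i => ((hX i).iff hP).2 (h i)) j

/-- **Generation over the cubic field**: if the five objects `X i` (forms or restrictions of the
objects of the list) are in the class, so are the extensions of all `O(j)`, `E(j)`. -/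
theorem gen_L_final (τ : K ≃ₐ[E] K) (hr : ∀ i, τ (S.r i) = S.r (Equiv.swap 1 2 i))
    (hs : τ S.s = -S.s) (X : Fin 5 → ModObj k E δ.Cat)
    (hX : ∀ i, FormOf (X i) (tl (fun x => S.M x.1 x.2) S.O S.K1 i))
    (h : ∀ i, P (X i)) (j : ℤ) :
    P ((indC k δ.Cat E).obj (δ.O j)) ∧ P ((indC k δ.Cat E).obj (δ.E j)) :=
  S.gen_k hP eO eE (S.gen_L hP τ hr hs fun i => ((hX i).iff hP).2 (h i)) j

/-- the version for the restriction of the direct sum (quadratic field) -/
theorem gen_F_sum (m : ℤ) (g₁ g₂ : K ≃ₐ[E] K) (π₁ π₂ : Equiv.Perm (Fin 3))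
    (hr₁ : ∀ i, g₁ (S.r i) = S.r (π₁ i)) (hr₂ : ∀ i, g₂ (S.r i) = S.r (π₂ i))
    (hs₁ : g₁ S.s = S.s) (hs₂ : g₂ S.s = S.s) (h₁ : π₁ 1 = 0) (h₂ : π₂ 2 = 0)
    (h : P ((resE k E K δ.Cat).obj (⨁ tf (fun x => S.M x.1 x.2) S.O m))) (j : ℤ) :
    P ((indC k δ.Cat E).obj (δ.O j)) ∧ P ((indC k δ.Cat E).obj (δ.E j)) :=
  S.gen_k hP eO eE (S.gen_F hP m g₁ g₂ π₁ π₂ hr₁ hr₂ hs₁ hs₂ h₁ h₂
    fun i => of_res_biproduct hP _ h i) j

/-- the version for the restriction of the direct sum (cubic field) -/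
theorem gen_L_sum (τ : K ≃ₐ[E] K) (hr : ∀ i, τ (S.r i) = S.r (Equiv.swap 1 2 i))
    (hs : τ S.s = -S.s) (h : P (TLobj E (fun x => S.M x.1 x.2) S.O S.K1)) (j : ℤ) :
    P ((indC k δ.Cat E).obj (δ.O j)) ∧ P ((indC k δ.Cat E).obj (δ.E j)) :=
  S.gen_k hP eO eE (S.gen_L hP τ hr hs fun i => of_res_biproduct hP _ h i) j

end Spl

end Orl.Q
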