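import Pool.Agent.Work.MP_a6e60d_ag.Q.Obj
import Pool.Agent.Work.MP_a6e60d_ag.Q.TiledApi

/-!
# The direct sum of two tiled modules with an action of a field
-/

open CategoryTheory Limits Orl.LF

set_option linter.unusedSectionVars false

attribute [-instance] CategoryTheory.catToReflQuiver

namespace Orl.Q

variable {k D V : Type} [Field k] [Ring D] [Algebra k D] [Fintype V] [DecidableEq V]
  {T : Tiling k D V} {N N' : Type} [AddCommGroup N] [Module k N] [Module D N]
  [IsScalarTower k D N] [AddCommGroup N'] [Module k N'] [Module D N'] [IsScalarTower k D N']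

/-- the product of two lattices -/
def Lattice.lprod (M : Lattice T N) (M' : Lattice T N') : Lattice T (N × N') where
  M s := (M.M s).prod (M'.M s)
  smul_mem hx hm := ⟨M.smul_mem hx hm.1, M'.smul_mem hx hm.2⟩

theorem Lattice.mem_lprod {M : Lattice T N} {M' : Lattice T N'} {s : V} {x : N × N'} :
    x ∈ (M.lprod M').M s ↔ x.1 ∈ M.M s ∧ x.2 ∈ M'.M s := Iff.rfl

variable {κ : Type} [Field κ] [Algebra k κ] [Module κ N] [IsScalarTower k κ N]
  [SMulCommClass κ D N] [Module κ N'] [IsScalarTower k κ N'] [SMulCommClass κ D N']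
  {M : Lattice T N} (hM : M.Stable κ) {M' : Lattice T N'} (hM' : M'.Stable κ)

include hM hM' in
theorem Lattice.lprod_stable : (M.lprod M').Stable κ := fun s c _ hx =>
  ⟨hM s c _ hx.1, hM' s c _ hx.2⟩

/-- the product as a binary bicone -/
noncomputable def Lattice.prodBicone :
    BinaryBicone (Lattice.kmod hM) (Lattice.kmod hM') where
  pt := Lattice.kmod (Lattice.lprod_stable hM hM')
  fst := ModObj.homMk (M := Lattice.kmod (Lattice.lprod_stable hM hM')) (N := Lattice.kmod hM)
    ((M.lprod M').mapD M (LinearMap.fst D N N') fun _ _ hx => hx.1).hom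
    (fun c => by
      apply ModuleCat.hom_ext
      exact LinearMap.ext fun x => Lattice.El.ext' fun s => rfl)
  snd := ModObj.homMk (M := Lattice.kmod (Lattice.lprod_stable hM hM')) (N := Lattice.kmod hM')
    ((M.lprod M').mapD M' (LinearMap.snd D N N') fun _ _ hx => hx.2).hom
    (fun c => by
      apply ModuleCat.hom_ext
      exact LinearMap.ext fun x => Lattice.El.ext' fun s => rfl)
  inl := ModObj.homMk (M := Lattice.kmod hM) (N := Lattice.kmod (Lattice.lprod_stable hM hM'))
    (M.mapD (M.lprod M') (LinearMap.inl D N N') fun _ _ hx => ⟨hx, Submodule.zero_mem _⟩).hom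
    (fun c => by
      apply ModuleCat.hom_ext
      exact LinearMap.ext fun x => Lattice.El.ext' fun s => Prod.ext rfl (smul_zero c).symm)
  inr := ModObj.homMk (M := Lattice.kmod hM') (N := Lattice.kmod (Lattice.lprod_stable hM hM'))
    (M'.mapD (M.lprod M') (LinearMap.inr D N N') fun _ _ hx => ⟨Submodule.zero_mem _, hx⟩).hom
    (fun c => by
      apply ModuleCat.hom_ext
      exact LinearMap.ext fun x => Lattice.El.ext' fun s => Prod.ext (smul_zero c).symm rfl)
  inl_fst := ModObj.hom_ext (by
    apply ModuleCat.hom_ext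
    exact LinearMap.ext fun x => Lattice.El.ext' fun s => rfl)
  inl_snd := ModObj.hom_ext (by
    apply ModuleCat.hom_ext
    exact LinearMap.ext fun x => Lattice.El.ext' fun s => rfl)
  inr_fst := ModObj.hom_ext (by
    apply ModuleCat.hom_ext
    exact LinearMap.ext fun x => Lattice.El.ext' fun s => rfl)
  inr_snd := ModObj.hom_ext (by
    apply ModuleCat.hom_ext
    exact LinearMap.ext fun x => Lattice.El.ext' fun s => rfl)

/-- the product is a biproduct -/
noncomputable def Lattice.prodBilimit : (Lattice.prodBicone hM hM').IsBilimit :=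
  isBinaryBilimitOfTotal _ (ModObj.hom_ext (by
    apply ModuleCat.hom_ext
    refine LinearMap.ext fun x => Lattice.El.ext' fun s => ?_
    change (((x s).1.1, 0) + (0, (x s).1.2) : N × N') = (x s).1
    rw [Prod.mk_add_mk, add_zero, zero_add]))

/-- the product of the lattices is the biproduct of the objects -/
noncomputable def Lattice.prodIso :
    Lattice.kmod (Lattice.lprod_stable hM hM') ≅ Lattice.kmod hM ⊞ Lattice.kmod hM' :=
  biprod.uniqueUpToIso _ _ (Lattice.prodBilimit hM hM')

end Orl.Q
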