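import Pool.Agent.Work.MP_a6e60d_ag.Q.IndC
import Pool.Agent.Work.MP_a6e60d_ag.Q.LatProd

/-!
# The objects over an extension field as extensions of scalars

`K ⊗_E M_φ(n) = M_{φ_K}(n)`, `K ⊗_E O(n) = O(n)`, `K ⊗_k O(j) = O(j)` and
`K ⊗_k E(j) = M_{1,q}(j) ⊕ M_{q,1}(j - 2)`.
-/

open CategoryTheory Limits LaurentPolynomial Quaternion Orl.LF Orl.Gal

set_option linter.unusedSectionVars false

attribute [-instance] CategoryTheory.catToReflQuiver

namespace Orl.Q

variable {k : Type} [Field k] {δ : Dat k}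

/-! ### Extensions of fields which contain a square root of `a` -/

section ext

variable {E K : Type} [Field E] [Algebra k E] [Field K] [Algebra k K] [Algebra E K]
  [IsScalarTower k E K]

theorem mapL_toAlgHom (f : E[T;T⁻¹]) : mapL (IsScalarTower.toAlgHom k E K) f = bc K f := by
  ext m
  rw [mapL_coeff, bc_coeff]
  rfl

theorem Fac.sum_fst (ψ : Fac δ K) {ι : Type} (t : Finset ι) (x : ι → ψ.N) :
    (∑ i ∈ t, x i).1 = ∑ i ∈ t, (x i).1 := by
  classical
  induction t using Finset.induction_on with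
  | empty => rfl
  | insert i t hi ih =>
    rw [Finset.sum_insert hi, Finset.sum_insert hi, Fac.add_fst, ih]

theorem Fac.sum_snd (ψ : Fac δ K) {ι : Type} (t : Finset ι) (x : ι → ψ.N) :
    (∑ i ∈ t, x i).2 = ∑ i ∈ t, (x i).2 := by
  classical
  induction t using Finset.induction_on with
  | empty => rfl
  | insert i t hi ih =>
    rw [Finset.sum_insert hi, Finset.sum_insert hi, Fac.add_snd, ih]

variable [Module.Finite E K] (φ : Fac δ E) (ψ : Fac δ K)

/-- the family of maps from `M_φ(n)` to `M_ψ(n)` -/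
noncomputable def Fac.famM (hs : ψ.s = IsScalarTower.toAlgHom k E K φ.s) (he : ψ.e = φ.e)
    (hg : ψ.g = mapL (IsScalarTower.toAlgHom k E K) φ.g)
    (hh : ψ.h = mapL (IsScalarTower.toAlgHom k E K) φ.h) (n : ℤ) :
    (φ.lat n).Fam (ψ.lat n) :=
  Lattice.mapD _ _ (φ.mapN ψ (IsScalarTower.toAlgHom k E K) hs hg hh) (fun s x hx => by
    have h1 : φ.mapN ψ (IsScalarTower.toAlgHom k E K) hs hg hh x ∈
        ψ.pair s.1 n (n + ψ.e - 2) := by
      rw [Fac.mem_pair, he]
      exact ⟨(mapL_mem_lat _).2 hx.1, (mapL_mem_lat _).2 hx.2⟩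
    exact h1)

/-- `K ⊗_E M_φ(n) = M_ψ(n)`, `ψ` the image of `φ` over `K` -/
noncomputable def Fac.indM (hs : ψ.s = IsScalarTower.toAlgHom k E K φ.s) (he : ψ.e = φ.e)
    (hg : ψ.g = mapL (IsScalarTower.toAlgHom k E K) φ.g)
    (hh : ψ.h = mapL (IsScalarTower.toAlgHom k E K) φ.h) (n : ℤ) :
    (indE k E K δ.Cat).obj (φ.M n) ≅ ψ.M n :=
  Lattice.Fam.indIso (φ.lat_stable n) (ψ.lat_stable n) (φ.famM ψ hs he hg hh n)
    (fun s c x => φ.mapN_smul ψ (IsScalarTower.toAlgHom k E K) hs hg hh c x.1)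
    (fun s x h => by
      have h1 := congrArg (fun z : ψ.N => z.1) h
      have h2 := congrArg (fun z : ψ.N => z.2) h
      have h1' : ∑ i, Module.finBasis E K i • bc K (x i).1.1 = 0 := by
        refine Eq.trans ?_ ((Fac.sum_fst ψ _ _).symm.trans h1)
        exact Finset.sum_congr rfl fun i _ => by rw [← mapL_toAlgHom (k := k)]; rfl
      have h2' : ∑ i, Module.finBasis E K i • bc K (x i).1.2 = 0 := by
        refine Eq.trans ?_ ((Fac.sum_snd ψ _ _).symm.trans h2)
        exact Finset.sum_congr rfl fun i _ => by rw [← mapL_toAlgHom (k := k)]; rfl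
      exact fun i => Fac.N_ext φ (eq_zero_of_sum _ _ h1' i) (eq_zero_of_sum _ _ h2' i))
    (fun s y hy => by
      have hy' : y ∈ ψ.pair s.1 n (n + φ.e - 2) := by
        rw [← he]
        exact hy
      refine ⟨fun i => ⟨φ.mkN (crd (Module.finBasis E K) i y.1) (crd (Module.finBasis E K) i y.2),
        crd_mem _ hy'.1 i, crd_mem _ hy'.2 i⟩, ?_⟩
      refine Fac.N_ext ψ ?_ ?_
      · rw [Fac.sum_fst]
        refine Eq.trans ?_ (sum_crd (Module.finBasis E K) y.1)
        exact Finset.sum_congr rfl fun i _ => by rw [← mapL_toAlgHom (k := k)]; rfl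
      · rw [Fac.sum_snd]
        refine Eq.trans ?_ (sum_crd (Module.finBasis E K) y.2)
        exact Finset.sum_congr rfl fun i _ => by rw [← mapL_toAlgHom (k := k)]; rfl)

/-- `K ⊗_E O(n) = O(n)` -/
noncomputable def Fac.indO (n : ℤ) : (indE k E K δ.Cat).obj (φ.O n) ≅ ψ.O n :=
  Lattice.Fam.indIso (φ.latO_stable n) (ψ.latO_stable n)
    (φ.semO ψ (IsScalarTower.toAlgHom k E K) n)
    (fun s c x => Fac.N_ext ψ (mapL_smul (IsScalarTower.toAlgHom k E K) c x.1.1)
      (smul_zero _).symm)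
    (fun s x h => by
      have h1 := congrArg (fun z : ψ.N => z.1) h
      have h1' : ∑ i, Module.finBasis E K i • bc K (x i).1.1 = 0 := by
        refine Eq.trans ?_ ((Fac.sum_fst ψ _ _).symm.trans h1)
        exact Finset.sum_congr rfl fun i _ => by rw [← mapL_toAlgHom (k := k)]; rfl
      exact fun i => Fac.N_ext φ (eq_zero_of_sum _ _ h1' i) (Fac.mem_latO.1 (x i).2).2)
    (fun s y hy => by
      have hy' := Fac.mem_latO.1 hy
      have hc : ∀ i, φ.mkN (crd (Module.finBasis E K) i y.1) 0 ∈ (φ.latO n).M s := by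
        intro i
        rw [Fac.mem_latO]
        refine ⟨?_, rfl⟩
        obtain ⟨v, b⟩ := s
        cases b
        · exact crd_mem _ hy'.1 i
        · have h0 : y.1 = 0 := hy'.1
          change crd (Module.finBasis E K) i y.1 = 0
          rw [h0]
          ext m
          rw [crd_coeff]
          change (Module.finBasis E K).repr 0 i = 0
          rw [map_zero]
          rfl
      refine ⟨fun i => ⟨_, hc i⟩, ?_⟩
      refine Fac.N_ext ψ ?_ ?_
      · rw [Fac.sum_fst]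
        refine Eq.trans ?_ (sum_crd (Module.finBasis E K) y.1)
        exact Finset.sum_congr rfl fun i _ => by rw [← mapL_toAlgHom (k := k)]; rfl
      · rw [Fac.sum_snd, hy'.2]
        exact Finset.sum_eq_zero fun i _ => smul_zero _)

end ext

/-! ### The objects over `k` -/

section base

theorem Dat.latO_stable (δ : Dat k) (j : ℤ) : (δ.latO j).Stable k := fun _ c _ hx =>
  Submodule.smul_mem _ c hx

theorem Dat.latE_stable (δ : Dat k) (j : ℤ) : (δ.latE j).Stable k := fun _ c _ hx =>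
  Submodule.smul_mem _ c hx

/-- the object `O(j)` with the action of `k` -/
noncomputable def Dat.trivO (δ : Dat k) (j : ℤ) :
    (triv k δ.Cat).obj (δ.O j) ≅ Lattice.kmod (δ.latO_stable j) :=
  trivIso k (Lattice.kmod (δ.latO_stable j))

/-- the object `E(j)` with the action of `k` -/
noncomputable def Dat.trivE (δ : Dat k) (j : ℤ) :
    (triv k δ.Cat).obj (δ.E j) ≅ Lattice.kmod (δ.latE_stable j) :=
  trivIso k (Lattice.kmod (δ.latE_stable j))

theorem Dat.mem_latO {j : ℤ} {s : Vx} {x : δ.D} :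
    x ∈ (δ.latO j).M s ↔ if s.2 then x = 0 else x ∈ δ.slat s.1 j := by
  obtain ⟨v, b⟩ := s
  cases b
  · simp only [Dat.latO, Bool.false_eq_true, if_false]
  · simp only [Dat.latO, if_true, Submodule.mem_bot]

variable {K : Type} [Field K] [Algebra k K] (φ : Fac δ K)

/-- the map `d ↦ d (1, 0)` -/
noncomputable def Fac.left : δ.D →ₗ[δ.D] φ.N := LinearMap.toSpanSingleton δ.D φ.N (φ.mkN 1 0)

/-- the map `d ↦ d (0, 1)` -/
noncomputable def Fac.right : δ.D →ₗ[δ.D] φ.N := LinearMap.toSpanSingleton δ.D φ.N (φ.mkN 0 1)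

theorem Fac.left_fst (d : δ.D) : (φ.left d).1 = bc K d.re + C φ.s * bc K d.imI := by
  change (d • φ.mkN 1 0).1 = _
  rw [Fac.smul_fst, Fac.mkN_fst, Fac.mkN_snd, mul_one, mul_zero, add_zero]

theorem Fac.left_snd (d : δ.D) : (φ.left d).2 = φ.g * (bc K d.imJ - C φ.s * bc K d.imK) := by
  change (d • φ.mkN 1 0).2 = _
  rw [Fac.smul_snd, Fac.mkN_fst, Fac.mkN_snd, mul_one, mul_zero, add_zero]

theorem Fac.right_fst (d : δ.D) : (φ.right d).1 = φ.h * (bc K d.imJ + C φ.s * bc K d.imK) := by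
  change (d • φ.mkN 0 1).1 = _
  rw [Fac.smul_fst, Fac.mkN_fst, Fac.mkN_snd, mul_one, mul_zero, zero_add]

theorem Fac.right_snd (d : δ.D) : (φ.right d).2 = bc K d.re - C φ.s * bc K d.imI := by
  change (d • φ.mkN 0 1).2 = _
  rw [Fac.smul_snd, Fac.mkN_fst, Fac.mkN_snd, mul_one, mul_zero, zero_add]

theorem Fac.left_mem_O {j : ℤ} {s : Vx} {x : δ.D} (hx : x ∈ (δ.latO j).M s) :
    φ.left x ∈ (φ.latO j).M s := by
  rw [Dat.mem_latO] at hx
  rw [Fac.mem_latO]
  obtain ⟨v, b⟩ := s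
  cases b
  · obtain ⟨x0, x1, x2, x3⟩ := hx
    refine ⟨?_, ?_⟩
    · change (φ.left x).1 ∈ Orl.Q.lat K v j
      rw [Fac.left_fst, x1, map_zero, mul_zero, add_zero]
      exact bc_mem_lat K x0
    · rw [Fac.left_snd, x2, x3, map_zero, mul_zero, sub_zero, mul_zero]
  · have h0 : x = 0 := hx
    subst h0
    rw [map_zero]
    exact ⟨rfl, rfl⟩

/-- the family of maps `O(j) → O(j)_K` -/
noncomputable def Fac.semOK (j : ℤ) : (δ.latO j).Fam (φ.latO j) :=
  Lattice.mapD _ _ φ.left fun _ _ hx => φ.left_mem_O hx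

theorem ksmul_eq (c : k) (x : φ.N) : algebraMap k K c • x = c • x := rfl

variable [Module.Finite k K]

/-- `K ⊗_k O(j) = O(j)_K`, with the action of `k` on `O(j)` made explicit -/
noncomputable def Fac.indO' (j : ℤ) :
    (indE k k K δ.Cat).obj (Lattice.kmod (δ.latO_stable j)) ≅ φ.O j :=
  Lattice.Fam.indIso (δ.latO_stable j) (φ.latO_stable j) (φ.semOK j)
    (fun s c x => (φ.left.restrictScalars k).map_smul c x.1)
    (fun s x h => by
      have h1 := congrArg (fun z : φ.N => z.1) h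
      intro i
      have hx := fun i => Dat.mem_latO.1 (x i).2
      obtain ⟨v, b⟩ := s
      cases b
      · have h1' : ∑ i, Module.finBasis k K i • bc K (x i).1.re = 0 := by
          refine Eq.trans ?_ ((Fac.sum_fst φ _ _).symm.trans h1)
          refine Finset.sum_congr rfl fun i _ => ?_
          have h2 : (φ.left (x i).1).1 = bc K (x i).1.re := by
            rw [Fac.left_fst, (hx i).2.1, map_zero, mul_zero, add_zero]
          rw [← h2]
          rfl
        exact QuaternionAlgebra.ext (eq_zero_of_sum _ _ h1' i) (hx i).2.1 (hx i).2.2.1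
          (hx i).2.2.2
      · exact hx i)
    (fun s y hy => by
      have hy' := Fac.mem_latO.1 hy
      have hc : ∀ i, (⟨crd (Module.finBasis k K) i y.1, 0, 0, 0⟩ : δ.D) ∈ (δ.latO j).M s := by
        intro i
        rw [Dat.mem_latO]
        obtain ⟨v, b⟩ := s
        cases b
        · exact ⟨crd_mem _ hy'.1 i, rfl, rfl, rfl⟩
        · have h0 : y.1 = 0 := hy'.1
          have h1 : crd (Module.finBasis k K) i y.1 = 0 := by
            rw [h0]
            ext m
            rw [crd_coeff]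
            change (Module.finBasis k K).repr 0 i = 0
            rw [map_zero]
            rfl
          exact QuaternionAlgebra.ext h1 rfl rfl rfl
      refine ⟨fun i => ⟨_, hc i⟩, ?_⟩
      refine Fac.N_ext φ ?_ ?_
      · rw [Fac.sum_fst]
        refine Eq.trans ?_ (sum_crd (Module.finBasis k K) y.1)
        refine Finset.sum_congr rfl fun i _ => ?_
        have h2 : (φ.left (⟨crd (Module.finBasis k K) i y.1, 0, 0, 0⟩ : δ.D)).1 =
            bc K (crd (Module.finBasis k K) i y.1) := by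
          rw [Fac.left_fst, map_zero, mul_zero, add_zero]
        rw [← h2]
        rfl
      · rw [Fac.sum_snd, hy'.2]
        refine Finset.sum_eq_zero fun i _ => ?_
        have h2 : (φ.left (⟨crd (Module.finBasis k K) i y.1, 0, 0, 0⟩ : δ.D)).2 = 0 := by
          rw [Fac.left_snd, map_zero, mul_zero, sub_zero, mul_zero]
        change Module.finBasis k K i •
          (φ.left (⟨crd (Module.finBasis k K) i y.1, 0, 0, 0⟩ : δ.D)).2 = 0
        rw [h2, smul_zero])

/-- `K ⊗_k O(j) = O(j)_K` -/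
noncomputable def Fac.indCO (j : ℤ) : (indC k δ.Cat K).obj (δ.O j) ≅ φ.O j :=
  (indE k k K δ.Cat).mapIso (δ.trivO j) ≪≫ φ.indO' j

/-! ### The bundle `E` -/

section E

variable {φ} {ψ : Fac δ K}

theorem Fac.prod_mem_E (hs : ψ.s = φ.s) (hφe : φ.e = 0) (hφg : φ.g = 1) (hψe : ψ.e = 4)
    (hψh : ψ.h = 1) {j : ℤ} {s : Vx} {x : δ.D} (hx : x ∈ (δ.latE j).M s) :
    (φ.left.prod ψ.right) x ∈ ((φ.lat j).lprod (ψ.lat (j - 2))).M s := by
  obtain ⟨x0, x1, x2, x3⟩ := hx
  have h0 := bc_mem_lat K x0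
  have h1 := lat_mul' (C_mem_lat s.1 φ.s) (bc_mem_lat K x1) (zero_add _)
  have h2 := bc_mem_lat K x2
  have h3 := lat_mul' (C_mem_lat s.1 φ.s) (bc_mem_lat K x3) (zero_add _)
  have e1 : φ.left x ∈ φ.pair s.1 j (j + φ.e - 2) := by
    rw [Fac.mem_pair, Fac.left_fst, Fac.left_snd, hφe, hφg, one_mul, add_zero]
    exact ⟨Submodule.add_mem _ h0 h1, Submodule.sub_mem _ h2 h3⟩
  have e2 : ψ.right x ∈ ψ.pair s.1 (j - 2) (j - 2 + ψ.e - 2) := by
    have e3 : j - 2 + 4 - 2 = j := by ring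
    rw [Fac.mem_pair, Fac.right_fst, Fac.right_snd, hψe, hψh, one_mul, hs, e3]
    exact ⟨Submodule.add_mem _ h2 h3, Submodule.sub_mem _ h0 h1⟩
  exact ⟨e1, e2⟩

/-- the family of maps `E(j) → M_φ(j) ⊕ M_ψ(j - 2)` -/
noncomputable def Fac.famE (hs : ψ.s = φ.s) (hφe : φ.e = 0) (hφg : φ.g = 1) (hψe : ψ.e = 4)
    (hψh : ψ.h = 1) (j : ℤ) : (δ.latE j).Fam ((φ.lat j).lprod (ψ.lat (j - 2))) :=
  Lattice.mapD _ _ (φ.left.prod ψ.right) fun _ _ hx => Fac.prod_mem_E hs hφe hφg hψe hψh hx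

theorem Fac.famE_val (hs : ψ.s = φ.s) (hφe : φ.e = 0) (hφg : φ.g = 1) (hψe : ψ.e = 4)
    (hψh : ψ.h = 1) (j : ℤ) (s : Vx) (x : (δ.latE j).M s) :
    ((Fac.famE hs hφe hφg hψe hψh j).f s x).1 = (φ.left x.1, ψ.right x.1) := rfl

theorem sum_pair {A B : Type} [AddCommMonoid A] [AddCommMonoid B] {ι : Type} (t : Finset ι)
    (x : ι → A × B) : ∑ i ∈ t, x i = (∑ i ∈ t, (x i).1, ∑ i ∈ t, (x i).2) :=
  Prod.ext (Prod.fst_sum) (Prod.snd_sum)

theorem bsum (x : Fin (Module.finrank k K) → k[T;T⁻¹]) (c : K) :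
    ∑ i, Module.finBasis k K i • (C c * bc K (x i)) =
      C c * ∑ i, Module.finBasis k K i • bc K (x i) := by
  rw [Finset.mul_sum]
  exact Finset.sum_congr rfl fun i _ => (mul_smul_comm _ _ _).symm

/-- the sums of the values of the family -/
theorem Fac.sumE (hs : ψ.s = φ.s) (hφg : φ.g = 1) (hψh : ψ.h = 1)
    (x : Fin (Module.finrank k K) → δ.D) :
    ∑ i, Module.finBasis k K i • ((φ.left (x i), ψ.right (x i)) : φ.N × ψ.N) =
      (φ.mkN (∑ i, Module.finBasis k K i • bc K (x i).re +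
          C φ.s * ∑ i, Module.finBasis k K i • bc K (x i).imI)
        (∑ i, Module.finBasis k K i • bc K (x i).imJ -
          C φ.s * ∑ i, Module.finBasis k K i • bc K (x i).imK),
      ψ.mkN (∑ i, Module.finBasis k K i • bc K (x i).imJ +
          C φ.s * ∑ i, Module.finBasis k K i • bc K (x i).imK)
        (∑ i, Module.finBasis k K i • bc K (x i).re -
          C φ.s * ∑ i, Module.finBasis k K i • bc K (x i).imI)) := by
  rw [sum_pair]
  refine Prod.ext (Fac.N_ext φ ?_ ?_) (Fac.N_ext ψ ?_ ?_)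
  · change (∑ i, Module.finBasis k K i • φ.left (x i)).1 = _
    rw [Fac.sum_fst, Fac.mkN_fst, ← bsum, ← Finset.sum_add_distrib]
    refine Finset.sum_congr rfl fun i _ => ?_
    rw [Fac.ksmul_fst, Fac.left_fst, smul_add]
  · change (∑ i, Module.finBasis k K i • φ.left (x i)).2 = _
    rw [Fac.sum_snd, Fac.mkN_snd, ← bsum, ← Finset.sum_sub_distrib]
    refine Finset.sum_congr rfl fun i _ => ?_
    rw [Fac.ksmul_snd, Fac.left_snd, hφg, one_mul, smul_sub]
  · change (∑ i, Module.finBasis k K i • ψ.right (x i)).1 = _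
    rw [Fac.sum_fst, Fac.mkN_fst, ← bsum, ← Finset.sum_add_distrib]
    refine Finset.sum_congr rfl fun i _ => ?_
    rw [Fac.ksmul_fst, Fac.right_fst, hψh, one_mul, smul_add, hs]
  · change (∑ i, Module.finBasis k K i • ψ.right (x i)).2 = _
    rw [Fac.sum_snd, Fac.mkN_snd, ← bsum, ← Finset.sum_sub_distrib]
    refine Finset.sum_congr rfl fun i _ => ?_
    rw [Fac.ksmul_snd, Fac.right_snd, smul_sub, hs]

/-- the linear system with the matrix `1, s; 1, -s` -/
theorem pm_zero {s : K} (h2 : (2 : K) ≠ 0) (h0 : s ≠ 0) {p q : K[T;T⁻¹]} (h1 : p + C s * q = 0)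
    (h3 : p - C s * q = 0) : p = 0 ∧ q = 0 := by
  have e1 : C 2 * p = 0 := by
    have : C 2 * p = (p + C s * q) + (p - C s * q) := by
      rw [map_ofNat]
      ring
    rw [this, h1, h3, add_zero]
  have hp : p = 0 := by
    have := congrArg (C (2 : K)⁻¹ * ·) e1
    simp only [mul_zero] at this
    rwa [← mul_assoc, ← map_mul, inv_mul_cancel₀ h2, map_one, one_mul] at this
  refine ⟨hp, ?_⟩
  rw [hp, zero_add] at h1
  have := congrArg (C s⁻¹ * ·) h1
  simp only [mul_zero] at this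
  rwa [← mul_assoc, ← map_mul, inv_mul_cancel₀ h0, map_one, one_mul] at this

theorem pm_solve {s : K} (h2 : (2 : K) ≠ 0) (h0 : s ≠ 0) {v : Ch} {n : ℤ} {x y : K[T;T⁻¹]}
    (hx : x ∈ lat K v n) (hy : y ∈ lat K v n) :
    ∃ p ∈ lat K v n, ∃ q ∈ lat K v n, p + C s * q = x ∧ p - C s * q = y := by
  refine ⟨(2 : K)⁻¹ • (x + y), Submodule.smul_mem _ _ (Submodule.add_mem _ hx hy),
    ((2 : K)⁻¹ * s⁻¹) • (x - y), Submodule.smul_mem _ _ (Submodule.sub_mem _ hx hy), ?_, ?_⟩
  · have e1 : C s * ((2 : K)⁻¹ * s⁻¹) • (x - y) = (2 : K)⁻¹ • (x - y) := by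
      rw [← LaurentPolynomial.smul_eq_C_mul, smul_smul]
      congr 1
      field_simp
    rw [e1, ← smul_add]
    have e2 : x + y + (x - y) = (2 : K) • x := by rw [two_smul]; ring
    rw [e2, smul_smul, inv_mul_cancel₀ h2, one_smul]
  · have e1 : C s * ((2 : K)⁻¹ * s⁻¹) • (x - y) = (2 : K)⁻¹ • (x - y) := by
      rw [← LaurentPolynomial.smul_eq_C_mul, smul_smul]
      congr 1
      field_simp
    rw [e1, ← smul_sub]
    have e2 : x + y - (x - y) = (2 : K) • y := by rw [two_smul]; ring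
    rw [e2, smul_smul, inv_mul_cancel₀ h2, one_smul]

/-- `K ⊗_k E(j) = M_{1,q}(j) ⊕ M_{q,1}(j - 2)`, as a product of lattices -/
noncomputable def Fac.indE' (hs : ψ.s = φ.s) (hφe : φ.e = 0) (hφg : φ.g = 1) (hψe : ψ.e = 4)
    (hψh : ψ.h = 1) (h2 : (2 : K) ≠ 0) (h0 : φ.s ≠ 0) (j : ℤ) :
    (indE k k K δ.Cat).obj (Lattice.kmod (δ.latE_stable j)) ≅
      Lattice.kmod (Lattice.lprod_stable (φ.lat_stable j) (ψ.lat_stable (j - 2))) :=
  Lattice.Fam.indIso (δ.latE_stable j) (Lattice.lprod_stable (φ.lat_stable j)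
    (ψ.lat_stable (j - 2))) (Fac.famE hs hφe hφg hψe hψh j)
    (fun s c x => ((φ.left.prod ψ.right).restrictScalars k).map_smul c x.1)
    (fun s x h => by
      have h1 := (Fac.sumE hs hφg hψh fun i => (x i).1).symm.trans h
      have a1 := congrArg (fun z : φ.N × ψ.N => z.1.1) h1
      have a2 := congrArg (fun z : φ.N × ψ.N => z.1.2) h1
      have a3 := congrArg (fun z : φ.N × ψ.N => z.2.1) h1
      have a4 := congrArg (fun z : φ.N × ψ.N => z.2.2) h1
      obtain ⟨b1, b2⟩ := pm_zero h2 h0 a1 a4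
      obtain ⟨b3, b4⟩ := pm_zero h2 h0 a3 a2
      exact fun i => QuaternionAlgebra.ext (eq_zero_of_sum _ _ b1 i) (eq_zero_of_sum _ _ b2 i)
        (eq_zero_of_sum _ _ b3 i) (eq_zero_of_sum _ _ b4 i))
    (fun s y hy => by
      obtain ⟨hy1, hy2⟩ := hy
      have hy1' : y.1 ∈ φ.pair s.1 j (j - 2) := by
        have : y.1 ∈ φ.pair s.1 j (j + φ.e - 2) := hy1
        rwa [hφe, add_zero] at this
      have hy2' : y.2 ∈ ψ.pair s.1 (j - 2) j := by
        have : y.2 ∈ ψ.pair s.1 (j - 2) (j - 2 + ψ.e - 2) := hy2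
        have e3 : j - 2 + 4 - 2 = j := by ring
        rwa [hψe, e3] at this
      obtain ⟨p, hp, q, hq, e1, e2⟩ := pm_solve h2 h0 hy1'.1 hy2'.2
      obtain ⟨u, hu, w, hw, e3, e4⟩ := pm_solve h2 h0 hy2'.1 hy1'.2
      let b := Module.finBasis k K
      refine ⟨fun i => ⟨⟨crd b i p, crd b i q, crd b i u, crd b i w⟩, crd_mem b hp i,
        crd_mem b hq i, crd_mem b hu i, crd_mem b hw i⟩, ?_⟩
      refine (Fac.sumE hs hφg hψh fun i =>
        (⟨crd b i p, crd b i q, crd b i u, crd b i w⟩ : δ.D)).trans ?_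
      simp only [b, sum_crd, e1, e2, e3, e4]
      rfl)

/-- `K ⊗_k E(j) = M_{1,q}(j) ⊕ M_{q,1}(j - 2)` -/
noncomputable def Fac.indCE (hs : ψ.s = φ.s) (hφe : φ.e = 0) (hφg : φ.g = 1) (hψe : ψ.e = 4)
    (hψh : ψ.h = 1) (h2 : (2 : K) ≠ 0) (h0 : φ.s ≠ 0) (j : ℤ) :
    (indC k δ.Cat K).obj (δ.E j) ≅ φ.M j ⊞ ψ.M (j - 2) :=
  (indE k k K δ.Cat).mapIso (δ.trivE j) ≪≫ Fac.indE' hs hφe hφg hψe hψh h2 h0 j ≪≫
    Lattice.prodIso (φ.lat_stable j) (ψ.lat_stable (j - 2))

end E

/-- `K ⊗_k O(j) = O(j)_K` -/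
noncomputable def Spl.indCO (S : Spl δ K) (j : ℤ) : (indC k δ.Cat K).obj (δ.O j) ≅ S.O j :=
  (S.fac ∅).indCO j

/-- `K ⊗_k E(j) = M_∅(j) ⊕ M_{0,1,2,3}(j - 2)` -/
noncomputable def Spl.indCE (S : Spl δ K) (j : ℤ) :
    (indC k δ.Cat K).obj (δ.E j) ≅ S.M ∅ j ⊞ S.M Finset.univ (j - 2) :=
  Fac.indCE (φ := S.fac ∅) (ψ := S.fac Finset.univ) rfl (by simp) (by simp) (by simp) (by simp)
    S.two_ne S.s_ne j

end base

end Orl.Q
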