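import Pool.Agent.Work.MP_a6e60d_ag.Q.TauC
import Pool.Agent.Work.MP_a6e60d_ag.Q.GenT
import Pool.Agent.Work.MP_a6e60d_ag.Q.IndE

/-!
MP_a6e60d_ag, Q6: the blocks over the cubic field `L` for the concrete data: the family `tb` of five
objects over `L`, without higher extensions, directed, with the fields `L, L, K, K, K` of
endomorphisms, which generates the extensions to `L` of all `O(j)` and `E(j)`.
-/

open CategoryTheory CategoryTheory.Abelian CategoryTheory.Limits Orl.LF Orl.Gal Orl.Q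

attribute [-instance] CategoryTheory.catToReflQuiver

attribute [local instance] Abelian.hasFiniteBiproducts

namespace Orl.Q

section trans

universe w v' u'

variable {k : Type*} [Field k] {E : Type*} {K : Type w} [Field E] [Field K] [Algebra k E]
  [Algebra k K] [Algebra E K] [IsScalarTower k E K]
variable {C : Type u'} [Category.{v'} C] [Abelian C] [Linear k C] [FiniteDimensional E K]
  [FiniteDimensional k E] [FiniteDimensional k K]

/-- Extension of scalars from `k` in two steps. -/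
noncomputable def indCTrans (X : C) :
    (indE k E K C).obj ((indC k C E).obj X) ≅ (indC k C K).obj X :=
  (indTrans k E K C k).app ((triv k C).obj X)

end trans

end Orl.Q

namespace Orl.Fld.FieldDatum

universe w₁ w₂

variable {k F L K : Type} [Field k] [Field F] [Field L] [Field K] [Algebra k F]
    [Algebra k L] [Algebra k K] [Algebra F K] [Algebra L K] [IsScalarTower k F K]
    [IsScalarTower k L K] (D : FieldDatum k F L K)

section def_

variable [FiniteDimensional k L]

/-- the line bundles over `L` -/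
noncomputable def OL (j : ℤ) : ModObj k L D.qd.Cat := (indC k D.qd.Cat L).obj (D.qd.O j)

/-- The blocks over `L`. -/
noncomputable def tb : Fin 5 → ModObj k L D.qd.Cat :=
  tlb D.OL (fun x => D.spl.M x.1 x.2) D.spl.K1

end def_

variable [FiniteDimensional k L] [FiniteDimensional k K] [FiniteDimensional L K]

/-- the extensions to `K` of the line bundles over `L` -/
theorem eOL (j : ℤ) : Nonempty ((indE k L K D.qd.Cat).obj (D.OL j) ≅ D.spl.O j) :=
  ⟨indCTrans (D.qd.O j) ≪≫ D.spl.indCO j⟩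

theorem formOf_tb (i : Fin 5) :
    FormOf (D.tb i) (tl (fun x => D.spl.M x.1 x.2) D.spl.O D.spl.K1 i) := by
  fin_cases i
  · exact Or.inl (D.eOL _)
  · exact Or.inl (D.eOL _)
  · exact Or.inr ⟨Iso.refl _⟩
  · exact Or.inr ⟨Iso.refl _⟩
  · exact Or.inr ⟨Iso.refl _⟩

/-- **Generation**: the blocks over `L` generate the extensions to `L` of `O(j)`, `E(j)`. -/
theorem gen_tb {P : ObjectProperty (ModObj k L D.qd.Cat)} (hP : Thk P) (h : ∀ i, P (D.tb i))
    (j : ℤ) :
    P ((indC k D.qd.Cat L).obj (D.qd.O j)) ∧ P ((indC k D.qd.Cat L).obj (D.qd.E j)) :=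
  D.spl.gen_L_final hP (fun j => ⟨D.spl.indCO j⟩) (fun j => ⟨D.spl.indCE j⟩) D.tau D.tau_spl_r
    D.tau_spl_s D.tb D.formOf_tb h j

variable [IsGalois L K] [HasExt.{w₁} (ModObj k L D.qd.Cat)] [HasExt.{w₂} (ModObj k K D.qd.Cat)]
  (T : Tab.{w₂} k (zact k K D.qd.Cat) (fun x => D.spl.M x.1 x.2) D.spl.O)

include T

/-- The higher groups Ext between the blocks over `L` vanish. -/
theorem acyc_tb (i j : Fin 5) : Acyc.{w₁} (D.tb i) (D.tb j) :=
  acyc_tlb D.eOL D.tauConj T D.spl.kOne i j

omit [HasExt.{w₁} (ModObj k L D.qd.Cat)] in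
theorem finite_tb (i j : Fin 5) : Module.Finite k (D.tb i ⟶ D.tb j) :=
  finite_tlb D.eOL D.tauConj T D.spl.kOne i j

omit [HasExt.{w₁} (ModObj k L D.qd.Cat)] in
/-- The blocks over `L` are directed. -/
theorem hom_tb {i j : Fin 5} (hij : j < i) (f : D.tb i ⟶ D.tb j) : f = 0 :=
  hom_tlb D.eOL D.tauConj T D.spl.kOne i j hij f

omit [HasExt.{w₁} (ModObj k L D.qd.Cat)] in
/-- The algebras of endomorphisms of the blocks over `L` are `L`, `L`, `K`, `K`, `K`. -/
theorem end_tb (i : Fin 5) : (i < 2 ∧ Nonempty (L ≃ₐ[k] End (D.tb i))) ∨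
    (2 ≤ i ∧ Nonempty (K ≃ₐ[k] End (D.tb i))) :=
  end_tlb D.eOL D.tauConj T D.spl.kOne i

omit [HasExt.{w₁} (ModObj k L D.qd.Cat)] [IsGalois L K] in
theorem tb_ne (i : Fin 5) : ¬ IsZero (D.tb i) := by
  have h0 := tl_ne T D.spl.kOne
  have h1 : ∀ j, ¬ IsZero (D.OL j) := fun j h => by
    obtain ⟨e⟩ := D.eOL j
    exact T.one j (((indE k L K D.qd.Cat).map_isZero h).of_iso e.symm)
  have h2 : ∀ i, ¬ IsZero ((resE k L K D.qd.Cat).obj
      (tl (fun x => D.spl.M x.1 x.2) D.spl.O D.spl.K1 i)) := fun i h =>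
    h0 i (isZero_pt_imp ((ev (k := k) (C := D.qd.Cat) (SingleObj.star L)).map_isZero h))
  fin_cases i
  · exact h1 _
  · exact h1 _
  · exact h2 2
  · exact h2 3
  · exact h2 4

end Orl.Fld.FieldDatum
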