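import Pool.Agent.Work.MP_a6e60d_ag.Q.Order

/-!
MP_a6e60d_ag, Q3: sections without common zero on the projective line, and the Koszul exactness
on every chart.
-/

open LaurentPolynomial

namespace Orl.Q

variable {κ : Type} [CommRing κ]

/-- `α₁ ∈ O(d₁)` and `α₂ ∈ O(d₂)` have no common zero: on every chart there is a Bezout relation
with coefficients in `O(-d₁)` and `O(-d₂)`. -/
structure Bez (α₁ α₂ : κ[T;T⁻¹]) (d₁ d₂ : ℤ) : Prop where
  mem₁ : ∀ v, α₁ ∈ lat κ v d₁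
  mem₂ : ∀ v, α₂ ∈ lat κ v d₂
  bez : ∀ v, ∃ c₁ ∈ lat κ v (-d₁), ∃ c₂ ∈ lat κ v (-d₂), c₁ * α₁ + c₂ * α₂ = 1

namespace Bez

variable {α₁ α₂ : κ[T;T⁻¹]} {d₁ d₂ : ℤ}

theorem symm (h : Bez α₁ α₂ d₁ d₂) : Bez α₂ α₁ d₂ d₁ where
  mem₁ := h.mem₂
  mem₂ := h.mem₁
  bez v := by
    obtain ⟨c₁, h1, c₂, h2, e⟩ := h.bez v
    exact ⟨c₂, h2, c₁, h1, by rw [add_comm, e]⟩

theorem neg_right (h : Bez α₁ α₂ d₁ d₂) : Bez α₁ (-α₂) d₁ d₂ where
  mem₁ := h.mem₁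
  mem₂ v := Submodule.neg_mem _ (h.mem₂ v)
  bez v := by
    obtain ⟨c₁, h1, c₂, h2, e⟩ := h.bez v
    exact ⟨c₁, h1, -c₂, Submodule.neg_mem _ h2, by rw [neg_mul_neg, e]⟩

/-- `1` as the first section -/
theorem one_left {α : κ[T;T⁻¹]} {d : ℤ} (h : ∀ v, α ∈ lat κ v d) : Bez 1 α 0 d where
  mem₁ := one_mem_lat
  mem₂ := h
  bez v := ⟨1, by simpa using one_mem_lat v, 0, Submodule.zero_mem _, by simp⟩

theorem one_right {α : κ[T;T⁻¹]} {d : ℤ} (h : ∀ v, α ∈ lat κ v d) : Bez α 1 d 0 :=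
  (one_left h).symm

/-- the map `(α₁, α₂)` is onto -/
theorem surj (h : Bez α₁ α₂ d₁ d₂) {v : Ch} {n n₁ n₂ : ℤ} (h₁ : n₁ + d₁ = n) (h₂ : n₂ + d₂ = n)
    {y : κ[T;T⁻¹]} (hy : y ∈ lat κ v n) :
    ∃ y₁ ∈ lat κ v n₁, ∃ y₂ ∈ lat κ v n₂, α₁ * y₁ + α₂ * y₂ = y := by
  obtain ⟨c₁, h1, c₂, h2, e⟩ := h.bez v
  refine ⟨c₁ * y, lat_mul' h1 hy (by omega), c₂ * y, lat_mul' h2 hy (by omega), ?_⟩
  calc α₁ * (c₁ * y) + α₂ * (c₂ * y) = (c₁ * α₁ + c₂ * α₂) * y := by ring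
    _ = y := by rw [e, one_mul]

/-- exactness in the middle -/
theorem exact (h : Bez α₁ α₂ d₁ d₂) {v : Ch} {n n₁ n₂ n₀ : ℤ} (h₁ : n₁ + d₁ = n)
    (h₂ : n₂ + d₂ = n) (h₀ : n₀ + d₂ = n₁)
    {y₁ y₂ : κ[T;T⁻¹]} (hy₁ : y₁ ∈ lat κ v n₁) (hy₂ : y₂ ∈ lat κ v n₂)
    (hy : α₁ * y₁ + α₂ * y₂ = 0) :
    ∃ x ∈ lat κ v n₀, α₂ * x = y₁ ∧ -(α₁ * x) = y₂ := by
  obtain ⟨c₁, h1, c₂, h2, e⟩ := h.bez v
  refine ⟨c₂ * y₁ - c₁ * y₂, Submodule.sub_mem _ (lat_mul' h2 hy₁ (by omega))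
    (lat_mul' h1 hy₂ (by omega)), ?_, ?_⟩
  · calc α₂ * (c₂ * y₁ - c₁ * y₂) = (c₁ * α₁ + c₂ * α₂) * y₁ - c₁ * (α₁ * y₁ + α₂ * y₂) := by
          ring
      _ = y₁ := by rw [e, hy, mul_zero, sub_zero, one_mul]
  · calc -(α₁ * (c₂ * y₁ - c₁ * y₂)) = (c₁ * α₁ + c₂ * α₂) * y₂ - c₂ * (α₁ * y₁ + α₂ * y₂) := by
          ring
      _ = y₂ := by rw [e, hy, mul_zero, sub_zero, one_mul]

/-- injectivity -/
theorem inj (h : Bez α₁ α₂ d₁ d₂) {x : κ[T;T⁻¹]} (h1 : α₁ * x = 0) (h2 : α₂ * x = 0) : x = 0 := by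
  obtain ⟨c₁, -, c₂, -, e⟩ := h.bez .mid
  calc x = (c₁ * α₁ + c₂ * α₂) * x := by rw [e, one_mul]
    _ = c₁ * (α₁ * x) + c₂ * (α₂ * x) := by ring
    _ = 0 := by rw [h1, h2, mul_zero, mul_zero, add_zero]

/-- Products in the first argument. -/
theorem mul_left {α β γ : κ[T;T⁻¹]} {d d' e : ℤ} (h : Bez α γ d e) (h' : Bez β γ d' e) :
    Bez (α * β) γ (d + d') e where
  mem₁ v := lat_mul (h.mem₁ v) (h'.mem₁ v)
  mem₂ := h.mem₂
  bez v := by
    obtain ⟨c, hc, r, hr, e1⟩ := h.bez v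
    obtain ⟨c', hc', r', hr', e2⟩ := h'.bez v
    refine ⟨c * c', lat_mul' hc hc' (by ring), c * α * r' + r * c' * β + r * r' * γ,
      Submodule.add_mem _ (Submodule.add_mem _
        (lat_mul' (lat_mul hc (h.mem₁ v)) hr' (by ring))
        (lat_mul' (lat_mul hr hc') (h'.mem₁ v) (by ring)))
        (lat_mul' (lat_mul hr hr') (h.mem₂ v) (by ring)), ?_⟩
    calc c * c' * (α * β) + (c * α * r' + r * c' * β + r * r' * γ) * γ
        = (c * α + r * γ) * (c' * β + r' * γ) := by ring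
      _ = 1 := by rw [e1, e2, one_mul]

theorem mul_right {α β γ : κ[T;T⁻¹]} {d d' e : ℤ} (h : Bez γ α e d) (h' : Bez γ β e d') :
    Bez γ (α * β) e (d + d') := (h.symm.mul_left h'.symm).symm

/-- Products over finite sets. -/
theorem prod_left {ι : Type*} (I : Finset ι) (f : ι → κ[T;T⁻¹]) {γ : κ[T;T⁻¹]} {e : ℤ}
    (hγ : ∀ v, γ ∈ lat κ v e) (h : ∀ i ∈ I, Bez (f i) γ 1 e) : Bez (∏ i ∈ I, f i) γ I.card e := by
  classical
  induction I using Finset.induction_on with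
  | empty =>
    rw [Finset.prod_empty, Finset.card_empty]
    exact one_left hγ
  | insert i I hi ih =>
    rw [Finset.prod_insert hi, Finset.card_insert_of_notMem hi, Nat.cast_add, Nat.cast_one,
      add_comm]
    exact (h i (Finset.mem_insert_self _ _)).mul_left
      (ih fun j hj => h j (Finset.mem_insert_of_mem hj))

theorem _root_.Orl.Q.prodForms_mem_lat {ι : Type*} (J : Finset ι) (f : ι → κ[T;T⁻¹])
    (hf : ∀ j v, f j ∈ lat κ v 1) (v : Ch) : ∏ j ∈ J, f j ∈ lat κ v J.card := by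
  classical
  induction J using Finset.induction_on with
  | empty => simpa using one_mem_lat v
  | insert i J hi ih =>
    rw [Finset.prod_insert hi, Finset.card_insert_of_notMem hi, Nat.cast_add, Nat.cast_one]
    exact lat_mul' (hf i v) ih (by ring)

theorem prod_prod {ι : Type*} (I J : Finset ι) (f : ι → κ[T;T⁻¹])
    (hf : ∀ j v, f j ∈ lat κ v 1)
    (h : ∀ i ∈ I, ∀ j ∈ J, Bez (f i) (f j) 1 1) :
    Bez (∏ i ∈ I, f i) (∏ j ∈ J, f j) I.card J.card :=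
  prod_left I f (prodForms_mem_lat J f hf) fun i hi =>
    (prod_left J f (hf i) fun j hj => (h i hi j hj).symm).symm

end Bez

/-! ### Linear forms -/

/-- the linear form `u x - w t` (dehomogenised at `t = 1`) -/
noncomputable def lin (u w : κ) : κ[T;T⁻¹] := C u * T 1 - C w

theorem lin_mem (u w : κ) (v : Ch) : lin u w ∈ lat κ v 1 := by
  refine Submodule.sub_mem _ (single_mem_lat ?_ u) ?_
  · cases v <;> simp [Ch.Ok]
  · have := single_mem_lat (κ := κ) (v := v) (n := 1) (m := 0) (by cases v <;> simp [Ch.Ok]) w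
    rwa [T_zero, mul_one] at this

theorem T_neg_one_mem (v : Ch) (hv : v ≠ .zero) (c : κ) : C c * T (-1) ∈ lat κ v (-1) := by
  refine single_mem_lat ?_ c
  cases v
  · exact absurd rfl hv
  · simp [Ch.Ok]
  · simp [Ch.Ok]

theorem C_mem_lat_zero (n : ℤ) (c : κ) : (C c : κ[T;T⁻¹]) ∈ lat κ .zero n := by
  have := single_mem_lat (κ := κ) (v := .zero) (n := n) (m := 0) (by simp [Ch.Ok]) c
  rwa [T_zero, mul_one] at this

/-- Two linear forms with invertible resultant have no common zero. -/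
theorem bez_lin {u w u' w' : κ} (h : IsUnit (u * w' - u' * w)) :
    Bez (lin u w) (lin u' w') 1 1 where
  mem₁ := lin_mem u w
  mem₂ := lin_mem u' w'
  bez v := by
    obtain ⟨r, hr⟩ := h.exists_left_inv
    have hr' : C r * (C u * C w' - C u' * C w) = (1 : κ[T;T⁻¹]) := by
      rw [← map_mul, ← map_mul, ← map_sub, ← map_mul, hr, map_one]
    by_cases hv : v = .zero
    · subst hv
      refine ⟨C (r * u'), C_mem_lat_zero _ _, C (-r * u), C_mem_lat_zero _ _, ?_⟩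
      rw [← hr']
      simp only [lin, map_mul, map_neg]
      ring
    · refine ⟨C (r * w') * T (-1), T_neg_one_mem v hv _, C (-r * w) * T (-1),
        T_neg_one_mem v hv _, ?_⟩
      have hT : (T 1 * T (-1) : κ[T;T⁻¹]) = 1 := by rw [← T_add]; simp
      rw [← hr']
      simp only [lin, map_mul, map_neg]
      calc C r * C w' * T (-1) * (C u * T 1 - C w) + -C r * C w * T (-1) * (C u' * T 1 - C w')
          = C r * (C u * C w' - C u' * C w) * (T 1 * T (-1)) := by ring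
        _ = _ := by rw [hT, mul_one]

end Orl.Q
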