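import Pool.Agent.Work.MP_a6e60d_ag.Q.Obj

/-!
# Graded Bezout relations on the charts of the projective line

`Cop v m m' x y`: the sections `x` of `O(m)` and `y` of `O(m')` have no common zero on the
chart `v`.
-/

open LaurentPolynomial

set_option linter.unusedSectionVars false

namespace Orl.Q

variable {κ : Type} [CommRing κ]

/-- the exponent of the generator of `O(n)` on a chart -/
def Ch.gx : Ch → ℤ → ℤ
  | .inf, n => n
  | _, _ => 0

theorem Ch.gx_ok (v : Ch) (n : ℤ) : v.Ok n (v.gx n) := by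
  cases v <;> simp [Ch.Ok, Ch.gx]

theorem Ch.gx_neg (v : Ch) (n : ℤ) : v.gx (-n) = -v.gx n := by
  cases v <;> simp [Ch.gx]

/-- the generator of `O(n)` on a chart -/
noncomputable def gen (κ : Type) [CommRing κ] (v : Ch) (n : ℤ) : κ[T;T⁻¹] := T (v.gx n)

theorem T_mem_lat {v : Ch} {n m : ℤ} (h : v.Ok n m) : (T m : κ[T;T⁻¹]) ∈ lat κ v n := by
  have := single_mem_lat (κ := κ) h 1
  rwa [map_one, one_mul] at this

theorem gen_mem (v : Ch) (n : ℤ) : gen κ v n ∈ lat κ v n := T_mem_lat (v.gx_ok n)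

theorem gen_mul_neg (v : Ch) (n : ℤ) : gen κ v n * gen κ v (-n) = 1 := by
  rw [gen, gen, ← T_add, Ch.gx_neg, add_neg_cancel, T_zero]

theorem gen_neg_mul (v : Ch) (n : ℤ) : gen κ v (-n) * gen κ v n = 1 := by
  rw [mul_comm, gen_mul_neg]

/-- multiplication by the generator -/
theorem gen_mul_mem {v : Ch} {n m p : ℤ} {x : κ[T;T⁻¹]} (h : n + m = p) :
    gen κ v n * x ∈ lat κ v p ↔ x ∈ lat κ v m := by
  constructor
  · intro hx
    have h1 := lat_mul' (gen_mem (κ := κ) v (-n)) hx (p := m) (by lia)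
    rwa [← mul_assoc, gen_neg_mul, one_mul] at h1
  · intro hx
    exact lat_mul' (gen_mem v n) hx h

theorem C_mul_mem {v : Ch} {n : ℤ} {x : κ[T;T⁻¹]} (c : κ) (hx : x ∈ lat κ v n) :
    C c * x ∈ lat κ v n := lat_mul' (C_mem_lat v c) hx (zero_add n)

/-- the graded Bezout relation -/
def Cop (v : Ch) (m m' : ℤ) (x y : κ[T;T⁻¹]) : Prop :=
  ∃ u ∈ lat κ v (-m), ∃ w ∈ lat κ v (-m'), u * x + w * y = 1

theorem Cop.symm {v : Ch} {m m' : ℤ} {x y : κ[T;T⁻¹]} (h : Cop v m m' x y) :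
    Cop v m' m y x := by
  obtain ⟨u, hu, w, hw, e⟩ := h
  exact ⟨w, hw, u, hu, by rw [add_comm, e]⟩

theorem Cop.one_left (v : Ch) (m : ℤ) (y : κ[T;T⁻¹]) : Cop v 0 m 1 y :=
  ⟨1, by rw [neg_zero]; exact one_mem_lat v, 0, Submodule.zero_mem _, by simp⟩

theorem Cop.one_right (v : Ch) (m : ℤ) (y : κ[T;T⁻¹]) : Cop v m 0 y 1 :=
  (Cop.one_left v m y).symm

theorem Cop.mul_left {v : Ch} {m m₁ m' : ℤ} {x x₁ y : κ[T;T⁻¹]} (hx : x ∈ lat κ v m)
    (hx₁ : x₁ ∈ lat κ v m₁) (hy : y ∈ lat κ v m') (h : Cop v m m' x y)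
    (h₁ : Cop v m₁ m' x₁ y) : Cop v (m + m₁) m' (x * x₁) y := by
  obtain ⟨u, hu, w, hw, e⟩ := h
  obtain ⟨u₁, hu₁, w₁, hw₁, e₁⟩ := h₁
  refine ⟨u * u₁, lat_mul' hu hu₁ (by ring), u * x * w₁ + w * (u₁ * x₁) + w * w₁ * y, ?_, ?_⟩
  · refine Submodule.add_mem _ (Submodule.add_mem _ ?_ ?_) ?_
    · exact lat_mul' (lat_mul hu hx) hw₁ (by ring)
    · exact lat_mul' hw (lat_mul hu₁ hx₁) (by ring)
    · exact lat_mul' (lat_mul hw hw₁) hy (by ring)
  · have h2 : (u * x + w * y) * (u₁ * x₁ + w₁ * y) = 1 := by rw [e, e₁, one_mul]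
    rw [← h2]
    ring

theorem Cop.mul_right {v : Ch} {m m' m₁ : ℤ} {x y y₁ : κ[T;T⁻¹]} (hx : x ∈ lat κ v m)
    (hy : y ∈ lat κ v m') (hy₁ : y₁ ∈ lat κ v m₁) (h : Cop v m m' x y)
    (h₁ : Cop v m m₁ x y₁) : Cop v m (m' + m₁) x (y * y₁) :=
  (Cop.mul_left hy hy₁ hx h.symm h₁.symm).symm

theorem prod_mem_lat {ι : Type*} {v : Ch} {f : ι → κ[T;T⁻¹]} {d : ι → ℤ} (A : Finset ι)
    (hf : ∀ i ∈ A, f i ∈ lat κ v (d i)) : ∏ i ∈ A, f i ∈ lat κ v (∑ i ∈ A, d i) := by
  classical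
  induction A using Finset.induction_on with
  | empty => simpa using one_mem_lat v
  | insert i A hi ih =>
    rw [Finset.prod_insert hi, Finset.sum_insert hi]
    exact lat_mul (hf i (Finset.mem_insert_self _ _))
      (ih fun j hj => hf j (Finset.mem_insert_of_mem hj))

theorem Cop.prod_left {ι : Type*} {v : Ch} {f : ι → κ[T;T⁻¹]} {d : ι → ℤ} {m : ℤ}
    {y : κ[T;T⁻¹]} (hy : y ∈ lat κ v m) (A : Finset ι) (hf : ∀ i ∈ A, f i ∈ lat κ v (d i))
    (h : ∀ i ∈ A, Cop v (d i) m (f i) y) :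
    Cop v (∑ i ∈ A, d i) m (∏ i ∈ A, f i) y := by
  classical
  induction A using Finset.induction_on with
  | empty => simpa using Cop.one_left v m y
  | insert i A hi ih =>
    rw [Finset.prod_insert hi, Finset.sum_insert hi]
    exact Cop.mul_left (hf i (Finset.mem_insert_self _ _))
      (prod_mem_lat A fun j hj => hf j (Finset.mem_insert_of_mem hj)) hy
      (h i (Finset.mem_insert_self _ _))
      (ih (fun j hj => hf j (Finset.mem_insert_of_mem hj))
        fun j hj => h j (Finset.mem_insert_of_mem hj))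

/-- products over disjoint sets -/
theorem Cop.prod {ι : Type*} {v : Ch} {f : ι → κ[T;T⁻¹]} {d : ι → ℤ} {A B : Finset ι}
    (hf : ∀ i, f i ∈ lat κ v (d i)) (h : ∀ i ∈ A, ∀ j ∈ B, Cop v (d i) (d j) (f i) (f j)) :
    Cop v (∑ i ∈ A, d i) (∑ i ∈ B, d i) (∏ i ∈ A, f i) (∏ i ∈ B, f i) := by
  refine Cop.prod_left (prod_mem_lat B fun i _ => hf i) A (fun i _ => hf i) fun i hi => ?_
  refine (Cop.prod_left (hf i) B (fun j _ => hf j) fun j hj => ?_).symm
  exact (h i hi j hj).symm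

/-- from both divisibilities -/
theorem Cop.mem {v : Ch} {m m' n : ℤ} {x y t : κ[T;T⁻¹]} (h : Cop v m m' x y)
    (hx : t * x ∈ lat κ v (n + m)) (hy : t * y ∈ lat κ v (n + m')) : t ∈ lat κ v n := by
  obtain ⟨u, hu, w, hw, e⟩ := h
  have h1 : t = u * (t * x) + w * (t * y) := by
    calc t = t * (u * x + w * y) := by rw [e, mul_one]
      _ = u * (t * x) + w * (t * y) := by ring
  rw [h1]
  exact Submodule.add_mem _ (lat_mul' hu hx (by ring)) (lat_mul' hw hy (by ring))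

/-- the relation on the overlap follows from the relation on a chart -/
theorem Cop.mid {v : Ch} {m m' : ℤ} {x y : κ[T;T⁻¹]} (h : Cop v m m' x y) :
    Cop .mid m m' x y := by
  obtain ⟨u, hu, w, hw, e⟩ := h
  exact ⟨u, mem_lat_mid u, w, mem_lat_mid w, e⟩

/-- division in a proportion -/
theorem Cop.exists_eq [IsDomain κ] {v : Ch} {m m' : ℤ} {x y x' y' : κ[T;T⁻¹]}
    (h : Cop v m m' x y) (e : x * y' = x' * y) : ∃ t, x' = t * x ∧ y' = t * y := by
  obtain ⟨u, -, w, -, e1⟩ := h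
  refine ⟨u * x' + w * y', ?_, ?_⟩
  · calc x' = (u * x + w * y) * x' := by rw [e1, one_mul]
      _ = u * x' * x + w * (x' * y) := by ring
      _ = u * x' * x + w * (x * y') := by rw [e]
      _ = (u * x' + w * y') * x := by ring
  · calc y' = (u * x + w * y) * y' := by rw [e1, one_mul]
      _ = u * (x * y') + w * y * y' := by ring
      _ = u * (x' * y) + w * y * y' := by rw [e]
      _ = (u * x' + w * y') * y := by ring

/-! ### The roots -/

section roots

variable (r : Fin 3 → κ)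

/-- the four linear forms: `T - r i` for the three finite roots and `1` for the root at infinity -/
noncomputable def rt (i : Fin 4) : κ[T;T⁻¹] :=
  if h : (i : ℕ) < 3 then T 1 - C (r ⟨i, h⟩) else 1

theorem rt_of_lt {i : Fin 4} (h : (i : ℕ) < 3) : rt r i = T 1 - C (r ⟨i, h⟩) := dif_pos h

theorem rt_three : rt r 3 = 1 := dif_neg (by decide)

theorem rt_mem (v : Ch) (i : Fin 4) : rt r i ∈ lat κ v 1 := by
  have h1 : v.Ok 1 1 := by cases v <;> simp [Ch.Ok]
  have h0 : v.Ok 1 0 := by cases v <;> simp [Ch.Ok]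
  rw [rt]
  split_ifs with h
  · refine Submodule.sub_mem _ (T_mem_lat h1) ?_
    have := single_mem_lat h0 (r ⟨i, h⟩)
    rwa [T_zero, mul_one] at this
  · have := T_mem_lat (κ := κ) h0
    rwa [T_zero] at this

end roots

theorem rt_cop {κ : Type} [Field κ] {r : Fin 3 → κ} (hr : Function.Injective r) (v : Ch)
    {i j : Fin 4} (hij : i ≠ j) : Cop v 1 1 (rt r i) (rt r j) := by
  -- one of the roots is at infinity
  have key : ∀ (v : Ch) (i : Fin 4), i ≠ 3 → Cop v 1 1 (rt r i) (rt r 3) := by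
    intro v i hi
    have hi' : (i : ℕ) < 3 := by
      have := i.2
      by_contra h
      exact hi (Fin.ext (by show (i : ℕ) = 3; lia))
    rw [rt_of_lt r hi', rt_three]
    cases v with
    | zero =>
      refine ⟨0, Submodule.zero_mem _, 1, ?_, by simp⟩
      exact T_zero (R := κ) ▸ T_mem_lat (by simp [Ch.Ok])
    | mid =>
      exact ⟨0, Submodule.zero_mem _, 1, mem_lat_mid _, by simp⟩
    | inf =>
      refine ⟨T (-1), T_mem_lat (by simp [Ch.Ok]), C (r ⟨i, hi'⟩) * T (-1),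
        single_mem_lat (by simp [Ch.Ok]) _, ?_⟩
      rw [mul_sub, ← T_add, neg_add_cancel, T_zero]
      ring
  by_cases h3 : i = 3
  · subst h3
    exact (key v j hij.symm).symm
  by_cases h3' : j = 3
  · subst h3'
    exact key v i h3
  have hi' : (i : ℕ) < 3 := by
    have := i.2
    by_contra h
    exact h3 (Fin.ext (by show (i : ℕ) = 3; lia))
  have hj' : (j : ℕ) < 3 := by
    have := j.2
    by_contra h
    exact h3' (Fin.ext (by show (j : ℕ) = 3; lia))
  rw [rt_of_lt r hi', rt_of_lt r hj']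
  have hne : r ⟨j, hj'⟩ - r ⟨i, hi'⟩ ≠ 0 := by
    rw [sub_ne_zero]
    intro h
    exact hij (Fin.ext (by simpa using (congrArg Fin.val (hr h)).symm))
  set a := r ⟨i, hi'⟩
  set b := r ⟨j, hj'⟩
  have hc : (C ((b - a)⁻¹) * (C b - C a) : κ[T;T⁻¹]) = 1 := by
    rw [← map_sub, ← map_mul, inv_mul_cancel₀ hne, map_one]
  have h0 : ∀ w : Ch, w ≠ .inf → Cop w 1 1 (T 1 - C a) (T 1 - C b) := by
    intro w hw
    refine ⟨C ((b - a)⁻¹), ?_, -C ((b - a)⁻¹), Submodule.neg_mem _ ?_, ?_⟩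
    · have h1 : w.Ok (-1) 0 := by cases w <;> simp_all [Ch.Ok]
      have := single_mem_lat h1 ((b - a)⁻¹)
      rwa [T_zero, mul_one] at this
    · have h1 : w.Ok (-1) 0 := by cases w <;> simp_all [Ch.Ok]
      have := single_mem_lat h1 ((b - a)⁻¹)
      rwa [T_zero, mul_one] at this
    · rw [← hc]
      ring
  by_cases hv : v = .inf
  · subst hv
    refine ⟨C ((b - a)⁻¹ * b) * T (-1), single_mem_lat (by simp [Ch.Ok]) _,
      C (-((b - a)⁻¹ * a)) * T (-1), single_mem_lat (by simp [Ch.Ok]) _, ?_⟩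
    have hT : (T (-1) * T 1 : κ[T;T⁻¹]) = 1 := by rw [← T_add, neg_add_cancel, T_zero]
    calc (C ((b - a)⁻¹ * b) * T (-1)) * (T 1 - C a) + (C (-((b - a)⁻¹ * a)) * T (-1)) *
          (T 1 - C b) = C ((b - a)⁻¹) * (C b - C a) * (T (-1) * T 1) := by
            simp only [map_mul, map_neg]
            ring
      _ = 1 := by rw [hc, hT, one_mul]
  · exact h0 v hv

end Orl.Q
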