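import Pool.Agent.Work.MP_a6e60d_ag.Q.Proj
import Pool.Agent.Work.MP_a6e60d_ag.Q.Res
import Pool.Agent.Work.MP_a6e60d_ag.LF.LinFun

/-!
# The Mayer-Vietoris resolution of a lattice

The part `M.cut v` of a lattice over the charts contained in `v`, and the exact sequence
`0 ⟶ M.cut mid ⟶ M.cut zero ⊕ M.cut inf ⟶ M ⟶ 0`.
-/

open CategoryTheory CategoryTheory.Abelian Orl.LF

set_option linter.unusedSectionVars false

attribute [-instance] CategoryTheory.catToReflQuiver

namespace Orl.Q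

universe w

/-! ### Sums of lattices -/

section prod

variable {k D V : Type} [Field k] [Ring D] [Algebra k D] [Fintype V] [DecidableEq V]
  {T : Tiling k D V} {N N' : Type} [AddCommGroup N] [Module k N] [Module D N]
  [IsScalarTower k D N] [AddCommGroup N'] [Module k N'] [Module D N'] [IsScalarTower k D N']
  {κ : Type} [Field κ] [Algebra k κ] [Module κ N] [IsScalarTower k κ N] [SMulCommClass κ D N]
  [Module κ N'] [IsScalarTower k κ N'] [SMulCommClass κ D N']

/-- the sum of two lattices -/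
def Lattice.prod (M : Lattice T N) (M' : Lattice T N') : Lattice T (N × N') where
  M s := (M.M s).prod (M'.M s)
  smul_mem hx hn := ⟨M.smul_mem hx hn.1, M'.smul_mem hx hn.2⟩

theorem Lattice.mem_prod {M : Lattice T N} {M' : Lattice T N'} {s : V} {n : N × N'} :
    n ∈ (M.prod M').M s ↔ n.1 ∈ M.M s ∧ n.2 ∈ M'.M s := Iff.rfl

variable {M : Lattice T N} {M' : Lattice T N'} (hM : M.Stable κ) (hM' : M'.Stable κ)

include hM hM' in
theorem Lattice.prod_stable : (M.prod M').Stable κ := fun s c _ hx =>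
  ⟨hM s c _ hx.1, hM' s c _ hx.2⟩

/-- the first inclusion -/
noncomputable def Lattice.inlK : Lattice.kmod hM ⟶ Lattice.kmod (Lattice.prod_stable hM hM') :=
  Lattice.kmap hM (Lattice.prod_stable hM hM') (LinearMap.inl D N N')
    (fun _ _ hn => ⟨hn, Submodule.zero_mem _⟩) (fun c n => by
      change (c • n, (0 : N')) = (c • n, c • (0 : N'))
      rw [smul_zero])

/-- the second inclusion -/
noncomputable def Lattice.inrK : Lattice.kmod hM' ⟶ Lattice.kmod (Lattice.prod_stable hM hM') :=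
  Lattice.kmap hM' (Lattice.prod_stable hM hM') (LinearMap.inr D N N')
    (fun _ _ hn => ⟨Submodule.zero_mem _, hn⟩) (fun c n => by
      change ((0 : N), c • n) = (c • (0 : N), c • n)
      rw [smul_zero])

/-- the first projection -/
noncomputable def Lattice.fstK : Lattice.kmod (Lattice.prod_stable hM hM') ⟶ Lattice.kmod hM :=
  Lattice.kmap (Lattice.prod_stable hM hM') hM (LinearMap.fst D N N')
    (fun _ _ hn => hn.1) (fun _ _ => rfl)

/-- the second projection -/
noncomputable def Lattice.sndK : Lattice.kmod (Lattice.prod_stable hM hM') ⟶ Lattice.kmod hM' :=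
  Lattice.kmap (Lattice.prod_stable hM hM') hM' (LinearMap.snd D N N')
    (fun _ _ hn => hn.2) (fun _ _ => rfl)

theorem Lattice.inlK_fstK : Lattice.inlK hM hM' ≫ Lattice.fstK hM hM' = 𝟙 _ := by
  apply ModObj.hom_ext
  rfl

theorem Lattice.inrK_sndK : Lattice.inrK hM hM' ≫ Lattice.sndK hM hM' = 𝟙 _ := by
  apply ModObj.hom_ext
  rfl

theorem Lattice.inlK_sndK : Lattice.inlK hM hM' ≫ Lattice.sndK hM hM' = 0 := by
  apply ModObj.hom_ext
  rfl

theorem Lattice.inrK_fstK : Lattice.inrK hM hM' ≫ Lattice.fstK hM hM' = 0 := by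
  apply ModObj.hom_ext
  rfl

theorem Lattice.totalK : Lattice.fstK hM hM' ≫ Lattice.inlK hM hM' +
    Lattice.sndK hM hM' ≫ Lattice.inrK hM hM' = 𝟙 _ := by
  apply ModObj.hom_ext
  apply ModuleCat.hom_ext
  refine LinearMap.ext fun x => funext fun s => Subtype.ext ?_
  change ((x s).1.1, (0 : N')) + ((0 : N), (x s).1.2) = (x s).1
  rw [Prod.mk_add_mk, add_zero, zero_add]

/-- acyclicity of a sum -/
theorem Lattice.acyc_prod {Y : ModObj k κ (ModuleCat.{0} T.Alg)}
    [HasExt.{w} (ModObj k κ (ModuleCat.{0} T.Alg))]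
    (h : Acyc.{w} (Lattice.kmod hM) Y) (h' : Acyc.{w} (Lattice.kmod hM') Y) :
    Acyc.{w} (Lattice.kmod (Lattice.prod_stable hM hM')) Y := by
  intro n hn
  refine subsingleton_of_forall_eq 0 fun x => ?_
  rw [← Ext.mk₀_id_comp x, ← Lattice.totalK hM hM', Ext.mk₀_add, Ext.add_comp,
    ← Ext.mk₀_comp_mk₀, ← Ext.mk₀_comp_mk₀, Ext.comp_assoc_of_second_deg_zero,
    Ext.comp_assoc_of_second_deg_zero,
    h.eq_zero hn ((Ext.mk₀ (Lattice.inlK hM hM')).comp x (zero_add n)),
    h'.eq_zero hn ((Ext.mk₀ (Lattice.inrK hM hM')).comp x (zero_add n)), Ext.comp_zero,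
    Ext.comp_zero, add_zero]

end prod

/-- a retract of an acyclic object is acyclic -/
theorem Acyc.of_retract {C : Type*} [Category C] [Abelian C] [HasExt.{w} C] {X X' Y : C}
    (i : X ⟶ X') (r : X' ⟶ X) (h : i ≫ r = 𝟙 X) (hX : Acyc.{w} X' Y) : Acyc.{w} X Y := by
  intro n hn
  refine subsingleton_of_forall_eq 0 fun x => ?_
  rw [← Ext.mk₀_id_comp x, ← h, ← Ext.mk₀_comp_mk₀, Ext.comp_assoc_of_second_deg_zero,
    hX.eq_zero hn ((Ext.mk₀ r).comp x (zero_add n)), Ext.comp_zero]

/-! ### The parts of a lattice -/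

variable {k : Type} [Field k] {δ : Dat k} {N N' : Type} [AddCommGroup N] [Module k N]
  [Module δ.D N] [IsScalarTower k δ.D N] [AddCommGroup N'] [Module k N'] [Module δ.D N']
  [IsScalarTower k δ.D N']
  {κ : Type} [Field κ] [Algebra k κ] [Module κ N] [IsScalarTower k κ N] [SMulCommClass κ δ.D N]
  [Module κ N'] [IsScalarTower k κ N'] [SMulCommClass κ δ.D N']

/-- the part of a lattice over the charts contained in `v` -/
def Lattice.cut (M : Lattice δ.tiling N) (v : Ch) : Lattice δ.tiling N where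
  M s := if v ≤ s.1 then M.M s else ⊥
  smul_mem {s t x n} hx hn := by
    by_cases h : t.1 ≤ s.1
    · by_cases h' : v ≤ t.1
      · rw [if_pos h'] at hn
        rw [if_pos (Ch.le_trans h' h)]
        exact M.smul_mem hx hn
      · rw [if_neg h', Submodule.mem_bot] at hn
        rw [hn, smul_zero]
        exact Submodule.zero_mem _
    · rw [Dat.tile_eq_zero hx h, zero_smul]
      exact Submodule.zero_mem _

section cut

variable {M : Lattice δ.tiling N} {M' : Lattice δ.tiling N'} {v : Ch}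

theorem Lattice.cut_M {s : Vx} (h : v ≤ s.1) : (M.cut v).M s = M.M s := if_pos h

theorem Lattice.cut_M_not {s : Vx} (h : ¬ v ≤ s.1) : (M.cut v).M s = ⊥ := if_neg h

theorem Lattice.mem_cut {s : Vx} {n : N} : n ∈ (M.cut v).M s ↔ (v ≤ s.1 ∧ n ∈ M.M s) ∨ n = 0 := by
  by_cases h : v ≤ s.1
  · rw [Lattice.cut_M h]
    constructor
    · intro hn
      exact Or.inl ⟨h, hn⟩
    · rintro (⟨-, hn⟩ | rfl)
      · exact hn
      · exact Submodule.zero_mem _
  · rw [Lattice.cut_M_not h, Submodule.mem_bot]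
    exact ⟨Or.inr, fun hn => hn.resolve_left fun h' => h h'.1⟩

theorem Lattice.cut_le {s : Vx} {n : N} (hn : n ∈ (M.cut v).M s) : n ∈ M.M s := by
  rcases Lattice.mem_cut.1 hn with ⟨-, hn⟩ | rfl
  · exact hn
  · exact Submodule.zero_mem _

theorem Lattice.cut_mono {v' : Ch} (h : v ≤ v') {s : Vx} {n : N} (hn : n ∈ (M.cut v').M s) :
    n ∈ (M.cut v).M s := by
  rcases Lattice.mem_cut.1 hn with ⟨h', hn⟩ | rfl
  · rw [Lattice.cut_M (Ch.le_trans h h')]
    exact hn
  · exact Submodule.zero_mem _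

theorem Lattice.cut_stable (hM : M.Stable κ) (v : Ch) : (M.cut v).Stable κ := by
  intro s c x hx
  rcases Lattice.mem_cut.1 hx with ⟨h', hn⟩ | rfl
  · rw [Lattice.cut_M h']
    exact hM s c x hn
  · rw [smul_zero]
    exact Submodule.zero_mem _

/-- maps on the parts -/
theorem Lattice.map_cut {f : N →ₗ[δ.D] N'} (h : ∀ s : Vx, v ≤ s.1 → ∀ n ∈ M.M s, f n ∈ M'.M s)
    (s : Vx) (n : N) (hn : n ∈ (M.cut v).M s) : f n ∈ (M'.cut v).M s := by
  rcases Lattice.mem_cut.1 hn with ⟨h', hn⟩ | rfl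
  · rw [Lattice.cut_M h']
    exact h s h' n hn
  · rw [map_zero]
    exact Submodule.zero_mem _

/-- maps from a part -/
theorem Lattice.map_of_cut {f : N →ₗ[δ.D] N'}
    (h : ∀ s : Vx, v ≤ s.1 → ∀ n ∈ M.M s, f n ∈ M'.M s)
    (s : Vx) (n : N) (hn : n ∈ (M.cut v).M s) : f n ∈ M'.M s :=
  Lattice.cut_le (Lattice.map_cut h s n hn)

end cut

/-! ### The resolution -/

section res

variable {M : Lattice δ.tiling N} (hM : M.Stable κ)

/-- the inclusion of the smaller part -/
noncomputable def Lattice.cutK (v v' : Ch) (h : v ≤ v') :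
    Lattice.kmod (Lattice.cut_stable hM v') ⟶ Lattice.kmod (Lattice.cut_stable hM v) :=
  Lattice.kmap _ _ LinearMap.id (fun _ _ hn => Lattice.cut_mono h hn) (fun _ _ => rfl)

/-- the inclusion of a part -/
noncomputable def Lattice.cutι (v : Ch) :
    Lattice.kmod (Lattice.cut_stable hM v) ⟶ Lattice.kmod hM :=
  Lattice.kmap _ _ LinearMap.id (fun _ _ hn => Lattice.cut_le hn) (fun _ _ => rfl)

/-- the middle term of the resolution -/
noncomputable abbrev Lattice.midL (M : Lattice δ.tiling N) : Lattice δ.tiling (N × N) :=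
  (M.cut .zero).prod (M.cut .inf)

include hM in
theorem Lattice.midL_stable : M.midL.Stable κ :=
  Lattice.prod_stable (Lattice.cut_stable hM _) (Lattice.cut_stable hM _)

/-- the first map of the resolution: `n ↦ (n, -n)` -/
noncomputable def Lattice.resf : Lattice.kmod (Lattice.cut_stable hM .mid) ⟶
    Lattice.kmod (Lattice.midL_stable hM) :=
  Lattice.kmap _ _ (LinearMap.prod LinearMap.id (-LinearMap.id))
    (fun _ _ hn => ⟨Lattice.cut_mono (Ch.le_mid _) hn,
      Submodule.neg_mem _ (Lattice.cut_mono (Ch.le_mid _) hn)⟩)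
    (fun c n => by
      change (c • n, -(c • n)) = (c • n, c • (-n))
      rw [smul_neg])

/-- the second map of the resolution: `(a, b) ↦ a + b` -/
noncomputable def Lattice.resg : Lattice.kmod (Lattice.midL_stable hM) ⟶ Lattice.kmod hM :=
  Lattice.kmap _ _ (LinearMap.coprod LinearMap.id LinearMap.id)
    (fun _ _ hn => Submodule.add_mem _ (Lattice.cut_le hn.1) (Lattice.cut_le hn.2))
    (fun c n => by
      change c • n.1 + c • n.2 = c • (n.1 + n.2)
      rw [smul_add])

theorem Lattice.resf_resg : Lattice.resf hM ≫ Lattice.resg hM = 0 :=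
  Lattice.kmap_comp_eq_zero _ _ _ _ _ _ _ _ _ fun n => by
    change n + -n = 0
    rw [add_neg_cancel]

theorem Lattice.res_shortExact :
    (ShortComplex.mk (Lattice.resf hM) (Lattice.resg hM) (Lattice.resf_resg hM)).ShortExact := by
  refine Lattice.kmap_shortExact _ _ _ _ _ _ _ _ _ (Lattice.resf_resg hM) ?_ ?_ ?_
  · intro s n _ h
    exact congrArg Prod.fst h
  · rintro s ⟨a, b⟩ ⟨ha, hb⟩ h
    have h1 : a + b = 0 := h
    have h2 : b = -a := (neg_eq_of_add_eq_zero_right h1).symm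
    refine ⟨a, ?_, Prod.ext rfl h2.symm⟩
    rcases Lattice.mem_cut.1 ha with ⟨ha1, ha2⟩ | rfl
    · rcases Lattice.mem_cut.1 hb with ⟨hb1, hb2⟩ | rfl
      · obtain ⟨v, c⟩ := s
        cases v with
        | zero => exact absurd hb1 Ch.not_inf_le_zero
        | inf => exact absurd ha1 Ch.not_zero_le_inf
        | mid =>
          exact Lattice.mem_cut.2 (Or.inl ⟨Ch.le_refl _, ha2⟩)
      · rw [add_zero] at h1
        rw [h1]
        exact Submodule.zero_mem _
    · exact Submodule.zero_mem _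
  · rintro ⟨v, c⟩ n hn
    cases v with
    | zero =>
      exact ⟨(n, 0), ⟨Lattice.mem_cut.2 (Or.inl ⟨Ch.le_refl _, hn⟩), Submodule.zero_mem _⟩,
        add_zero n⟩
    | inf =>
      exact ⟨(0, n), ⟨Submodule.zero_mem _, Lattice.mem_cut.2 (Or.inl ⟨Ch.le_refl _, hn⟩)⟩,
        zero_add n⟩
    | mid =>
      exact ⟨(n, 0), ⟨Lattice.mem_cut.2 (Or.inl ⟨Ch.le_mid _, hn⟩), Submodule.zero_mem _⟩,
        add_zero n⟩

variable [HasExt.{w} (ModObj k κ (ModuleCat.{0} δ.Alg))] {Y : ModObj k κ (ModuleCat.{0} δ.Alg)}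

/-- Mayer-Vietoris: acyclicity of a lattice with acyclic parts -/
theorem Lattice.acyc_of_cut (h0 : Acyc.{w} (Lattice.kmod (Lattice.cut_stable hM .zero)) Y)
    (h1 : Acyc.{w} (Lattice.kmod (Lattice.cut_stable hM .inf)) Y)
    (h2 : Acyc.{w} (Lattice.kmod (Lattice.cut_stable hM .mid)) Y)
    (h : ∀ f : Lattice.kmod (Lattice.cut_stable hM .mid) ⟶ Y,
      ∃ (f0 : Lattice.kmod (Lattice.cut_stable hM .zero) ⟶ Y)
        (f1 : Lattice.kmod (Lattice.cut_stable hM .inf) ⟶ Y),
        f = Lattice.cutK hM .zero .mid (Ch.le_mid _) ≫ f0 -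
          Lattice.cutK hM .inf .mid (Ch.le_mid _) ≫ f1) :
    Acyc.{w} (Lattice.kmod hM) Y := by
  refine acyc_of_surjective (Lattice.res_shortExact hM) h2
    (Lattice.acyc_prod (Lattice.cut_stable hM .zero) (Lattice.cut_stable hM .inf) h0 h1) ?_
  intro f
  obtain ⟨f0, f1, hf⟩ := h f
  refine ⟨Lattice.fstK (Lattice.cut_stable hM .zero) (Lattice.cut_stable hM .inf) ≫ f0 +
    Lattice.sndK (Lattice.cut_stable hM .zero) (Lattice.cut_stable hM .inf) ≫ f1, ?_⟩
  have e0 : Lattice.resf hM ≫ Lattice.fstK (Lattice.cut_stable hM .zero)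
      (Lattice.cut_stable hM .inf) = Lattice.cutK hM .zero .mid (Ch.le_mid _) := by
    apply ModObj.hom_ext
    rfl
  have e1 : Lattice.resf hM ≫ Lattice.sndK (Lattice.cut_stable hM .zero)
      (Lattice.cut_stable hM .inf) = -Lattice.cutK hM .inf .mid (Ch.le_mid _) := by
    apply ModObj.hom_ext
    rfl
  change Lattice.resf hM ≫ (Lattice.fstK _ _ ≫ f0 + Lattice.sndK _ _ ≫ f1) = f
  rw [Preadditive.comp_add, ← Category.assoc, ← Category.assoc, e0, e1, hf,
    Preadditive.neg_comp, sub_eq_add_neg]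

end res

end Orl.Q
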