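import Pool.Agent.Work.MP_a6e60d_ag.Q.TabSpl
import Pool.Agent.Work.MP_a6e60d_ag.Q.Cut

/-!
# The maps out of the parts of a lattice over the overlap

Every map over the overlap is the difference of a map over the first chart and of a map over the
second chart, if the degree is at least `-1`.
-/

open CategoryTheory CategoryTheory.Limits LaurentPolynomial Quaternion Orl.LF

set_option linter.unusedSectionVars false

attribute [-instance] CategoryTheory.catToReflQuiver

namespace Orl.Q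

/-- the decomposition of a Laurent polynomial -/
theorem exists_split {κ : Type} [CommRing κ] {d : ℤ} (hd : -1 ≤ d) (t : κ[T;T⁻¹]) :
    ∃ t0 t1 : κ[T;T⁻¹], t0 ∈ lat κ .zero d ∧ t1 ∈ lat κ .inf d ∧ t = t0 - t1 := by
  induction t using LaurentPolynomial.induction_on' with
  | add p q hp hq =>
    obtain ⟨p0, p1, h0, h1, e⟩ := hp
    obtain ⟨q0, q1, g0, g1, e'⟩ := hq
    exact ⟨p0 + q0, p1 + q1, Submodule.add_mem _ h0 g0, Submodule.add_mem _ h1 g1, by
      rw [e, e']
      abel⟩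
  | C_mul_T m c =>
    by_cases hm : 0 ≤ m
    · have h0 : Ch.zero.Ok d m := hm
      exact ⟨C c * T m, 0, single_mem_lat h0 c, Submodule.zero_mem _, by rw [sub_zero]⟩
    · have h0 : Ch.inf.Ok d m := show m ≤ d by lia
      exact ⟨0, -(C c * T m), Submodule.zero_mem _,
        Submodule.neg_mem _ (single_mem_lat h0 c), by rw [zero_sub, neg_neg]⟩

section

variable {k : Type} [Field k] {δ : Dat k} {κ : Type} [Field κ] [Algebra k κ] {φ φ' : Fac δ κ}

theorem Ch.le_cases {v : Ch} {s : Vx} (h : v ≤ s.1) : s.1 = v ∨ s.1 = .mid := by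
  rcases h with h | h
  · exact Or.inl h.symm
  · exact Or.inr h

/-- a pair map which preserves the lattices over a chart preserves the part of the lattice -/
theorem PairMap.lin_cut {p : PairMap φ φ'} (hs : φ'.s = φ.s) {n n' : ℤ} {v : Ch}
    (h : p.Pres v n n') (s : Vx) (x : φ.N) (hx : x ∈ ((φ.lat n).cut v).M s) :
    p.lin hs x ∈ (φ'.lat n').M s := by
  refine Lattice.map_of_cut (M := φ.lat n) (M' := φ'.lat n') (v := v) ?_ s x hx
  intro s hvs x hx
  exact (h.mono hvs).lin_mem hs hx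

/-- the map of a part of the lattice -/
noncomputable def PairMap.homCut (p : PairMap φ φ') (hs : φ'.s = φ.s) (n n' : ℤ) (v : Ch)
    (h : p.Pres v n n') :
    Lattice.kmod (Lattice.cut_stable (φ.lat_stable n) v) ⟶ φ'.M n' :=
  Lattice.kmap (Lattice.cut_stable (φ.lat_stable n) v) (φ'.lat_stable n') (p.lin hs)
    (PairMap.lin_cut hs h) (p.lin_ksmul hs)

theorem PairMap.exists_homCut (hs : φ'.s = φ.s) (h2 : (2 : κ) ≠ 0) (hs0 : φ.s ≠ 0) {n n' : ℤ}
    {v : Ch} (f : Lattice.kmod (Lattice.cut_stable (φ.lat_stable n) v) ⟶ φ'.M n') :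
    ∃ (p : PairMap φ φ') (h : p.Pres v n n'), p.homCut hs n n' v h = f := by
  obtain ⟨g, hg, hf⟩ := Lattice.Fam.khom_surjective
    (hM := Lattice.cut_stable (φ.lat_stable n) v) (hM' := φ'.lat_stable n') f
  have htop : ((φ.lat n).cut v).M (.mid, true) = ⊤ := by
    rw [Lattice.cut_M (Ch.le_mid v)]
    exact Fac.lat_mid_top n
  obtain ⟨f₀, hf₀, hfg⟩ := Lattice.Fam.exists_lin htop g
  have hK : ∀ (c : κ) x, f₀ (c • x) = c • f₀ x := by
    intro c x
    have hx : x ∈ ((φ.lat n).cut v).M (.mid, true) := by rw [htop]; trivial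
    have h1 := hg (.mid, true) c ⟨x, hx⟩
    rw [← hfg] at h1
    exact h1
  obtain ⟨p, hp⟩ := PairMap.exists_lin hs h2 hs0 f₀ hK
  subst hp
  have h : p.Pres v n n' := PairMap.pres_of_lin_mem hs fun x hx => by
    refine hf₀ (v, true) x ?_
    rw [Lattice.cut_M (Ch.le_refl v)]
    exact hx
  refine ⟨p, h, ?_⟩
  rw [← hf]
  subst hfg
  rfl

theorem PairMap.homCut_comp (p : PairMap φ φ') (hs : φ'.s = φ.s) {n n' : ℤ} {v w : Ch}
    (hvw : v ≤ w) (h : p.Pres v n n') :
    Lattice.cutK (φ.lat_stable n) v w hvw ≫ p.homCut hs n n' v h =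
      p.homCut hs n n' w (h.mono hvw) := by
  apply ModObj.hom_ext
  rfl

theorem PairMap.homCut_sub {p p0 p1 : PairMap φ φ'} (hs : φ'.s = φ.s) {n n' : ℤ} {v : Ch}
    {h : p.Pres v n n'} {h0 : p0.Pres v n n'} {h1 : p1.Pres v n n'} (hx : p.x = p0.x - p1.x)
    (hy : p.y = p0.y - p1.y) :
    p.homCut hs n n' v h = p0.homCut hs n n' v h0 - p1.homCut hs n n' v h1 := by
  have e : ∀ x : φ.N, p.lin hs x = p0.lin hs x - p1.lin hs x := by
    intro x
    ext1
    · show p.x * x.1 = p0.x * x.1 - p1.x * x.1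
      rw [hx, sub_mul]
    · show p.y * x.2 = p0.y * x.2 - p1.y * x.2
      rw [hy, sub_mul]
  apply ModObj.hom_ext
  apply ModuleCat.hom_ext
  refine LinearMap.ext fun x => funext fun s => Subtype.ext ?_
  exact e (Subtype.val (show ((φ.lat n).cut v).M s from x s))

/-! ### Maps out of the parts of the line bundles -/

theorem Fac.mem_latO_iff {n : ℤ} {s : Vx} {x : φ.N} :
    x ∈ (φ.latO n).M s ↔ (s.2 = false ∧ x.1 ∈ Orl.Q.lat κ s.1 n ∧ x.2 = 0) ∨ x = 0 := by
  obtain ⟨v, b⟩ := s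
  cases b
  · constructor
    · intro h
      exact Or.inl ⟨rfl, h.1, h.2⟩
    · rintro (⟨-, h1, h2⟩ | rfl)
      · exact ⟨h1, h2⟩
      · exact Submodule.zero_mem _
  · rw [Fac.mem_latO_true]
    constructor
    · exact Or.inr
    · rintro (⟨h, -⟩ | h)
      · exact absurd h (by simp)
      · exact h

/-- the family of maps out of a part of `O(n)` given by an element -/
noncomputable def Fac.famO {M' : Lattice δ.tiling φ'.N} (n : ℤ) (v : Ch) (y : φ'.N)
    (hy : ∀ w, v ≤ w → ∀ r ∈ Orl.Q.lat κ w n, r • y ∈ M'.M (w, false)) :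
    ((φ.latO n).cut v).Fam M' where
  f s :=
    { toFun := fun x => ⟨x.1.1 • y, by
        obtain ⟨x, hx⟩ := x
        rcases Lattice.mem_cut.1 hx with ⟨hv, hx⟩ | rfl
        · rcases Fac.mem_latO_iff.1 hx with ⟨h1, h2, -⟩ | rfl
          · obtain ⟨w, b⟩ := s
            simp only at h1
            subst h1
            exact hy w hv _ h2
          · show (0 : κ[T;T⁻¹]) • y ∈ M'.M s
            rw [zero_smul]
            exact Submodule.zero_mem _
        · show (0 : κ[T;T⁻¹]) • y ∈ M'.M s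
          rw [zero_smul]
          exact Submodule.zero_mem _⟩
      map_add' := fun a b => Subtype.ext (by
        show (a.1 + b.1).1 • y = a.1.1 • y + b.1.1 • y
        rw [Fac.add_fst, add_smul])
      map_smul' := fun c a => Subtype.ext (by
        show (c • a.1).1 • y = c • (a.1.1 • y)
        have h1 : (c • a.1).1 = algebraMap k κ c • a.1.1 := rfl
        have h2 : c • (a.1.1 • y) = algebraMap k κ c • (a.1.1 • y) := rfl
        rw [h1, h2, ← Fac.C_smul, LaurentPolynomial.smul_eq_C_mul, mul_smul]) }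
  smul' {s t x} hx n := by
    show (x • n.1).1 • y = x • (n.1.1 • y)
    obtain ⟨n, hn⟩ := n
    have h0 : n = 0 ∨ (t.2 = false ∧ n.2 = 0) := by
      rcases Lattice.mem_cut.1 hn with ⟨hv, hn⟩ | rfl
      · rcases Fac.mem_latO_iff.1 hn with ⟨h1, -, h3⟩ | rfl
        · exact Or.inr ⟨h1, h3⟩
        · exact Or.inl rfl
      · exact Or.inl rfl
    rcases h0 with rfl | ⟨ht, h3⟩
    · show (x • (0 : φ.N)).1 • y = x • ((0 : κ[T;T⁻¹]) • y)
      rw [smul_zero, zero_smul, smul_zero]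
      exact zero_smul _ _
    · obtain ⟨w, b⟩ := s
      obtain ⟨w', c⟩ := t
      simp only at ht
      subst ht
      rw [Dat.tiling_L] at hx
      by_cases hw : w' ≤ w
      · cases b
        · rw [Dat.tile_ff hw] at hx
          have hx' : x = Fac.sc x.re := by
            ext1
            · rfl
            · exact hx.2.1
            · exact hx.2.2.1
            · exact hx.2.2.2
          rw [hx', Fac.sc_smul, Fac.sc_smul, Fac.rsmul_fst, mul_smul]
        · rw [Dat.tile_tf, Submodule.mem_bot] at hx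
          rw [hx, zero_smul, zero_smul]
          exact zero_smul _ _
      · rw [Dat.tile_not hw, Submodule.mem_bot] at hx
        rw [hx, zero_smul, zero_smul]
        exact zero_smul _ _

theorem Fac.famO_isK {M' : Lattice δ.tiling φ'.N} {n : ℤ} {v : Ch} {y : φ'.N}
    {hy : ∀ w, v ≤ w → ∀ r ∈ Orl.Q.lat κ w n, r • y ∈ M'.M (w, false)} :
    (Fac.famO (φ := φ) n v y hy).IsK (Lattice.cut_stable (φ.latO_stable n) v) := by
  intro s c x
  show (c • x.1).1 • y = c • (x.1.1 • y)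
  rw [Fac.ksmul_fst, ← Fac.C_smul, LaurentPolynomial.smul_eq_C_mul, mul_smul]

/-- the morphism out of a part of `O(n)` given by an element -/
noncomputable def Fac.homO {M' : Lattice δ.tiling φ'.N} (hM' : M'.Stable κ) (n : ℤ) (v : Ch)
    (y : φ'.N) (hy : ∀ w, v ≤ w → ∀ r ∈ Orl.Q.lat κ w n, r • y ∈ M'.M (w, false)) :
    Lattice.kmod (Lattice.cut_stable (φ.latO_stable n) v) ⟶ Lattice.kmod hM' :=
  (Fac.famO (φ := φ) n v y hy).khom hM' Fac.famO_isK

theorem Lattice.Fam.khom_congr {M : Lattice δ.tiling φ.N} {M' : Lattice δ.tiling φ'.N}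
    {hM : M.Stable κ} {hM' : M'.Stable κ} {g g' : M.Fam M'} {hg : g.IsK hM} {hg' : g'.IsK hM}
    (e : g = g') : g.khom hM' hg = g'.khom hM' hg' := by
  subst e
  rfl

/-- every morphism out of the part over the overlap is given by an element -/
theorem Fac.exists_homO {M' : Lattice δ.tiling φ'.N} {hM' : M'.Stable κ} {n : ℤ}
    (f : Lattice.kmod (Lattice.cut_stable (φ.latO_stable n) .mid) ⟶ Lattice.kmod hM') :
    ∃ (y : φ'.N) (hy : ∀ w, Ch.mid ≤ w → ∀ r ∈ Orl.Q.lat κ w n, r • y ∈ M'.M (w, false)),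
      Fac.homO (φ := φ) hM' n .mid y hy = f := by
  obtain ⟨g, hg, hf⟩ := Lattice.Fam.khom_surjective
    (hM := Lattice.cut_stable (φ.latO_stable n) .mid) (hM' := hM') f
  have h1 : ∀ r : κ[T;T⁻¹], φ.vec r 0 ∈ ((φ.latO n).cut .mid).M (.mid, false) := fun r =>
    Lattice.mem_cut.2 (Or.inl ⟨Ch.le_refl _, Fac.vec_mem_latO (mem_lat_mid r)⟩)
  have key : ∀ r : κ[T;T⁻¹], (g.f (.mid, false) ⟨φ.vec r 0, h1 r⟩).1 =
      r • (g.f (.mid, false) ⟨φ.vec 1 0, h1 1⟩).1 := by
    intro r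
    induction r using LaurentPolynomial.induction_on' with
    | add p q hp hq =>
      rw [add_smul, ← hp, ← hq]
      have e : (⟨φ.vec (p + q) 0, h1 (p + q)⟩ : ((φ.latO n).cut .mid).M (.mid, false)) =
          ⟨φ.vec p 0, h1 p⟩ + ⟨φ.vec q 0, h1 q⟩ := by
        refine Subtype.ext ?_
        show φ.vec (p + q) 0 = φ.vec p 0 + φ.vec q 0
        ext1
        · rfl
        · rw [Fac.add_snd]
          simp
      rw [e, map_add]
      rfl
    | C_mul_T m c =>
      have hx : (Fac.sc (T m) : δ.D) ∈ δ.tiling.L (.mid, false) (.mid, false) := by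
        rw [Dat.tiling_L, Dat.tile_ff (Ch.le_refl _)]
        exact ⟨mem_lat_mid _, rfl, rfl, rfl⟩
      have e1 := g.smul' hx ⟨φ.vec 1 0, h1 1⟩
      have e2 := hg (.mid, false) c ⟨(Fac.sc (T m) : δ.D) • φ.vec 1 0,
        ((φ.latO n).cut .mid).smul_mem hx (h1 1)⟩
      have e3 : (⟨φ.vec (C c * T m) 0, h1 _⟩ : ((φ.latO n).cut .mid).M (.mid, false)) =
          ⟨c • ((Fac.sc (T m) : δ.D) • φ.vec 1 0),
            Lattice.cut_stable (φ.latO_stable n) .mid (.mid, false) c _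
              (((φ.latO n).cut .mid).smul_mem hx (h1 1))⟩ := by
        refine Subtype.ext ?_
        show φ.vec (C c * T m) 0 = c • ((Fac.sc (T m) : δ.D) • φ.vec 1 0)
        rw [Fac.sc_T_smul, ← Fac.C_smul]
        ext1 <;> simp
      rw [e3]
      refine e2.trans ?_
      rw [mul_smul, Fac.C_smul, ← Fac.sc_T_smul]
      exact congrArg (fun z : φ'.N => c • z) e1
  have hmid : ∀ w, Ch.mid ≤ w → w = .mid := by
    rintro w (h | h)
    · exact h.symm
    · exact h
  refine ⟨(g.f (.mid, false) ⟨φ.vec 1 0, h1 1⟩).1, fun w hw r hr => ?_, ?_⟩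
  · obtain rfl := hmid w hw
    rw [← key r]
    exact (g.f (.mid, false) _).2
  · rw [← hf]
    have e : Fac.famO (φ := φ) n .mid (g.f (.mid, false) ⟨φ.vec 1 0, h1 1⟩).1
        (fun w hw r hr => by
          obtain rfl := hmid w hw
          rw [← key r]
          exact (g.f (.mid, false) _).2) = g := by
      refine Lattice.Fam.ext fun s x => ?_
      show x.1.1 • (g.f (.mid, false) ⟨φ.vec 1 0, h1 1⟩).1 = (g.f s x).1
      obtain ⟨x, hx⟩ := x
      have hx0 : x = 0 ∨ (s = (.mid, false) ∧ x.2 = 0) := by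
        rcases Lattice.mem_cut.1 hx with ⟨hv, hx⟩ | rfl
        · rcases Fac.mem_latO_iff.1 hx with ⟨h1, -, h3⟩ | rfl
          · exact Or.inr ⟨Prod.ext (hmid _ hv) h1, h3⟩
          · exact Or.inl rfl
        · exact Or.inl rfl
      rcases hx0 with rfl | ⟨rfl, h3⟩
      · have e0 : (⟨0, hx⟩ : ((φ.latO n).cut .mid).M s) = 0 := rfl
        rw [e0, map_zero]
        exact zero_smul _ _
      · have e0 : (⟨x, hx⟩ : ((φ.latO n).cut .mid).M (.mid, false)) = ⟨φ.vec x.1 0, h1 x.1⟩ :=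
          Subtype.ext (by
            ext1
            · rfl
            · exact h3)
        rw [e0]
        exact (key x.1).symm
    exact Lattice.Fam.khom_congr e

theorem Fac.homO_comp {M' : Lattice δ.tiling φ'.N} {hM' : M'.Stable κ} {n : ℤ} {v w : Ch}
    (hvw : v ≤ w) {y : φ'.N}
    {hy : ∀ w, v ≤ w → ∀ r ∈ Orl.Q.lat κ w n, r • y ∈ M'.M (w, false)} :
    Lattice.cutK (φ.latO_stable n) v w hvw ≫ Fac.homO (φ := φ) hM' n v y hy =
      Fac.homO (φ := φ) hM' n w y fun u hu => hy u (Ch.le_trans hvw hu) := by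
  apply ModObj.hom_ext
  rfl

theorem Fac.homO_sub {M' : Lattice δ.tiling φ'.N} {hM' : M'.Stable κ} {n : ℤ} {v : Ch}
    {y y0 y1 : φ'.N} {hy : ∀ w, v ≤ w → ∀ r ∈ Orl.Q.lat κ w n, r • y ∈ M'.M (w, false)}
    {hy0 : ∀ w, v ≤ w → ∀ r ∈ Orl.Q.lat κ w n, r • y0 ∈ M'.M (w, false)}
    {hy1 : ∀ w, v ≤ w → ∀ r ∈ Orl.Q.lat κ w n, r • y1 ∈ M'.M (w, false)} (e : y = y0 - y1) :
    Fac.homO (φ := φ) hM' n v y hy =
      Fac.homO (φ := φ) hM' n v y0 hy0 - Fac.homO (φ := φ) hM' n v y1 hy1 := by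
  apply ModObj.hom_ext
  apply ModuleCat.hom_ext
  refine LinearMap.ext fun x => funext fun s => Subtype.ext ?_
  have e1 : ∀ r : κ[T;T⁻¹], r • y = r • y0 - r • y1 := fun r => by rw [e, smul_sub]
  exact e1 (Subtype.val (show ((φ.latO n).cut v).M s from x s)).1

/-- maps over the overlap from `O(n)` into a lattice which is a pair of line bundles on the
structure sheaf side -/
theorem Fac.split_homO {M' : Lattice δ.tiling φ'.N} {hM' : M'.Stable κ} {n a b : ℤ}
    (ha : -1 ≤ a - n) (hb : -1 ≤ b - n) (h : ∀ v x, x.1 ∈ Orl.Q.lat κ v a →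
      x.2 ∈ Orl.Q.lat κ v b → x ∈ M'.M (v, false))
    (f : Lattice.kmod (Lattice.cut_stable (φ.latO_stable n) .mid) ⟶ Lattice.kmod hM') :
    ∃ (f0 : Lattice.kmod (Lattice.cut_stable (φ.latO_stable n) .zero) ⟶ Lattice.kmod hM')
      (f1 : Lattice.kmod (Lattice.cut_stable (φ.latO_stable n) .inf) ⟶ Lattice.kmod hM'),
      f = Lattice.cutK (φ.latO_stable n) .zero .mid (Ch.le_mid _) ≫ f0 -
        Lattice.cutK (φ.latO_stable n) .inf .mid (Ch.le_mid _) ≫ f1 := by
  obtain ⟨y, hy, rfl⟩ := Fac.exists_homO f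
  obtain ⟨s0, s1, h1, h2, h3⟩ := exists_split ha y.1
  obtain ⟨t0, t1, h4, h5, h6⟩ := exists_split hb y.2
  have key : ∀ v (p q : κ[T;T⁻¹]), p ∈ Orl.Q.lat κ v (a - n) → q ∈ Orl.Q.lat κ v (b - n) →
      ∀ w, v ≤ w → ∀ r ∈ Orl.Q.lat κ w n, r • φ'.vec p q ∈ M'.M (w, false) := by
    intro v p q hp hq w hvw r hr
    exact h w _ (lat_mul' hr (lat_mono hvw hp) (by ring)) (lat_mul' hr (lat_mono hvw hq) (by ring))
  refine ⟨Fac.homO hM' n .zero (φ'.vec s0 t0) (key .zero s0 t0 h1 h4),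
    Fac.homO hM' n .inf (φ'.vec s1 t1) (key .inf s1 t1 h2 h5), ?_⟩
  rw [Fac.homO_comp, Fac.homO_comp]
  refine Fac.homO_sub ?_
  have e : y = φ'.vec (s0 - s1) (t0 - t1) := by
    ext1
    · exact h3
    · exact h6
  refine e.trans ?_
  ext1
  · rfl
  · rfl

end

end Orl.Q
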