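import Mathlib

/-!
# Diagrams over the projective line with the quaternion order

`R` is a commutative ring, `a : R`, `q false, q true : R[X]` (the values of the quartic form `q`
on the two affine charts, coordinates `x` and `1 / x`). The places are `some false` (the chart with
coordinate `x`), `some true` (the chart with coordinate `1 / x`) and `none` (the overlap, with
coordinate `x`). An object of `Dia R a q` consists of `R`-modules `N p E` and `N p O` for the three
places `p` (also called `W_p` and `M_p`) with the operators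

* `X p c` (multiplication by the coordinate), bijective on the overlap,
* `I p, J p : N p E → N p E` with `I ^ 2 = a`, `J ^ 2 = q`, `I J = - J I`,
* `φ p : N p E → N p O`,
* `ρ v c : N (some v) c → N none c` (restriction to the overlap); `1 / x` restricts to `x⁻¹` and
  `J` over the chart `true` restricts to `x⁻² J`.
-/

open Polynomial

namespace Orl.Q

/-- The two kinds of vertices: `O` (the line bundle `O`) and `E` (the bundle `E`). -/
inductive Kd : Type
  | O
  | E
  deriving DecidableEq

instance : Fintype Kd := ⟨{Kd.O, Kd.E}, fun c => by cases c <;> simp⟩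

/-- The places: the chart `some false`, the chart `some true`, the overlap `none`. -/
abbrev Pl : Type := Option Bool

/-- The value of `q` at a place. -/
def qv {R : Type} [CommRing R] (q : Bool → R[X]) : Pl → R[X]
  | some v => q v
  | none => q false

@[simp] lemma qv_some {R : Type} [CommRing R] (q : Bool → R[X]) (v : Bool) :
    qv q (some v) = q v := rfl

@[simp] lemma qv_none {R : Type} [CommRing R] (q : Bool → R[X]) : qv q none = q false := rfl

/-- The diagrams. -/
structure Dia (R : Type) [CommRing R] (a : R) (q : Bool → R[X]) where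
  N : Pl → Kd → Type
  [acg : ∀ p c, AddCommGroup (N p c)]
  [mod : ∀ p c, Module R (N p c)]
  X : ∀ p c, N p c →ₗ[R] N p c
  I : ∀ p, N p .E →ₗ[R] N p .E
  J : ∀ p, N p .E →ₗ[R] N p .E
  φ : ∀ p, N p .E →ₗ[R] N p .O
  ρ : ∀ v c, N (some v) c →ₗ[R] N none c
  X_bij : ∀ c, Function.Bijective (X none c)
  I_X : ∀ p n, I p (X p .E n) = X p .E (I p n)
  J_X : ∀ p n, J p (X p .E n) = X p .E (J p n)
  φ_X : ∀ p n, φ p (X p .E n) = X p .O (φ p n)
  I_I : ∀ p n, I p (I p n) = a • n
  I_J : ∀ p n, I p (J p n) = - J p (I p n)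
  J_J : ∀ p n, J p (J p n) = aeval (X p .E) (qv q p) n
  ρ_X0 : ∀ c n, ρ false c (X (some false) c n) = X none c (ρ false c n)
  ρ_X1 : ∀ c n, X none c (ρ true c (X (some true) c n)) = ρ true c n
  ρ_I : ∀ v n, ρ v .E (I (some v) n) = I none (ρ v .E n)
  ρ_J0 : ∀ n, ρ false .E (J (some false) n) = J none (ρ false .E n)
  ρ_J1 : ∀ n, X none .E (X none .E (ρ true .E (J (some true) n))) = J none (ρ true .E n)
  ρ_φ : ∀ v n, ρ v .O (φ (some v) n) = φ none (ρ v .E n)

attribute [instance] Dia.acg Dia.mod

variable {R : Type} [CommRing R] {a : R} {q : Bool → R[X]}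

/-- The morphisms of diagrams: families of linear maps which commute with all operators. -/
structure Dia.Hom (D D' : Dia R a q) where
  f : ∀ p c, D.N p c →ₗ[R] D'.N p c
  f_X : ∀ p c n, f p c (D.X p c n) = D'.X p c (f p c n)
  f_I : ∀ p n, f p .E (D.I p n) = D'.I p (f p .E n)
  f_J : ∀ p n, f p .E (D.J p n) = D'.J p (f p .E n)
  f_φ : ∀ p n, f p .O (D.φ p n) = D'.φ p (f p .E n)
  f_ρ : ∀ v c n, f none c (D.ρ v c n) = D'.ρ v c (f (some v) c n)

namespace Dia.Hom

variable {D D' D'' : Dia R a q}

@[ext] lemma ext {f g : D.Hom D'} (h : ∀ p c n, f.f p c n = g.f p c n) : f = g := by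
  have : f.f = g.f := by
    funext p c
    exact LinearMap.ext (h p c)
  cases f
  cases g
  subst this
  rfl

/-- The identity. -/
@[simps] def id (D : Dia R a q) : D.Hom D where
  f _ _ := LinearMap.id
  f_X _ _ _ := rfl
  f_I _ _ := rfl
  f_J _ _ := rfl
  f_φ _ _ := rfl
  f_ρ _ _ _ := rfl

/-- The composition (first `f`, then `g`). -/
@[simps] def comp (f : D.Hom D') (g : D'.Hom D'') : D.Hom D'' where
  f p c := (g.f p c).comp (f.f p c)
  f_X p c n := by simp [f.f_X, g.f_X]
  f_I p n := by simp [f.f_I, g.f_I]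
  f_J p n := by simp [f.f_J, g.f_J]
  f_φ p n := by simp [f.f_φ, g.f_φ]
  f_ρ v c n := by simp [f.f_ρ, g.f_ρ]

instance : Zero (D.Hom D') where
  zero :=
    { f := fun p c => 0
      f_X := by simp
      f_I := by simp
      f_J := by simp
      f_φ := by simp
      f_ρ := by simp }

@[simp] lemma zero_f (p c) : (0 : D.Hom D').f p c = 0 := rfl

instance : Add (D.Hom D') where
  add g h :=
    { f := fun p c => g.f p c + h.f p c
      f_X := by simp [g.f_X, h.f_X]
      f_I := by simp [g.f_I, h.f_I]
      f_J := by simp [g.f_J, h.f_J]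
      f_φ := by simp [g.f_φ, h.f_φ]
      f_ρ := by simp [g.f_ρ, h.f_ρ] }

@[simp] lemma add_f (g h : D.Hom D') (p c) : (g + h).f p c = g.f p c + h.f p c := rfl

instance : Neg (D.Hom D') where
  neg g :=
    { f := fun p c => - g.f p c
      f_X := by simp [g.f_X]
      f_I := by simp [g.f_I]
      f_J := by simp [g.f_J]
      f_φ := by simp [g.f_φ]
      f_ρ := by simp [g.f_ρ] }

@[simp] lemma neg_f (g : D.Hom D') (p c) : (-g).f p c = - g.f p c := rfl

instance : Sub (D.Hom D') where
  sub g h :=
    { f := fun p c => g.f p c - h.f p c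
      f_X := by simp [g.f_X, h.f_X]
      f_I := by simp [g.f_I, h.f_I]
      f_J := by simp [g.f_J, h.f_J]
      f_φ := by simp [g.f_φ, h.f_φ]
      f_ρ := by simp [g.f_ρ, h.f_ρ] }

@[simp] lemma sub_f (g h : D.Hom D') (p c) : (g - h).f p c = g.f p c - h.f p c := rfl

instance : SMul R (D.Hom D') where
  smul r g :=
    { f := fun p c => r • g.f p c
      f_X := by simp [g.f_X]
      f_I := by simp [g.f_I]
      f_J := by simp [g.f_J]
      f_φ := by simp [g.f_φ]
      f_ρ := by simp [g.f_ρ] }

@[simp] lemma smul_f (r : R) (g : D.Hom D') (p c) : (r • g).f p c = r • g.f p c := rfl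

lemma f_injective : Function.Injective (fun (g : D.Hom D') => g.f) := by
  intro g h e
  have e' : g.f = h.f := e
  exact ext fun p c n => by rw [e']

instance : AddCommGroup (D.Hom D') where
  add_assoc _ _ _ := ext fun _ _ _ => add_assoc _ _ _
  zero_add _ := ext fun _ _ _ => zero_add _
  add_zero _ := ext fun _ _ _ => add_zero _
  add_comm _ _ := ext fun _ _ _ => add_comm _ _
  neg_add_cancel _ := ext fun _ _ _ => neg_add_cancel _
  sub_eq_add_neg _ _ := ext fun _ _ _ => sub_eq_add_neg _ _
  nsmul := nsmulRec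
  zsmul := zsmulRec

instance : Module R (D.Hom D') where
  one_smul _ := ext fun _ _ _ => one_smul _ _
  mul_smul _ _ _ := ext fun _ _ _ => mul_smul _ _ _
  smul_zero _ := ext fun _ _ _ => smul_zero _
  smul_add _ _ _ := ext fun _ _ _ => smul_add _ _ _
  add_smul _ _ _ := ext fun _ _ _ => add_smul _ _ _
  zero_smul _ := ext fun _ _ _ => zero_smul _ _

end Dia.Hom

end Orl.Q
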