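import Pool.Agent.Work.MP_a6e60d_ag.Q.IndTot
import Pool.Agent.Work.MP_a6e60d_ag.BC.Quad

/-!
MP_a6e60d_ag, Q6: division objects over an intermediate field.
-/

open CategoryTheory CategoryTheory.Abelian CategoryTheory.Limits Module

set_option linter.unusedSectionVars false

attribute [-instance] CategoryTheory.catToReflQuiver

namespace Orl.Q

open Orl.LF Orl.Gal

universe w v' u'

attribute [local instance] Abelian.hasFiniteBiproducts

variable {k : Type*} [Field k] {F : Type*} {K : Type w} [Field F] [Field K] [Algebra k F]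
  [Algebra k K] [Algebra F K] [IsScalarTower k F K]
variable {C : Type u'} [Category.{v'} C] [Abelian C] [Linear k C] [FiniteDimensional F K]

section

variable {X : ModObj k F C} (hne : ¬ IsZero X)
  (hX : ∀ f : X ⟶ X, ∃ x : F, ModObj.homPt f = X.act x)

include hX

theorem eq_smul_id (f : X ⟶ X) : ∃ x : F, f = x • 𝟙 X := by
  obtain ⟨x, hx⟩ := hX f
  refine ⟨x, ModObj.hom_ext ?_⟩
  rw [hx, ModObj.homPt_smul_id]

theorem isIso_of_scalar (f : X ⟶ X) (hf : f ≠ 0) : IsIso f := by
  obtain ⟨x, rfl⟩ := eq_smul_id hX f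
  have hx : x ≠ 0 := by
    rintro rfl
    exact hf (zero_smul _ _)
  refine ⟨⟨x⁻¹ • 𝟙 X, ?_, ?_⟩⟩
  · rw [Linear.smul_comp, Linear.comp_smul, smul_smul, mul_inv_cancel₀ hx, one_smul,
      Category.comp_id]
  · rw [Linear.smul_comp, Linear.comp_smul, smul_smul, inv_mul_cancel₀ hx, one_smul,
      Category.comp_id]

include hne

theorem finrank_of_scalar : finrank F (X ⟶ X) = 1 := by
  refine finrank_eq_one (𝟙 X) (fun h => hne ((IsZero.iff_id_eq_zero X).2 h)) fun f => ?_
  obtain ⟨x, rfl⟩ := eq_smul_id hX f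
  exact ⟨x, rfl⟩

end

section

variable (N : ModObj k K C) (hne : ¬ IsZero N.pt)
  (hN : ∀ f : (resE k F K C).obj N ⟶ (resE k F K C).obj N,
    ∃ x : K, ModObj.homPt f = N.act x)

/-- scalars of `K` as endomorphisms of the restriction, `F`-linearly -/
noncomputable def actLin : K →ₗ[F] ((resE k F K C).obj N ⟶ (resE k F K C).obj N) where
  toFun x := actEnd N x
  map_add' x y := ModObj.hom_ext (ModObj.act_add N x y)
  map_smul' e x := ModObj.hom_ext (by
    change N.act (e • x) = N.act (algebraMap F K e) ≫ N.act x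
    rw [Algebra.smul_def, ModObj.act_mul])

include hN in
theorem isIso_of_scalarK (f : (resE k F K C).obj N ⟶ (resE k F K C).obj N) (hf : f ≠ 0) :
    IsIso f := by
  obtain ⟨x, hx⟩ := hN f
  obtain rfl : f = actEnd N x := ModObj.hom_ext hx
  have hx0 : x ≠ 0 := by
    rintro rfl
    exact hf (ModObj.hom_ext (ModObj.act_zero N))
  refine ⟨⟨actEnd N x⁻¹, ModObj.hom_ext ?_, ModObj.hom_ext ?_⟩⟩
  · change N.act x ≫ N.act x⁻¹ = 𝟙 _
    rw [← ModObj.act_mul, mul_inv_cancel₀ hx0, ModObj.act_one]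
  · change N.act x⁻¹ ≫ N.act x = 𝟙 _
    rw [← ModObj.act_mul, inv_mul_cancel₀ hx0, ModObj.act_one]

include hne hN in
theorem finrank_of_scalarK :
    finrank F ((resE k F K C).obj N ⟶ (resE k F K C).obj N) = finrank F K := by
  refine (LinearEquiv.ofBijective (actLin (F := F) N) ⟨?_, ?_⟩).finrank_eq.symm
  · rw [injective_iff_map_eq_zero]
    intro x hx
    by_contra hx0
    have h1 : N.act x = 0 := congrArg ModObj.homPt hx
    apply hne
    rw [IsZero.iff_id_eq_zero, ← ModObj.act_one, ← mul_inv_cancel₀ hx0, ModObj.act_mul, h1,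
      zero_comp]
  · intro f
    obtain ⟨x, hx⟩ := hN f
    exact ⟨x, ModObj.hom_ext hx.symm⟩

end

end Orl.Q
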