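import Mathlib

/-!
MP_a6e60d_ag, Q3: squares `0 → N → M₁ ⊞ M₂ → M → 0` are short exact if this can be checked on
elements, after an additive functor to modules which reflects short exact sequences.
-/

set_option autoImplicit false

open CategoryTheory Category Limits

attribute [-instance] CategoryTheory.catToReflQuiver

namespace Orl.Q

universe v u w w'

/-- Elementwise criterion for a short exact sequence in a category of modules. -/
theorem shortExact_of_elements {R : Type w} [Ring R] (S : ShortComplex (ModuleCat.{w'} R))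
    (h1 : ∀ x : S.X₁, S.f x = 0 → x = 0) (h2 : ∀ y : S.X₂, S.g y = 0 → ∃ x : S.X₁, S.f x = y)
    (h3 : ∀ z : S.X₃, ∃ y : S.X₂, S.g y = z) : S.ShortExact := by
  have hm : Mono S.f := by
    rw [ModuleCat.mono_iff_injective, injective_iff_map_eq_zero]
    exact h1
  have he : Epi S.g := by
    rw [ModuleCat.epi_iff_surjective]
    exact h3
  refine { exact := ?_ }
  rw [ShortComplex.moduleCat_exact_iff]
  exact h2

variable {A : Type u} [Category.{v} A] [Abelian A]

/-- Elementwise criterion for squares. -/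
theorem square_shortExact {R : Type w} [Ring R] (F : A ⥤ ModuleCat.{w'} R) [F.Additive]
    (hF : ∀ S : ShortComplex A, (S.map F).ShortExact → S.ShortExact)
    {N M₁ M₂ M : A} (a₁ : N ⟶ M₁) (a₂ : N ⟶ M₂) (b₁ : M₁ ⟶ M) (b₂ : M₂ ⟶ M)
    (w : a₁ ≫ b₁ + a₂ ≫ b₂ = 0)
    (h1 : ∀ n : F.obj N, F.map a₁ n = 0 → F.map a₂ n = 0 → n = 0)
    (h2 : ∀ (m₁ : F.obj M₁) (m₂ : F.obj M₂), F.map b₁ m₁ + F.map b₂ m₂ = 0 →
      ∃ n : F.obj N, F.map a₁ n = m₁ ∧ F.map a₂ n = m₂)
    (h3 : ∀ m : F.obj M, ∃ (m₁ : F.obj M₁) (m₂ : F.obj M₂), F.map b₁ m₁ + F.map b₂ m₂ = m) :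
    (ShortComplex.mk (biprod.lift a₁ a₂) (biprod.desc b₁ b₂)
      (by rw [biprod.lift_desc, w])).ShortExact := by
  have key1 : ∀ x : F.obj N, F.map (biprod.lift a₁ a₂) x = 0 → x = 0 := by
    intro x hx
    have e1 : F.map a₁ x = F.map biprod.fst (F.map (biprod.lift a₁ a₂) x) := by
      rw [← ModuleCat.comp_apply, ← F.map_comp, biprod.lift_fst]
    have e2 : F.map a₂ x = F.map biprod.snd (F.map (biprod.lift a₁ a₂) x) := by
      rw [← ModuleCat.comp_apply, ← F.map_comp, biprod.lift_snd]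
    exact h1 x (by rw [e1, hx, map_zero]) (by rw [e2, hx, map_zero])
  have key2 : ∀ y : F.obj (M₁ ⊞ M₂), F.map (biprod.desc b₁ b₂) y = 0 →
      ∃ x : F.obj N, F.map (biprod.lift a₁ a₂) x = y := by
    intro y hy
    have e0 : F.map (biprod.desc b₁ b₂) y =
        F.map b₁ (F.map biprod.fst y) + F.map b₂ (F.map biprod.snd y) := by
      have : biprod.desc b₁ b₂ = biprod.fst ≫ b₁ + biprod.snd ≫ b₂ := by
        apply biprod.hom_ext' <;> simp
      rw [this, F.map_add, F.map_comp, F.map_comp]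
      rfl
    rw [e0] at hy
    obtain ⟨n, hn1, hn2⟩ := h2 _ _ hy
    refine ⟨n, ?_⟩
    have e3 : F.map (biprod.lift a₁ a₂) n =
        F.map biprod.inl (F.map a₁ n) + F.map biprod.inr (F.map a₂ n) := by
      have : biprod.lift a₁ a₂ = a₁ ≫ biprod.inl + a₂ ≫ biprod.inr := by
        apply biprod.hom_ext <;> simp
      rw [this, F.map_add, F.map_comp, F.map_comp]
      rfl
    have e4 : y = F.map (biprod.inl : M₁ ⟶ M₁ ⊞ M₂) (F.map biprod.fst y) +
        F.map (biprod.inr : M₂ ⟶ M₁ ⊞ M₂) (F.map biprod.snd y) := by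
      have : 𝟙 (M₁ ⊞ M₂) = biprod.fst ≫ biprod.inl + biprod.snd ≫ biprod.inr := biprod.total.symm
      have h5 : F.map (𝟙 (M₁ ⊞ M₂)) y = y := by rw [F.map_id]; rfl
      rw [this, F.map_add, F.map_comp, F.map_comp] at h5
      exact h5.symm
    rw [e3, hn1, hn2, ← e4]
  have key3 : ∀ z : F.obj M, ∃ y : F.obj (M₁ ⊞ M₂), F.map (biprod.desc b₁ b₂) y = z := by
    intro z
    obtain ⟨m₁, m₂, h⟩ := h3 z
    refine ⟨F.map biprod.inl m₁ + F.map biprod.inr m₂, ?_⟩
    rw [map_add, ← ModuleCat.comp_apply, ← ModuleCat.comp_apply, ← F.map_comp, ← F.map_comp,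
      biprod.inl_desc, biprod.inr_desc, h]
  exact hF _ (shortExact_of_elements _ key1 key2 key3)

end Orl.Q
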