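import Pool.Agent.Work.MP_a6e60d_ag.Q.Obj
import Pool.Agent.Work.MP_a6e60d_ag.Q.Bez
import Pool.Agent.Work.MP_a6e60d_ag.Q.Sq
import Pool.Agent.Work.MP_a6e60d_ag.Q.Gen

/-!
MP_a6e60d_ag, Q3: maps of tiled modules, the maps `M_{g,h}(n) → M_{g',h'}(n')` given by pairs of
sections, and the squares between them.
-/

open CategoryTheory Limits LaurentPolynomial Quaternion Orl.LF

set_option linter.unusedSectionVars false
set_option autoImplicit false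

attribute [-instance] CategoryTheory.catToReflQuiver

namespace Orl.Q

/-! ### Maps of tiled modules -/

section hom

variable {k D V : Type} [Field k] [Ring D] [Algebra k D] [Fintype V] [DecidableEq V]
variable {T : Tiling k D V}
variable {N : Type} [AddCommGroup N] [Module k N] [Module D N] [IsScalarTower k D N]
variable {N' : Type} [AddCommGroup N'] [Module k N'] [Module D N'] [IsScalarTower k D N']
variable {N'' : Type} [AddCommGroup N''] [Module k N''] [Module D N''] [IsScalarTower k D N'']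

/-- The map of tiled modules given by a `D`-linear map preserving the subspaces. -/
def Lattice.homL {M : Lattice T N} {M' : Lattice T N'} (f : N →ₗ[D] N')
    (hf : ∀ s, ∀ x ∈ M.M s, f x ∈ M'.M s) : M.El →ₗ[T.Alg] M'.El where
  toFun x s := ⟨f (x s).1, hf s _ (x s).2⟩
  map_add' x y := by
    ext s
    exact map_add f _ _
  map_smul' A x := by
    ext s
    have h : f (∑ t, A.1 s t • (x t).1) = ∑ t, A.1 s t • f (x t).1 := by
      rw [map_sum]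
      exact Finset.sum_congr rfl fun t _ => map_smul f _ _
    exact h

@[simp] theorem Lattice.homL_apply {M : Lattice T N} {M' : Lattice T N'} (f : N →ₗ[D] N')
    (hf : ∀ s, ∀ x ∈ M.M s, f x ∈ M'.M s) (x : M.El) (s : V) :
    (Lattice.homL f hf x s).1 = f (x s).1 := rfl

variable {κ : Type} [Field κ] [Algebra k κ] [Module κ N] [IsScalarTower k κ N]
  [SMulCommClass κ D N] [Module κ N'] [IsScalarTower k κ N'] [SMulCommClass κ D N']
  [Module κ N''] [IsScalarTower k κ N''] [SMulCommClass κ D N'']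

/-- The map of module objects given by a `D`-linear and `κ`-linear map preserving the
subspaces. -/
noncomputable def Lattice.khom {M : Lattice T N} {M' : Lattice T N'} {hM : M.Stable κ}
    {hM' : M'.Stable κ} (f : N →ₗ[D] N') (hf : ∀ s, ∀ x ∈ M.M s, f x ∈ M'.M s)
    (hκ : ∀ (c : κ) (x : N), f (c • x) = c • f x) : Lattice.kmod hM ⟶ Lattice.kmod hM' :=
  ModObj.homMk (ModuleCat.ofHom (Lattice.homL f hf)) (fun c => by
    apply ModuleCat.hom_ext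
    refine LinearMap.ext fun x => Lattice.El.ext' (M := M') fun s => ?_
    exact hκ c ((x : M.El) s).1)

theorem Lattice.khom_apply {M : Lattice T N} {M' : Lattice T N'} {hM : M.Stable κ}
    {hM' : M'.Stable κ} (f : N →ₗ[D] N') (hf : ∀ s, ∀ x ∈ M.M s, f x ∈ M'.M s)
    (hκ : ∀ (c : κ) (x : N), f (c • x) = c • f x) (x : M.El) (s : V) :
    ((ModuleCat.Hom.hom (ModObj.homPt (Lattice.khom (hM := hM) (hM' := hM') f hf hκ)) x :
      M'.El) s).1 = f (x s).1 := rfl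

theorem Lattice.khom_ext {M : Lattice T N} {M' : Lattice T N'} {hM : M.Stable κ}
    {hM' : M'.Stable κ} {f g : Lattice.kmod hM ⟶ Lattice.kmod hM'}
    (h : ∀ (x : M.El) (s : V), ((ModuleCat.Hom.hom (ModObj.homPt f) x : M'.El) s).1 =
      ((ModuleCat.Hom.hom (ModObj.homPt g) x : M'.El) s).1) : f = g := by
  apply ModObj.hom_ext
  apply ModuleCat.hom_ext
  apply LinearMap.ext
  intro x
  exact Lattice.El.ext' (h x)

theorem Lattice.khom_comp {M : Lattice T N} {M' : Lattice T N'} {M'' : Lattice T N''}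
    {hM : M.Stable κ} {hM' : M'.Stable κ} {hM'' : M''.Stable κ}
    (f : N →ₗ[D] N') (hf : ∀ s, ∀ x ∈ M.M s, f x ∈ M'.M s)
    (hκ : ∀ (c : κ) (x : N), f (c • x) = c • f x)
    (g : N' →ₗ[D] N'') (hg : ∀ s, ∀ x ∈ M'.M s, g x ∈ M''.M s)
    (hκ' : ∀ (c : κ) (x : N'), g (c • x) = c • g x) :
    Lattice.khom (hM := hM) (hM' := hM') f hf hκ ≫ Lattice.khom (hM' := hM'') g hg hκ' =
      Lattice.khom (g.comp f) (fun s x hx => hg s _ (hf s x hx)) (fun c x => by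
        rw [LinearMap.comp_apply, LinearMap.comp_apply, hκ, hκ']) := rfl

/-- The functor to modules over the tiled algebra reflects short exact sequences. -/
theorem shortExact_of_pt {S : ShortComplex (ModObj k κ (ModuleCat.{0} T.Alg))}
    (h : (S.map (ev (SingleObj.star κ))).ShortExact) : S.ShortExact :=
  (shortExact_iff S).2 fun _ => h

/-- **Squares of tiled modules**: a square given by maps of lattices is short exact if it is so at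
every vertex. -/
theorem Lattice.square_shortExact {N₀ N₁ N₂ N₃ : Type}
    [AddCommGroup N₀] [Module k N₀] [Module D N₀] [IsScalarTower k D N₀] [Module κ N₀]
    [IsScalarTower k κ N₀] [SMulCommClass κ D N₀]
    [AddCommGroup N₁] [Module k N₁] [Module D N₁] [IsScalarTower k D N₁] [Module κ N₁]
    [IsScalarTower k κ N₁] [SMulCommClass κ D N₁]
    [AddCommGroup N₂] [Module k N₂] [Module D N₂] [IsScalarTower k D N₂] [Module κ N₂]
    [IsScalarTower k κ N₂] [SMulCommClass κ D N₂]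
    [AddCommGroup N₃] [Module k N₃] [Module D N₃] [IsScalarTower k D N₃] [Module κ N₃]
    [IsScalarTower k κ N₃] [SMulCommClass κ D N₃]
    {M₀ : Lattice T N₀} {M₁ : Lattice T N₁} {M₂ : Lattice T N₂} {M₃ : Lattice T N₃}
    {h₀ : M₀.Stable κ} {h₁ : M₁.Stable κ} {h₂ : M₂.Stable κ} {h₃ : M₃.Stable κ}
    (a₁ : N₀ →ₗ[D] N₁) (ha₁ : ∀ s, ∀ x ∈ M₀.M s, a₁ x ∈ M₁.M s)
    (ka₁ : ∀ (c : κ) (x : N₀), a₁ (c • x) = c • a₁ x)
    (a₂ : N₀ →ₗ[D] N₂) (ha₂ : ∀ s, ∀ x ∈ M₀.M s, a₂ x ∈ M₂.M s)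
    (ka₂ : ∀ (c : κ) (x : N₀), a₂ (c • x) = c • a₂ x)
    (b₁ : N₁ →ₗ[D] N₃) (hb₁ : ∀ s, ∀ x ∈ M₁.M s, b₁ x ∈ M₃.M s)
    (kb₁ : ∀ (c : κ) (x : N₁), b₁ (c • x) = c • b₁ x)
    (b₂ : N₂ →ₗ[D] N₃) (hb₂ : ∀ s, ∀ x ∈ M₂.M s, b₂ x ∈ M₃.M s)
    (kb₂ : ∀ (c : κ) (x : N₂), b₂ (c • x) = c • b₂ x)
    (hz : ∀ x : N₀, b₁ (a₁ x) + b₂ (a₂ x) = 0)
    (inj : ∀ s, ∀ x ∈ M₀.M s, a₁ x = 0 → a₂ x = 0 → x = 0)
    (mid : ∀ s, ∀ x ∈ M₁.M s, ∀ y ∈ M₂.M s, b₁ x + b₂ y = 0 →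
      ∃ z ∈ M₀.M s, a₁ z = x ∧ a₂ z = y)
    (surj : ∀ s, ∀ z ∈ M₃.M s, ∃ x ∈ M₁.M s, ∃ y ∈ M₂.M s, b₁ x + b₂ y = z) :
    ∃ w, (ShortComplex.mk
      (biprod.lift (Lattice.khom (hM := h₀) (hM' := h₁) a₁ ha₁ ka₁)
        (Lattice.khom (hM := h₀) (hM' := h₂) a₂ ha₂ ka₂))
      (biprod.desc (Lattice.khom (hM := h₁) (hM' := h₃) b₁ hb₁ kb₁)
        (Lattice.khom (hM := h₂) (hM' := h₃) b₂ hb₂ kb₂)) w).ShortExact := by
  refine ⟨_, Orl.Q.square_shortExact (ev (SingleObj.star κ)) (fun S hS => shortExact_of_pt hS)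
    (Lattice.khom a₁ ha₁ ka₁) (Lattice.khom a₂ ha₂ ka₂) (Lattice.khom b₁ hb₁ kb₁)
    (Lattice.khom b₂ hb₂ kb₂) ?_ ?_ ?_ ?_⟩
  · refine Lattice.khom_ext fun x s => ?_
    exact hz (x s).1
  · intro n h1 h2
    refine Lattice.El.ext' fun s => ?_
    refine inj s _ ((n : M₀.El) s).2 ?_ ?_
    · exact congrArg (fun y : M₁.El => (y s).1) h1
    · exact congrArg (fun y : M₂.El => (y s).1) h2
  · intro m₁ m₂ h
    have h' : ∀ s, b₁ ((m₁ : M₁.El) s).1 + b₂ ((m₂ : M₂.El) s).1 = 0 := fun s =>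
      congrArg (fun y : M₃.El => (y s).1) h
    choose z hz1 hz2 hz3 using fun s => mid s _ ((m₁ : M₁.El) s).2 _ ((m₂ : M₂.El) s).2 (h' s)
    refine ⟨(fun s => ⟨z s, hz1 s⟩ : M₀.El), ?_, ?_⟩
    · exact Lattice.El.ext' (M := M₁) fun s => hz2 s
    · exact Lattice.El.ext' (M := M₂) fun s => hz3 s
  · intro m
    choose x hx y hy hxy using fun s => surj s _ ((m : M₃.El) s).2
    refine ⟨(fun s => ⟨x s, hx s⟩ : M₁.El), (fun s => ⟨y s, hy s⟩ : M₂.El), ?_⟩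
    exact Lattice.El.ext' (M := M₃) fun s => hxy s

/-- The same without naming the maps. -/
theorem Lattice.square {N₀ N₁ N₂ N₃ : Type}
    [AddCommGroup N₀] [Module k N₀] [Module D N₀] [IsScalarTower k D N₀] [Module κ N₀]
    [IsScalarTower k κ N₀] [SMulCommClass κ D N₀]
    [AddCommGroup N₁] [Module k N₁] [Module D N₁] [IsScalarTower k D N₁] [Module κ N₁]
    [IsScalarTower k κ N₁] [SMulCommClass κ D N₁]
    [AddCommGroup N₂] [Module k N₂] [Module D N₂] [IsScalarTower k D N₂] [Module κ N₂]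
    [IsScalarTower k κ N₂] [SMulCommClass κ D N₂]
    [AddCommGroup N₃] [Module k N₃] [Module D N₃] [IsScalarTower k D N₃] [Module κ N₃]
    [IsScalarTower k κ N₃] [SMulCommClass κ D N₃]
    {M₀ : Lattice T N₀} {M₁ : Lattice T N₁} {M₂ : Lattice T N₂} {M₃ : Lattice T N₃}
    {h₀ : M₀.Stable κ} {h₁ : M₁.Stable κ} {h₂ : M₂.Stable κ} {h₃ : M₃.Stable κ}
    (a₁ : N₀ →ₗ[D] N₁) (ha₁ : ∀ s, ∀ x ∈ M₀.M s, a₁ x ∈ M₁.M s)
    (ka₁ : ∀ (c : κ) (x : N₀), a₁ (c • x) = c • a₁ x)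
    (a₂ : N₀ →ₗ[D] N₂) (ha₂ : ∀ s, ∀ x ∈ M₀.M s, a₂ x ∈ M₂.M s)
    (ka₂ : ∀ (c : κ) (x : N₀), a₂ (c • x) = c • a₂ x)
    (b₁ : N₁ →ₗ[D] N₃) (hb₁ : ∀ s, ∀ x ∈ M₁.M s, b₁ x ∈ M₃.M s)
    (kb₁ : ∀ (c : κ) (x : N₁), b₁ (c • x) = c • b₁ x)
    (b₂ : N₂ →ₗ[D] N₃) (hb₂ : ∀ s, ∀ x ∈ M₂.M s, b₂ x ∈ M₃.M s)
    (kb₂ : ∀ (c : κ) (x : N₂), b₂ (c • x) = c • b₂ x)
    (hz : ∀ x : N₀, b₁ (a₁ x) + b₂ (a₂ x) = 0)
    (inj : ∀ s, ∀ x ∈ M₀.M s, a₁ x = 0 → a₂ x = 0 → x = 0)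
    (mid : ∀ s, ∀ x ∈ M₁.M s, ∀ y ∈ M₂.M s, b₁ x + b₂ y = 0 →
      ∃ z ∈ M₀.M s, a₁ z = x ∧ a₂ z = y)
    (surj : ∀ s, ∀ z ∈ M₃.M s, ∃ x ∈ M₁.M s, ∃ y ∈ M₂.M s, b₁ x + b₂ y = z) :
    Sq (Lattice.kmod h₀) (Lattice.kmod h₁) (Lattice.kmod h₂) (Lattice.kmod h₃) := by
  obtain ⟨w, h⟩ := Lattice.square_shortExact (h₀ := h₀) (h₁ := h₁) (h₂ := h₂) (h₃ := h₃)
    a₁ ha₁ ka₁ a₂ ha₂ ka₂ b₁ hb₁ kb₁ b₂ hb₂ kb₂ hz inj mid surj
  exact Sq.mk h

end hom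

end Orl.Q
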