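import Pool.Agent.Work.MP_a6e60d_ag.Q.Pair

/-!
# The maps between the rank one modules and the lattices

* `Fac.unl`, `Fac.unr`: the factorisations `1 * q` and `q * 1` and the local retraction of a
  factorisation with coprime factors onto their sum;
* `Lk`: a coprime pair map; all pair maps are its multiples;
* `facI`: the factorisations given by the sets of roots.
-/

open LaurentPolynomial Quaternion

set_option linter.unusedSectionVars false

namespace Orl.Q

variable {k : Type} [Field k] {δ : Dat k} {κ : Type} [Field κ] [Algebra k κ]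

/-- the map preserves the lattices of the twists `n` and `n'` over the chart `v` -/
def PairMap.Pres {φ φ' : Fac δ κ} (p : PairMap φ φ') (v : Ch) (n n' : ℤ) : Prop :=
  (∀ r ∈ lat κ v n, p.x * r ∈ lat κ v n') ∧
    ∀ r ∈ lat κ v (n + φ.e - 2), p.y * r ∈ lat κ v (n' + φ'.e - 2)

namespace PairMap

variable {φ φ' φ'' : Fac δ κ}

theorem pres_iff {p : PairMap φ φ'} {v : Ch} {n n' : ℤ} : p.Pres v n n' ↔
    p.x ∈ lat κ v (n' - n) ∧ p.y ∈ lat κ v (n' - n + (φ'.e - φ.e)) := by
  constructor
  · rintro ⟨h1, h2⟩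
    have h3 := h1 _ (gen_mem v n)
    have h4 := h2 _ (gen_mem v (n + φ.e - 2))
    rw [mul_comm] at h3 h4
    exact ⟨(gen_mul_mem (by ring)).1 h3, (gen_mul_mem (by ring)).1 h4⟩
  · rintro ⟨h1, h2⟩
    exact ⟨fun r hr => lat_mul' h1 hr (by ring), fun r hr => lat_mul' h2 hr (by ring)⟩

theorem Pres.mono {p : PairMap φ φ'} {v w : Ch} {n n' : ℤ} (h : p.Pres v n n') (hvw : v ≤ w) :
    p.Pres w n n' := by
  rw [pres_iff] at h ⊢
  exact ⟨lat_mono hvw h.1, lat_mono hvw h.2⟩

theorem Pres.comp {p : PairMap φ φ'} {p' : PairMap φ' φ''} {v : Ch} {n n' n'' : ℤ}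
    (h : p.Pres v n n') (h' : p'.Pres v n' n'') : (p.comp p').Pres v n n'' :=
  ⟨fun r hr => by
    show p'.x * p.x * r ∈ _
    rw [mul_assoc]
    exact h'.1 _ (h.1 r hr), fun r hr => by
    show p'.y * p.y * r ∈ _
    rw [mul_assoc]
    exact h'.2 _ (h.2 r hr)⟩

/-- the map on the lattice -/
theorem Pres.lin_mem {p : PairMap φ φ'} {v : Ch} {n n' : ℤ} (h : p.Pres v n n')
    (hs : φ'.s = φ.s) {x : φ.N} (hx : x ∈ φ.pair v n (n + φ.e - 2)) :
    p.lin hs x ∈ φ'.pair v n' (n' + φ'.e - 2) := ⟨h.1 _ hx.1, h.2 _ hx.2⟩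

theorem pres_of_lin_mem {p : PairMap φ φ'} {v : Ch} {n n' : ℤ} (hs : φ'.s = φ.s)
    (h : ∀ x ∈ φ.pair v n (n + φ.e - 2), p.lin hs x ∈ φ'.pair v n' (n' + φ'.e - 2)) :
    p.Pres v n n' :=
  ⟨fun r hr => (h (φ.vec r 0) ⟨hr, Submodule.zero_mem _⟩).1,
    fun r hr => (h (φ.vec 0 r) ⟨Submodule.zero_mem _, hr⟩).2⟩

end PairMap

/-! ### The two trivial factorisations -/

namespace Fac

variable (φ : Fac δ κ)

/-- the factorisation `1 * q` -/
noncomputable def unl : Fac δ κ where
  s := φ.s
  hs := φ.hs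
  e := 0
  g := 1
  h := bc κ δ.q
  hg v := one_mem_lat v
  hh v := bc_mem_lat κ (δ.hq v)
  gh := one_mul _

/-- the factorisation `q * 1` -/
noncomputable def unr : Fac δ κ where
  s := φ.s
  hs := φ.hs
  e := 4
  g := bc κ δ.q
  h := 1
  hg v := bc_mem_lat κ (δ.hq v)
  hh v := one_mem_lat v
  gh := mul_one _

@[simp] theorem unl_s : φ.unl.s = φ.s := rfl

@[simp] theorem unr_s : φ.unr.s = φ.s := rfl

@[simp] theorem unl_e : φ.unl.e = 0 := rfl

@[simp] theorem unr_e : φ.unr.e = 4 := rfl

/-- the map from the first trivial factorisation -/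
noncomputable def inl : PairMap φ.unl φ where
  x := 1
  y := φ.g
  hg := by show φ.g * 1 = φ.g * 1; rfl
  hh := by
    show φ.h * φ.g = 1 * bc κ δ.q
    rw [one_mul, mul_comm, φ.gh]

/-- the map to the first trivial factorisation -/
noncomputable def prl : PairMap φ φ.unl where
  x := φ.g
  y := 1
  hg := by show 1 * φ.g = 1 * φ.g; rfl
  hh := by
    show bc κ δ.q * 1 = φ.g * φ.h
    rw [mul_one, φ.gh]

/-- the map from the second trivial factorisation -/
noncomputable def inr : PairMap φ.unr φ where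
  x := φ.h
  y := 1
  hg := by
    show φ.g * φ.h = 1 * bc κ δ.q
    rw [one_mul, φ.gh]
  hh := by show φ.h * 1 = φ.h * 1; rfl

/-- the map to the second trivial factorisation -/
noncomputable def prr : PairMap φ φ.unr where
  x := 1
  y := φ.h
  hg := by
    show bc κ δ.q * 1 = φ.h * φ.g
    rw [mul_one, mul_comm, φ.gh]
  hh := by show 1 * φ.h = 1 * φ.h; rfl

theorem inl_pres (v : Ch) (n : ℤ) : φ.inl.Pres v n n := by
  rw [PairMap.pres_iff]
  refine ⟨?_, ?_⟩
  · rw [sub_self]
    exact one_mem_lat v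
  · rw [sub_self, zero_add, unl_e, sub_zero]
    exact φ.hg v

theorem inr_pres (v : Ch) (n : ℤ) : φ.inr.Pres v (n + φ.e - 4) n := by
  rw [PairMap.pres_iff]
  refine ⟨?_, ?_⟩
  · rw [show n - (n + φ.e - 4) = 4 - φ.e by ring]
    exact φ.hh v
  · rw [show n - (n + φ.e - 4) + (φ.e - φ.unr.e) = 0 by rw [unr_e]; ring]
    exact one_mem_lat v

theorem prl_pres {v : Ch} {u : κ[T;T⁻¹]} (hu : u ∈ Orl.Q.lat κ v (-φ.e)) (n : ℤ) :
    (φ.prl.smul u).Pres v n n := by
  rw [PairMap.pres_iff]
  refine ⟨?_, ?_⟩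
  · exact lat_mul' hu (φ.hg v) (by ring)
  · exact lat_mul' hu (one_mem_lat v) (by rw [unl_e]; ring)

theorem prr_pres {v : Ch} {w : κ[T;T⁻¹]} (hw : w ∈ Orl.Q.lat κ v (-(4 - φ.e))) (n : ℤ) :
    (φ.prr.smul w).Pres v n (n + φ.e - 4) := by
  rw [PairMap.pres_iff]
  refine ⟨?_, ?_⟩
  · exact lat_mul' hw (one_mem_lat v) (by ring)
  · exact lat_mul' hw (φ.hh v) (by rw [unr_e]; ring)

/-- the local retraction: `inl ∘ (u prl) + inr ∘ (w prr) = 1` for `u g + w h = 1` -/
theorem retract_eq {u w : κ[T;T⁻¹]} (h : u * φ.g + w * φ.h = 1) (x : φ.N) :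
    φ.inl.lin rfl ((φ.prl.smul u).lin rfl x) + φ.inr.lin rfl ((φ.prr.smul w).lin rfl x) = x := by
  ext1
  · show 1 * (u * φ.g * x.1) + φ.h * (w * 1 * x.1) = x.1
    linear_combination x.1 * h
  · show φ.g * (u * 1 * x.2) + 1 * (w * φ.h * x.2) = x.2
    linear_combination x.2 * h

end Fac

/-! ### Coprime pair maps -/

/-- a coprime pair map -/
structure Lk (φ φ' : Fac δ κ) extends PairMap φ φ' where
  /-- the degree of the first entry -/
  m : ℤ
  hx : ∀ v, x ∈ lat κ v m
  hy : ∀ v, y ∈ lat κ v (m + (φ'.e - φ.e))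
  cop : ∀ v, Cop v m (m + (φ'.e - φ.e)) x y

namespace Lk

variable {φ φ' : Fac δ κ} (l : Lk φ φ')

/-- all pair maps are multiples of a coprime one -/
theorem exists_eq_smul (hq : δ.q ≠ 0) (p : PairMap φ φ') : ∃ t, p = l.toPairMap.smul t := by
  have h1 : l.x * p.y = p.x * l.y := by
    refine mul_right_cancel₀ (PairMap.g_ne φ hq) ?_
    linear_combination p.x * l.hg - l.x * p.hg
  obtain ⟨t, h2, h3⟩ := (l.cop .mid).exists_eq h1
  exact ⟨t, PairMap.ext h2 h3⟩

theorem x_ne_zero (hq : δ.q ≠ 0) : l.x ≠ 0 := by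
  intro h
  have h1 := l.toPairMap.y_eq_zero hq h
  obtain ⟨u, -, w, -, e⟩ := l.cop .mid
  rw [h, h1, mul_zero, mul_zero, add_zero] at e
  exact zero_ne_one e

theorem smul_injective (hq : δ.q ≠ 0) {t t' : κ[T;T⁻¹]}
    (h : l.toPairMap.smul t = l.toPairMap.smul t') : t = t' := by
  have h1 : t * l.x = t' * l.x := congrArg PairMap.x h
  exact mul_right_cancel₀ (l.x_ne_zero hq) h1

theorem pres_iff {v : Ch} {n n' : ℤ} {t : κ[T;T⁻¹]} :
    (l.toPairMap.smul t).Pres v n n' ↔ t ∈ lat κ v (n' - n - l.m) := by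
  rw [PairMap.pres_iff]
  constructor
  · rintro ⟨h1, h2⟩
    refine (l.cop v).mem ?_ ?_
    · rwa [show n' - n - l.m + l.m = n' - n by ring]
    · rwa [show n' - n - l.m + (l.m + (φ'.e - φ.e)) = n' - n + (φ'.e - φ.e) by ring]
  · intro h
    exact ⟨lat_mul' h (l.hx v) (by ring), lat_mul' h (l.hy v) (by ring)⟩

end Lk

/-! ### The factorisations of the sets of roots -/

section roots

variable (r : Fin 3 → κ) {s : κ} (hs : s * s = algebraMap k κ δ.a)
  (hq : bc κ δ.q = ∏ i : Fin 4, rt r i)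

/-- the product of the linear forms of a set of roots -/
noncomputable def rts (I : Finset (Fin 4)) : κ[T;T⁻¹] := ∏ i ∈ I, rt r i

theorem rts_mem (v : Ch) (I : Finset (Fin 4)) : rts r I ∈ lat κ v I.card := by
  have := prod_mem_lat (κ := κ) (v := v) (f := rt r) (d := fun _ => 1) I fun i _ => rt_mem r v i
  rwa [Finset.sum_const, nsmul_eq_mul, mul_one] at this

theorem rts_mul_of_disjoint {I J : Finset (Fin 4)} (h : Disjoint I J) :
    rts r I * rts r J = rts r (I ∪ J) := (Finset.prod_union h).symm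

theorem rts_mul_compl (I : Finset (Fin 4)) : rts r I * rts r Iᶜ = ∏ i, rt r i :=
  Finset.prod_mul_prod_compl I _

variable {r}

theorem rts_cop (hr : Function.Injective r) (v : Ch) {I J : Finset (Fin 4)}
    (h : Disjoint I J) : Cop v I.card J.card (rts r I) (rts r J) := by
  have := Cop.prod (v := v) (f := rt r) (d := fun _ => 1) (A := I) (B := J)
    (fun i => rt_mem r v i) fun i hi j hj =>
      rt_cop hr v fun hij => (Finset.disjoint_left.1 h hi) (hij ▸ hj)
  rwa [Finset.sum_const, Finset.sum_const, nsmul_eq_mul, mul_one, nsmul_eq_mul, mul_one] at this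

/-- the factorisation of a set of roots -/
noncomputable def facI (I : Finset (Fin 4)) : Fac δ κ where
  s := s
  hs := hs
  e := I.card
  g := rts r I
  h := rts r Iᶜ
  hg v := rts_mem r v I
  hh v := by
    have h1 := rts_mem r v Iᶜ
    have h2 : ((Iᶜ.card : ℕ) : ℤ) = 4 - I.card := by
      rw [Finset.card_compl, Fintype.card_fin, Nat.cast_sub (Finset.card_le_univ I |>.trans
        (by simp))]
      rfl
    rwa [h2] at h1
  gh := by rw [rts_mul_compl, hq]

@[simp] theorem facI_e (I : Finset (Fin 4)) : (facI hs hq I).e = I.card := rfl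

@[simp] theorem facI_s (I : Finset (Fin 4)) : (facI hs hq I).s = s := rfl

@[simp] theorem facI_g (I : Finset (Fin 4)) : (facI hs hq I).g = rts r I := rfl

@[simp] theorem facI_h (I : Finset (Fin 4)) : (facI hs hq I).h = rts r Iᶜ := rfl

theorem card_compl_int (I : Finset (Fin 4)) : ((Iᶜ.card : ℕ) : ℤ) = 4 - I.card := by
  rw [Finset.card_compl, Fintype.card_fin, Nat.cast_sub (Finset.card_le_univ I |>.trans (by simp))]
  rfl

/-- the two factors are coprime -/
theorem facI_cop (hr : Function.Injective r) (v : Ch) (I : Finset (Fin 4)) :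
    Cop v (facI hs hq I).e (4 - (facI hs hq I).e) (facI hs hq I).g (facI hs hq I).h := by
  have h := rts_cop hr v (I := I) (J := Iᶜ) disjoint_compl_right
  rwa [card_compl_int] at h

/-- the coprime map between the modules of two sets of roots -/
noncomputable def lkI (hr : Function.Injective r) (I J : Finset (Fin 4)) :
    Lk (facI hs hq I) (facI hs hq J) where
  x := rts r (I \ J)
  y := rts r (J \ I)
  m := (I \ J).card
  hg := by
    show rts r J * rts r (I \ J) = rts r (J \ I) * rts r I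
    rw [rts_mul_of_disjoint r Finset.disjoint_sdiff, rts_mul_of_disjoint r Finset.sdiff_disjoint,
      Finset.union_sdiff_self_eq_union, Finset.sdiff_union_self_eq_union]
  hh := by
    show rts r Jᶜ * rts r (J \ I) = rts r (I \ J) * rts r Iᶜ
    rw [rts_mul_of_disjoint, rts_mul_of_disjoint]
    · congr 1
      ext i
      simp only [Finset.mem_union, Finset.mem_compl, Finset.mem_sdiff]
      tauto
    · rw [Finset.disjoint_left]
      intro i hi hi'
      exact (Finset.mem_compl.1 hi') (Finset.mem_sdiff.1 hi).1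
    · rw [Finset.disjoint_left]
      intro i hi hi'
      exact (Finset.mem_compl.1 hi) (Finset.mem_sdiff.1 hi').1
  hx v := rts_mem r v _
  hy v := by
    have h1 := rts_mem r v (J \ I)
    have h2 : ((J \ I).card : ℤ) = (I \ J).card + ((facI hs hq J).e - (facI hs hq I).e) := by
      have h3 := Finset.card_sdiff_add_card_inter J I
      have h4 := Finset.card_sdiff_add_card_inter I J
      rw [Finset.inter_comm] at h4
      rw [facI_e, facI_e]
      lia
    rwa [h2] at h1
  cop v := by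
    have h1 := rts_cop hr v (I := I \ J) (J := J \ I) (by
      rw [Finset.disjoint_left]
      intro i hi hi'
      exact (Finset.mem_sdiff.1 hi).2 (Finset.mem_sdiff.1 hi').1)
    have h2 : ((J \ I).card : ℤ) = (I \ J).card + ((facI hs hq J).e - (facI hs hq I).e) := by
      have h3 := Finset.card_sdiff_add_card_inter J I
      have h4 := Finset.card_sdiff_add_card_inter I J
      rw [Finset.inter_comm] at h4
      rw [facI_e, facI_e]
      lia
    rwa [h2] at h1

@[simp] theorem lkI_m (hr : Function.Injective r) (I J : Finset (Fin 4)) :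
    (lkI hs hq hr I J).m = (I \ J).card := rfl

@[simp] theorem lkI_x (hr : Function.Injective r) (I J : Finset (Fin 4)) :
    (lkI hs hq hr I J).x = rts r (I \ J) := rfl

@[simp] theorem lkI_y (hr : Function.Injective r) (I J : Finset (Fin 4)) :
    (lkI hs hq hr I J).y = rts r (J \ I) := rfl

end roots

end Orl.Q
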