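import Pool.Agent.Work.MP_a6e60d_ag.Q.Cut
import Pool.Agent.Work.MP_a6e60d_ag.Q.PairLat

/-!
# Acyclicity of the parts of the trivial `M_{g,h}(n)` and of `O(n)`

Over each chart the objects are retracts of projective objects.
-/

open CategoryTheory CategoryTheory.Abelian LaurentPolynomial Orl.LF

set_option linter.unusedSectionVars false

attribute [-instance] CategoryTheory.catToReflQuiver

namespace Orl.Q

universe w

variable {k : Type} [Field k] {δ : Dat k} {κ : Type} [Field κ] [Algebra k κ]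

/-! ### Extension of scalars of Laurent polynomials -/

section bcLift

variable {P : Type} [AddCommGroup P] [Module k P] [Module κ P] [IsScalarTower k κ P]

/-- the coefficients of a Laurent polynomial, as a linear map -/
noncomputable def coeffL (κ : Type) [Field κ] : κ[T;T⁻¹] →ₗ[κ] (ℤ →₀ κ) where
  toFun f := f.coeff
  map_add' f g := AddMonoidAlgebra.coeff_add f g
  map_smul' c f := AddMonoidAlgebra.coeff_smul c f

/-- the `κ`-linear extension of a `k`-linear map -/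
noncomputable def bcLift (h : k[T;T⁻¹] →ₗ[k] P) : κ[T;T⁻¹] →ₗ[κ] P :=
  Finsupp.linearCombination κ (fun m : ℤ => h (T m)) ∘ₗ coeffL κ

theorem bcLift_bc (h : k[T;T⁻¹] →ₗ[k] P) (f : k[T;T⁻¹]) : bcLift h (bc κ f) = h f := by
  induction f using LaurentPolynomial.induction_on' with
  | add p q hp hq => rw [map_add, map_add, hp, hq, map_add]
  | C_mul_T m a =>
    rw [map_mul, bc_C, Fac.bc_T]
    change Finsupp.linearCombination κ (fun m : ℤ => h (T m))
      (C (algebraMap k κ a) * T m : κ[T;T⁻¹]).coeff = _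
    rw [← single_eq_C_mul_T, AddMonoidAlgebra.coeff_single, Finsupp.linearCombination_single,
      ← LaurentPolynomial.smul_eq_C_mul, map_smul, algebraMap_smul]

end bcLift

theorem eq_sum_coeff (x : κ[T;T⁻¹]) : x = ∑ m ∈ x.coeff.support, x.coeff m • (T m : κ[T;T⁻¹]) := by
  ext j
  rw [AddMonoidAlgebra.coeff_sum, Finsupp.finsetSum_apply]
  have h : ∀ m ∈ x.coeff.support, (x.coeff m • (T m : κ[T;T⁻¹])).coeff j =
      if m = j then x.coeff m else 0 := by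
    intro m _
    rw [AddMonoidAlgebra.coeff_smul, Finsupp.smul_apply, T_apply]
    split_ifs <;> simp
  rw [Finset.sum_congr rfl h, Finset.sum_ite_eq']
  split_ifs with h1
  · rfl
  · exact Finsupp.notMem_support_iff.1 h1

/-- the sections over `κ` are spanned by the sections over `k` -/
theorem lat_span {v : Ch} {n : ℤ} {x : κ[T;T⁻¹]} (hx : x ∈ lat κ v n) :
    x ∈ Submodule.span κ ((bc κ) '' (lat k v n : Set k[T;T⁻¹])) := by
  rw [eq_sum_coeff x]
  refine Submodule.sum_mem _ fun m hm => Submodule.smul_mem _ _ (Submodule.subset_span ?_)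
  exact ⟨T m, T_mem_lat (hx m (Finsupp.mem_support_iff.1 hm)), Fac.bc_T m⟩

/-- a linear map on sections, in terms of sections over `k` -/
theorem map_lat_span {N : Type} [AddCommGroup N] [Module κ N] {v : Ch} {n : ℤ}
    {x : κ[T;T⁻¹]} (hx : x ∈ lat κ v n) (E : κ[T;T⁻¹] →ₗ[κ] N) (S : Set N)
    (h : ∀ f ∈ lat k v n, E (bc κ f) ∈ S) : E x ∈ Submodule.span κ S := by
  have h1 : E x ∈ (Submodule.span κ ((bc κ) '' (lat k v n : Set k[T;T⁻¹]))).map E :=
    Submodule.mem_map_of_mem (lat_span hx)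
  rw [Submodule.map_span] at h1
  refine Submodule.span_mono ?_ h1
  rintro _ ⟨_, ⟨f, hf, rfl⟩, rfl⟩
  exact h f hf

/-! ### The generator of `O(0)` -/

theorem Dat.tile_false {t : Vx} {v : Ch} {x : δ.D} (hx : x ∈ δ.tile t (v, false)) :
    x = Fac.sc x.re := by
  obtain ⟨w, b⟩ := t
  by_cases h : v ≤ w
  · cases b
    · rw [Dat.tile_ff h] at hx
      obtain ⟨h0, h1, h2, h3⟩ := hx
      exact QuaternionAlgebra.ext rfl h1 h2 h3
    · rw [Dat.tile_tf, Submodule.mem_bot] at hx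
      subst hx
      rfl
  · rw [Dat.tile_not h, Submodule.mem_bot] at hx
    subst hx
    rfl

/-- `sc` as a linear map -/
noncomputable def scL (δ : Dat k) : k[T;T⁻¹] →ₗ[k] δ.D where
  toFun f := Fac.sc f
  map_add' f g := by
    ext <;> simp [Fac.sc]
  map_smul' c f := by
    ext <;> simp [Fac.sc]

theorem Fac.latO_M_false (φ : Fac δ κ) (n : ℤ) (v : Ch) {x : φ.N} :
    x ∈ (φ.latO n).M (v, false) ↔ x.1 ∈ Orl.Q.lat κ v n ∧ x.2 = 0 := Iff.rfl

theorem Fac.latO_M_true (φ : Fac δ κ) (n : ℤ) (v : Ch) : (φ.latO n).M (v, true) = ⊥ := rfl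

theorem Fac.gen_latO (φ : Fac δ κ) (v : Ch) :
    ((φ.latO 0).cut v).Gen κ (v, false) (φ.vec 1 0) where
  mem := Lattice.mem_cut.2 (Or.inl ⟨Ch.le_refl v, one_mem_lat v, rfl⟩)
  span := by
    rintro ⟨w, b⟩ n hn
    rcases Lattice.mem_cut.1 hn with ⟨h1, hn⟩ | rfl
    · cases b
      · obtain ⟨h2, h3⟩ := (φ.latO_M_false 0 w).1 hn
        have e : n = (LinearMap.inl κ κ[T;T⁻¹] κ[T;T⁻¹] : κ[T;T⁻¹] →ₗ[κ] φ.N) n.1 :=
          Fac.N_ext _ rfl h3
        rw [e]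
        refine map_lat_span h2 _ _ fun f hf => ⟨Fac.sc f, ?_, ?_⟩
        · change (Fac.sc f : δ.D) ∈ δ.tile (w, false) (v, false)
          rw [Dat.tile_ff h1]
          exact ⟨hf, rfl, rfl, rfl⟩
        · change (Fac.sc f : δ.D) • φ.vec 1 0 = (bc κ f, 0)
          rw [Fac.sc_smul]
          ext1
          · simp
          · simp
      · rw [Fac.latO_M_true, Submodule.mem_bot] at hn
        rw [hn]
        exact Submodule.zero_mem _
    · exact Submodule.zero_mem _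
  ext := by
    intro t P _ _ _ _ g
    obtain ⟨g', hg'⟩ := LinearMap.exists_extend g
    refine ⟨(bcLift (g' ∘ₗ scL δ)) ∘ₗ
      (LinearMap.fst κ κ[T;T⁻¹] κ[T;T⁻¹] : φ.N →ₗ[κ] κ[T;T⁻¹]), fun x => ?_⟩
    have h1 : x.1 = Fac.sc x.1.re := Dat.tile_false x.2
    have h2 : x.1 • φ.vec 1 0 = φ.vec (bc κ x.1.re) 0 := by
      rw [h1, Fac.sc_smul]
      ext1
      · simp [Fac.sc]
      · simp
    rw [h2]
    change bcLift (g' ∘ₗ scL δ) (bc κ x.1.re) = g x
    rw [bcLift_bc]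
    change g' (Fac.sc x.1.re) = g x
    rw [← h1, ← hg']
    rfl

/-! ### The generator of the sum of the two trivial factorisations -/

/-- the sum of the two trivial factorisations -/
noncomputable def Fac.full (φ : Fac δ κ) : Lattice δ.tiling (φ.unl.N × φ.unr.N) :=
  (φ.unl.lat 0).prod (φ.unr.lat (-2))

theorem Fac.full_stable (φ : Fac δ κ) : φ.full.Stable κ :=
  Lattice.prod_stable (φ.unl.lat_stable 0) (φ.unr.lat_stable (-2))

/-- the generator -/
noncomputable def Fac.fgen (φ : Fac δ κ) : φ.unl.N × φ.unr.N := (φ.unl.vec 1 0, φ.unr.vec 0 1)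

/-- four embeddings -/
noncomputable def Fac.emb (φ : Fac δ κ) (a b c d : κ) : κ[T;T⁻¹] →ₗ[κ] φ.unl.N × φ.unr.N where
  toFun x := (φ.unl.vec (a • x) (b • x), φ.unr.vec (c • x) (d • x))
  map_add' x y := by
    refine Prod.ext (Fac.N_ext _ ?_ ?_) (Fac.N_ext _ ?_ ?_) <;> exact smul_add _ _ _
  map_smul' r x := by
    refine Prod.ext (Fac.N_ext _ ?_ ?_) (Fac.N_ext _ ?_ ?_) <;> exact smul_comm _ _ _

/-- the action on the generator -/
theorem Fac.smul_fgen (φ : Fac δ κ) (d : δ.D) : d • φ.fgen =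
    (φ.unl.vec (bc κ d.re + C φ.s * bc κ d.imI) (bc κ d.imJ - C φ.s * bc κ d.imK),
      φ.unr.vec (bc κ d.imJ + C φ.s * bc κ d.imK) (bc κ d.re - C φ.s * bc κ d.imI)) := by
  refine Prod.ext (Fac.N_ext _ ?_ ?_) (Fac.N_ext _ ?_ ?_)
  · change (d • φ.unl.vec 1 0).1 = _
    rw [Fac.smul_fst]
    simp
  · change (d • φ.unl.vec 1 0).2 = _
    rw [Fac.smul_snd]
    simp [Fac.unl]
  · change (d • φ.unr.vec 0 1).1 = _
    rw [Fac.smul_fst]
    simp [Fac.unr]
  · change (d • φ.unr.vec 0 1).2 = _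
    rw [Fac.smul_snd]
    simp

theorem Fac.gen_full (φ : Fac δ κ) (h2 : (2 : κ) ≠ 0) (hs0 : φ.s ≠ 0) (v : Ch) :
    (φ.full.cut v).Gen κ (v, true) φ.fgen where
  mem := by
    refine Lattice.mem_cut.2 (Or.inl ⟨Ch.le_refl v, ⟨one_mem_lat v, Submodule.zero_mem _⟩,
      ⟨Submodule.zero_mem _, ?_⟩⟩)
    exact one_mem_lat v
  span := by
    rintro ⟨w, b⟩ n hn
    rcases Lattice.mem_cut.1 hn with ⟨h1, hn⟩ | rfl
    · obtain ⟨⟨a1, a2⟩, a3, a4⟩ := hn
      have a1' : n.1.1 ∈ Orl.Q.lat κ w 0 := a1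
      have a2' : n.1.2 ∈ Orl.Q.lat κ w (-2) := a2
      have a3' : n.2.1 ∈ Orl.Q.lat κ w (-2) := a3
      have a4' : n.2.2 ∈ Orl.Q.lat κ w 0 := a4
      have hL : ∀ x : δ.D, x ∈ δ.clat w 0 → x ∈ (δ.tiling.L (w, b) (v, true) : Set δ.D) := by
        intro x hx
        change x ∈ δ.tile (w, b) (v, true)
        cases b
        · rw [Dat.tile_ft h1]
          exact hx
        · rw [Dat.tile_tt h1]
          exact hx
      have e : n = φ.emb 1 0 0 1 ((2 : κ)⁻¹ • (n.1.1 + n.2.2)) +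
          φ.emb φ.s 0 0 (-φ.s) ((2 * φ.s : κ)⁻¹ • (n.1.1 - n.2.2)) +
          φ.emb 0 1 1 0 ((2 : κ)⁻¹ • (n.1.2 + n.2.1)) +
          φ.emb 0 (-φ.s) φ.s 0 ((2 * φ.s : κ)⁻¹ • (n.2.1 - n.1.2)) := by
        have c1 : (2 : κ)⁻¹ + (2 : κ)⁻¹ = 1 := by
          rw [← two_mul]
          exact mul_inv_cancel₀ h2
        have c2 : φ.s * (2 * φ.s)⁻¹ = (2 : κ)⁻¹ := by
          field_simp
        refine Prod.ext (Fac.N_ext _ ?_ ?_) (Fac.N_ext _ ?_ ?_)
        · change n.1.1 = (1 : κ) • ((2 : κ)⁻¹ • (n.1.1 + n.2.2)) +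
            φ.s • ((2 * φ.s : κ)⁻¹ • (n.1.1 - n.2.2)) +
            (0 : κ) • ((2 : κ)⁻¹ • (n.1.2 + n.2.1)) +
            (0 : κ) • ((2 * φ.s : κ)⁻¹ • (n.2.1 - n.1.2))
          rw [smul_smul φ.s, c2, one_smul, zero_smul, zero_smul, add_zero, add_zero, ← smul_add]
          have : n.1.1 + n.2.2 + (n.1.1 - n.2.2) = n.1.1 + n.1.1 := by abel
          rw [this, smul_add, ← add_smul, c1, one_smul]
        · change n.1.2 = (0 : κ) • ((2 : κ)⁻¹ • (n.1.1 + n.2.2)) +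
            (0 : κ) • ((2 * φ.s : κ)⁻¹ • (n.1.1 - n.2.2)) +
            (1 : κ) • ((2 : κ)⁻¹ • (n.1.2 + n.2.1)) +
            (-φ.s) • ((2 * φ.s : κ)⁻¹ • (n.2.1 - n.1.2))
          rw [neg_smul, smul_smul φ.s, c2, one_smul, zero_smul, zero_smul, zero_add, zero_add,
            ← sub_eq_add_neg, ← smul_sub]
          have : n.1.2 + n.2.1 - (n.2.1 - n.1.2) = n.1.2 + n.1.2 := by abel
          rw [this, smul_add, ← add_smul, c1, one_smul]
        · change n.2.1 = (0 : κ) • ((2 : κ)⁻¹ • (n.1.1 + n.2.2)) +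
            (0 : κ) • ((2 * φ.s : κ)⁻¹ • (n.1.1 - n.2.2)) +
            (1 : κ) • ((2 : κ)⁻¹ • (n.1.2 + n.2.1)) +
            φ.s • ((2 * φ.s : κ)⁻¹ • (n.2.1 - n.1.2))
          rw [smul_smul φ.s, c2, one_smul, zero_smul, zero_smul, zero_add, zero_add, ← smul_add]
          have : n.1.2 + n.2.1 + (n.2.1 - n.1.2) = n.2.1 + n.2.1 := by abel
          rw [this, smul_add, ← add_smul, c1, one_smul]
        · change n.2.2 = (1 : κ) • ((2 : κ)⁻¹ • (n.1.1 + n.2.2)) +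
            (-φ.s) • ((2 * φ.s : κ)⁻¹ • (n.1.1 - n.2.2)) +
            (0 : κ) • ((2 : κ)⁻¹ • (n.1.2 + n.2.1)) +
            (0 : κ) • ((2 * φ.s : κ)⁻¹ • (n.2.1 - n.1.2))
          rw [neg_smul, smul_smul φ.s, c2, one_smul, zero_smul, zero_smul, add_zero, add_zero,
            ← sub_eq_add_neg, ← smul_sub]
          have : n.1.1 + n.2.2 - (n.1.1 - n.2.2) = n.2.2 + n.2.2 := by abel
          rw [this, smul_add, ← add_smul, c1, one_smul]
      rw [e]
      have z1 := Submodule.smul_mem _ (2 : κ)⁻¹ (Submodule.add_mem _ a1' a4')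
      have z2 := Submodule.smul_mem _ (2 * φ.s : κ)⁻¹ (Submodule.sub_mem _ a1' a4')
      have z3 := Submodule.smul_mem _ (2 : κ)⁻¹ (Submodule.add_mem _ a2' a3')
      have z4 := Submodule.smul_mem _ (2 * φ.s : κ)⁻¹ (Submodule.sub_mem _ a3' a2')
      refine Submodule.add_mem _ (Submodule.add_mem _ (Submodule.add_mem _ ?_ ?_) ?_) ?_
      · refine map_lat_span z1 _ _ fun f hf => ⟨⟨f, 0, 0, 0⟩, hL _ ⟨hf, Submodule.zero_mem _,
          Submodule.zero_mem _, Submodule.zero_mem _⟩, ?_⟩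
        change (⟨f, 0, 0, 0⟩ : δ.D) • φ.fgen = _
        rw [Fac.smul_fgen]
        refine Prod.ext (Fac.N_ext _ ?_ ?_) (Fac.N_ext _ ?_ ?_) <;> simp [Fac.emb]
      · refine map_lat_span z2 _ _ fun f hf => ⟨⟨0, f, 0, 0⟩, hL _ ⟨Submodule.zero_mem _, hf,
          Submodule.zero_mem _, Submodule.zero_mem _⟩, ?_⟩
        change (⟨0, f, 0, 0⟩ : δ.D) • φ.fgen = _
        rw [Fac.smul_fgen]
        refine Prod.ext (Fac.N_ext _ ?_ ?_) (Fac.N_ext _ ?_ ?_) <;>
          simp [Fac.emb, LaurentPolynomial.smul_eq_C_mul]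
      · refine map_lat_span z3 _ _ fun f hf => ⟨⟨0, 0, f, 0⟩, hL _ ⟨Submodule.zero_mem _,
          Submodule.zero_mem _, by simpa using hf, Submodule.zero_mem _⟩, ?_⟩
        change (⟨0, 0, f, 0⟩ : δ.D) • φ.fgen = _
        rw [Fac.smul_fgen]
        refine Prod.ext (Fac.N_ext _ ?_ ?_) (Fac.N_ext _ ?_ ?_) <;> simp [Fac.emb]
      · refine map_lat_span z4 _ _ fun f hf => ⟨⟨0, 0, 0, f⟩, hL _ ⟨Submodule.zero_mem _,
          Submodule.zero_mem _, Submodule.zero_mem _, by simpa using hf⟩, ?_⟩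
        change (⟨0, 0, 0, f⟩ : δ.D) • φ.fgen = _
        rw [Fac.smul_fgen]
        refine Prod.ext (Fac.N_ext _ ?_ ?_) (Fac.N_ext _ ?_ ?_) <;>
          simp [Fac.emb, LaurentPolynomial.smul_eq_C_mul]
    · exact Submodule.zero_mem _
  ext := by
    intro t P _ _ _ _ g
    obtain ⟨g', hg'⟩ := LinearMap.exists_extend g
    let q0 : k[T;T⁻¹] →ₗ[k] δ.D := scL δ
    let q1 : k[T;T⁻¹] →ₗ[k] δ.D :=
      { toFun := fun f => ⟨0, f, 0, 0⟩
        map_add' := fun f g => by ext <;> simp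
        map_smul' := fun c f => by ext <;> simp }
    let q2 : k[T;T⁻¹] →ₗ[k] δ.D :=
      { toFun := fun f => ⟨0, 0, f, 0⟩
        map_add' := fun f g => by ext <;> simp
        map_smul' := fun c f => by ext <;> simp }
    let q3 : k[T;T⁻¹] →ₗ[k] δ.D :=
      { toFun := fun f => ⟨0, 0, 0, f⟩
        map_add' := fun f g => by ext <;> simp
        map_smul' := fun c f => by ext <;> simp }
    let p11 : φ.unl.N × φ.unr.N →ₗ[κ] κ[T;T⁻¹] :=
      { toFun := fun n => n.1.1, map_add' := fun _ _ => rfl, map_smul' := fun _ _ => rfl }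
    let p12 : φ.unl.N × φ.unr.N →ₗ[κ] κ[T;T⁻¹] :=
      { toFun := fun n => n.1.2, map_add' := fun _ _ => rfl, map_smul' := fun _ _ => rfl }
    let p21 : φ.unl.N × φ.unr.N →ₗ[κ] κ[T;T⁻¹] :=
      { toFun := fun n => n.2.1, map_add' := fun _ _ => rfl, map_smul' := fun _ _ => rfl }
    let p22 : φ.unl.N × φ.unr.N →ₗ[κ] κ[T;T⁻¹] :=
      { toFun := fun n => n.2.2, map_add' := fun _ _ => rfl, map_smul' := fun _ _ => rfl }
    refine ⟨(2 : κ)⁻¹ • bcLift (g' ∘ₗ q0) ∘ₗ (p11 + p22) +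
      (2 * φ.s : κ)⁻¹ • bcLift (g' ∘ₗ q1) ∘ₗ (p11 - p22) +
      (2 : κ)⁻¹ • bcLift (g' ∘ₗ q2) ∘ₗ (p12 + p21) +
      (2 * φ.s : κ)⁻¹ • bcLift (g' ∘ₗ q3) ∘ₗ (p21 - p12), fun x => ?_⟩
    rw [Fac.smul_fgen]
    have c1 : (2 : κ)⁻¹ * 2 = 1 := inv_mul_cancel₀ h2
    have c2 : (2 * φ.s : κ)⁻¹ * (2 * φ.s) = 1 := inv_mul_cancel₀ (mul_ne_zero h2 hs0)
    change (2 : κ)⁻¹ • bcLift (g' ∘ₗ q0) ((bc κ x.1.re + C φ.s * bc κ x.1.imI) +
        (bc κ x.1.re - C φ.s * bc κ x.1.imI)) +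
      (2 * φ.s : κ)⁻¹ • bcLift (g' ∘ₗ q1) ((bc κ x.1.re + C φ.s * bc κ x.1.imI) -
        (bc κ x.1.re - C φ.s * bc κ x.1.imI)) +
      (2 : κ)⁻¹ • bcLift (g' ∘ₗ q2) ((bc κ x.1.imJ - C φ.s * bc κ x.1.imK) +
        (bc κ x.1.imJ + C φ.s * bc κ x.1.imK)) +
      (2 * φ.s : κ)⁻¹ • bcLift (g' ∘ₗ q3) ((bc κ x.1.imJ + C φ.s * bc κ x.1.imK) -
        (bc κ x.1.imJ - C φ.s * bc κ x.1.imK)) = g x
    have e0 : (bc κ x.1.re + C φ.s * bc κ x.1.imI) + (bc κ x.1.re - C φ.s * bc κ x.1.imI) =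
        (2 : κ) • bc κ x.1.re := by
      rw [LaurentPolynomial.smul_eq_C_mul, map_ofNat]
      ring
    have e1 : (bc κ x.1.re + C φ.s * bc κ x.1.imI) - (bc κ x.1.re - C φ.s * bc κ x.1.imI) =
        (2 * φ.s : κ) • bc κ x.1.imI := by
      rw [LaurentPolynomial.smul_eq_C_mul, map_mul, map_ofNat]
      ring
    have e2 : (bc κ x.1.imJ - C φ.s * bc κ x.1.imK) + (bc κ x.1.imJ + C φ.s * bc κ x.1.imK) =
        (2 : κ) • bc κ x.1.imJ := by
      rw [LaurentPolynomial.smul_eq_C_mul, map_ofNat]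
      ring
    have e3 : (bc κ x.1.imJ + C φ.s * bc κ x.1.imK) - (bc κ x.1.imJ - C φ.s * bc κ x.1.imK) =
        (2 * φ.s : κ) • bc κ x.1.imK := by
      rw [LaurentPolynomial.smul_eq_C_mul, map_mul, map_ofNat]
      ring
    rw [e0, e1, e2, e3, map_smul, map_smul, map_smul, map_smul, bcLift_bc, bcLift_bc, bcLift_bc,
      bcLift_bc, smul_smul, smul_smul, smul_smul, smul_smul, c1, c2, one_smul, one_smul,
      one_smul, one_smul]
    change g' (q0 x.1.re) + g' (q1 x.1.imI) + g' (q2 x.1.imJ) + g' (q3 x.1.imK) = g x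
    rw [← map_add, ← map_add, ← map_add, ← hg']
    change _ = g' x.1
    congr 1
    refine QuaternionAlgebra.ext ?_ ?_ ?_ ?_
    · change x.1.re + 0 + 0 + 0 = x.1.re
      simp
    · change 0 + x.1.imI + 0 + 0 = x.1.imI
      simp
    · change 0 + 0 + x.1.imJ + 0 = x.1.imJ
      simp
    · change 0 + 0 + 0 + x.1.imK = x.1.imK
      simp

/-! ### Maps of the parts -/

section maps

variable {φ φ' : Fac δ κ}

/-- the map of parts of a pair -/
noncomputable def PairMap.kcut (p : PairMap φ φ') (hs : φ'.s = φ.s) {v : Ch} {n n' : ℤ}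
    (hp : p.Pres v n n') : Lattice.kmod (Lattice.cut_stable (φ.lat_stable n) v) ⟶
      Lattice.kmod (Lattice.cut_stable (φ'.lat_stable n') v) :=
  Lattice.kmap _ _ (p.lin hs)
    (Lattice.map_cut fun _ h _ hn => (hp.mono h).lin_mem hs hn) (p.lin_ksmul hs)

/-- multiplication by a Laurent polynomial on `φ.N` -/
noncomputable def Fac.mulN (φ : Fac δ κ) (t : κ[T;T⁻¹]) : φ.N →ₗ[δ.D] φ.N :=
  ((PairMap.id φ).smul t).lin rfl

theorem Fac.mulN_apply (φ : Fac δ κ) (t : κ[T;T⁻¹]) (x : φ.N) : φ.mulN t x = t • x := by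
  refine Fac.N_ext _ ?_ ?_
  · change t * 1 * x.1 = t * x.1
    rw [mul_one]
  · change t * 1 * x.2 = t * x.2
    rw [mul_one]

theorem Fac.mulN_csmul (φ : Fac δ κ) (t : κ[T;T⁻¹]) (c : κ) (x : φ.N) :
    φ.mulN t (c • x) = c • φ.mulN t x := PairMap.lin_ksmul _ rfl c x

end maps

section acyc

variable [HasExt.{w} (ModObj k κ (ModuleCat.{0} δ.Alg))] (φ : Fac δ κ)
  (Y : ModObj k κ (ModuleCat.{0} δ.Alg))

/-- two objects with maps in both directions -/
theorem Acyc.of_retract₂ {C : Type*} [Category C] [Abelian C] [HasExt.{w} C] {X A B Y : C}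
    (i : X ⟶ A) (r : A ⟶ X) (i' : X ⟶ B) (r' : B ⟶ X) (h : i ≫ r + i' ≫ r' = 𝟙 X)
    (hA : Acyc.{w} A Y) (hB : Acyc.{w} B Y) : Acyc.{w} X Y := by
  intro n hn
  refine subsingleton_of_forall_eq 0 fun x => ?_
  rw [← Ext.mk₀_id_comp x, ← h, Ext.mk₀_add, Ext.add_comp, ← Ext.mk₀_comp_mk₀,
    ← Ext.mk₀_comp_mk₀, Ext.comp_assoc_of_second_deg_zero, Ext.comp_assoc_of_second_deg_zero,
    hA.eq_zero hn ((Ext.mk₀ r).comp x (zero_add n)),
    hB.eq_zero hn ((Ext.mk₀ r').comp x (zero_add n)), Ext.comp_zero, Ext.comp_zero, add_zero]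

/-- change of the twist -/
theorem Fac.acyc_twist {v : Ch} {n : ℤ}
    (h : Acyc.{w} (Lattice.kmod (Lattice.cut_stable (φ.lat_stable n) v)) Y) (n' : ℤ) :
    Acyc.{w} (Lattice.kmod (Lattice.cut_stable (φ.lat_stable n') v)) Y := by
  have h1 : ((PairMap.id φ).smul (gen κ v (n - n'))).Pres v n' n := by
    rw [PairMap.pres_iff]
    change gen κ v (n - n') * 1 ∈ Orl.Q.lat κ v (n - n') ∧
      gen κ v (n - n') * 1 ∈ Orl.Q.lat κ v (n - n' + (φ.e - φ.e))
    rw [mul_one, sub_self, add_zero]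
    exact ⟨gen_mem _ _, gen_mem _ _⟩
  have h2 : ((PairMap.id φ).smul (gen κ v (-(n - n')))).Pres v n n' := by
    rw [PairMap.pres_iff]
    change gen κ v (-(n - n')) * 1 ∈ Orl.Q.lat κ v (n' - n) ∧
      gen κ v (-(n - n')) * 1 ∈ Orl.Q.lat κ v (n' - n + (φ.e - φ.e))
    rw [mul_one, sub_self, add_zero, neg_sub]
    exact ⟨gen_mem _ _, gen_mem _ _⟩
  refine Acyc.of_retract (PairMap.kcut _ rfl h1) (PairMap.kcut _ rfl h2) ?_ h
  apply ModObj.hom_ext
  apply ModuleCat.hom_ext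
  refine LinearMap.ext fun x => funext fun s => Subtype.ext ?_
  change φ.mulN (gen κ v (-(n - n'))) (φ.mulN (gen κ v (n - n')) (x s).1) = (x s).1
  rw [Fac.mulN_apply, Fac.mulN_apply, smul_smul, gen_neg_mul, one_smul]

/-- the parts of the sum of the two trivial factorisations are projective -/
theorem Fac.projective_full (h2 : (2 : κ) ≠ 0) (hs0 : φ.s ≠ 0) (v : Ch) :
    Projective (Lattice.kmod (Lattice.cut_stable φ.full_stable v)) :=
  (φ.gen_full h2 hs0 v).projective _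

theorem Fac.acyc_unl (h2 : (2 : κ) ≠ 0) (hs0 : φ.s ≠ 0) (v : Ch) (n : ℤ) :
    Acyc.{w} (Lattice.kmod (Lattice.cut_stable (φ.unl.lat_stable n) v)) Y := by
  refine φ.unl.acyc_twist Y (n := 0) ?_ n
  have := φ.projective_full h2 hs0 v
  refine Acyc.of_retract
    (X' := Lattice.kmod (Lattice.cut_stable φ.full_stable v))
    (Lattice.kmap _ _ (LinearMap.inl δ.D φ.unl.N φ.unr.N)
      (Lattice.map_cut fun _ _ _ hn => ⟨hn, Submodule.zero_mem _⟩) (fun c n => by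
        change (c • n, (0 : φ.unr.N)) = (c • n, c • (0 : φ.unr.N))
        rw [smul_zero]))
    (Lattice.kmap _ _ (LinearMap.fst δ.D φ.unl.N φ.unr.N)
      (Lattice.map_cut fun _ _ _ hn => hn.1) (fun _ _ => rfl)) ?_ (Acyc.of_projective _ Y)
  apply ModObj.hom_ext
  rfl

theorem Fac.acyc_unr (h2 : (2 : κ) ≠ 0) (hs0 : φ.s ≠ 0) (v : Ch) (n : ℤ) :
    Acyc.{w} (Lattice.kmod (Lattice.cut_stable (φ.unr.lat_stable n) v)) Y := by
  refine φ.unr.acyc_twist Y (n := -2) ?_ n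
  have := φ.projective_full h2 hs0 v
  refine Acyc.of_retract
    (X' := Lattice.kmod (Lattice.cut_stable φ.full_stable v))
    (Lattice.kmap _ _ (LinearMap.inr δ.D φ.unl.N φ.unr.N)
      (Lattice.map_cut fun _ _ _ hn => ⟨Submodule.zero_mem _, hn⟩) (fun c n => by
        change ((0 : φ.unl.N), c • n) = (c • (0 : φ.unl.N), c • n)
        rw [smul_zero]))
    (Lattice.kmap _ _ (LinearMap.snd δ.D φ.unl.N φ.unr.N)
      (Lattice.map_cut fun _ _ _ hn => hn.2) (fun _ _ => rfl)) ?_ (Acyc.of_projective _ Y)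
  apply ModObj.hom_ext
  rfl

/-- the parts of `O(n)` are acyclic -/
theorem Fac.acyc_cutO (n : ℤ) (v : Ch) :
    Acyc.{w} (Lattice.kmod (Lattice.cut_stable (φ.latO_stable n) v)) Y := by
  have hp : Projective (Lattice.kmod (Lattice.cut_stable (φ.latO_stable 0) v)) :=
    (φ.gen_latO v).projective _
  have key : ∀ (m m' : ℤ) (t : κ[T;T⁻¹]), t ∈ Orl.Q.lat κ v (m' - m) →
      ∀ s : Vx, v ≤ s.1 → ∀ x ∈ (φ.latO m).M s, φ.mulN t x ∈ (φ.latO m').M s := by
    rintro m m' t ht ⟨w, b⟩ hw x hx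
    rw [Fac.mulN_apply]
    cases b
    · obtain ⟨x1, x2⟩ := (φ.latO_M_false m w).1 hx
      refine (φ.latO_M_false m' w).2 ⟨lat_mul' (lat_mono hw ht) x1 (by ring), ?_⟩
      change t * x.2 = 0
      rw [x2, mul_zero]
    · rw [Fac.latO_M_true, Submodule.mem_bot] at hx ⊢
      rw [hx, smul_zero]
  refine Acyc.of_retract
    (X' := Lattice.kmod (Lattice.cut_stable (φ.latO_stable 0) v))
    (Lattice.kmap _ _ (φ.mulN (gen κ v (-n)))
      (Lattice.map_cut (key n 0 _ (by rw [zero_sub]; exact gen_mem _ _))) (φ.mulN_csmul _))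
    (Lattice.kmap _ _ (φ.mulN (gen κ v n))
      (Lattice.map_cut (key 0 n _ (by rw [sub_zero]; exact gen_mem _ _))) (φ.mulN_csmul _)) ?_
    (Acyc.of_projective _ Y)
  apply ModObj.hom_ext
  apply ModuleCat.hom_ext
  refine LinearMap.ext fun x => funext fun s => Subtype.ext ?_
  change φ.mulN (gen κ v n) (φ.mulN (gen κ v (-n)) (x s).1) = (x s).1
  rw [Fac.mulN_apply, Fac.mulN_apply, smul_smul, gen_mul_neg, one_smul]

end acyc

end Orl.Q
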