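import Pool.Agent.Work.MP_a6e60d_ag.Q.FacAc

/-!
# Acyclicity of the parts of `M_{g,h}(n)`
-/

open CategoryTheory CategoryTheory.Abelian LaurentPolynomial Orl.LF

set_option linter.unusedSectionVars false

attribute [-instance] CategoryTheory.catToReflQuiver

namespace Orl.Q

universe w

variable {k : Type} [Field k] {δ : Dat k} {κ : Type} [Field κ] [Algebra k κ]

set_option maxHeartbeats 400000 in
/-- the local retraction, on the parts -/
theorem Fac.kcut_retract (φ : Fac δ κ) {v : Ch} (n : ℤ) {u w : κ[T;T⁻¹]}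
    (hu : u ∈ Orl.Q.lat κ v (-φ.e)) (hw : w ∈ Orl.Q.lat κ v (-(4 - φ.e)))
    (e : u * φ.g + w * φ.h = 1) :
    (φ.prl.smul u).kcut rfl (φ.prl_pres hu n) ≫ φ.inl.kcut rfl (φ.inl_pres v n) +
      (φ.prr.smul w).kcut rfl (φ.prr_pres hw n) ≫ φ.inr.kcut rfl (φ.inr_pres v n) =
    𝟙 (Lattice.kmod (Lattice.cut_stable (φ.lat_stable n) v)) := by
  rw [PairMap.kcut, PairMap.kcut, PairMap.kcut, PairMap.kcut, Lattice.kmap_comp,
    Lattice.kmap_comp, ← Lattice.kmap_add, ← Lattice.kmap_id]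
  refine (Lattice.kmap_congr _ _ (LinearMap.ext fun x => ?_) _ _)
  exact φ.retract_eq e x

set_option maxHeartbeats 400000 in
/-- the parts of `M_{g,h}(n)` are acyclic if `g` and `h` are coprime on the chart -/
theorem Fac.acyc_cut [HasExt.{w} (ModObj k κ (ModuleCat.{0} δ.Alg))] (φ : Fac δ κ)
    (Y : ModObj k κ (ModuleCat.{0} δ.Alg)) (h2 : (2 : κ) ≠ 0) (hs0 : φ.s ≠ 0) {v : Ch}
    (hc : Cop v φ.e (4 - φ.e) φ.g φ.h) (n : ℤ) :
    Acyc.{w} (Lattice.kmod (Lattice.cut_stable (φ.lat_stable n) v)) Y := by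
  obtain ⟨u, hu, w, hw, e⟩ := hc
  have h := φ.kcut_retract n hu hw e
  have h1 := φ.acyc_unl Y h2 hs0 v n
  have h3 := φ.acyc_unr Y h2 hs0 v (n + φ.e - 4)
  exact Acyc.of_retract₂ _ _ _ _ h h1 h3

end Orl.Q
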