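import Pool.Agent.Work.MP_a6e60d_ag.Q.Gen
import Pool.Agent.Work.MP_a6e60d_ag.Gal.Desc

/-!
MP_a6e60d_ag, Q3, generation over an intermediate field `E` of `K / k`: closure under squares over
`K` and descent along the restriction of scalars.
-/

set_option autoImplicit false

open CategoryTheory Category Limits

attribute [-instance] CategoryTheory.catToReflQuiver

namespace Orl.Q

open Orl.LF Orl.Gal

universe w v u v' u'

section map

variable {A : Type u} [Category.{v} A] [Abelian A] {B : Type u'} [Category.{v'} B] [Abelian B]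

theorem SES.of_iso {N X M N' X' M' : A} (h : SES N X M) (e₁ : N ≅ N') (e₂ : X ≅ X')
    (e₃ : M ≅ M') : SES N' X' M' := by
  obtain ⟨a, b, w, hS⟩ := h
  refine ⟨e₁.inv ≫ a ≫ e₂.hom, e₂.inv ≫ b ≫ e₃.hom, by simp [reassoc_of% w], ?_⟩
  exact ShortComplex.shortExact_of_iso (ShortComplex.isoMk e₁ e₂ e₃ (by simp) (by simp)) hS

theorem SES.map {N X M : A} (h : SES N X M) (F : A ⥤ B) [F.PreservesZeroMorphisms]
    [PreservesFiniteLimits F] [PreservesFiniteColimits F] :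
    SES (F.obj N) (F.obj X) (F.obj M) := by
  obtain ⟨a, b, w, hS⟩ := h
  exact ⟨F.map a, F.map b, by rw [← F.map_comp, w, F.map_zero], hS.map_of_exact F⟩

theorem Sq.ses {N M₁ M₂ M : A} (h : Sq N M₁ M₂ M) : SES N (M₁ ⊞ M₂) M := h

theorem Sq.of_ses {N M₁ M₂ M : A} (h : SES N (M₁ ⊞ M₂) M) : Sq N M₁ M₂ M := h

theorem Sq.of_iso {N M₁ M₂ M N' M₁' M₂' M' : A} (h : Sq N M₁ M₂ M) (e₁ : N ≅ N')
    (e₂ : M₁ ≅ M₁') (e₃ : M₂ ≅ M₂') (e₄ : M ≅ M') : Sq N' M₁' M₂' M' :=
  SES.of_iso h e₁ (biprod.mapIso e₂ e₃) e₄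

theorem Sq.map {N M₁ M₂ M : A} (h : Sq N M₁ M₂ M) (F : A ⥤ B) [F.Additive]
    [PreservesFiniteLimits F] [PreservesFiniteColimits F] :
    Sq (F.obj N) (F.obj M₁) (F.obj M₂) (F.obj M) := by
  have := preservesBinaryBiproducts_of_preservesBiproducts F
  exact (SES.map (h : SES _ _ _) F).of_iso (Iso.refl _) (F.mapBiprod M₁ M₂) (Iso.refl _)

end map

variable {k : Type*} [Field k] {E : Type*} {K : Type w} [Field E] [Field K] [Algebra k E]
  [Algebra k K] [Algebra E K] [IsScalarTower k E K]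
variable {C : Type u'} [Category.{v'} C] [Abelian C] [Linear k C]
variable {P : ObjectProperty (ModObj k E C)} (hP : Thk P)

section res

variable {M : Finset (Fin 4) → ℤ → ModObj k K C} (hM : SqData M)

include hP

/-- Koszul squares, in terms of the restriction. -/
theorem koszul_res (O : ℤ → ModObj k K C) (xt : ∀ j, Sq (O (j - 2)) (O (j - 1)) (O (j - 1)) (O j))
    (j₀ : ℤ) (h0 : P ((resE k E K C).obj (O j₀))) (h1 : P ((resE k E K C).obj (O (j₀ + 1))))
    (j : ℤ) : P ((resE k E K C).obj (O j)) :=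
  koszul (thk_res (K := K) hP) O xt j₀ h0 h1 j

include hM

/-- Generation over `F`: the classes of `M∅(0)`, `M₁(0)` (whose conjugates are `M₂(0)` and
`M₃(0)`), `M₄(0)`, `M∅(1)`. -/
theorem gen_F_res (g₁ g₂ : K ≃ₐ[E] K) (c₁ : Nonempty ((conj k C g₁).obj (M {0} 0) ≅ M {1} 0))
    (c₂ : Nonempty ((conj k C g₂).obj (M {0} 0) ≅ M {2} 0))
    (h0 : P ((resE k E K C).obj (M ∅ 0))) (h1 : P ((resE k E K C).obj (M {0} 0)))
    (h4 : P ((resE k E K C).obj (M {3} 0))) (h5 : P ((resE k E K C).obj (M ∅ 1)))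
    (I : Finset (Fin 4)) (a : ℤ) : P ((resE k E K C).obj (M I a)) := by
  have h := thk_res (K := K) hP
  exact hM.gen_F h h0 h1 (h.iso c₁.some (res_conj hP g₁ h1)) (h.iso c₂.some (res_conj hP g₂ h1))
    h4 h5 I a

/-- Generation over `L`: the classes of `M₂(0)`, `K₁`, `M₁₂(0)`. -/
theorem gen_L_res (τ : K ≃ₐ[E] K) (c₂ : Nonempty ((conj k C τ).obj (M {1} 0) ≅ M {0, 1, 3} (-1)))
    (c₁₂ : Nonempty ((conj k C τ).obj (M {0, 1} 0) ≅ M {1, 3} 0))
    (c₂₃₄ : Nonempty ((conj k C τ).obj (M {1, 2, 3} (-1)) ≅ M {0} 0))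
    {K₁ : ModObj k K C} (s₁ : SES (M {0, 1, 2} (-1)) K₁ (M {1, 3} 0))
    (s₂ : SES (M {1, 2, 3} (-1)) K₁ (M {0, 1} 0))
    (h2 : P ((resE k E K C).obj (M {1} 0))) (h12 : P ((resE k E K C).obj (M {0, 1} 0)))
    (hK : P ((resE k E K C).obj K₁)) (I : Finset (Fin 4)) (a : ℤ) :
    P ((resE k E K C).obj (M I a)) := by
  have h := thk_res (K := K) hP
  have s₄ : SES (M {0} 0) ((conj k C τ).obj K₁) (M {1, 3} 0) :=
    (s₂.map (conj k C τ)).of_iso c₂₃₄.some (Iso.refl _) c₁₂.some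
  exact hM.gen_L h s₁ s₄ h2 (h.iso c₂.some (res_conj hP τ h2)) h12
    (h.iso c₁₂.some (res_conj hP τ h12)) hK (res_conj hP τ hK) I a

/-- Generation over `F` from the collection twisted by `m`. -/
theorem gen_F_res_shift (m : ℤ) (g₁ g₂ : K ≃ₐ[E] K)
    (c₁ : Nonempty ((conj k C g₁).obj (M {0} m) ≅ M {1} m))
    (c₂ : Nonempty ((conj k C g₂).obj (M {0} m) ≅ M {2} m))
    (h0 : P ((resE k E K C).obj (M ∅ m))) (h1 : P ((resE k E K C).obj (M {0} m)))
    (h4 : P ((resE k E K C).obj (M {3} m))) (h5 : P ((resE k E K C).obj (M ∅ (m + 1))))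
    (I : Finset (Fin 4)) (a : ℤ) : P ((resE k E K C).obj (M I a)) := by
  have e : ∀ I, M I (m + 0) = M I m := fun I => by rw [add_zero]
  have h := gen_F_res hP (hM.shift m) g₁ g₂ (by rw [e, e]; exact c₁) (by rw [e, e]; exact c₂)
    (by rw [e]; exact h0) (by rw [e]; exact h1) (by rw [e]; exact h4) h5 I (a - m)
  rwa [add_sub_cancel] at h

/-- Generation over `L` from the collection twisted by `m`. -/
theorem gen_L_res_shift (m : ℤ) (τ : K ≃ₐ[E] K)
    (c₂ : Nonempty ((conj k C τ).obj (M {1} m) ≅ M {0, 1, 3} (m - 1)))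
    (c₁₂ : Nonempty ((conj k C τ).obj (M {0, 1} m) ≅ M {1, 3} m))
    (c₂₃₄ : Nonempty ((conj k C τ).obj (M {1, 2, 3} (m - 1)) ≅ M {0} m))
    {K₁ : ModObj k K C} (s₁ : SES (M {0, 1, 2} (m - 1)) K₁ (M {1, 3} m))
    (s₂ : SES (M {1, 2, 3} (m - 1)) K₁ (M {0, 1} m))
    (h2 : P ((resE k E K C).obj (M {1} m))) (h12 : P ((resE k E K C).obj (M {0, 1} m)))
    (hK : P ((resE k E K C).obj K₁)) (I : Finset (Fin 4)) (a : ℤ) :
    P ((resE k E K C).obj (M I a)) := by
  have e : ∀ I, M I (m + 0) = M I m := fun I => by rw [add_zero]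
  have e' : ∀ I, M I (m + -1) = M I (m - 1) := fun I => rfl
  have h := gen_L_res hP (hM.shift m) τ (by rw [e, e']; exact c₂) (by rw [e, e]; exact c₁₂)
    (by rw [e, e']; exact c₂₃₄) (K₁ := K₁) (by rw [e, e']; exact s₁) (by rw [e, e']; exact s₂)
    (by rw [e]; exact h2) (by rw [e]; exact h12) hK I (a - m)
  rwa [add_sub_cancel] at h

end res

section ind

variable [FiniteDimensional E K] [FiniteDimensional k E] [FiniteDimensional k K]

include hP

/-- Descent for `k`-objects whose extension to `K` is isomorphic to a given object. -/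
theorem gen_ind (X : ModObj k k C) {Y : ModObj k K C} (e : (indE k k K C).obj X ≅ Y)
    (hY : P ((resE k E K C).obj Y)) : P ((indE k k E C).obj X) :=
  ind_of_res_ind (K := K) hP X (hP.iso ((resE k E K C).mapIso e.symm) hY)

/-- Descent for `k`-objects whose extension to `K` is a sum of two objects. -/
theorem gen_ind₂ (X : ModObj k k C) {Y Z : ModObj k K C} (e : (indE k k K C).obj X ≅ Y ⊞ Z)
    (hY : P ((resE k E K C).obj Y)) (hZ : P ((resE k E K C).obj Z)) :
    P ((indE k k E C).obj X) :=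
  gen_ind hP X e ((thk_res (K := K) hP).biprod hY hZ)

end ind

end Orl.Q
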