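import Pool.Agent.Work.MP_a6e60d_ag.Q.OApi

/-!
# Projective module objects

A lattice over the extension `κ` which is generated freely over `κ` by one element at one vertex
gives a projective object of `ModObj k κ (ModuleCat T.Alg)`.
-/

open CategoryTheory Orl.LF

set_option linter.unusedSectionVars false

attribute [-instance] CategoryTheory.catToReflQuiver

namespace Orl.Q

open scoped ModuleCat

section kmodule

variable {k A : Type} [Field k] [Ring A] [Algebra k A] {κ : Type} [Field κ] [Algebra k κ]

/-- the vector space over the extension of a module object -/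
@[reducible] def kvec (Y : ModObj k κ (ModuleCat.{0} A)) : Module κ Y.pt where
  smul c y := (Y.act c).hom y
  one_smul y := by
    change (Y.act 1).hom y = y
    rw [ModObj.act_one]
    rfl
  mul_smul c d y := by
    change (Y.act (c * d)).hom y = (Y.act c).hom ((Y.act d).hom y)
    rw [mul_comm, ModObj.act_mul]
    rfl
  smul_zero c := map_zero (Y.act c).hom
  smul_add c x y := map_add (Y.act c).hom x y
  add_smul c d y := by
    change (Y.act (c + d)).hom y = (Y.act c).hom y + (Y.act d).hom y
    rw [ModObj.act_add]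
    rfl
  zero_smul y := by
    change (Y.act 0).hom y = 0
    rw [ModObj.act_zero]
    rfl

theorem kvec_tower (Y : ModObj k κ (ModuleCat.{0} A)) :
    @IsScalarTower k κ Y.pt _ (kvec Y).toSMul _ :=
  letI := kvec Y
  ⟨fun r c y => by
    change (Y.act (r • c)).hom y = r • (Y.act c).hom y
    rw [ModObj.act_smul]
    rfl⟩

end kmodule

variable {k D V : Type} [Field k] [Ring D] [Algebra k D] [Fintype V] [DecidableEq V]
  {T : Tiling k D V} {N : Type} [AddCommGroup N] [Module k N] [Module D N] [IsScalarTower k D N]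
  {κ : Type} [Field κ] [Algebra k κ] [Module κ N] [IsScalarTower k κ N] [SMulCommClass κ D N]

theorem Tiling.mul_single (T : Tiling k D V) (A : T.Alg) {s t : V} {x : D} (hx : x ∈ T.L t s) :
    A * T.single t s x hx = ∑ u, T.single u s (A.1 u t * x) (T.mul_mem (A.2 u t) hx) := by
  apply Subtype.ext
  rw [AddSubmonoidClass.coe_finsetSum]
  change A.1 * Matrix.single t s x = ∑ u, Matrix.single u s (A.1 u t * x)
  ext i j
  rw [Matrix.sum_apply, Matrix.mul_apply]
  by_cases hj : s = j
  · subst hj
    simp [Matrix.single_apply]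
  · simp [hj]

variable (κ) in
/-- `w` is a free generator of the lattice over `κ`, at the vertex `s` -/
structure Lattice.Gen (M : Lattice T N) (s : V) (w : N) : Prop where
  mem : w ∈ M.M s
  span : ∀ t n, n ∈ M.M t → n ∈ Submodule.span κ ((fun x : D => x • w) '' (T.L t s : Set D))
  ext : ∀ (t : V) (P : Type) [AddCommGroup P] [Module k P] [Module κ P] [IsScalarTower k κ P]
    (g : T.L t s →ₗ[k] P), ∃ G : N →ₗ[κ] P, ∀ x : T.L t s, G (x.1 • w) = g x

theorem Lattice.Gen.projective {M : Lattice T N} (hM : M.Stable κ) {s : V} {w : N}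
    (h : M.Gen κ s w) : Projective (Lattice.kmod hM) := by
  constructor
  intro E X f e he
  have hsurj : Function.Surjective (ModObj.homPt e).hom :=
    (ModuleCat.epi_iff_surjective _).1 ((LF.epi_iff e).1 he (SingleObj.star κ))
  let f' : M.El →ₗ[T.Alg] X.pt := (ModObj.homPt f).hom
  let e' : E.pt →ₗ[T.Alg] X.pt := (ModObj.homPt e).hom
  let i1 : Module κ E.pt := kvec E
  let i2 : Module κ X.pt := kvec X
  have i3 : IsScalarTower k κ E.pt := kvec_tower E
  have hA : ∀ (c : κ) (A : T.Alg) (y : E.pt), A • c • y = c • A • y := fun c A y =>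
    ((E.act c).hom.map_smul A y).symm
  have he' : ∀ (c : κ) (y : E.pt), e' (c • y) = c • e' y := fun c y =>
    congrArg (fun z : E.pt ⟶ X.pt => z.hom y) (ModObj.act_homPt e c)
  have hf' : ∀ (c : κ) (m : M.El), f' (Lattice.act hM c m) = c • f' m := fun c y =>
    congrArg (fun z : M.mod ⟶ X.pt => z.hom y) (ModObj.act_homPt f c)
  obtain ⟨y0, hy0⟩ : ∃ y0 : E.pt, e' y0 = f' (M.inj s ⟨w, h.mem⟩) :=
    hsurj (f' (M.inj s ⟨w, h.mem⟩))
  let g : ∀ t, T.L t s →ₗ[k] E.pt := fun t =>
    { toFun := fun x => T.single t s x.1 x.2 • y0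
      map_add' := fun x y => by
        rw [← add_smul, ← T.single_add]
        rfl
      map_smul' := fun c x => by
        rw [RingHom.id_apply, ← smul_assoc, ← T.single_smul]
        rfl }
  choose G hG using fun t => h.ext t E.pt (g t)
  have hG' : ∀ t (x : D) (hx : x ∈ T.L t s), G t (x • w) = T.single t s x hx • y0 :=
    fun t x hx => hG t ⟨x, hx⟩
  have key : ∀ (A : T.Alg) (t : V) (n : N), n ∈ M.M t →
      A • G t n = ∑ u, G u (A.1 u t • n) := by
    intro A t n hn
    refine Submodule.span_induction (p := fun n _ => A • G t n = ∑ u, G u (A.1 u t • n))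
      ?_ ?_ ?_ ?_ (h.span t n hn)
    · rintro _ ⟨x, hx, rfl⟩
      change A • G t (x • w) = _
      rw [hG' t x hx, ← mul_smul, T.mul_single A hx, Finset.sum_smul]
      refine Finset.sum_congr rfl fun u _ => ?_
      rw [← hG' u _ (T.mul_mem (A.2 u t) hx), mul_smul]
    · simp
    · intro n m _ _ hn hm
      simp only [map_add, smul_add, Finset.sum_add_distrib, hn, hm]
    · intro c n _ hn
      rw [map_smul, hA, hn, Finset.smul_sum]
      refine Finset.sum_congr rfl fun u _ => ?_
      rw [← map_smul, smul_comm]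
  let F : M.El →ₗ[T.Alg] E.pt :=
    { toFun := fun m => ∑ t, G t (m t).1
      map_add' := fun m m' => by
        rw [← Finset.sum_add_distrib]
        refine Finset.sum_congr rfl fun t _ => ?_
        rw [← map_add]
        rfl
      map_smul' := fun A m => by
        rw [RingHom.id_apply, Finset.smul_sum]
        have h1 : ∀ u, G u ((A • m) u).1 = ∑ t, G u (A.1 u t • (m t).1) := fun u => by
          rw [Lattice.smul_apply, map_sum]
        rw [Finset.sum_congr rfl fun u _ => h1 u, Finset.sum_comm]
        exact Finset.sum_congr rfl fun t _ => (key A t _ (m t).2).symm }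
  have hF : ∀ m, F m = ∑ t, G t (m t).1 := fun _ => rfl
  refine ⟨ModObj.homMk (M := Lattice.kmod hM) (N := E) (ModuleCat.ofHom F) fun c => ?_,
    ModObj.hom_ext (ModuleCat.hom_ext (LinearMap.ext fun m => ?_))⟩
  · refine ModuleCat.hom_ext (LinearMap.ext fun m => ?_)
    change F (Lattice.act hM c m) = c • F m
    rw [hF, hF, Finset.smul_sum]
    refine Finset.sum_congr rfl fun t _ => ?_
    rw [Lattice.act_apply, map_smul]
  · change e' (F m) = f' m
    have key2 : ∀ t n, n ∈ M.M t → ∃ hn : n ∈ M.M t, e' (G t n) = f' (M.inj t ⟨n, hn⟩) := by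
      intro t n hn
      refine Submodule.span_induction
        (p := fun n _ => ∃ hn : n ∈ M.M t, e' (G t n) = f' (M.inj t ⟨n, hn⟩))
        ?_ ?_ ?_ ?_ (h.span t n hn)
      · rintro _ ⟨x, hx, rfl⟩
        refine ⟨M.smul_mem hx h.mem, ?_⟩
        rw [hG' t x hx, e'.map_smul, hy0, ← f'.map_smul]
        congr 1
        exact Lattice.single_smul_inj M hx ⟨w, h.mem⟩
      · refine ⟨Submodule.zero_mem _, ?_⟩
        rw [map_zero, map_zero]
        have : M.inj t ⟨0, Submodule.zero_mem _⟩ = 0 := map_zero (M.inj t)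
        rw [this, map_zero]
      · rintro n m _ _ ⟨hn, hn'⟩ ⟨hm, hm'⟩
        refine ⟨Submodule.add_mem _ hn hm, ?_⟩
        rw [map_add, map_add, hn', hm', ← map_add]
        congr 1
        exact (map_add (M.inj t) ⟨n, hn⟩ ⟨m, hm⟩).symm
      · rintro c n _ ⟨hn, hn'⟩
        refine ⟨hM t c n hn, ?_⟩
        rw [map_smul, he', hn', ← hf']
        congr 1
        ext u
        rw [Lattice.act_apply]
        by_cases hu : u = t
        · subst hu
          rw [Lattice.inj_same, Lattice.inj_same]
        · rw [Lattice.inj_ne _ hu, Lattice.inj_ne _ hu]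
          exact smul_zero c
    rw [hF, map_sum]
    conv_rhs => rw [← M.sum_inj m, map_sum]
    refine Finset.sum_congr rfl fun t _ => ?_
    obtain ⟨_, h1⟩ := key2 t _ (m t).2
    exact h1

end Orl.Q
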