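import Pool.Agent.Work.MP_a6e60d_ag.Q.CutMM
import Pool.Agent.Work.MP_a6e60d_ag.Q.Proj

/-!
# The parts of the line bundles are projective
-/

open CategoryTheory CategoryTheory.Abelian CategoryTheory.Limits LaurentPolynomial Quaternion
  Orl.LF

set_option linter.unusedSectionVars false

attribute [-instance] CategoryTheory.catToReflQuiver

universe w

namespace Orl.Q

section ext

variable {k : Type} [Field k] {κ : Type} [Field κ] [Algebra k κ] {P : Type} [AddCommGroup P]
  [Module k P] [Module κ P] [IsScalarTower k κ P]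

/-- the `κ`-linear extension of values on the monomials -/
noncomputable def monL (κ : Type) [Field κ] {P : Type} [AddCommGroup P] [Module κ P] (u : ℤ → P) :
    κ[T;T⁻¹] →ₗ[κ] P :=
  Finsupp.linearCombination κ u ∘ₗ (AddMonoidAlgebra.coeffLinearEquiv κ).toLinearMap

theorem monL_apply (u : ℤ → P) (f : κ[T;T⁻¹]) :
    monL κ u f = f.coeff.sum fun m c => c • u m := rfl

theorem monL_C_mul_T (u : ℤ → P) (c : κ) (m : ℤ) : monL κ u (C c * T m) = c • u m := by
  rw [← single_eq_C_mul_T, monL_apply, AddMonoidAlgebra.coeff_single, Finsupp.sum_single_index]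
  rw [zero_smul]

theorem bc_C_mul_T (c : k) (m : ℤ) : bc κ (C c * T m) = C (algebraMap k κ c) * T m := by
  rw [map_mul, bc_C, Fac.bc_T]

/-- a Laurent polynomial is the sum of its monomials -/
theorem eq_sum_mono (f : k[T;T⁻¹]) : f = ∑ m ∈ f.coeff.support, C (f.coeff m) * T m := by
  ext j
  rw [AddMonoidAlgebra.coeff_sum, Finsupp.finsetSum_apply]
  by_cases h : j ∈ f.coeff.support
  · rw [Finset.sum_eq_single_of_mem j h]
    · rw [← single_eq_C_mul_T, AddMonoidAlgebra.coeff_single, Finsupp.single_eq_same]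
    · intro m _ hm
      rw [← single_eq_C_mul_T, AddMonoidAlgebra.coeff_single, Finsupp.single_apply, if_neg hm]
  · rw [Finset.sum_eq_zero]
    · exact Finsupp.notMem_support_iff.1 h
    · intro m hm
      rw [← single_eq_C_mul_T, AddMonoidAlgebra.coeff_single, Finsupp.single_apply, if_neg]
      rintro rfl
      exact h hm

/-- the extension of a linear map on the sections over `k` -/
theorem exists_monL {v : Ch} {n : ℤ} (g : lat k v n →ₗ[k] P) :
    ∃ G : κ[T;T⁻¹] →ₗ[κ] P, ∀ (f : k[T;T⁻¹]) (hf : f ∈ lat k v n), G (bc κ f) = g ⟨f, hf⟩ := by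
  classical
  let u : ℤ → P := fun m => if h : v.Ok n m then g ⟨T m, T_mem_lat h⟩ else 0
  refine ⟨monL κ u, fun f hf => ?_⟩
  have h1 : ∀ m ∈ f.coeff.support, v.Ok n m := fun m hm => hf m (Finsupp.mem_support_iff.1 hm)
  have h2 : monL κ u (bc κ f) = ∑ m ∈ f.coeff.support, f.coeff m • u m := by
    conv_lhs => rw [eq_sum_mono f, map_sum, map_sum]
    refine Finset.sum_congr rfl fun m _ => ?_
    rw [bc_C_mul_T, monL_C_mul_T, algebraMap_smul]
  have h3 : (⟨f, hf⟩ : lat k v n) = ∑ m ∈ f.coeff.support.attach,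
      f.coeff m.1 • ⟨T m.1, T_mem_lat (h1 m.1 m.2)⟩ := by
    refine Subtype.ext ?_
    rw [AddSubmonoidClass.coe_finsetSum]
    refine (eq_sum_mono f).trans ?_
    rw [← Finset.sum_attach]
    refine Finset.sum_congr rfl fun m _ => ?_
    show _ = f.coeff m.1 • T m.1
    rw [LaurentPolynomial.smul_eq_C_mul]
  rw [h2, h3, map_sum, ← Finset.sum_attach]
  refine Finset.sum_congr rfl fun m _ => ?_
  rw [map_smul]
  congr 1
  exact dif_pos (h1 m.1 m.2)

end ext

section

variable {k : Type} [Field k] {δ : Dat k} {κ : Type} [Field κ] [Algebra k κ] {φ : Fac δ κ}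

theorem Dat.slat_sc {v : Ch} {n : ℤ} {f : k[T;T⁻¹]} (hf : f ∈ lat k v n) :
    (Fac.sc f : δ.D) ∈ δ.slat v n := ⟨hf, rfl, rfl, rfl⟩

theorem Dat.eq_sc {v : Ch} {n : ℤ} {x : δ.D} (hx : x ∈ δ.slat v n) : x = Fac.sc x.re := by
  ext1
  · rfl
  · exact hx.2.1
  · exact hx.2.2.1
  · exact hx.2.2.2

theorem Fac.sc_vec (f : k[T;T⁻¹]) (p q : κ[T;T⁻¹]) :
    (Fac.sc f : δ.D) • φ.vec p q = φ.vec (bc κ f * p) (bc κ f * q) := by
  rw [Fac.sc_smul]
  rfl

theorem Fac.gen_cutO (φ : Fac δ κ) (n : ℤ) (v : Ch) :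
    ((φ.latO n).cut v).Gen κ (v, false) (φ.vec (gen κ v n) 0) where
  mem := Lattice.mem_cut.2 (Or.inl ⟨Ch.le_refl v, Fac.vec_mem_latO (gen_mem v n)⟩)
  span := by
    intro t x hx
    rcases Lattice.mem_cut.1 hx with ⟨hv, hx⟩ | rfl
    · rcases Fac.mem_latO_iff.1 hx with ⟨h1, h2, h3⟩ | rfl
      · obtain ⟨w, b⟩ := t
        simp only at h1 h2 hv
        subst h1
        have hL : δ.tiling.L (w, false) (v, false) = δ.slat w 0 := by
          rw [Dat.tiling_L, Dat.tile_ff hv]
        rw [hL]
        -- the coefficient after division by the generator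
        have h4 : gen κ v (-n) * x.1 ∈ Orl.Q.lat κ w 0 := by
          rcases hv with rfl | rfl
          · exact lat_mul' (gen_mem v (-n)) h2 (by ring)
          · exact mem_lat_mid _
        have h5 : x = φ.vec ((gen κ v (-n) * x.1) * gen κ v n) 0 := by
          ext1
          · rw [Fac.vec_fst, mul_right_comm, gen_neg_mul, one_mul]
          · exact h3
        rw [h5]
        have key : ∀ f : κ[T;T⁻¹], f ∈ Orl.Q.lat κ w 0 → φ.vec (f * gen κ v n) 0 ∈
            Submodule.span κ ((fun x : δ.D => x • φ.vec (gen κ v n) 0) ''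
              (δ.slat w 0 : Set δ.D)) := by
          intro f hf
          have h6 : φ.vec (f * gen κ v n) 0 = ∑ m ∈ f.coeff.support,
              f.coeff m • ((Fac.sc (T m) : δ.D) • φ.vec (gen κ v n) 0) := by
            have h7 : ∀ m, f.coeff m • ((Fac.sc (T m) : δ.D) • φ.vec (gen κ v n) 0) =
                (C (f.coeff m) * T m : κ[T;T⁻¹]) • φ.vec (gen κ v n) 0 := by
              intro m
              rw [Fac.sc_T_smul, mul_smul, Fac.C_smul]
            rw [Finset.sum_congr rfl fun m _ => h7 m, ← Finset.sum_smul, ← eq_sum_mono f]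
            ext1
            · rfl
            · rw [Fac.rsmul_snd, Fac.vec_snd, Fac.vec_snd, mul_zero]
          rw [h6]
          refine Submodule.sum_mem _ fun m hm => Submodule.smul_mem _ _ (Submodule.subset_span ?_)
          exact ⟨Fac.sc (T m), Dat.slat_sc (T_mem_lat (hf m (Finsupp.mem_support_iff.1 hm))), rfl⟩
        exact key _ h4
      · exact Submodule.zero_mem _
    · exact Submodule.zero_mem _
  ext := by
    intro t P _ _ _ _ g
    by_cases ht : v ≤ t.1 ∧ t.2 = false
    · obtain ⟨w, b⟩ := t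
      obtain ⟨hv, hb⟩ := ht
      simp only at hv hb
      subst hb
      have hL : ∀ x, x ∈ δ.tiling.L (w, false) (v, false) ↔ x ∈ δ.slat w 0 := fun x => by
        rw [Dat.tiling_L, Dat.tile_ff hv]
      let g' : Orl.Q.lat k w 0 →ₗ[k] P :=
        { toFun := fun f => g ⟨Fac.sc f.1, (hL _).2 (Dat.slat_sc f.2)⟩
          map_add' := fun a b => by
            rw [← map_add]
            congr 1
            refine Subtype.ext ?_
            show (Fac.sc (a.1 + b.1) : δ.D) = Fac.sc a.1 + Fac.sc b.1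
            ext1 <;> simp [Fac.sc]
          map_smul' := fun c a => by
            rw [RingHom.id_apply, ← map_smul]
            congr 1
            refine Subtype.ext ?_
            show (Fac.sc (c • a.1) : δ.D) = c • Fac.sc a.1
            ext1 <;> simp [Fac.sc] }
      obtain ⟨G, hG⟩ := exists_monL (κ := κ) g'
      refine ⟨G ∘ₗ LinearMap.mulLeft κ (gen κ v (-n)) ∘ₗ
        ({ toFun := fun z : φ.N => z.1
           map_add' := fun _ _ => rfl
           map_smul' := fun _ _ => rfl } : φ.N →ₗ[κ] κ[T;T⁻¹]), ?_⟩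
      rintro ⟨x, hx⟩
      have hx' := (hL x).1 hx
      have e := Dat.eq_sc hx'
      have e1 : x • φ.vec (gen κ v n) 0 = φ.vec (bc κ x.re * gen κ v n) 0 := by
        conv_lhs => rw [e, Fac.sc_vec, mul_zero]
      show G (gen κ v (-n) * (x • φ.vec (gen κ v n) 0).1) = g ⟨x, hx⟩
      rw [e1, Fac.vec_fst, mul_left_comm, gen_neg_mul, mul_one, hG x.re hx'.1]
      show g ⟨Fac.sc x.re, _⟩ = g ⟨x, hx⟩
      congr 1
      exact Subtype.ext e.symm
    · have hL : ∀ x, x ∈ δ.tiling.L t (v, false) → x = 0 := by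
        intro x hx
        obtain ⟨w, b⟩ := t
        rw [Dat.tiling_L] at hx
        by_cases hv : v ≤ w
        · cases b
          · exact absurd ⟨hv, rfl⟩ ht
          · rwa [Dat.tile_tf, Submodule.mem_bot] at hx
        · rwa [Dat.tile_not hv, Submodule.mem_bot] at hx
      refine ⟨0, fun x => ?_⟩
      have hx : x = 0 := Subtype.ext (hL x.1 x.2)
      rw [hx, map_zero]
      rfl

theorem Fac.acyc_cutO' [HasExt.{w} (ModObj k κ (ModuleCat.{0} δ.Alg))] (φ : Fac δ κ) (n : ℤ)
    (v : Ch) (Y : ModObj k κ δ.Cat) :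
    Acyc.{w} (Lattice.kmod (Lattice.cut_stable (φ.latO_stable n) v)) Y := by
  have := (φ.gen_cutO n v).projective (Lattice.cut_stable (φ.latO_stable n) v)
  exact Acyc.of_projective _ _

end

end Orl.Q
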