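import Pool.Agent.Work.MP_a6e60d_ag.Q.Conj
import Pool.Agent.Work.MP_a6e60d_ag.Gal.Base

/-!
# A criterion for `K ⊗_E M ≅ N`

A morphism `f` from an `E`-module object `M` to the restriction of a `K`-module object `N` gives
an isomorphism `K ⊗_E M → N` if every element of `N` is uniquely of the form `∑ b_i f(x_i)`.
-/

open CategoryTheory LaurentPolynomial Quaternion Orl.LF Orl.Gal

set_option linter.unusedSectionVars false

attribute [-instance] CategoryTheory.catToReflQuiver

namespace Orl.Q

universe w v' u'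

section crit

variable {k : Type*} [Field k] {E : Type*} {K : Type w} [Field E] [Field K] [Algebra k E]
  [Algebra k K] [Algebra E K] [IsScalarTower k E K]
variable {C : Type u'} [Category.{v'} C] [Abelian C] [Linear k C] [Module.Finite E K]

theorem isIso_indDesc {M : ModObj k E C} {N : ModObj k K C} (f : M ⟶ (resE k E K C).obj N)
    (c : Fin (Module.finrank E K) → (N.pt ⟶ M.pt))
    (h1 : ∀ i, (dn f ≫ N.act (Module.finBasis E K i)) ≫ c i = 𝟙 M.pt)
    (h2 : ∀ i j, i ≠ j → (dn f ≫ N.act (Module.finBasis E K i)) ≫ c j = 0)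
    (h3 : ∑ i, c i ≫ dn f ≫ N.act (Module.finBasis E K i) = 𝟙 N.pt) : IsIso (indDesc f) := by
  rw [isIso_iff]
  rintro ⟨⟩
  have h4 : ∀ i, tin M K i ≫ up (indDesc f) = dn f ≫ N.act (Module.finBasis E K i) := by
    intro i
    rw [← tmk_basis, tmk_indDesc]
  refine ⟨∑ i, c i ≫ tin M K i, ?_, ?_⟩
  · refine tens_ext_tin M K fun i => ?_
    change tin M K i ≫ up (indDesc f) ≫ ∑ i, c i ≫ tin M K i = tin M K i ≫ 𝟙 (tens M K)
    rw [Category.comp_id, Preadditive.comp_sum, Preadditive.comp_sum, Finset.sum_eq_single i]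
    · rw [← Category.assoc, h4, ← Category.assoc, h1, Category.id_comp]
    · intro j _ hj
      rw [← Category.assoc, h4, ← Category.assoc, h2 i j hj.symm, Limits.zero_comp]
    · simp
  · change (∑ i, c i ≫ tin M K i) ≫ up (indDesc f) = 𝟙 N.pt
    rw [Preadditive.sum_comp, ← h3]
    refine Finset.sum_congr rfl fun i _ => ?_
    rw [Category.assoc, h4]

end crit

section critMod

variable {k : Type} [Field k] {R : Type} [Ring R] [Algebra k R] {E K : Type} [Field E] [Field K]
  [Algebra k E] [Algebra k K] [Algebra E K] [IsScalarTower k E K] [Module.Finite E K]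

theorem isIso_indDesc_mod {M : ModObj k E (ModuleCat.{0} R)} {N : ModObj k K (ModuleCat.{0} R)}
    (f : M ⟶ (resE k E K (ModuleCat.{0} R)).obj N)
    (h : Function.Bijective (fun x : Fin (Module.finrank E K) → M.pt =>
      ∑ i, (N.act (Module.finBasis E K i)).hom ((dn f).hom (x i)))) : IsIso (indDesc f) := by
  classical
  let F : (Fin (Module.finrank E K) → M.pt) →ₗ[R] N.pt :=
    ∑ i, ((N.act (Module.finBasis E K i)).hom ∘ₗ (dn f).hom) ∘ₗ LinearMap.proj i
  have hF : ∀ x, F x = ∑ i, (N.act (Module.finBasis E K i)).hom ((dn f).hom (x i)) := by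
    intro x
    rw [LinearMap.sum_apply]
    rfl
  have hb : Function.Bijective F := by
    have : (F : (Fin (Module.finrank E K) → M.pt) → N.pt) = _ := funext hF
    rw [this]
    exact h
  let e := LinearEquiv.ofBijective F hb
  have he : ∀ x, e x = ∑ i, (N.act (Module.finBasis E K i)).hom ((dn f).hom (x i)) := hF
  have hs : ∀ i (m : M.pt), e (Pi.single i m) =
      (N.act (Module.finBasis E K i)).hom ((dn f).hom m) := by
    intro i m
    rw [he, Finset.sum_eq_single i]
    · rw [Pi.single_eq_same]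
    · intro j _ hj
      rw [Pi.single_eq_of_ne hj, map_zero, map_zero]
    · simp
  refine isIso_indDesc f (fun i => ModuleCat.ofHom ((LinearMap.proj i) ∘ₗ e.symm.toLinearMap))
    (fun i => ?_) (fun i j hij => ?_) ?_
  · apply ModuleCat.hom_ext
    refine LinearMap.ext fun m => ?_
    change e.symm ((N.act (Module.finBasis E K i)).hom ((dn f).hom m)) i = m
    rw [← hs, LinearEquiv.symm_apply_apply, Pi.single_eq_same]
  · apply ModuleCat.hom_ext
    refine LinearMap.ext fun m => ?_
    change e.symm ((N.act (Module.finBasis E K i)).hom ((dn f).hom m)) j = 0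
    rw [← hs, LinearEquiv.symm_apply_apply, Pi.single_eq_of_ne hij.symm]
  · apply ModuleCat.hom_ext
    refine LinearMap.ext fun y => ?_
    rw [ModuleCat.hom_sum, LinearMap.sum_apply]
    exact (he (e.symm y)).symm.trans (e.apply_symm_apply y)

end critMod

section lattice

variable {k D V : Type} [Field k] [Ring D] [Algebra k D] [Fintype V] [DecidableEq V]
  {T : Tiling k D V} {N N' : Type} [AddCommGroup N] [Module k N] [Module D N]
  [IsScalarTower k D N] [AddCommGroup N'] [Module k N'] [Module D N'] [IsScalarTower k D N']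
  {E K : Type} [Field E] [Algebra k E] [Module E N] [IsScalarTower k E N] [SMulCommClass E D N]
  [Field K] [Algebra k K] [Module K N'] [IsScalarTower k K N'] [SMulCommClass K D N']
  [Algebra E K] [IsScalarTower k E K] [Module.Finite E K]
  {M : Lattice T N} (hM : M.Stable E) {M' : Lattice T N'} (hM' : M'.Stable K)

/-- the morphism to the restriction of scalars given by a family -/
noncomputable def Lattice.Fam.toResE (u : M.Fam M')
    (hc : ∀ (s : V) (c : E) (x : M.M s),
      (u.f s ⟨c • x.1, hM s c _ x.2⟩).1 = algebraMap E K c • (u.f s x).1) :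
    Lattice.kmod hM ⟶ (resE k E K (ModuleCat.{0} T.Alg)).obj (Lattice.kmod hM') :=
  dnMk (M := Lattice.kmod hM) (N := Lattice.kmod hM') u.hom
    (fun c => by
      apply ModuleCat.hom_ext
      refine LinearMap.ext fun x => Lattice.El.ext' fun s => ?_
      exact hc s c (x s))

theorem Lattice.Fam.dn_toResE (u : M.Fam M')
    (hc : ∀ (s : V) (c : E) (x : M.M s),
      (u.f s ⟨c • x.1, hM s c _ x.2⟩).1 = algebraMap E K c • (u.f s x).1) :
    dn (Lattice.Fam.toResE hM hM' u hc) = u.hom := rfl

theorem Lattice.Fam.isIso_indDesc (u : M.Fam M')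
    (hc : ∀ (s : V) (c : E) (x : M.M s),
      (u.f s ⟨c • x.1, hM s c _ x.2⟩).1 = algebraMap E K c • (u.f s x).1)
    (hi : ∀ s (x : Fin (Module.finrank E K) → M.M s),
      ∑ i, Module.finBasis E K i • (u.f s (x i)).1 = 0 → ∀ i, (x i).1 = 0)
    (hs : ∀ s (y : N'), y ∈ M'.M s → ∃ x : Fin (Module.finrank E K) → M.M s,
      ∑ i, Module.finBasis E K i • (u.f s (x i)).1 = y) :
    IsIso (indDesc (Lattice.Fam.toResE hM hM' u hc)) := by
  have key : ∀ (x : Fin (Module.finrank E K) → M.El) (s : V),
      ((∑ i, ((Lattice.kmod hM').act (Module.finBasis E K i)).hom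
        ((dn (Lattice.Fam.toResE hM hM' u hc)).hom (x i)) : M'.El) s).1 =
        ∑ i, Module.finBasis E K i • (u.f s (x i s)).1 := by
    intro x s
    have h1 : ∀ (t : Finset (Fin (Module.finrank E K)))
        (z : Fin (Module.finrank E K) → M'.El),
        ((∑ i ∈ t, z i : M'.El) s).1 = ∑ i ∈ t, (z i s).1 := by
      intro t z
      classical
      induction t using Finset.induction_on with
      | empty => rfl
      | insert i t hi ih =>
        rw [Finset.sum_insert hi, Finset.sum_insert hi, ← ih]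
        rfl
    exact h1 _ _
  refine isIso_indDesc_mod _ ⟨?_, ?_⟩
  · intro x y hxy
    have h0 : ∀ i s, (x i s).1 - (y i s).1 = 0 := by
      intro i s
      refine hi s (fun i => x i s - y i s) ?_ i
      have h1 := congrArg (fun z : M'.El => (z s).1) hxy
      have h2 := (key x s).symm.trans (h1.trans (key y s))
      have h3 : ∀ i, Module.finBasis E K i • (u.f s (x i s - y i s)).1 =
          Module.finBasis E K i • (u.f s (x i s)).1 -
            Module.finBasis E K i • (u.f s (y i s)).1 := by
        intro i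
        rw [map_sub, ← smul_sub]
        rfl
      rw [Finset.sum_congr rfl fun i _ => h3 i, Finset.sum_sub_distrib, h2, sub_self]
    refine funext fun i => Lattice.El.ext' fun s => sub_eq_zero.1 (h0 i s)
  · intro y
    choose x hx using fun s => hs s (y s).1 (y s).2
    refine ⟨fun i s => x s i, ?_⟩
    refine Lattice.El.ext' fun s => ?_
    exact (key _ s).trans (hx s)

/-- `K ⊗_E M ≅ M'` -/
noncomputable def Lattice.Fam.indIso (u : M.Fam M')
    (hc : ∀ (s : V) (c : E) (x : M.M s),
      (u.f s ⟨c • x.1, hM s c _ x.2⟩).1 = algebraMap E K c • (u.f s x).1)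
    (hi : ∀ s (x : Fin (Module.finrank E K) → M.M s),
      ∑ i, Module.finBasis E K i • (u.f s (x i)).1 = 0 → ∀ i, (x i).1 = 0)
    (hs : ∀ s (y : N'), y ∈ M'.M s → ∃ x : Fin (Module.finrank E K) → M.M s,
      ∑ i, Module.finBasis E K i • (u.f s (x i)).1 = y) :
    (indE k E K (ModuleCat.{0} T.Alg)).obj (Lattice.kmod hM) ≅ Lattice.kmod hM' :=
  haveI := Lattice.Fam.isIso_indDesc hM hM' u hc hi hs
  asIso (indDesc (Lattice.Fam.toResE hM hM' u hc))

end lattice

/-! ### The expansion of Laurent polynomials -/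

section expand

variable {E K : Type} [Field E] [Field K] [Algebra E K] {ι : Type} [Fintype ι]
  (b : Module.Basis ι E K)

/-- the coordinates of a Laurent polynomial -/
noncomputable def crd (i : ι) (f : K[T;T⁻¹]) : E[T;T⁻¹] :=
  AddMonoidAlgebra.ofCoeff (f.coeff.mapRange (fun c => b.repr c i) (by simp))

theorem crd_coeff (i : ι) (f : K[T;T⁻¹]) (m : ℤ) :
    (crd b i f).coeff m = b.repr (f.coeff m) i := rfl

theorem crd_mem {v : Ch} {n : ℤ} {f : K[T;T⁻¹]} (hf : f ∈ lat K v n) (i : ι) :
    crd b i f ∈ lat E v n := by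
  intro m hm
  refine hf m fun h => hm ?_
  rw [crd_coeff, h, map_zero]
  rfl

theorem sum_coeff (x : ι → K[T;T⁻¹]) (m : ℤ) : (∑ i, x i).coeff m = ∑ i, (x i).coeff m := by
  rw [AddMonoidAlgebra.coeff_sum, Finsupp.finsetSum_apply]

theorem sum_crd (f : K[T;T⁻¹]) : ∑ i, b i • bc K (crd b i f) = f := by
  ext m
  rw [sum_coeff]
  conv_rhs => rw [← b.sum_repr (f.coeff m)]
  refine Finset.sum_congr rfl fun i _ => ?_
  rw [AddMonoidAlgebra.coeff_smul, Finsupp.smul_apply, bc_coeff, crd_coeff, smul_eq_mul, mul_comm,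
    Algebra.smul_def]

theorem eq_zero_of_sum (x : ι → E[T;T⁻¹]) (h : ∑ i, b i • bc K (x i) = 0) : ∀ i, x i = 0 := by
  intro i
  ext m
  have h1 : (∑ i, b i • bc K (x i)).coeff m = (0 : K[T;T⁻¹]).coeff m := by rw [h]
  rw [sum_coeff] at h1
  have h2 : ∑ i, (x i).coeff m • b i = 0 := by
    refine Eq.trans (Finset.sum_congr rfl fun i _ => ?_) h1
    rw [AddMonoidAlgebra.coeff_smul, Finsupp.smul_apply, bc_coeff, smul_eq_mul, mul_comm,
      Algebra.smul_def]
  exact Fintype.linearIndependent_iff.1 b.linearIndependent _ h2 i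

end expand

end Orl.Q
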