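import Pool.Agent.Work.MP_a6e60d_ag.Q.Res
import Pool.Agent.Work.MP_a6e60d_ag.LF.LinFun

/-!
MP_a6e60d_ag, Q5: groups Ext and extensions; the table of the groups Ext between the objects of
rank one and the line bundles.
-/

open CategoryTheory CategoryTheory.Abelian CategoryTheory.Limits Orl.LF

attribute [-instance] CategoryTheory.catToReflQuiver

universe w v u

namespace Orl.Q

variable {C : Type u} [Category.{v} C] [Abelian C] [HasExt.{w} C]

/-- all groups Ext vanish -/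
def Vani (X Y : C) : Prop := ∀ n : ℕ, Subsingleton (Ext.{w} X Y n)

theorem Vani.acyc {X Y : C} (h : Vani.{w} X Y) : Acyc.{w} X Y := fun n _ => h n

theorem Vani.hom {X Y : C} (h : Vani.{w} X Y) (f : X ⟶ Y) : f = 0 := by
  have := h 0
  apply (Ext.mk₀_bijective X Y).1
  exact Subsingleton.elim _ _

theorem vani_of_acyc {X Y : C} (h : Acyc.{w} X Y) (h0 : ∀ f : X ⟶ Y, f = 0) : Vani.{w} X Y := by
  intro n
  rcases Nat.eq_zero_or_pos n with rfl | hn
  · refine subsingleton_of_forall_eq 0 fun x => ?_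
    obtain ⟨f, rfl⟩ := (Ext.mk₀_bijective X Y).2 x
    rw [h0 f, Ext.mk₀_zero]
  · exact h n hn

theorem ext_subsingleton_iso {X X' Y Y' : C} (i : X ≅ X') (j : Y ≅ Y') {p : ℕ}
    (h : Subsingleton (Ext.{w} X Y p)) : Subsingleton (Ext.{w} X' Y' p) := by
  refine ⟨fun e e' => ?_⟩
  have key : ∀ e : Ext.{w} X' Y' p, e = 0 := fun e => by
    have h1 : (Ext.mk₀ i.hom).comp (e.comp (Ext.mk₀ j.inv) (add_zero p)) (zero_add p) =
      (0 : Ext.{w} X Y p) := Subsingleton.elim _ _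
    have h2 := congrArg (fun x : Ext.{w} X Y p =>
      (Ext.mk₀ i.inv).comp (x.comp (Ext.mk₀ j.hom) (add_zero p)) (zero_add p)) h1
    simpa [← Ext.comp_assoc_of_second_deg_zero, Ext.mk₀_comp_mk₀] using h2
  rw [key e, key e']

theorem Acyc.iso {X X' Y Y' : C} (h : Acyc.{w} X Y) (i : X ≅ X') (j : Y ≅ Y') : Acyc.{w} X' Y' :=
  fun n hn => ext_subsingleton_iso i j (h n hn)

theorem Vani.iso {X X' Y Y' : C} (h : Vani.{w} X Y) (i : X ≅ X') (j : Y ≅ Y') : Vani.{w} X' Y' :=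
  fun n => ext_subsingleton_iso i j (h n)

section ses

variable {S : ShortComplex C} (hS : S.ShortExact) {Y : C}

include hS

theorem subsingleton_ext_mid {n : ℕ} (h1 : Subsingleton (Ext.{w} Y S.X₁ n))
    (h3 : Subsingleton (Ext.{w} Y S.X₃ n)) : Subsingleton (Ext.{w} Y S.X₂ n) := by
  refine subsingleton_of_forall_eq 0 fun x => ?_
  obtain ⟨y, rfl⟩ := Ext.covariant_sequence_exact₂ Y hS x (Subsingleton.elim _ _)
  rw [Subsingleton.elim y 0, Ext.zero_comp]

theorem subsingleton_ext_mid' {n : ℕ} (h1 : Subsingleton (Ext.{w} S.X₁ Y n))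
    (h3 : Subsingleton (Ext.{w} S.X₃ Y n)) : Subsingleton (Ext.{w} S.X₂ Y n) := by
  refine subsingleton_of_forall_eq 0 fun x => ?_
  obtain ⟨y, rfl⟩ := Ext.contravariant_sequence_exact₂ hS Y x (Subsingleton.elim _ _)
  rw [Subsingleton.elim y 0, Ext.comp_zero]

theorem Acyc.mid (h1 : Acyc.{w} Y S.X₁) (h3 : Acyc.{w} Y S.X₃) : Acyc.{w} Y S.X₂ :=
  fun n hn => subsingleton_ext_mid hS (h1 n hn) (h3 n hn)

theorem Acyc.mid' (h1 : Acyc.{w} S.X₁ Y) (h3 : Acyc.{w} S.X₃ Y) : Acyc.{w} S.X₂ Y :=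
  fun n hn => subsingleton_ext_mid' hS (h1 n hn) (h3 n hn)

theorem Vani.mid (h1 : Vani.{w} Y S.X₁) (h3 : Vani.{w} Y S.X₃) : Vani.{w} Y S.X₂ :=
  fun n => subsingleton_ext_mid hS (h1 n) (h3 n)

theorem Vani.mid' (h1 : Vani.{w} S.X₁ Y) (h3 : Vani.{w} S.X₃ Y) : Vani.{w} S.X₂ Y :=
  fun n => subsingleton_ext_mid' hS (h1 n) (h3 n)

/-- the kernel is acyclic if the map on `Hom` is onto -/
theorem Acyc.left (h2 : Acyc.{w} Y S.X₂) (h3 : Acyc.{w} Y S.X₃)
    (h : Function.Surjective fun f : Y ⟶ S.X₂ => f ≫ S.g) : Acyc.{w} Y S.X₁ := by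
  intro n hn
  obtain ⟨m, rfl⟩ := Nat.exists_eq_add_of_le' hn
  refine subsingleton_of_forall_eq 0 fun x => ?_
  obtain ⟨y, rfl⟩ := Ext.covariant_sequence_exact₁ Y hS x (h2.eq_zero (by lia) _) rfl
  rcases Nat.eq_zero_or_pos m with rfl | hm
  · obtain ⟨g, rfl⟩ := (Ext.mk₀_bijective _ _).2 y
    obtain ⟨f, hf⟩ := h g
    have h3 : f ≫ S.g = g := hf
    rw [← h3, ← Ext.mk₀_comp_mk₀, Ext.comp_assoc _ _ _ (zero_add 0) (zero_add 1) (by lia),
      hS.comp_extClass, Ext.comp_zero]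
  · rw [h3.eq_zero hm y, Ext.zero_comp]

end ses

theorem acyc_biprod {X Y Z : C} (h1 : Acyc.{w} X Y) (h2 : Acyc.{w} X Z) : Acyc.{w} X (Y ⊞ Z) :=
  fun n hn => by
    have := h1 n hn
    have := h2 n hn
    refine subsingleton_of_forall_eq 0 fun x => ?_
    have e : x = (x.comp (Ext.mk₀ biprod.fst) (add_zero n)).comp (Ext.mk₀ biprod.inl)
          (add_zero n) +
        (x.comp (Ext.mk₀ biprod.snd) (add_zero n)).comp (Ext.mk₀ biprod.inr) (add_zero n) := by
      rw [Ext.comp_assoc_of_third_deg_zero, Ext.comp_assoc_of_third_deg_zero,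
        Ext.mk₀_comp_mk₀, Ext.mk₀_comp_mk₀, ← Ext.comp_add, ← Ext.mk₀_add, biprod.total,
        Ext.comp_mk₀_id]
    rw [e, Subsingleton.elim (x.comp (Ext.mk₀ biprod.fst) (add_zero n)) 0,
      Subsingleton.elim (x.comp (Ext.mk₀ biprod.snd) (add_zero n)) 0, Ext.zero_comp,
      Ext.zero_comp, add_zero]

omit [HasExt.{w} C] in
/-- If every map `B ⟶ D` factors through `π` and every map `N ⟶ D` extends to a map `E ⟶ D` which
factors through `π`, then every map `E ⟶ D` factors through `π`. -/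
theorem surjective_comp_of {N E B X D : C} {i : N ⟶ E} {p : E ⟶ B} {w : i ≫ p = 0}
    (h : (ShortComplex.mk i p w).ShortExact) {π : X ⟶ D}
    (hB : ∀ f : B ⟶ D, ∃ g : B ⟶ X, g ≫ π = f)
    (hN : ∀ f : N ⟶ D, ∃ g : E ⟶ X, i ≫ g ≫ π = f) :
    Function.Surjective fun f : E ⟶ X => f ≫ π := by
  intro f
  obtain ⟨g, hg⟩ := hN (i ≫ f)
  have h1 : i ≫ (f - g ≫ π) = 0 := by rw [Preadditive.comp_sub, hg, sub_self]
  obtain ⟨l, hl⟩ := CokernelCofork.IsColimit.desc' h.gIsCokernel _ h1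
  obtain ⟨m, hm⟩ := hB l
  refine ⟨g + p ≫ m, ?_⟩
  have h2 : p ≫ l = f - g ≫ π := hl
  simp only [Preadditive.add_comp, Category.assoc, hm, h2]
  abel

/-! ### Finiteness of `Hom` -/

section fin

variable (κ : Type*) [Field κ] [Linear κ C]

omit [HasExt.{w} C] in
theorem finite_hom_mid {S : ShortComplex C} (hS : S.ShortExact) (Y : C)
    (h1 : Module.Finite κ (Y ⟶ S.X₁)) (h3 : Module.Finite κ (Y ⟶ S.X₃)) :
    Module.Finite κ (Y ⟶ S.X₂) := by
  have := isNoetherian_of_isNoetherianRing_of_finite κ (Y ⟶ S.X₁)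
  have := isNoetherian_of_isNoetherianRing_of_finite κ (Y ⟶ S.X₃)
  have := isNoetherian_of_range_eq_ker (Linear.rightComp κ Y S.f) (Linear.rightComp κ Y S.g) (by
    ext f
    rw [LinearMap.mem_range, LinearMap.mem_ker]
    constructor
    · rintro ⟨g, rfl⟩
      simp
    · intro hf
      have := hS.mono_f
      have hf' : f ≫ S.g = 0 := hf
      obtain ⟨l, hl⟩ := KernelFork.IsLimit.lift' hS.fIsKernel f hf'
      exact ⟨l, hl⟩)
  infer_instance

omit [HasExt.{w} C] in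
theorem finite_hom_mid' {S : ShortComplex C} (hS : S.ShortExact) (Y : C)
    (h1 : Module.Finite κ (S.X₁ ⟶ Y)) (h3 : Module.Finite κ (S.X₃ ⟶ Y)) :
    Module.Finite κ (S.X₂ ⟶ Y) := by
  have := isNoetherian_of_isNoetherianRing_of_finite κ (S.X₁ ⟶ Y)
  have := isNoetherian_of_isNoetherianRing_of_finite κ (S.X₃ ⟶ Y)
  have := isNoetherian_of_range_eq_ker (Linear.leftComp κ Y S.g) (Linear.leftComp κ Y S.f) (by
    ext f
    rw [LinearMap.mem_range, LinearMap.mem_ker]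
    constructor
    · rintro ⟨g, rfl⟩
      simp
    · intro hf
      have hf' : S.f ≫ f = 0 := hf
      obtain ⟨l, hl⟩ := CokernelCofork.IsColimit.desc' hS.gIsCokernel f hf'
      exact ⟨l, hl⟩)
  infer_instance

end fin

/-! ### The table of the groups Ext between the objects of rank one -/

/-- the degree of the line bundle of the maps `M x ⟶ M y` -/
def dg (x y : Finset (Fin 4) × ℤ) : ℤ := y.2 - x.2 - ((x.1 \ y.1).card : ℤ)

/-- The table of the groups Ext: `M (I, a)` are the objects of rank one, `O j` the line bundles;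
`z` is the action of the scalars. -/
structure Tab (k : Type*) [Field k] [Linear k C] {κ : Type*} (z : κ → (𝟭 C ⟶ 𝟭 C))
    (M : Finset (Fin 4) × ℤ → C) (O : ℤ → C) : Prop where
  mm : ∀ {x y}, -1 ≤ dg x y → Acyc.{w} (M x) (M y)
  mm0 : ∀ {x y}, dg x y < 0 → ∀ f : M x ⟶ M y, f = 0
  mm1 : ∀ {x y}, dg x y = 0 → ∀ f g : M x ⟶ M y, f ≠ 0 → ∃ c : κ, g = (z c).app (M x) ≫ f
  mono : ∀ {x y} (f : M x ⟶ M y), f ≠ 0 → Mono f
  mfin : ∀ x y, Module.Finite k (M x ⟶ M y)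
  ne : ∀ x, ¬ IsZero (M x)
  om : ∀ {j : ℤ} {x : Finset (Fin 4) × ℤ}, -1 ≤ x.2 - j → -1 ≤ x.2 + (x.1.card : ℤ) - 2 - j →
    Acyc.{w} (O j) (M x)
  omfin : ∀ j x, Module.Finite k (O j ⟶ M x)
  mo : ∀ x j, Vani.{w} (M x) (O j)
  oo : ∀ {i j : ℤ}, -1 ≤ j - i → Acyc.{w} (O i) (O j)
  oofin : ∀ i j, Module.Finite k (O i ⟶ O j)
  oo0 : ∀ {i j : ℤ}, j < i → ∀ f : O i ⟶ O j, f = 0
  oo1 : ∀ (j : ℤ) (f : O j ⟶ O j), ∃ c : κ, f = (z c).app (O j)
  one : ∀ j, ¬ IsZero (O j)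

namespace Tab

variable {k : Type*} [Field k] [Linear k C] {κ : Type*} {z : κ → (𝟭 C ⟶ 𝟭 C)}
  {M : Finset (Fin 4) × ℤ → C} {O : ℤ → C} (T : Tab.{w} k z M O)

include T

theorem van {x y : Finset (Fin 4) × ℤ} (h : dg x y = -1) : Vani.{w} (M x) (M y) :=
  vani_of_acyc (T.mm (by lia)) (T.mm0 (by lia))

theorem comp_ne {x y z : Finset (Fin 4) × ℤ} {f : M x ⟶ M y} {g : M y ⟶ M z} (hf : f ≠ 0)
    (hg : g ≠ 0) : f ≫ g ≠ 0 := by
  intro h
  have := T.mono g hg
  exact hf ((cancel_mono g).1 (by rw [h, zero_comp]))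

theorem id_ne (x : Finset (Fin 4) × ℤ) : 𝟙 (M x) ≠ 0 := fun h =>
  T.ne x ((IsZero.iff_id_eq_zero _).2 h)

/-- the endomorphisms of the objects of rank one are scalars -/
theorem mm1' (x : Finset (Fin 4) × ℤ) (f : M x ⟶ M x) : ∃ c : κ, f = (z c).app (M x) := by
  obtain ⟨c, hc⟩ := T.mm1 (by simp [dg]) (𝟙 (M x)) f (T.id_ne x)
  exact ⟨c, hc.trans (Category.comp_id (X := M x) (Y := M x) _)⟩

theorem finite_mo (x : Finset (Fin 4) × ℤ) (j : ℤ) : Module.Finite k (M x ⟶ O j) := by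
  have : Subsingleton (M x ⟶ O j) := ⟨fun f g => by rw [(T.mo x j).hom f, (T.mo x j).hom g]⟩
  infer_instance

theorem mo' (x : Finset (Fin 4) × ℤ) (j : ℤ) : Acyc.{w} (M x) (O j) := (T.mo x j).acyc

end Tab

/-! ### The action of the scalars on module objects -/

section zact

universe v' u'

variable (k : Type*) [Field k] (κ : Type*) [Field κ] [Algebra k κ]
variable (C : Type u') [Category.{v'} C] [Preadditive C] [Linear k C]

/-- the action of the scalars, as an endomorphism of the identity functor -/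
def zact (c : κ) : 𝟭 (ModObj k κ C) ⟶ 𝟭 (ModObj k κ C) where
  app M := ModObj.homMk (M := M) (N := M) (M.act c) fun e => M.act_comm e c
  naturality M N f := ModObj.hom_ext (M := M) (N := N)
    (ModObj.act_homPt (M := M) (N := N) f c).symm

variable {k κ C}

@[simp] theorem zact_homPt (c : κ) (M : ModObj k κ C) :
    ModObj.homPt (M := M) (N := M) ((zact k κ C c).app M) = M.act c := rfl

end zact

end Orl.Q
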