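import Pool.Agent.Work.MP_a6e60d_ag.Q.Desc
import Pool.Agent.Work.MP_a6e60d_ag.Q.Tab
import Pool.Agent.Work.MP_a6e60d_ag.Gal.Down

/-!
MP_a6e60d_ag, Q6: objects over an intermediate field `E` of `K / k` whose extension of scalars to
`K` is a finite direct sum of known objects.
-/

open CategoryTheory CategoryTheory.Abelian CategoryTheory.Limits Module

set_option linter.unusedSectionVars false

attribute [-instance] CategoryTheory.catToReflQuiver

namespace Orl.Q

open Orl.LF Orl.Gal

universe w w₁ w₂ w₃ v' u'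

attribute [local instance] Abelian.hasFiniteBiproducts

section tot

variable {k : Type*} [Field k] {F : Type*} {K : Type w} [Field F] [Field K] [Algebra k F]
  [Algebra k K] [Algebra F K] [IsScalarTower k F K]
variable {C : Type u'} [Category.{v'} C] [Abelian C] [Linear k C] [FiniteDimensional F K]

/-- The extension of scalars of `X` is a finite direct sum of (retracts of) the objects `A j`. -/
structure IndTot (X : ModObj k F C) {J : Type*} [Fintype J] (A : J → ModObj k K C) where
  p : ∀ j, (indE k F K C).obj X ⟶ A j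
  i : ∀ j, A j ⟶ (indE k F K C).obj X
  tot : ∑ j, p j ≫ i j = 𝟙 _

/-- a single object -/
noncomputable def IndTot.ofIso {X : ModObj k F C} {A : ModObj k K C}
    (e : (indE k F K C).obj X ≅ A) : IndTot X (fun _ : PUnit.{w + 1} => A) where
  p _ := e.hom
  i _ := e.inv
  tot := by simp

/-- the restriction of a `K`-object -/
noncomputable def IndTot.res [IsGalois F K] (N : ModObj k K C) :
    IndTot ((resE k F K C).obj N) (fun g : K ≃ₐ[F] K => (conj k C g).obj N) where
  p g := indPr N g
  i g := indIn N g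
  tot := sum_indPr_indIn N

/-- isomorphic summands -/
noncomputable def IndTot.iso {X : ModObj k F C} {J : Type*} [Fintype J] {A B : J → ModObj k K C}
    (t : IndTot X A) (e : ∀ j, A j ≅ B j) : IndTot X B where
  p j := t.p j ≫ (e j).hom
  i j := (e j).inv ≫ t.i j
  tot := by
    simp only [Category.assoc, Iso.hom_inv_id_assoc]
    exact t.tot

section

variable {X Y : ModObj k F C} {J J' : Type*} [Fintype J] [Fintype J'] {A : J → ModObj k K C}
  {B : J' → ModObj k K C} (tX : IndTot X A) (tY : IndTot Y B)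

include tX tY

theorem IndTot.hom_eq_zero (h : ∀ i j, ∀ f : A i ⟶ B j, f = 0) (f : X ⟶ Y) : f = 0 := by
  refine hom_eq_zero_of_ind (K := K) (fun g => ?_) f
  have h1 : g = (∑ i, tX.p i ≫ tX.i i) ≫ g ≫ ∑ j, tY.p j ≫ tY.i j := by
    rw [tX.tot, tY.tot, Category.id_comp, Category.comp_id]
  rw [h1, Preadditive.sum_comp]
  refine Finset.sum_eq_zero fun i _ => ?_
  rw [Preadditive.comp_sum, Preadditive.comp_sum]
  refine Finset.sum_eq_zero fun j _ => ?_
  have h2 := h i j (tX.i i ≫ g ≫ tY.p j)
  calc (tX.p i ≫ tX.i i) ≫ g ≫ tY.p j ≫ tY.i j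
      = tX.p i ≫ (tX.i i ≫ g ≫ tY.p j) ≫ tY.i j := by simp only [Category.assoc]
    _ = 0 := by rw [h2, zero_comp, comp_zero]

theorem IndTot.acyc [HasExt.{w₁} (ModObj k F C)] [HasExt.{w₂} (ModObj k K C)]
    (h : ∀ i j, Acyc.{w₂} (A i) (B j)) : Acyc.{w₁} X Y :=
  acyc_of_ind (K := K)
    (Acyc.of_total tX.p tX.i tX.tot fun i => Acyc.of_total' tY.p tY.i tY.tot fun j => h i j)

theorem IndTot.finite (h : ∀ i j, Module.Finite k (A i ⟶ B j)) : Module.Finite k (X ⟶ Y) :=
  finite_hom_of_ind (K := K) X Y
    (finite_hom_of_total tX.p tX.i tX.tot fun i =>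
      finite_hom_of_total' tY.p tY.i tY.tot fun j => h i j)

end

end tot

/-! ### Underlying objects -/

section pt

variable {k : Type*} [Field k] {F L : Type*} {K : Type w} [Field F] [Field L] [Field K]
  [Algebra k F] [Algebra k L] [Algebra k K] [Algebra F K] [Algebra L K] [IsScalarTower k F K]
  [IsScalarTower k L K]
variable {C : Type u'} [Category.{v'} C] [Abelian C] [Linear k C] [FiniteDimensional F K]
  [FiniteDimensional L K] [FiniteDimensional k K] [IsGalois k K]

/-- the object underlying `X` is a retract of the object underlying `K ⊗ X` -/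
noncomputable def retractPt (X : ModObj k F C) :
    Retract X.pt ((indE k F K C).obj X).pt :=
  (exists_retract_res_ind (K := K) X).some.map (ev (k := k) (C := C) (SingleObj.star F))

theorem finite_pt (M N : ModObj k K C)
    (h : ∀ g : K ≃ₐ[k] K, Module.Finite k ((conj k C g).obj M ⟶ N)) :
    Module.Finite k (M.pt ⟶ N.pt) := by
  have h1 : Module.Finite k ((resE k k K C).obj M ⟶ (resE k k K C).obj N) :=
    finite_hom_res M N h
  refine Module.Finite.of_surjective
    ((ev (k := k) (C := C) (SingleObj.star k)).mapLinearMap k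
      (X := (resE k k K C).obj M) (Y := (resE k k K C).obj N)) ?_
  exact (ev (k := k) (C := C) (SingleObj.star k)).map_surjective

variable {X : ModObj k F C} {Y : ModObj k L C} {J J' : Type*} [Fintype J] [Fintype J']
  {A : J → ModObj k K C} {B : J' → ModObj k K C} (tX : IndTot X A) (tY : IndTot Y B)

include tX tY

theorem IndTot.acyc_pt [HasExt.{w₁} C] [HasExt.{w₂} (ModObj k K C)]
    (h : ∀ (g : K ≃ₐ[k] K) i j, Acyc.{w₂} ((conj k C g).obj (A i)) (B j)) :
    Acyc.{w₁} X.pt Y.pt := by
  refine Acyc.of_retract_left (retractPt (K := K) X)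
    (Acyc.of_retract_right (retractPt (K := K) Y) ?_)
  intro n hn
  refine ext_pt_subsingleton ((indE k F K C).obj X) ((indE k L K C).obj Y) n fun g => ?_
  refine Acyc.of_total (fun i => (conj k C g).map (tX.p i)) (fun i => (conj k C g).map (tX.i i))
    ?_ (fun i => Acyc.of_total' tY.p tY.i tY.tot fun j => h g i j) n hn
  simp only [← Functor.map_comp]
  rw [← Functor.map_sum, tX.tot, CategoryTheory.Functor.map_id]

theorem IndTot.finite_pt
    (h : ∀ (g : K ≃ₐ[k] K) i j, Module.Finite k ((conj k C g).obj (A i) ⟶ B j)) :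
    Module.Finite k (X.pt ⟶ Y.pt) := by
  have h1 : Module.Finite k (((indE k F K C).obj X).pt ⟶ ((indE k L K C).obj Y).pt) := by
    refine Orl.Q.finite_pt _ _ fun g => ?_
    refine finite_hom_of_total (fun i => (conj k C g).map (tX.p i))
      (fun i => (conj k C g).map (tX.i i)) ?_
      (fun i => finite_hom_of_total' tY.p tY.i tY.tot fun j => h g i j)
    simp only [← Functor.map_comp]
    rw [← Functor.map_sum, tX.tot, CategoryTheory.Functor.map_id]
  have rX := retractPt (K := K) X
  have rY := retractPt (K := K) Y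
  exact finite_hom_of_total (J := Unit) (f := fun _ => ((indE k F K C).obj X).pt)
    (fun _ => rX.i) (fun _ => rX.r) (by simp) fun _ =>
      finite_hom_of_total' (J := Unit) (f := fun _ => ((indE k L K C).obj Y).pt)
        (fun _ => rY.i) (fun _ => rY.r) (by simp) fun _ => h1

end pt

/-! ### Endomorphisms -/

section endo

variable {k : Type*} [Field k] {F : Type*} {K : Type w} [Field F] [Field K] [Algebra k F]
  [Algebra k K] [Algebra F K] [IsScalarTower k F K]
variable {C : Type u'} [Category.{v'} C] [Abelian C] [Linear k C] [FiniteDimensional F K]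

/-- transport of scalar endomorphisms -/
theorem scalar_of_iso {A B : ModObj k K C} (e : A ≅ B)
    (h : ∀ f : B ⟶ B, ∃ c : K, f = (zact k K C c).app B) (f : A ⟶ A) :
    ∃ c : K, ModObj.homPt f = A.act c := by
  obtain ⟨c, hc⟩ := h (e.inv ≫ f ≫ e.hom)
  refine ⟨c, ?_⟩
  have h1 : f = (zact k K C c).app A := by
    have h2 : e.hom ≫ (e.inv ≫ f ≫ e.hom) ≫ e.inv = f := by simp
    rw [← h2, hc]
    have h3 : e.hom ≫ (zact k K C c).app B = (zact k K C c).app A ≫ e.hom :=
      (zact k K C c).naturality e.hom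
    rw [← Category.assoc, h3, Category.assoc, e.hom_inv_id]
    exact Category.comp_id (X := A) (Y := A) _
  rw [h1]
  rfl

theorem scalar_of_ind {X : ModObj k F C} {A : ModObj k K C} (e : (indE k F K C).obj X ≅ A)
    (h : ∀ f : A ⟶ A, ∃ c : K, f = (zact k K C c).app A) (f : X ⟶ X) :
    ∃ x : F, ModObj.homPt f = X.act x :=
  exists_act_of_ind (scalar_of_iso e h) f

theorem not_isZero_of_ind {X : ModObj k F C} {A : ModObj k K C} (e : (indE k F K C).obj X ≅ A)
    (h : ¬ IsZero A) : ¬ IsZero X := fun hX =>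
  h (((indE k F K C).map_isZero hX).of_iso e.symm)

theorem isZero_of_isZero_pt {A : ModObj k K C} (h : IsZero A.pt) : IsZero A := by
  rw [IsZero.iff_id_eq_zero]
  exact ModObj.hom_ext (h.eq_of_src _ _)

/-- the endomorphisms of the restriction of `N` are the scalars of `K` -/
theorem scalar_res [IsGalois F K] {N : ModObj k K C}
    (h : ∀ f : N ⟶ N, ∃ c : K, f = (zact k K C c).app N)
    (h1 : ∀ g : K ≃ₐ[F] K, g ≠ 1 → ∀ f : (conj k C g).obj N ⟶ N, f = 0)
    (f : (resE k F K C).obj N ⟶ (resE k F K C).obj N) :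
    ∃ x : K, ModObj.homPt f = N.act x :=
  exists_act_of_hom_res N (fun f => by
    obtain ⟨c, hc⟩ := h f
    exact ⟨c, by rw [hc]; rfl⟩) h1 f

end endo

end Orl.Q
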