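import Pool.Agent.Work.MP_a6e60d_ag.Q.Order

/-!
# The objects `M_{g,h}(n)` with an action of an extension field

A factorisation `q = g h` over an extension `κ` of `k` which contains a square root `s` of `a`
gives for every `n` a `κ`-module object of the category of modules over the tiled algebra.
-/

open CategoryTheory LaurentPolynomial Quaternion Orl.LF

set_option linter.unusedSectionVars false

attribute [-instance] CategoryTheory.catToReflQuiver

namespace Orl.Q

/-! ### Tiled modules with an action of a field -/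

section

variable {k D V : Type} [Field k] [Ring D] [Algebra k D] [Fintype V] [DecidableEq V]
  {T : Tiling k D V} {N : Type} [AddCommGroup N] [Module k N] [Module D N]
  [IsScalarTower k D N] (κ : Type) [Field κ] [Algebra k κ] [Module κ N] [IsScalarTower k κ N]
  [SMulCommClass κ D N]

/-- the lattice is stable under the extension field -/
def Lattice.Stable (M : Lattice T N) : Prop := ∀ (s : V) (c : κ) (x : N), x ∈ M.M s → c • x ∈ M.M s

variable {κ} {M : Lattice T N} (hM : M.Stable κ)

/-- the action of an element of the extension field -/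
def Lattice.act (c : κ) : M.El →ₗ[T.Alg] M.El where
  toFun x s := ⟨c • (x s).1, hM s c _ (x s).2⟩
  map_add' x y := by
    ext s
    simp [smul_add]
  map_smul' A x := by
    ext s
    simp only [RingHom.id_apply, Lattice.smul_apply, Finset.smul_sum]
    refine Finset.sum_congr rfl fun t _ => ?_
    exact smul_comm c (A.1 s t) (x t).1

@[simp] theorem Lattice.act_apply (c : κ) (x : M.El) (s : V) :
    ((Lattice.act hM c x) s).1 = c • (x s).1 := rfl

/-- the tiled module as a module object over the extension field -/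
noncomputable def Lattice.kmod : ModObj k κ (ModuleCat.{0} T.Alg) :=
  ModObj.mk' M.mod (fun c => ModuleCat.ofHom (Lattice.act hM c))
    (by
      apply ModuleCat.hom_ext
      ext x s
      show ((1 : κ) • (x s).1) = (x s).1
      rw [one_smul])
    (fun c d => by
      apply ModuleCat.hom_ext
      ext x s
      show ((c * d : κ) • (x s).1) = d • (c • (x s).1)
      rw [mul_comm, mul_smul])
    (fun c d => by
      apply ModuleCat.hom_ext
      ext x s
      show ((c + d : κ) • (x s).1) = c • (x s).1 + d • (x s).1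
      rw [add_smul])
    (fun r c => by
      apply ModuleCat.hom_ext
      ext x s
      have h : (algebraMap k T.Alg r • Lattice.act hM c x : M.El) = r • Lattice.act hM c x :=
        algebraMap_smul _ _ _
      have h' := congrArg (fun y : M.El => (y s).1) h
      refine Eq.trans ?_ h'.symm
      show ((r • c : κ) • (x s).1) = r • (c • (x s).1)
      rw [smul_assoc])

@[simp] theorem Lattice.kmod_pt : (Lattice.kmod hM).pt = M.mod := rfl

@[simp] theorem Lattice.kmod_act (c : κ) :
    (Lattice.kmod hM).act c = ModuleCat.ofHom (Lattice.act hM c) := rfl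

end

section

variable {k : Type} [Field k] {δ : Dat k} {κ : Type} [Field κ] [Algebra k κ] (φ : Fac δ κ)

theorem C_bc (c : k) (x : κ[T;T⁻¹]) : algebraMap k κ c • x = bc κ (C c) * x := by
  rw [bc_C, LaurentPolynomial.smul_eq_C_mul]

theorem Fac.ksmul_fst (c : κ) (x : φ.N) : (c • x).1 = c • x.1 := rfl

theorem Fac.ksmul_snd (c : κ) (x : φ.N) : (c • x).2 = c • x.2 := rfl

theorem bc_smul (c : k) (f : k[T;T⁻¹]) : bc κ (c • f) = algebraMap k κ c • bc κ f := by
  rw [LaurentPolynomial.smul_eq_C_mul, map_mul, bc_C, LaurentPolynomial.smul_eq_C_mul]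

instance : IsScalarTower k δ.D φ.N where
  smul_assoc c d x := by
    show (c • d) • x = algebraMap k κ c • (d • x)
    ext1
    · simp only [Fac.smul_fst, Fac.ksmul_fst, QuaternionAlgebra.re_smul,
        QuaternionAlgebra.imI_smul, QuaternionAlgebra.imJ_smul, QuaternionAlgebra.imK_smul,
        LaurentPolynomial.smul_eq_C_mul, map_mul, bc_C]
      ring
    · simp only [Fac.smul_snd, Fac.ksmul_snd, QuaternionAlgebra.re_smul,
        QuaternionAlgebra.imI_smul, QuaternionAlgebra.imJ_smul, QuaternionAlgebra.imK_smul,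
        LaurentPolynomial.smul_eq_C_mul, map_mul, bc_C]
      ring

instance : SMulCommClass κ δ.D φ.N where
  smul_comm c d x := by
    ext1
    · simp only [Fac.smul_fst, Fac.ksmul_fst, Fac.ksmul_snd, LaurentPolynomial.smul_eq_C_mul]
      ring
    · simp only [Fac.smul_snd, Fac.ksmul_fst, Fac.ksmul_snd, LaurentPolynomial.smul_eq_C_mul]
      ring

/-- the subspace of the pairs of sections of `O(n)` and `O(m)` -/
def Fac.pair (v : Ch) (n m : ℤ) : Submodule k φ.N where
  carrier := {x | x.1 ∈ lat κ v n ∧ x.2 ∈ lat κ v m}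
  add_mem' hx hy := ⟨Submodule.add_mem _ hx.1 hy.1, Submodule.add_mem _ hx.2 hy.2⟩
  zero_mem' := ⟨Submodule.zero_mem _, Submodule.zero_mem _⟩
  smul_mem' c _ hx := ⟨Submodule.smul_mem _ (algebraMap k κ c) hx.1,
    Submodule.smul_mem _ (algebraMap k κ c) hx.2⟩

theorem Fac.mem_pair {v : Ch} {n m : ℤ} {x : φ.N} :
    x ∈ φ.pair v n m ↔ x.1 ∈ lat κ v n ∧ x.2 ∈ lat κ v m := Iff.rfl

theorem Fac.clat_smul {v : Ch} {n : ℤ} {d : δ.D} {x : φ.N} (hd : d ∈ δ.clat v 0)
    (hx : x ∈ φ.pair v n (n + φ.e - 2)) : d • x ∈ φ.pair v n (n + φ.e - 2) := by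
  obtain ⟨d0, d1, d2, d3⟩ := hd
  obtain ⟨x1, x2⟩ := hx
  have hs := C_mem_lat v φ.s
  have e0 := bc_mem_lat κ d0
  have e1 := lat_mul' hs (bc_mem_lat κ d1) (zero_add 0)
  have e2 := bc_mem_lat κ d2
  have e3 := lat_mul' hs (bc_mem_lat κ d3) (zero_add _)
  refine ⟨?_, ?_⟩
  · rw [Fac.smul_fst]
    refine Submodule.add_mem _ (lat_mul' (Submodule.add_mem _ e0 e1) x1 (zero_add n))
      (lat_mul' (lat_mul' (φ.hh v) (Submodule.add_mem _ e2 e3) rfl) x2 (by ring))
  · rw [Fac.smul_snd]
    refine Submodule.add_mem _ (lat_mul' (lat_mul' (φ.hg v) (Submodule.sub_mem _ e2 e3) rfl) x1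
      (by ring)) (lat_mul' (Submodule.sub_mem _ e0 e1) x2 (zero_add _))

theorem Fac.pair_mono {v w : Ch} (h : v ≤ w) {n m : ℤ} {x : φ.N} (hx : x ∈ φ.pair v n m) :
    x ∈ φ.pair w n m := ⟨lat_mono h hx.1, lat_mono h hx.2⟩

theorem Dat.tile_le_clat {s t : Vx} {x : δ.D} (hx : x ∈ δ.tile s t) : x ∈ δ.clat s.1 0 := by
  obtain ⟨v, b⟩ := s
  obtain ⟨w, c⟩ := t
  simp only [Dat.tile] at hx
  by_cases h : w ≤ v
  · rw [if_pos h] at hx
    cases b <;> cases c <;> simp only at hx
    · exact Dat.slat_le hx
    · exact hx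
    · rw [Submodule.mem_bot] at hx
      rw [hx]
      exact Submodule.zero_mem _
    · exact hx
  · rw [if_neg h, Submodule.mem_bot] at hx
    rw [hx]
    exact Submodule.zero_mem _

theorem Dat.tile_eq_zero {s t : Vx} {x : δ.D} (hx : x ∈ δ.tile s t) (h : ¬ t.1 ≤ s.1) : x = 0 := by
  rw [Dat.tile, if_neg h, Submodule.mem_bot] at hx
  exact hx

/-- the lattice of `M_{g,h}(n)` -/
noncomputable def Fac.lat (n : ℤ) : Lattice δ.tiling φ.N where
  M s := φ.pair s.1 n (n + φ.e - 2)
  smul_mem {s t x m} hx hm := by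
    by_cases h : t.1 ≤ s.1
    · exact φ.clat_smul (Dat.tile_le_clat hx) (φ.pair_mono h hm)
    · rw [Dat.tile_eq_zero hx h, zero_smul]
      exact Submodule.zero_mem _

theorem Fac.lat_stable (n : ℤ) : (φ.lat n).Stable κ := fun _ c _ hx =>
  ⟨Submodule.smul_mem _ c hx.1, Submodule.smul_mem _ c hx.2⟩

/-- the object `M_{g,h}(n)` -/
noncomputable def Fac.M (n : ℤ) : ModObj k κ δ.Cat := Lattice.kmod (φ.lat_stable n)

/-- the lattice of `O(n)` over the extension -/
noncomputable def Fac.latO (n : ℤ) : Lattice δ.tiling φ.N where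
  M s := if s.2 then ⊥ else
    { carrier := {x | x.1 ∈ Orl.Q.lat κ s.1 n ∧ x.2 = 0}
      add_mem' := fun {x y} hx hy => ⟨Submodule.add_mem _ hx.1 hy.1, by
        rw [Fac.add_snd, hx.2, hy.2, add_zero]⟩
      zero_mem' := ⟨Submodule.zero_mem _, rfl⟩
      smul_mem' := fun c x hx => ⟨Submodule.smul_mem _ (algebraMap k κ c) hx.1, by
        show algebraMap k κ c • x.2 = 0
        rw [hx.2, smul_zero]⟩ }
  smul_mem {s t x m} hx hm := by
    obtain ⟨v, b⟩ := s
    obtain ⟨w, c⟩ := t
    by_cases h : w ≤ v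
    · cases c
      · cases b
        · simp only [Dat.tiling, Dat.tile, if_pos h, Bool.false_eq_true, if_false] at hx hm ⊢
          obtain ⟨x0, x1, x2, x3⟩ := hx
          obtain ⟨m1, m2⟩ := hm
          refine ⟨?_, ?_⟩
          · rw [Fac.smul_fst, x1, x2, x3, m2]
            simp only [map_zero, mul_zero, add_zero]
            exact lat_mul' (bc_mem_lat κ x0) (lat_mono h m1) (zero_add n)
          · rw [Fac.smul_snd, x1, x2, x3, m2]
            simp
        · simp only [Dat.tiling, Dat.tile, if_pos h, Submodule.mem_bot] at hx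
          rw [hx, zero_smul]
          exact Submodule.zero_mem _
      · simp only [if_true, Submodule.mem_bot] at hm
        rw [hm, smul_zero]
        exact Submodule.zero_mem _
    · rw [Dat.tile_eq_zero hx h, zero_smul]
      exact Submodule.zero_mem _

theorem Fac.latO_stable (n : ℤ) : (φ.latO n).Stable κ := by
  rintro ⟨v, b⟩ c x hx
  cases b
  · simp only [Fac.latO, Bool.false_eq_true, if_false] at hx ⊢
    refine ⟨Submodule.smul_mem _ c hx.1, ?_⟩
    show c • x.2 = 0
    rw [hx.2, smul_zero]
  · simp only [Fac.latO, if_true, Submodule.mem_bot] at hx ⊢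
    rw [hx, smul_zero]

/-- the object `O(n)` over the extension -/
noncomputable def Fac.O (n : ℤ) : ModObj k κ δ.Cat := Lattice.kmod (φ.latO_stable n)

end

end Orl.Q
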