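import Pool.Agent.Work.MP_a6e60d_ag.Q.TiledApi
import Pool.Agent.Work.MP_a6e60d_ag.Q.Obj

/-!
# Maps of lattices with an action of a field, vertexwise exactness
-/

open CategoryTheory LaurentPolynomial Quaternion Orl.LF

set_option linter.unusedSectionVars false

attribute [-instance] CategoryTheory.catToReflQuiver

namespace Orl.Q

section

variable {k D V : Type} [Field k] [Ring D] [Algebra k D] [Fintype V] [DecidableEq V]
  {T : Tiling k D V} {N N' N'' : Type} [AddCommGroup N] [Module k N] [Module D N]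
  [IsScalarTower k D N] [AddCommGroup N'] [Module k N'] [Module D N'] [IsScalarTower k D N']
  [AddCommGroup N''] [Module k N''] [Module D N''] [IsScalarTower k D N'']

/-! ### Exactness in the category of modules -/

theorem Lattice.Fam.hom_apply {M : Lattice T N} {M' : Lattice T N'} (g : M.Fam M') (x : M.El) :
    g.hom.hom x = g.lin x := rfl

theorem Lattice.Fam.mono_hom_iff {M : Lattice T N} {M' : Lattice T N'} (g : M.Fam M') :
    Mono g.hom ↔ ∀ s, Function.Injective (g.f s) := by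
  rw [ModuleCat.mono_iff_injective, ← g.lin_injective_iff]
  rfl

theorem Lattice.Fam.epi_hom_iff {M : Lattice T N} {M' : Lattice T N'} (g : M.Fam M') :
    Epi g.hom ↔ ∀ s, Function.Surjective (g.f s) := by
  rw [ModuleCat.epi_iff_surjective, ← g.lin_surjective_iff]
  rfl

theorem Lattice.Fam.comp_eq_zero_iff {M : Lattice T N} {M' : Lattice T N'} {M'' : Lattice T N''}
    (g : M.Fam M') (h : M'.Fam M'') : g.hom ≫ h.hom = 0 ↔ ∀ s n, h.f s (g.f s n) = 0 := by
  rw [← Lattice.Fam.hom_comp, ← Lattice.Fam.hom_zero]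
  constructor
  · intro e s n
    have h1 := Lattice.Fam.hom_injective e
    have h2 := congrArg (fun z : M.Fam M'' => z.f s n) h1
    exact h2
  · intro e
    congr 1
    ext s n
    exact congrArg Subtype.val (e s n)

theorem Lattice.Fam.exact_iff {M : Lattice T N} {M' : Lattice T N'} {M'' : Lattice T N''}
    (g : M.Fam M') (h : M'.Fam M'') (w : g.hom ≫ h.hom = 0) :
    (ShortComplex.mk g.hom h.hom w).Exact ↔ ∀ s, Function.Exact (g.f s) (h.f s) := by
  rw [ShortComplex.ShortExact.moduleCat_exact_iff_function_exact, ← g.lin_exact_iff h]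
  rfl

theorem Lattice.Fam.shortExact_iff {M : Lattice T N} {M' : Lattice T N'} {M'' : Lattice T N''}
    (g : M.Fam M') (h : M'.Fam M'') (w : g.hom ≫ h.hom = 0) :
    (ShortComplex.mk g.hom h.hom w).ShortExact ↔ ∀ s, Function.Injective (g.f s) ∧
      Function.Exact (g.f s) (h.f s) ∧ Function.Surjective (h.f s) := by
  constructor
  · intro e s
    exact ⟨g.mono_hom_iff.1 e.mono_f s, (g.exact_iff h w).1 e.exact s,
      h.epi_hom_iff.1 e.epi_g s⟩
  · intro e
    have h1 : Mono g.hom := g.mono_hom_iff.2 fun s => (e s).1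
    have h2 : Epi h.hom := h.epi_hom_iff.2 fun s => (e s).2.2
    exact { exact := (g.exact_iff h w).2 fun s => (e s).2.1 }

/-! ### Morphisms over the extension field -/

variable {κ : Type} [Field κ] [Algebra k κ] [Module κ N] [IsScalarTower k κ N]
  [SMulCommClass κ D N] [Module κ N'] [IsScalarTower k κ N'] [SMulCommClass κ D N']
  [Module κ N''] [IsScalarTower k κ N''] [SMulCommClass κ D N'']

section

variable {M : Lattice T N} {M' : Lattice T N'} {M'' : Lattice T N''} (hM : M.Stable κ)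
  (hM' : M'.Stable κ) (hM'' : M''.Stable κ)

/-- the family commutes with the action of the extension field -/
def Lattice.Fam.IsK (g : M.Fam M') : Prop :=
  ∀ s (c : κ) (n : M.M s), (g.f s ⟨c • n.1, hM s c _ n.2⟩).1 = c • (g.f s n).1

variable {hM} {hM'} {hM''}

theorem Lattice.Fam.act_comm {g : M.Fam M'} (hg : g.IsK hM) (c : κ) :
    (Lattice.kmod hM).act c ≫ g.hom = g.hom ≫ (Lattice.kmod hM').act c := by
  apply ModuleCat.hom_ext
  refine LinearMap.ext fun x => funext fun s => Subtype.ext ?_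
  exact hg s c (x s)

variable (hM') in
/-- the morphism of module objects of a family -/
noncomputable def Lattice.Fam.khom (g : M.Fam M') (hg : g.IsK hM) :
    Lattice.kmod hM ⟶ Lattice.kmod hM' :=
  ModObj.homMk (M := Lattice.kmod hM) (N := Lattice.kmod hM') g.hom
    (Lattice.Fam.act_comm hg)

@[simp] theorem Lattice.Fam.homPt_khom (g : M.Fam M') (hg : g.IsK hM) :
    ModObj.homPt (g.khom hM' hg) = g.hom := rfl

theorem Lattice.Fam.khom_injective {g h : M.Fam M'} {hg : g.IsK hM} {hh : h.IsK hM}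
    (e : g.khom hM' hg = h.khom hM' hh) : g = h :=
  Lattice.Fam.hom_injective (congrArg ModObj.homPt e)

theorem Lattice.Fam.khom_surjective (f : Lattice.kmod hM ⟶ Lattice.kmod hM') :
    ∃ (g : M.Fam M') (hg : g.IsK hM), g.khom hM' hg = f := by
  obtain ⟨g, hg⟩ := Lattice.Fam.hom_surjective (M := M) (M' := M') (ModObj.homPt f)
  have h1 : g.IsK hM := by
    intro s c n
    have h2 := ModObj.act_homPt f c
    rw [← hg] at h2
    have h3 := congrArg (fun z => (z.hom (M.inj s n) : M'.El) s) h2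
    have h4 : (Lattice.act hM c (M.inj s n)) = M.inj s ⟨c • n.1, hM s c _ n.2⟩ := by
      ext t
      rw [Lattice.act_apply]
      by_cases h : t = s
      · subst h
        rw [Lattice.inj_same, Lattice.inj_same]
      · rw [Lattice.inj_ne _ h, Lattice.inj_ne _ h]
        exact smul_zero c
    have h5 : (g.lin (Lattice.act hM c (M.inj s n)) s).1 = c • (g.lin (M.inj s n) s).1 :=
      congrArg Subtype.val h3
    rw [h4, Lattice.Fam.lin_apply, Lattice.Fam.lin_apply, Lattice.inj_same,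
      Lattice.inj_same] at h5
    exact h5
  exact ⟨g, h1, ModObj.hom_ext hg⟩

theorem Lattice.Fam.IsK.id (hM : M.Stable κ) : (Lattice.Fam.id M).IsK hM := fun _ _ _ => rfl

theorem Lattice.Fam.IsK.comp {g : M.Fam M'} {h : M'.Fam M''} (hg : g.IsK hM) (hh : h.IsK hM') :
    (g.comp h).IsK hM := by
  intro s c n
  have h1 : g.f s ⟨c • n.1, hM s c _ n.2⟩ = ⟨c • (g.f s n).1, hM' s c _ (g.f s n).2⟩ :=
    Subtype.ext (hg s c n)
  change (h.f s (g.f s ⟨c • n.1, hM s c _ n.2⟩)).1 = c • (h.f s (g.f s n)).1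
  rw [h1]
  exact hh s c (g.f s n)

theorem Lattice.Fam.khom_id (hM : M.Stable κ) :
    (Lattice.Fam.id M).khom hM (Lattice.Fam.IsK.id hM) = 𝟙 _ := by
  apply ModObj.hom_ext
  rfl

theorem Lattice.Fam.khom_comp {g : M.Fam M'} {h : M'.Fam M''} (hg : g.IsK hM)
    (hh : h.IsK hM') : (g.comp h).khom hM'' (hg.comp hh) = g.khom hM' hg ≫ h.khom hM'' hh := by
  apply ModObj.hom_ext
  rfl

theorem Lattice.Fam.khom_comp_eq_zero_iff {g : M.Fam M'} {h : M'.Fam M''} (hg : g.IsK hM)
    (hh : h.IsK hM') : g.khom hM' hg ≫ h.khom hM'' hh = 0 ↔ ∀ s n, h.f s (g.f s n) = 0 := by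
  rw [← g.comp_eq_zero_iff h]
  constructor
  · intro e
    exact congrArg ModObj.homPt e
  · intro e
    exact ModObj.hom_ext e

theorem Lattice.Fam.khom_mono_iff {g : M.Fam M'} (hg : g.IsK hM) :
    Mono (g.khom hM' hg) ↔ ∀ s, Function.Injective (g.f s) := by
  rw [LF.mono_iff, ← g.mono_hom_iff]
  constructor
  · intro h
    exact h (SingleObj.star κ)
  · intro h x
    exact h

theorem Lattice.Fam.khom_epi_iff {g : M.Fam M'} (hg : g.IsK hM) :
    Epi (g.khom hM' hg) ↔ ∀ s, Function.Surjective (g.f s) := by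
  rw [LF.epi_iff, ← g.epi_hom_iff]
  constructor
  · intro h
    exact h (SingleObj.star κ)
  · intro h x
    exact h

theorem Lattice.Fam.khom_exact_iff {g : M.Fam M'} {h : M'.Fam M''} (hg : g.IsK hM)
    (hh : h.IsK hM') (w : g.khom hM' hg ≫ h.khom hM'' hh = 0) :
    (ShortComplex.mk _ _ w).Exact ↔ ∀ s, Function.Exact (g.f s) (h.f s) := by
  rw [LF.exact_iff, ← g.exact_iff h (congrArg ModObj.homPt w)]
  constructor
  · intro h
    exact h (SingleObj.star κ)
  · intro h x
    exact h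

theorem Lattice.Fam.khom_shortExact_iff {g : M.Fam M'} {h : M'.Fam M''} (hg : g.IsK hM)
    (hh : h.IsK hM') (w : g.khom hM' hg ≫ h.khom hM'' hh = 0) :
    (ShortComplex.mk _ _ w).ShortExact ↔ ∀ s, Function.Injective (g.f s) ∧
      Function.Exact (g.f s) (h.f s) ∧ Function.Surjective (h.f s) := by
  rw [LF.shortExact_iff, ← g.shortExact_iff h (congrArg ModObj.homPt w)]
  constructor
  · intro h
    exact h (SingleObj.star κ)
  · intro h x
    exact h

end

/-! ### The maps given by a `D`-linear map -/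

section

variable {M : Lattice T N} {M' : Lattice T N'} {M'' : Lattice T N''} (hM : M.Stable κ)
  (hM' : M'.Stable κ) (hM'' : M''.Stable κ)

theorem Lattice.mapD_isK {f : N →ₗ[D] N'} (h : ∀ s n, n ∈ M.M s → f n ∈ M'.M s)
    (hf : ∀ (c : κ) n, f (c • n) = c • f n) : (M.mapD M' f h).IsK hM :=
  fun _ c n => hf c n.1

/-- the morphism of module objects of a `D`-linear and `κ`-linear map which preserves the
lattices -/
noncomputable def Lattice.kmap (f : N →ₗ[D] N') (h : ∀ s n, n ∈ M.M s → f n ∈ M'.M s)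
    (hf : ∀ (c : κ) n, f (c • n) = c • f n) : Lattice.kmod hM ⟶ Lattice.kmod hM' :=
  (M.mapD M' f h).khom hM' (Lattice.mapD_isK hM h hf)

theorem Lattice.kmap_comp (f : N →ₗ[D] N') (h : ∀ s n, n ∈ M.M s → f n ∈ M'.M s)
    (hf : ∀ (c : κ) n, f (c • n) = c • f n) (f' : N' →ₗ[D] N'')
    (h' : ∀ s n, n ∈ M'.M s → f' n ∈ M''.M s) (hf' : ∀ (c : κ) n, f' (c • n) = c • f' n) :
    Lattice.kmap hM hM' f h hf ≫ Lattice.kmap hM' hM'' f' h' hf' =
      Lattice.kmap hM hM'' (f'.comp f) (fun s n hn => h' s _ (h s n hn))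
        (fun c n => by simp [hf, hf']) := by
  apply ModObj.hom_ext
  rfl

theorem Lattice.kmap_id :
    Lattice.kmap hM hM (LinearMap.id : N →ₗ[D] N) (fun _ _ h => h) (fun _ _ => rfl) = 𝟙 _ := by
  apply ModObj.hom_ext
  rfl

theorem Lattice.kmap_add (f f' : N →ₗ[D] N') (h : ∀ s n, n ∈ M.M s → f n ∈ M'.M s)
    (h' : ∀ s n, n ∈ M.M s → f' n ∈ M'.M s)
    (hf : ∀ (c : κ) n, f (c • n) = c • f n) (hf' : ∀ (c : κ) n, f' (c • n) = c • f' n) :
    Lattice.kmap hM hM' (f + f') (fun s n hn => Submodule.add_mem _ (h s n hn) (h' s n hn))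
      (fun c n => by simp [hf, hf']) = Lattice.kmap hM hM' f h hf + Lattice.kmap hM hM' f' h' hf' := by
  apply ModObj.hom_ext
  rfl

theorem Lattice.kmap_congr {f f' : N →ₗ[D] N'} (e : f = f')
    (h : ∀ s n, n ∈ M.M s → f n ∈ M'.M s) (hf : ∀ (c : κ) n, f (c • n) = c • f n) :
    Lattice.kmap hM hM' f h hf = Lattice.kmap hM hM' f' (e ▸ h) (e ▸ hf) := by
  subst e
  rfl

theorem Lattice.kmap_comp_eq_zero (f : N →ₗ[D] N') (h : ∀ s n, n ∈ M.M s → f n ∈ M'.M s)
    (hf : ∀ (c : κ) n, f (c • n) = c • f n) (f' : N' →ₗ[D] N'')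
    (h' : ∀ s n, n ∈ M'.M s → f' n ∈ M''.M s) (hf' : ∀ (c : κ) n, f' (c • n) = c • f' n)
    (e : ∀ n, f' (f n) = 0) :
    Lattice.kmap hM hM' f h hf ≫ Lattice.kmap hM' hM'' f' h' hf' = 0 :=
  (Lattice.Fam.khom_comp_eq_zero_iff _ _).2 fun _ n => Subtype.ext (e n.1)

/-- Short exact sequences of lattices: elementwise criterion. -/
theorem Lattice.kmap_shortExact (f : N →ₗ[D] N') (h : ∀ s n, n ∈ M.M s → f n ∈ M'.M s)
    (hf : ∀ (c : κ) n, f (c • n) = c • f n) (f' : N' →ₗ[D] N'')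
    (h' : ∀ s n, n ∈ M'.M s → f' n ∈ M''.M s) (hf' : ∀ (c : κ) n, f' (c • n) = c • f' n)
    (w : Lattice.kmap hM hM' f h hf ≫ Lattice.kmap hM' hM'' f' h' hf' = 0)
    (e1 : ∀ s n, n ∈ M.M s → f n = 0 → n = 0)
    (e2 : ∀ s n, n ∈ M'.M s → f' n = 0 → ∃ m, m ∈ M.M s ∧ f m = n)
    (e3 : ∀ s n, n ∈ M''.M s → ∃ m, m ∈ M'.M s ∧ f' m = n) :
    (ShortComplex.mk _ _ w).ShortExact := by
  refine (Lattice.Fam.khom_shortExact_iff (Lattice.mapD_isK hM h hf)
    (Lattice.mapD_isK hM' h' hf') w).2 fun s => ⟨?_, ?_, ?_⟩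
  · rw [injective_iff_map_eq_zero]
    intro n hn
    exact Subtype.ext (e1 s n.1 n.2 (congrArg Subtype.val hn))
  · intro n
    constructor
    · intro hn
      obtain ⟨m, hm, hm'⟩ := e2 s n.1 n.2 (congrArg Subtype.val hn)
      exact ⟨⟨m, hm⟩, Subtype.ext hm'⟩
    · rintro ⟨m, rfl⟩
      exact (Lattice.Fam.khom_comp_eq_zero_iff (Lattice.mapD_isK hM h hf)
        (Lattice.mapD_isK hM' h' hf')).1 w s m
  · intro n
    obtain ⟨m, hm, hm'⟩ := e3 s n.1 n.2
    exact ⟨⟨m, hm⟩, Subtype.ext hm'⟩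

end

end

end Orl.Q
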