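import Pool.Agent.Work.MP_a6e60d_ag.Q.Seq

/-!
MP_a6e60d_ag: the Koszul squares of the objects `O(j)` and `E(j)` over the base field.
-/

open CategoryTheory Limits LaurentPolynomial Quaternion

set_option autoImplicit false

attribute [-instance] CategoryTheory.catToReflQuiver

namespace Orl.Q

section mod

variable {k D V : Type} [Field k] [Ring D] [Algebra k D] [Fintype V] [DecidableEq V]
variable {T : Tiling k D V}

/-- The map of tiled modules given by a `D`-linear map preserving the subspaces, as a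
morphism. -/
noncomputable def Lattice.homM {N N' : Type} [AddCommGroup N] [Module k N] [Module D N]
    [IsScalarTower k D N] [AddCommGroup N'] [Module k N'] [Module D N'] [IsScalarTower k D N']
    {M : Lattice T N} {M' : Lattice T N'} (f : N →ₗ[D] N')
    (hf : ∀ s, ∀ x ∈ M.M s, f x ∈ M'.M s) : M.mod ⟶ M'.mod :=
  ModuleCat.ofHom (Lattice.homL f hf)

/-- **Squares of tiled modules**, without an action of an extension field. -/
theorem Lattice.squareM {N₀ N₁ N₂ N₃ : Type}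
    [AddCommGroup N₀] [Module k N₀] [Module D N₀] [IsScalarTower k D N₀]
    [AddCommGroup N₁] [Module k N₁] [Module D N₁] [IsScalarTower k D N₁]
    [AddCommGroup N₂] [Module k N₂] [Module D N₂] [IsScalarTower k D N₂]
    [AddCommGroup N₃] [Module k N₃] [Module D N₃] [IsScalarTower k D N₃]
    {M₀ : Lattice T N₀} {M₁ : Lattice T N₁} {M₂ : Lattice T N₂} {M₃ : Lattice T N₃}
    (a₁ : N₀ →ₗ[D] N₁) (ha₁ : ∀ s, ∀ x ∈ M₀.M s, a₁ x ∈ M₁.M s)
    (a₂ : N₀ →ₗ[D] N₂) (ha₂ : ∀ s, ∀ x ∈ M₀.M s, a₂ x ∈ M₂.M s)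
    (b₁ : N₁ →ₗ[D] N₃) (hb₁ : ∀ s, ∀ x ∈ M₁.M s, b₁ x ∈ M₃.M s)
    (b₂ : N₂ →ₗ[D] N₃) (hb₂ : ∀ s, ∀ x ∈ M₂.M s, b₂ x ∈ M₃.M s)
    (hz : ∀ x : N₀, b₁ (a₁ x) + b₂ (a₂ x) = 0)
    (inj : ∀ s, ∀ x ∈ M₀.M s, a₁ x = 0 → a₂ x = 0 → x = 0)
    (mid : ∀ s, ∀ x ∈ M₁.M s, ∀ y ∈ M₂.M s, b₁ x + b₂ y = 0 →
      ∃ z ∈ M₀.M s, a₁ z = x ∧ a₂ z = y)
    (surj : ∀ s, ∀ z ∈ M₃.M s, ∃ x ∈ M₁.M s, ∃ y ∈ M₂.M s, b₁ x + b₂ y = z) :
    Sq M₀.mod M₁.mod M₂.mod M₃.mod := by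
  refine Sq.mk (Orl.Q.square_shortExact (𝟭 (ModuleCat.{0} T.Alg)) (fun S hS => hS)
    (Lattice.homM a₁ ha₁) (Lattice.homM a₂ ha₂) (Lattice.homM b₁ hb₁)
    (Lattice.homM b₂ hb₂) ?_ ?_ ?_ ?_)
  · apply ModuleCat.hom_ext
    refine LinearMap.ext fun x => Lattice.El.ext' (M := M₃) fun s => ?_
    exact hz ((x : M₀.El) s).1
  · intro n h1 h2
    refine Lattice.El.ext' fun s => ?_
    refine inj s _ ((n : M₀.El) s).2 ?_ ?_
    · exact congrArg (fun y : M₁.El => (y s).1) h1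
    · exact congrArg (fun y : M₂.El => (y s).1) h2
  · intro m₁ m₂ h
    have h' : ∀ s, b₁ ((m₁ : M₁.El) s).1 + b₂ ((m₂ : M₂.El) s).1 = 0 := fun s =>
      congrArg (fun y : M₃.El => (y s).1) h
    choose z hz1 hz2 hz3 using fun s => mid s _ ((m₁ : M₁.El) s).2 _ ((m₂ : M₂.El) s).2 (h' s)
    refine ⟨(fun s => ⟨z s, hz1 s⟩ : M₀.El), ?_, ?_⟩
    · exact Lattice.El.ext' (M := M₁) fun s => hz2 s
    · exact Lattice.El.ext' (M := M₂) fun s => hz3 s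
  · intro m
    choose x hx y hy hxy using fun s => surj s _ ((m : M₃.El) s).2
    refine ⟨(fun s => ⟨x s, hx s⟩ : M₁.El), (fun s => ⟨y s, hy s⟩ : M₂.El), ?_⟩
    exact Lattice.El.ext' (M := M₃) fun s => hxy s

end mod

variable {k : Type} [Field k] (δ : Dat k)

/-- multiplication by a Laurent polynomial on the quaternion algebra -/
noncomputable def Dat.mulP (p : k[T;T⁻¹]) : δ.D →ₗ[δ.D] δ.D where
  toFun x := p • x
  map_add' := smul_add p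
  map_smul' d x := (mul_smul_comm p d x).symm

variable {δ}

theorem Dat.mulP_apply (p : k[T;T⁻¹]) (x : δ.D) : δ.mulP p x = p • x := rfl

theorem Dat.mulP_slat {p : k[T;T⁻¹]} {v : Ch} {n n' : ℤ} (hp : p ∈ lat k v (n' - n)) {x : δ.D}
    (hx : x ∈ δ.slat v n) : δ.mulP p x ∈ δ.slat v n' := by
  obtain ⟨h1, h2, h3, h4⟩ := hx
  refine ⟨lat_mul' hp h1 (by ring), ?_, ?_, ?_⟩
  · rw [Dat.mulP_apply, QuaternionAlgebra.imI_smul, h2, smul_zero]
  · rw [Dat.mulP_apply, QuaternionAlgebra.imJ_smul, h3, smul_zero]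
  · rw [Dat.mulP_apply, QuaternionAlgebra.imK_smul, h4, smul_zero]

theorem Dat.mulP_clat {p : k[T;T⁻¹]} {v : Ch} {n n' : ℤ} (hp : p ∈ lat k v (n' - n)) {x : δ.D}
    (hx : x ∈ δ.clat v n) : δ.mulP p x ∈ δ.clat v n' := by
  obtain ⟨h1, h2, h3, h4⟩ := hx
  exact ⟨lat_mul' hp h1 (by ring), lat_mul' hp h2 (by ring), lat_mul' hp h3 (by ring),
    lat_mul' hp h4 (by ring)⟩

theorem Dat.quat_ext {x y : δ.D} (h0 : x.re = y.re) (h1 : x.imI = y.imI) (h2 : x.imJ = y.imJ)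
    (h3 : x.imK = y.imK) : x = y := QuaternionAlgebra.ext h0 h1 h2 h3

variable (δ)

/-- **Koszul square** of the objects `O(j)`. -/
theorem Dat.sqO (j : ℤ) : Sq (δ.O (j - 2)) (δ.O (j - 1)) (δ.O (j - 1)) (δ.O j) := by
  have hb := bez_xt (κ := k)
  have mem : ∀ (p : k[T;T⁻¹]) {n n' : ℤ}, (∀ v, p ∈ lat k v (n' - n)) → ∀ s, ∀ x ∈ (δ.latO n).M s,
      δ.mulP p x ∈ (δ.latO n').M s := by
    rintro p n n' hp ⟨v, b⟩ x hx
    cases b
    · exact Dat.mulP_slat (hp v) hx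
    · simp only [Dat.latO, if_true, Submodule.mem_bot] at hx ⊢
      rw [hx, map_zero]
  have c1 : ∀ v, (1 : k[T;T⁻¹]) ∈ lat k v ((j - 1) - (j - 2)) := fun v => by
    convert hb.mem₂ v using 2; ring
  have cT : ∀ v, (T 1 : k[T;T⁻¹]) ∈ lat k v ((j - 1) - (j - 2)) := fun v => by
    convert hb.mem₁ v using 2; ring
  have c1' : ∀ v, (1 : k[T;T⁻¹]) ∈ lat k v (j - (j - 1)) := fun v => by
    convert hb.mem₂ v using 2; ring
  have cT' : ∀ v, (T 1 : k[T;T⁻¹]) ∈ lat k v (j - (j - 1)) := fun v => by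
    convert hb.mem₁ v using 2; ring
  refine Lattice.squareM (δ.mulP 1) (mem _ c1) (δ.mulP (-T 1))
    (mem _ fun v => Submodule.neg_mem _ (cT v)) (δ.mulP (T 1)) (mem _ cT') (δ.mulP 1)
    (mem _ c1') ?_ ?_ ?_ ?_
  · intro x
    simp only [Dat.mulP_apply, one_smul, neg_smul, add_neg_cancel]
  · intro s x hx h1 h2
    rwa [Dat.mulP_apply, one_smul] at h1
  · rintro ⟨v, b⟩ x hx y hy h
    cases b
    · obtain ⟨x0, x1, x2, x3⟩ := (show x ∈ δ.slat v (j - 1) from hx)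
      obtain ⟨y0, y1, y2, y3⟩ := (show y ∈ δ.slat v (j - 1) from hy)
      obtain ⟨z0, hz, e1, e2⟩ := hb.exact (v := v) (n := j) (n₀ := j - 2) (n₁ := j - 1)
        (n₂ := j - 1) (by ring) (by ring) (by ring) x0 y0 (congrArg QuaternionAlgebra.re h)
      refine ⟨⟨z0, 0, 0, 0⟩, ⟨hz, rfl, rfl, rfl⟩, ?_, ?_⟩
      · refine Dat.quat_ext e1 ?_ ?_ ?_
        · exact (mul_zero _).trans x1.symm
        · exact (mul_zero _).trans x2.symm
        · exact (mul_zero _).trans x3.symm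
      · refine Dat.quat_ext ((neg_mul _ _).trans e2) ?_ ?_ ?_
        · exact (mul_zero _).trans y1.symm
        · exact (mul_zero _).trans y2.symm
        · exact (mul_zero _).trans y3.symm
    · simp only [Dat.latO, if_true, Submodule.mem_bot] at hx hy ⊢
      exact ⟨0, rfl, by rw [hx, map_zero], by rw [hy, map_zero]⟩
  · rintro ⟨v, b⟩ z hz
    cases b
    · obtain ⟨z0, z1, z2, z3⟩ := (show z ∈ δ.slat v j from hz)
      obtain ⟨x0, hx, y0, hy, e⟩ := hb.surj (v := v) (n := j) (n₁ := j - 1) (n₂ := j - 1)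
        (by ring) (by ring) z0
      refine ⟨⟨x0, 0, 0, 0⟩, ⟨hx, rfl, rfl, rfl⟩, ⟨y0, 0, 0, 0⟩, ⟨hy, rfl, rfl, rfl⟩, ?_⟩
      have h0 : ∀ p p' : k[T;T⁻¹], p * 0 + p' * 0 = (0 : k[T;T⁻¹]) := fun p p' => by ring
      refine Dat.quat_ext e ?_ ?_ ?_
      · exact (h0 _ _).trans z1.symm
      · exact (h0 _ _).trans z2.symm
      · exact (h0 _ _).trans z3.symm
    · simp only [Dat.latO, if_true, Submodule.mem_bot] at hz ⊢
      exact ⟨0, rfl, 0, rfl, by rw [hz, map_zero, map_zero, add_zero]⟩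

/-- **Koszul square** of the objects `E(j)`. -/
theorem Dat.sqE (j : ℤ) : Sq (δ.E (j - 2)) (δ.E (j - 1)) (δ.E (j - 1)) (δ.E j) := by
  have hb := bez_xt (κ := k)
  have mem : ∀ (p : k[T;T⁻¹]) {n n' : ℤ}, (∀ v, p ∈ lat k v (n' - n)) → ∀ s, ∀ x ∈ (δ.latE n).M s,
      δ.mulP p x ∈ (δ.latE n').M s := fun p n n' hp s x hx => Dat.mulP_clat (hp s.1) hx
  have c1 : ∀ v, (1 : k[T;T⁻¹]) ∈ lat k v ((j - 1) - (j - 2)) := fun v => by
    convert hb.mem₂ v using 2; ring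
  have cT : ∀ v, (T 1 : k[T;T⁻¹]) ∈ lat k v ((j - 1) - (j - 2)) := fun v => by
    convert hb.mem₁ v using 2; ring
  have c1' : ∀ v, (1 : k[T;T⁻¹]) ∈ lat k v (j - (j - 1)) := fun v => by
    convert hb.mem₂ v using 2; ring
  have cT' : ∀ v, (T 1 : k[T;T⁻¹]) ∈ lat k v (j - (j - 1)) := fun v => by
    convert hb.mem₁ v using 2; ring
  refine Lattice.squareM (δ.mulP 1) (mem _ c1) (δ.mulP (-T 1))
    (mem _ fun v => Submodule.neg_mem _ (cT v)) (δ.mulP (T 1)) (mem _ cT') (δ.mulP 1)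
    (mem _ c1') ?_ ?_ ?_ ?_
  · intro x
    simp only [Dat.mulP_apply, one_smul, neg_smul, add_neg_cancel]
  · intro s x hx h1 h2
    rwa [Dat.mulP_apply, one_smul] at h1
  · intro s x hx y hy h
    obtain ⟨x0, x1, x2, x3⟩ := (show x ∈ δ.clat s.1 (j - 1) from hx)
    obtain ⟨y0, y1, y2, y3⟩ := (show y ∈ δ.clat s.1 (j - 1) from hy)
    obtain ⟨z0, hz0, e0, e0'⟩ := hb.exact (v := s.1) (n := j) (n₀ := j - 2) (n₁ := j - 1)
      (n₂ := j - 1) (by ring) (by ring) (by ring) x0 y0 (congrArg QuaternionAlgebra.re h)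
    obtain ⟨z1, hz1, e1, e1'⟩ := hb.exact (v := s.1) (n := j) (n₀ := j - 2) (n₁ := j - 1)
      (n₂ := j - 1) (by ring) (by ring) (by ring) x1 y1 (congrArg QuaternionAlgebra.imI h)
    obtain ⟨z2, hz2, e2, e2'⟩ := hb.exact (v := s.1) (n := j - 2) (n₀ := j - 2 - 2)
      (n₁ := j - 1 - 2) (n₂ := j - 1 - 2) (by ring) (by ring) (by ring) x2 y2
      (congrArg QuaternionAlgebra.imJ h)
    obtain ⟨z3, hz3, e3, e3'⟩ := hb.exact (v := s.1) (n := j - 2) (n₀ := j - 2 - 2)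
      (n₁ := j - 1 - 2) (n₂ := j - 1 - 2) (by ring) (by ring) (by ring) x3 y3
      (congrArg QuaternionAlgebra.imK h)
    refine ⟨⟨z0, z1, z2, z3⟩, ⟨hz0, hz1, hz2, hz3⟩, Dat.quat_ext e0 e1 e2 e3,
      Dat.quat_ext ((neg_mul _ _).trans e0') ((neg_mul _ _).trans e1')
        ((neg_mul _ _).trans e2') ((neg_mul _ _).trans e3')⟩
  · intro s z hz
    obtain ⟨z0, z1, z2, z3⟩ := (show z ∈ δ.clat s.1 j from hz)
    obtain ⟨x0, hx0, y0, hy0, e0⟩ := hb.surj (v := s.1) (n := j) (n₁ := j - 1) (n₂ := j - 1)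
      (by ring) (by ring) z0
    obtain ⟨x1, hx1, y1, hy1, e1⟩ := hb.surj (v := s.1) (n := j) (n₁ := j - 1) (n₂ := j - 1)
      (by ring) (by ring) z1
    obtain ⟨x2, hx2, y2, hy2, e2⟩ := hb.surj (v := s.1) (n := j - 2) (n₁ := j - 1 - 2)
      (n₂ := j - 1 - 2) (by ring) (by ring) z2
    obtain ⟨x3, hx3, y3, hy3, e3⟩ := hb.surj (v := s.1) (n := j - 2) (n₁ := j - 1 - 2)
      (n₂ := j - 1 - 2) (by ring) (by ring) z3
    exact ⟨⟨x0, x1, x2, x3⟩, ⟨hx0, hx1, hx2, hx3⟩, ⟨y0, y1, y2, y3⟩, ⟨hy0, hy1, hy2, hy3⟩,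
      Dat.quat_ext e0 e1 e2 e3⟩

section gen

variable {δ} {P : ObjectProperty δ.Cat}

/-- Two consecutive twists generate all the `O(j)`. -/
theorem Dat.gen_O (hP : Thk P) (h0 : P (δ.O 0)) (h1 : P (δ.O 1)) (j : ℤ) : P (δ.O j) :=
  koszul hP δ.O (fun j => δ.sqO j) 0 h0 (by rwa [zero_add]) j

/-- Two consecutive twists generate all the `E(j)`. -/
theorem Dat.gen_E (hP : Thk P) (h0 : P (δ.E 0)) (h1 : P (δ.E 1)) (j : ℤ) : P (δ.E j) :=
  koszul hP δ.E (fun j => δ.sqE j) 0 h0 (by rwa [zero_add]) j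

/-- The sum of the four objects generates all the `O(j)` and `E(j)`. -/
theorem Dat.gen_OE (hP : Thk P) (h : P ((δ.O 0 ⊞ δ.O 1) ⊞ (δ.E 0 ⊞ δ.E 1))) (j : ℤ) :
    P (δ.O j) ∧ P (δ.E j) := by
  obtain ⟨h1, h2⟩ := hP.biprod_iff.1 h
  obtain ⟨h3, h4⟩ := hP.biprod_iff.1 h1
  obtain ⟨h5, h6⟩ := hP.biprod_iff.1 h2
  exact ⟨Dat.gen_O hP h3 h4 j, Dat.gen_E hP h5 h6 j⟩

end gen

end Orl.Q
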