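import Pool.Agent.Work.MP_a6e60d_ag.Q.TF
import Pool.Agent.Work.MP_a6e60d_ag.Q.IndTot

/-!
MP_a6e60d_ag, Q6: the collection over the quadratic field `F` (blocks with endomorphism algebras
`F, K, F, F, F, F`): morphisms and extension groups between its six members.
-/

open CategoryTheory CategoryTheory.Abelian CategoryTheory.Limits Module

set_option linter.unusedSectionVars false

attribute [-instance] CategoryTheory.catToReflQuiver

namespace Orl.Q

open Orl.LF Orl.Gal

universe w w₁ w₂ v' u'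

attribute [local instance] Abelian.hasFiniteBiproducts

/-- The honest objects over `F`: `A m`, `B m`, `L m` have the extensions of scalars `M (∅, m)`,
`M ({3}, m)`, `O m`. -/
structure FObj (k F K C) [Field k] [Field F] [Field K] [Algebra k F] [Algebra k K] [Algebra F K]
    [IsScalarTower k F K] [Category.{v'} C] [Abelian C] [Linear k C] [FiniteDimensional F K]
    (M : Finset (Fin 4) × ℤ → ModObj k K C) (O : ℤ → ModObj k K C) where
  A : ℤ → ModObj k F C
  B : ℤ → ModObj k F C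
  L : ℤ → ModObj k F C
  eA : ∀ m, (indE k F K C).obj (A m) ≅ M (∅, m)
  eB : ∀ m, (indE k F K C).obj (B m) ≅ M ({3}, m)
  eL : ∀ m, (indE k F K C).obj (L m) ≅ O m

variable {k : Type*} [Field k] {F : Type*} {K : Type w} [Field F] [Field K] [Algebra k F]
  [Algebra k K] [Algebra F K] [IsScalarTower k F K]
variable {C : Type u'} [Category.{v'} C] [Abelian C] [Linear k C] [FiniteDimensional F K]
variable {M : Finset (Fin 4) × ℤ → ModObj k K C} {O : ℤ → ModObj k K C}

/-- the objects over `K` which appear in the extensions of scalars of the members -/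
def Ob (M : Finset (Fin 4) × ℤ → ModObj k K C) (O : ℤ → ModObj k K C) (m : ℤ) :
    Fin 6 → Fin 4 → ModObj k K C
  | 0, _ => M (∅, m + 1)
  | 1, l => M ({l}, m)
  | 2, _ => M ({3}, m)
  | 3, _ => M (∅, m)
  | 4, _ => O (m - 1)
  | 5, _ => O (m - 2)

namespace FObj

variable (t : FObj k F K C M O) (m : ℤ)

/-- the collection, twisted by `m`; there are no morphisms from `D i` to `D j` in any degree
if `i < j` -/
def D : Fin 6 → ModObj k F C :=
  ![t.A (m + 1), (resE k F K C).obj (M ({0}, m)), t.B m, t.A m, t.L (m - 1), t.L (m - 2)]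

end FObj

/-- `l g` is the root such that the conjugate of `M ({0}, m)` by `g` is `M ({l g}, m)`. -/
structure RootConj (F : Type*) [Field F] [Algebra k F] [Algebra F K] [IsScalarTower k F K]
    (M : Finset (Fin 4) × ℤ → ModObj k K C) (l : (K ≃ₐ[F] K) → Fin 4) : Prop where
  iso : ∀ g m, Nonempty ((conj k C g).obj (M ({0}, m)) ≅ M ({l g}, m))
  ne_three : ∀ g, l g ≠ 3
  ne_zero : ∀ g, g ≠ 1 → l g ≠ 0

section level

variable [HasExt.{w₂} (ModObj k K C)]
variable {z : K → (𝟭 (ModObj k K C) ⟶ 𝟭 (ModObj k K C))} (T : Tab.{w₂} k z M O)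

include T

/-- vanishing between the objects over `K` -/
theorem vani_Ob (m : ℤ) {i j : Fin 6} (hij : i < j) (a b : Fin 4) (ha : i = 1 → a ≠ 3) :
    Vani.{w₂} (Ob M O m i a) (Ob M O m j b) := by
  have hv : ∀ x y : Finset (Fin 4) × ℤ, dg x y = -1 → Vani.{w₂} (M x) (M y) :=
    fun x y h => T.van h
  fin_cases i <;> fin_cases j <;> first | exact absurd hij (by decide) | skip
  · exact hv _ _ (by simp [dg])
  · exact hv _ _ (by simp [dg])
  · exact hv _ _ (by simp [dg])
  · exact T.mo _ _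
  · exact T.mo _ _
  · have ha' := ha rfl
    refine hv _ _ ?_
    have h2 : ({a} : Finset (Fin 4)) \ {3} = {a} := by
      rw [Finset.sdiff_eq_self_iff_disjoint, Finset.disjoint_singleton]
      exact ha'
    simp only [dg, h2, Finset.card_singleton]
    norm_num
  · exact hv _ _ (by simp [dg])
  · exact T.mo _ _
  · exact T.mo _ _
  · exact hv _ _ (by simp [dg])
  · exact T.mo _ _
  · exact T.mo _ _
  · exact T.mo _ _
  · exact T.mo _ _
  · exact vani_of_acyc (T.oo (by omega)) (T.oo0 (by omega))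

theorem acyc_Ob (m : ℤ) (i j : Fin 6) (a b : Fin 4) :
    Acyc.{w₂} (Ob M O m i a) (Ob M O m j b) := by
  have h : ∀ (i : Fin 6) (a : Fin 4), ∃ i' : Fin 6, Ob M O m i a = tfl M O a m i' := by
    intro i a
    fin_cases i
    · exact ⟨5, rfl⟩
    · exact ⟨4, rfl⟩
    · exact ⟨3, rfl⟩
    · exact ⟨2, rfl⟩
    · exact ⟨1, rfl⟩
    · exact ⟨0, rfl⟩
  obtain ⟨i', hi⟩ := h i a
  obtain ⟨j', hj⟩ := h j b
  rw [hi, hj]
  exact acyc_tfl T a b m i' j'

theorem finite_Ob (m m' : ℤ) (i j : Fin 6) (a b : Fin 4) :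
    Module.Finite k (Ob M O m i a ⟶ Ob M O m' j b) := by
  have h : ∀ (m : ℤ) (i : Fin 6) (a : Fin 4), (∃ x, Ob M O m i a = M x) ∨
      ∃ n, Ob M O m i a = O n := by
    intro m i a
    fin_cases i
    · exact Or.inl ⟨_, rfl⟩
    · exact Or.inl ⟨_, rfl⟩
    · exact Or.inl ⟨_, rfl⟩
    · exact Or.inl ⟨_, rfl⟩
    · exact Or.inr ⟨_, rfl⟩
    · exact Or.inr ⟨_, rfl⟩
  rcases h m i a with ⟨x, hx⟩ | ⟨x, hx⟩ <;> rcases h m' j b with ⟨y, hy⟩ | ⟨y, hy⟩ <;>
    rw [hx, hy]
  · exact T.mfin _ _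
  · exact T.finite_mo _ _
  · exact T.omfin _ _
  · exact T.oofin _ _

/-- the conjugates of the objects over `K` -/
theorem low_cOb {c : ModObj k K C ⥤ ModObj k K C} (hc : Perm M O c) (m : ℤ) (i : Fin 6)
    (a : Fin 4) : Low.{w₂} k M O (c.obj (Ob M O m i a)) (m + 6) := by
  have h : ∃ i' : Fin 6, Ob M O m i a = tfl M O a m i' := by
    fin_cases i
    · exact ⟨5, rfl⟩
    · exact ⟨4, rfl⟩
    · exact ⟨3, rfl⟩
    · exact ⟨2, rfl⟩
    · exact ⟨1, rfl⟩
    · exact ⟨0, rfl⟩
  obtain ⟨i', hi⟩ := h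
  rw [hi]
  exact low_ctf T hc m a i'

end level

section low

variable [HasExt.{w₂} (ModObj k K C)] {X : ModObj k K C} {A : ℤ}

theorem Low.acyc_Ob (h : Low.{w₂} k M O X A) {m : ℤ} (hm : A ≤ m - 2) (i : Fin 6) (a : Fin 4) :
    Acyc.{w₂} X (Ob M O m i a) := by
  fin_cases i
  · exact h.m _ (by simp only; omega)
  · exact h.m _ (by simp only; omega)
  · exact h.m _ (by simp only; omega)
  · exact h.m _ (by simp only; omega)
  · exact h.o _ (by omega)
  · exact h.o _ (by omega)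

theorem Low.finite_Ob (h : Low.{w₂} k M O X A) (m : ℤ) (i : Fin 6) (a : Fin 4) :
    Module.Finite k (X ⟶ Ob M O m i a) := by
  fin_cases i
  · exact h.mf _
  · exact h.mf _
  · exact h.mf _
  · exact h.mf _
  · exact h.of _
  · exact h.of _

end low

namespace FObj

variable (t : FObj k F K C M O)

section tot

variable [IsGalois F K] {l : (K ≃ₐ[F] K) → Fin 4} (hl : RootConj F M l)

include hl

/-- the decomposition of the extension of scalars of the members -/
theorem indTot (m : ℤ) (i : Fin 6) : ∃ (J : Type w) (_ : Fintype J) (b : J → Fin 4),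
    (i = 1 → ∀ j, b j ≠ 3) ∧ Nonempty (IndTot (t.D m i) (fun j => Ob M O m i (b j))) := by
  have h1 : ∀ i : Fin 6, i ≠ 1 → ∀ (_ : (indE k F K C).obj (t.D m i) ≅ Ob M O m i 0),
      ∃ (J : Type w) (_ : Fintype J) (b : J → Fin 4),
    (i = 1 → ∀ j, b j ≠ 3) ∧ Nonempty (IndTot (t.D m i) (fun j => Ob M O m i (b j))) := by
    intro i hi e
    exact ⟨PUnit, inferInstance, fun _ => 0, fun h => absurd h hi, ⟨IndTot.ofIso e⟩⟩
  fin_cases i
  · exact h1 0 (by decide) (t.eA (m + 1))
  · refine ⟨K ≃ₐ[F] K, inferInstance, l, fun _ g => hl.ne_three g, ⟨?_⟩⟩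
    exact (IndTot.res (k := k) (F := F) (C := C) (M ({0}, m))).iso fun g => (hl.iso g m).some
  · exact h1 2 (by decide) (t.eB m)
  · exact h1 3 (by decide) (t.eA m)
  · exact h1 4 (by decide) (t.eL (m - 1))
  · exact h1 5 (by decide) (t.eL (m - 2))

variable [HasExt.{w₂} (ModObj k K C)]
variable {z : K → (𝟭 (ModObj k K C) ⟶ 𝟭 (ModObj k K C))} (T : Tab.{w₂} k z M O)

include T

/-- no morphisms backwards -/
theorem hom_eq_zero (m : ℤ) {i j : Fin 6} (hij : i < j) (f : t.D m i ⟶ t.D m j) : f = 0 := by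
  obtain ⟨J, _, b, hb, ⟨tX⟩⟩ := t.indTot hl m i
  obtain ⟨J', _, b', hb', ⟨tY⟩⟩ := t.indTot hl m j
  exact tX.hom_eq_zero tY (fun x y => (vani_Ob T m hij (b x) (b' y) fun hi => hb hi x).hom) f

/-- no extensions -/
theorem acyc [HasExt.{w₁} (ModObj k F C)] (m : ℤ) (i j : Fin 6) :
    Acyc.{w₁} (t.D m i) (t.D m j) := by
  obtain ⟨J, _, b, hb, ⟨tX⟩⟩ := t.indTot hl m i
  obtain ⟨J', _, b', hb', ⟨tY⟩⟩ := t.indTot hl m j
  exact tX.acyc tY (fun x y => acyc_Ob T m i j (b x) (b' y))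

/-- finiteness -/
theorem finite (m m' : ℤ) (i j : Fin 6) : Module.Finite k (t.D m i ⟶ t.D m' j) := by
  obtain ⟨J, _, b, hb, ⟨tX⟩⟩ := t.indTot hl m i
  obtain ⟨J', _, b', hb', ⟨tY⟩⟩ := t.indTot hl m' j
  exact tX.finite tY (fun x y => finite_Ob T m m' i j (b x) (b' y))

end tot

section endo

variable [HasExt.{w₂} (ModObj k K C)] (T : Tab.{w₂} k (zact k K C) M O) (m : ℤ)

include T

theorem scalar_D (i : Fin 6) (hi : i ≠ 1) (f : t.D m i ⟶ t.D m i) :
    ∃ x : F, ModObj.homPt f = (t.D m i).act x := by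
  fin_cases i
  · exact scalar_of_ind (t.eA (m + 1)) (T.mm1' _) f
  · exact absurd rfl hi
  · exact scalar_of_ind (t.eB m) (T.mm1' _) f
  · exact scalar_of_ind (t.eA m) (T.mm1' _) f
  · exact scalar_of_ind (t.eL (m - 1)) (T.oo1 _) f
  · exact scalar_of_ind (t.eL (m - 2)) (T.oo1 _) f

theorem not_isZero_D_of_ne (i : Fin 6) (hi : i ≠ 1) : ¬ IsZero (t.D m i) := by
  fin_cases i
  · exact not_isZero_of_ind (t.eA (m + 1)) (T.ne _)
  · exact absurd rfl hi
  · exact not_isZero_of_ind (t.eB m) (T.ne _)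
  · exact not_isZero_of_ind (t.eA m) (T.ne _)
  · exact not_isZero_of_ind (t.eL (m - 1)) (T.one _)
  · exact not_isZero_of_ind (t.eL (m - 2)) (T.one _)

/-- no member is zero -/
theorem not_isZero_D (i : Fin 6) : ¬ IsZero (t.D m i).pt := by
  by_cases hi : i = 1
  · subst hi
    exact fun h => T.ne ({0}, m) (isZero_of_isZero_pt h)
  · exact fun h => t.not_isZero_D_of_ne T m i hi (isZero_of_isZero_pt h)

variable [IsGalois F K] {l : (K ≃ₐ[F] K) → Fin 4} (hl : RootConj F M l)

include hl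

omit t in
/-- the endomorphisms of the restriction of `M ({0}, m)` are the scalars of `K` -/
theorem scalar_resM (f : (resE k F K C).obj (M ({0}, m)) ⟶ (resE k F K C).obj (M ({0}, m))) :
    ∃ x : K, ModObj.homPt f = (M ({0}, m)).act x := by
  refine scalar_res (T.mm1' _) (fun g hg f => ?_) f
  obtain ⟨e⟩ := hl.iso g m
  have h1 : e.inv ≫ f = 0 := T.mm0 (by
    have h2 : ({l g} : Finset (Fin 4)) \ {0} = {l g} := by
      rw [Finset.sdiff_eq_self_iff_disjoint, Finset.disjoint_singleton]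
      exact hl.ne_zero g hg
    simp only [dg, h2, Finset.card_singleton]
    norm_num) _
  rw [← cancel_epi e.inv, h1, comp_zero]

end endo

end FObj

end Orl.Q
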