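import Pool.Agent.Work.MP_a6e60d_ag.Q.MainL
import Pool.Agent.Work.MP_a6e60d_ag.Q.MainF
import Pool.Agent.Work.MP_a6e60d_ag.Q.TB
import Pool.Agent.Work.MP_a6e60d_ag.Q.SqOE

/-!
MP_a6e60d_ag, Q3/Q6: the generation statements for the concrete data. Over the quadratic field the
six objects of `FObj.D` (for every twist), over the cubic field the five objects `tb` generate the
extensions of all `O(j)`, `E(j)`; conversely the underlying objects of all these objects are in the
thick class generated by `O(j)`, `E(j)`.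
-/

set_option autoImplicit false
set_option linter.unusedSectionVars false

open CategoryTheory CategoryTheory.Abelian CategoryTheory.Limits Orl.LF Orl.Gal Orl.Q

attribute [-instance] CategoryTheory.catToReflQuiver

attribute [local instance] Abelian.hasFiniteBiproducts

namespace Orl.Q

universe w v' u' w₁

section pt

variable {k : Type w₁} [Field k] {E : Type*} {K : Type w} [Field E] [Field K] [Algebra k E]
  [Algebra k K] [Algebra E K] [IsScalarTower k E K]
variable {C : Type u'} [Category.{v'} C] [Abelian C] [Linear k C]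
variable {P : ObjectProperty C} (hP : Thk P)

/-- The objects whose underlying object is in the class. -/
def ptCls (k : Type w₁) [Field k] (E : Type*) [Field E] [Algebra k E] {C : Type u'}
    [Category.{v'} C] [Abelian C] [Linear k C] (P : ObjectProperty C) :
    ObjectProperty (ModObj k E C) :=
  P.inverseImage (ev (SingleObj.star E))

include hP

theorem thk_ptCls : Thk (ptCls k E P) := hP.comap' (ev (SingleObj.star E))

/-- a form has its underlying object in the class iff the object over the splitting field does -/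
theorem pt_form [FiniteDimensional E K] {X : ModObj k E C} {Y : ModObj k K C} (h : FormOf X Y) :
    P Y.pt ↔ P X.pt :=
  h.iff (thk_ptCls (k := k) (E := E) hP)

/-- the extensions of objects in the class -/
theorem pt_indC [FiniteDimensional k K] {X : C} (h : P X) : P ((indC k C K).obj X).pt :=
  res_ind (K := K) (thk_ptCls (k := k) (E := k) hP) (X := (triv k C).obj X) h

end pt

/-- The line bundles and the twists of the second bundle, as one family. -/
noncomputable def Dat.OEf {k : Type} [Field k] (δ : Dat k) : ℤ ⊕ ℤ → δ.Cat := Sum.elim δ.O δ.E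

/-- The generator. -/
noncomputable def Dat.GT {k : Type} [Field k] (δ : Dat k) : δ.Cat :=
  (δ.O 0 ⊞ δ.O 1) ⊞ (δ.E 0 ⊞ δ.E 1)

namespace Dat

variable {k : Type} [Field k] (δ : Dat k)

theorem thk_of_GT {P : ObjectProperty δ.Cat} (hP : Thk P) (h : P δ.GT) (x : ℤ ⊕ ℤ) :
    P (δ.OEf x) := by
  rcases x with j | j
  · exact (gen_OE hP h j).1
  · exact (gen_OE hP h j).2

theorem thk_GT {P : ObjectProperty δ.Cat} (hP : Thk P) (h : ∀ x, P (δ.OEf x)) : P δ.GT :=
  hP.biprod (hP.biprod (h (.inl 0)) (h (.inl 1))) (hP.biprod (h (.inr 0)) (h (.inr 1)))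

/-- The thick class of the generator and of the family of all `O(j)`, `E(j)` are the same. -/
theorem inThk_GT_iff (X : δ.Cat) : InThk (fun _ : Unit => δ.GT) X ↔ InThk δ.OEf X :=
  ⟨fun h _ hP hE => h _ hP fun _ => δ.thk_GT hP hE,
    fun h _ hP hE => h _ hP (δ.thk_of_GT hP (hE ()))⟩

end Dat

namespace Spl

variable {k : Type} [Field k] {δ : Dat k} {K : Type} [Field K] [Algebra k K] (S : Spl δ K)
  [FiniteDimensional k K] {P : ObjectProperty δ.Cat} (hP : Thk P) (h : ∀ x, P (δ.OEf x))

include hP h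

theorem pt_O (j : ℤ) : P (S.O j).pt :=
  (thk_ptCls (k := k) (E := K) hP).iso (S.indCO j) (pt_indC hP (h (.inl j)))

/-- The underlying objects of all `M_I(a)` are in the thick class of the `O(j)`, `E(j)`. -/
theorem pt_M (I : Finset (Fin 4)) (a : ℤ) : P (S.M I a).pt := by
  have hQ := thk_ptCls (k := k) (E := K) hP
  have h1 : ∀ j, ptCls k K P (S.M ∅ j ⊞ S.M Finset.univ (j - 2)) := fun j =>
    hQ.iso (S.indCE j) (pt_indC hP (h (.inr j)))
  have h2 := hQ.biprod_right (h1 (a + 2))
  rw [add_sub_cancel_right] at h2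
  exact Sq.p₂ hQ (S.vvc I a) (hQ.biprod_left (h1 a)) h2

theorem pt_K1 : P S.K1.pt :=
  S.sesK1.p₂ (thk_ptCls (k := k) (E := K) hP) (S.pt_M hP h _ _) (S.pt_M hP h _ _)

theorem pt_K1Tw (m : ℤ) : P (S.K1Tw m).pt :=
  (S.sesK1Tw m).p₂ (thk_ptCls (k := k) (E := K) hP) (S.pt_M hP h _ _) (S.pt_M hP h _ _)

theorem pt_tf (m : ℤ) (i : Fin 6) : P (tf (fun x => S.M x.1 x.2) S.O m i).pt := by
  fin_cases i
  · exact S.pt_O hP h _
  · exact S.pt_O hP h _
  · exact S.pt_M hP h _ _
  · exact S.pt_M hP h _ _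
  · exact S.pt_M hP h _ _
  · exact S.pt_M hP h _ _

theorem pt_tl (i : Fin 5) : P (tl (fun x => S.M x.1 x.2) S.O S.K1 i).pt := by
  fin_cases i
  · exact S.pt_O hP h _
  · exact S.pt_O hP h _
  · exact S.pt_M hP h _ _
  · exact S.pt_K1 hP h
  · exact S.pt_M hP h _ _

end Spl

end Orl.Q

namespace Orl.Fld.FieldDatum

variable {k F L K : Type} [Field k] [Field F] [Field L] [Field K] [Algebra k F]
    [Algebra k L] [Algebra k K] [Algebra F K] [Algebra L K] [IsScalarTower k F K]
    [IsScalarTower k L K] (D : FieldDatum k F L K)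

theorem sigR_r (i : Fin 3) : D.sig (D.spl.r i) = D.spl.r (Equiv.addRight 1 i) := D.sig_r i

theorem sigR_s : D.sig D.spl.s = D.spl.s := D.sig_sK

theorem sigR2_r (i : Fin 3) :
    (D.sig * D.sig) (D.spl.r i) = D.spl.r (Equiv.addRight 2 i) := by
  rw [AlgEquiv.mul_apply, D.sigR_r, D.sigR_r]
  congr 1
  revert i
  decide

theorem sigR2_s : (D.sig * D.sig) D.spl.s = D.spl.s := by
  rw [AlgEquiv.mul_apply, D.sigR_s, D.sigR_s]

section F

variable [FiniteDimensional F K] [FiniteDimensional k F] [FiniteDimensional k K]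
variable {P : ObjectProperty (ModObj k F D.qd.Cat)} (hP : Thk P)

include hP

/-- **Generation over the quadratic field**: the six objects, in every twist, generate the
extensions to `F` of all `O(j)`, `E(j)`. -/
theorem gen_F (m : ℤ) (X : Fin 6 → ModObj k F D.qd.Cat)
    (hX : ∀ i, FormOf (X i) (tf (fun x => D.spl.M x.1 x.2) D.spl.O m i)) (h : ∀ i, P (X i))
    (x : ℤ ⊕ ℤ) : P ((indC k D.qd.Cat F).obj (D.qd.OEf x)) := by
  have key := D.spl.gen_F_final hP (fun j => ⟨D.spl.indCO j⟩) (fun j => ⟨D.spl.indCE j⟩) m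
    (D.sig * D.sig) D.sig _ _ D.sigR2_r D.sigR_r D.sigR2_s D.sigR_s (by decide)
    (by decide) X hX h
  rcases x with j | j
  · exact (key j).1
  · exact (key j).2

end F

section D

variable [FiniteDimensional F K]
  (t : FObj k F K D.qd.Cat (fun x => D.spl.M x.1 x.2) D.spl.O) (m : ℤ)

theorem formOf_D (i : Fin 6) :
    FormOf (t.D m (Fin.rev i)) (tf (fun x => D.spl.M x.1 x.2) D.spl.O m i) := by
  fin_cases i
  · exact Or.inl ⟨t.eL _⟩
  · exact Or.inl ⟨t.eL _⟩
  · exact Or.inl ⟨t.eA _⟩
  · exact Or.inl ⟨t.eB _⟩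
  · exact Or.inr ⟨Iso.refl _⟩
  · exact Or.inl ⟨t.eA _⟩

variable [FiniteDimensional k F] [FiniteDimensional k K]

/-- The collection over `F` (in every twist) generates the extensions to `F` of the objects of the
thick class of the `O(j)`, `E(j)`. -/
theorem inThk_D {X : D.qd.Cat} (hX : InThk D.qd.OEf X) :
    InThk (t.D m) ((indC k D.qd.Cat F).obj X) := by
  have hP := inThk_thk (t.D m)
  exact hX _ (hP.comap' (indC k D.qd.Cat F)) fun x =>
    D.gen_F hP m (fun i => t.D m (Fin.rev i)) (D.formOf_D t m)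
      (fun i => inThk_gen (t.D m) (Fin.rev i)) x

/-- The underlying objects of the collection over `F`. -/
theorem pt_D (i : Fin 6) : InThk D.qd.OEf (t.D m i).pt := by
  have hP := inThk_thk D.qd.OEf
  have h := D.formOf_D t m (Fin.rev i)
  rw [Fin.rev_rev] at h
  exact (pt_form hP h).1 (D.spl.pt_tf hP (inThk_gen _) m _)

theorem inThk_D_GT : InThk (t.D m) ((indC k D.qd.Cat F).obj D.qd.GT) :=
  D.inThk_D t m ((D.qd.inThk_GT_iff _).1 (inThk_gen _ ()))

theorem pt_D_GT (i : Fin 6) : InThk (fun _ : Unit => D.qd.GT) (t.D m i).pt :=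
  (D.qd.inThk_GT_iff _).2 (D.pt_D t m i)

/-- The blocks over `F` generate the extensions to `F` of the objects of the thick class of the
`O(j)`, `E(j)`. -/
theorem inThk_tF {X : D.qd.Cat} (hX : InThk D.qd.OEf X) :
    InThk (D.tF m) ((indC k D.qd.Cat F).obj X) :=
  fun _ hP hE => D.inThk_D D.fobj m hX _ hP fun i => D.tF_rev m i ▸ hE i.rev

/-- The underlying objects of the blocks over `F`. -/
theorem pt_tF (i : Fin 6) : InThk D.qd.OEf (D.tF m i).pt := D.pt_D D.fobj m i.rev

theorem inThk_tF_GT : InThk (D.tF m) ((indC k D.qd.Cat F).obj D.qd.GT) :=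
  D.inThk_tF m ((D.qd.inThk_GT_iff _).1 (inThk_gen _ ()))

theorem pt_tF_GT (i : Fin 6) : InThk (fun _ : Unit => D.qd.GT) (D.tF m i).pt :=
  (D.qd.inThk_GT_iff _).2 (D.pt_tF m i)

end D

section L

variable [FiniteDimensional k L] [FiniteDimensional k K] [FiniteDimensional L K]

/-- The blocks over `L` generate the extensions to `L` of the objects of the thick class of the
`O(j)`, `E(j)`. -/
theorem inThk_tb {X : D.qd.Cat} (hX : InThk D.qd.OEf X) :
    InThk D.tb ((indC k D.qd.Cat L).obj X) := by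
  have hP := inThk_thk D.tb
  refine hX _ (hP.comap' (indC k D.qd.Cat L)) fun x => ?_
  rcases x with j | j
  · exact (D.gen_tb hP (inThk_gen D.tb) j).1
  · exact (D.gen_tb hP (inThk_gen D.tb) j).2

/-- The underlying objects of the blocks over `L`. -/
theorem pt_tb (i : Fin 5) : InThk D.qd.OEf (D.tb i).pt := by
  have hP := inThk_thk D.qd.OEf
  exact (pt_form hP (D.formOf_tb i)).1 (D.spl.pt_tl hP (inThk_gen _) i)

theorem inThk_tb_GT : InThk D.tb ((indC k D.qd.Cat L).obj D.qd.GT) :=
  D.inThk_tb ((D.qd.inThk_GT_iff _).1 (inThk_gen _ ()))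

theorem pt_tb_GT (i : Fin 5) : InThk (fun _ : Unit => D.qd.GT) (D.tb i).pt :=
  (D.qd.inThk_GT_iff _).2 (D.pt_tb i)

end L

end Orl.Fld.FieldDatum
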