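import Pool.Agent.Work.MP_a6e60d_ag.Q.PairLat
import Pool.Agent.Work.MP_a6e60d_ag.Q.Spl

/-!
# The coprime maps between the modules `M_I`
-/

open LaurentPolynomial Quaternion

set_option linter.unusedSectionVars false

namespace Orl.Q

namespace Spl

variable {k : Type} [Field k] {δ : Dat k} {K : Type} [Field K] [Algebra k K] (S : Spl δ K)

theorem l_eq_rt (i : Fin 4) : S.l i = rt S.r i := rfl

theorem fac_eq (I : Finset (Fin 4)) : S.fac I = facI S.hs S.prod_univ.symm I := rfl

/-- the two factors are coprime on every chart -/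
theorem fac_cop (v : Ch) (I : Finset (Fin 4)) :
    Cop v (S.fac I).e (4 - (S.fac I).e) (S.fac I).g (S.fac I).h :=
  facI_cop S.hs S.prod_univ.symm S.inj v I

/-- the coprime map between the modules of two sets of roots -/
noncomputable def lk (I J : Finset (Fin 4)) : Lk (S.fac I) (S.fac J) :=
  lkI S.hs S.prod_univ.symm S.inj I J

@[simp] theorem lk_m (I J : Finset (Fin 4)) : (S.lk I J).m = (I \ J).card := rfl

theorem lk_x (I J : Finset (Fin 4)) : (S.lk I J).x = ∏ i ∈ I \ J, S.l i := rfl

theorem lk_y (I J : Finset (Fin 4)) : (S.lk I J).y = ∏ i ∈ J \ I, S.l i := rfl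

include S in
theorem q_ne_zero : δ.q ≠ 0 := by
  intro h
  have h1 := S.prod_univ
  rw [h, map_zero] at h1
  obtain ⟨i, -, hi⟩ := Finset.prod_eq_zero_iff.1 h1
  exact S.l_ne_zero i hi

/-- every linear map between the modules of two sets of roots is a multiple of the coprime one -/
theorem exists_smul (I J : Finset (Fin 4)) (f : (S.fac I).N →ₗ[δ.D] (S.fac J).N)
    (hf : ∀ (c : K) n, f (c • n) = c • f n) :
    ∃ t, ((S.lk I J).toPairMap.smul t).lin rfl = f := by
  obtain ⟨p, hp⟩ := PairMap.exists_lin (φ := S.fac I) (φ' := S.fac J) rfl S.two_ne S.s_ne f hf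
  obtain ⟨t, ht⟩ := (S.lk I J).exists_eq_smul S.q_ne_zero p
  exact ⟨t, by rw [← ht, hp]⟩

end Spl

end Orl.Q
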