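import Pool.Agent.Work.MP_a6e60d_ag.Q.FMap

/-!
MP_a6e60d_ag, Q3: the squares between the objects `M_{g,h}(n)` and between the `O(n)`.
-/

open CategoryTheory Limits LaurentPolynomial Quaternion Orl.LF

set_option linter.unusedSectionVars false
set_option autoImplicit false

attribute [-instance] CategoryTheory.catToReflQuiver

namespace Orl.Q

variable {k : Type} [Field k] {δ : Dat k} {κ : Type} [Field κ] [Algebra k κ]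

/-- the element of the generic fibre with given components -/
def Fac.pr (φ : Fac δ κ) (x y : κ[T;T⁻¹]) : φ.N := (x, y)

theorem Fac.pr_fst (φ : Fac δ κ) (x y : κ[T;T⁻¹]) : (φ.pr x y).1 = x := rfl

theorem Fac.pr_snd (φ : Fac δ κ) (x y : κ[T;T⁻¹]) : (φ.pr x y).2 = y := rfl

/-- The `D`-linear map of generic fibres given by a pair `(α, β)`. -/
noncomputable def Fac.pairL {φ φ' : Fac δ κ} (hs : φ'.s = φ.s) (α β : κ[T;T⁻¹])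
    (hg : φ'.g * α = β * φ.g) (hh : φ'.h * β = α * φ.h) : φ.N →ₗ[δ.D] φ'.N where
  toFun x := φ'.pr (α * x.1) (β * x.2)
  map_add' x y := by
    ext1
    · exact mul_add _ _ _
    · exact mul_add _ _ _
  map_smul' d x := by
    rw [RingHom.id_apply]
    ext1
    · rw [Fac.pr_fst, Fac.smul_fst, Fac.smul_fst, Fac.pr_fst, Fac.pr_snd, hs]
      linear_combination (-(bc κ d.imJ + C φ.s * bc κ d.imK) * x.2) * hh
    · rw [Fac.pr_snd, Fac.smul_snd, Fac.smul_snd, Fac.pr_fst, Fac.pr_snd, hs]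
      linear_combination (-(bc κ d.imJ - C φ.s * bc κ d.imK) * x.1) * hg

section

variable {φ φ' : Fac δ κ} (hs : φ'.s = φ.s) (α β : κ[T;T⁻¹])
    (hg : φ'.g * α = β * φ.g) (hh : φ'.h * β = α * φ.h)

theorem Fac.pairL_fst (x : φ.N) : (Fac.pairL hs α β hg hh x).1 = α * x.1 := rfl

theorem Fac.pairL_snd (x : φ.N) : (Fac.pairL hs α β hg hh x).2 = β * x.2 := rfl

theorem Fac.pairL_smul (c : κ) (x : φ.N) :
    Fac.pairL hs α β hg hh (c • x) = c • Fac.pairL hs α β hg hh x := by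
  ext1
  · exact mul_smul_comm c α x.1
  · exact mul_smul_comm c β x.2

theorem Fac.pairL_mem {n n' : ℤ} (hα : ∀ v, α ∈ Orl.Q.lat κ v (n' - n))
    (hβ : ∀ v, β ∈ Orl.Q.lat κ v ((n' + φ'.e) - (n + φ.e))) (s : Vx) (x : φ.N)
    (hx : x ∈ (φ.lat n).M s) : Fac.pairL hs α β hg hh x ∈ (φ'.lat n').M s :=
  ⟨lat_mul' (hα s.1) hx.1 (by ring), lat_mul' (hβ s.1) hx.2 (by ring)⟩

end

/-- The map `M_{g,h}(n) → M_{g',h'}(n')` given by a pair of sections. -/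
noncomputable def Fac.pairHom {φ φ' : Fac δ κ} (hs : φ'.s = φ.s) (α β : κ[T;T⁻¹])
    (hg : φ'.g * α = β * φ.g) (hh : φ'.h * β = α * φ.h) {n n' : ℤ}
    (hα : ∀ v, α ∈ Orl.Q.lat κ v (n' - n))
    (hβ : ∀ v, β ∈ Orl.Q.lat κ v ((n' + φ'.e) - (n + φ.e))) : φ.M n ⟶ φ'.M n' :=
  Lattice.khom (Fac.pairL hs α β hg hh) (Fac.pairL_mem _ _ _ _ _ hα hβ)
    (Fac.pairL_smul _ _ _ _ _)

theorem Fac.pairHom_apply {φ φ' : Fac δ κ} (hs : φ'.s = φ.s) (α β : κ[T;T⁻¹])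
    (hg : φ'.g * α = β * φ.g) (hh : φ'.h * β = α * φ.h) {n n' : ℤ}
    (hα : ∀ v, α ∈ Orl.Q.lat κ v (n' - n))
    (hβ : ∀ v, β ∈ Orl.Q.lat κ v ((n' + φ'.e) - (n + φ.e))) (x : (φ.lat n).El) (s : Vx) :
    ((ModuleCat.Hom.hom (ModObj.homPt (Fac.pairHom hs α β hg hh hα hβ)) x :
      (φ'.lat n').El) s).1 = φ'.pr (α * (x s).1.1) (β * (x s).1.2) := rfl

/-- The map is not zero if `α ≠ 0`. -/
theorem Fac.pairHom_ne_zero {φ φ' : Fac δ κ} (hs : φ'.s = φ.s) (α β : κ[T;T⁻¹])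
    (hg : φ'.g * α = β * φ.g) (hh : φ'.h * β = α * φ.h) {n n' : ℤ}
    (hα : ∀ v, α ∈ Orl.Q.lat κ v (n' - n))
    (hβ : ∀ v, β ∈ Orl.Q.lat κ v ((n' + φ'.e) - (n + φ.e))) (h : α ≠ 0) :
    Fac.pairHom hs α β hg hh hα hβ ≠ 0 := by
  intro h0
  -- the element `(1, 0)` on the overlap
  let y : (φ.lat n).M (.mid, true) := ⟨φ.pr 1 0, mem_lat_mid _, mem_lat_mid _⟩
  let x : (φ.lat n).El := Pi.single (M := fun s => (φ.lat n).M s) ((.mid, true) : Vx) y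
  have h3 : x (.mid, true) = y := Pi.single_eq_same _ _
  have h1 := congrArg (fun f => ((ModuleCat.Hom.hom (ModObj.homPt f) x :
    (φ'.lat n').El) (.mid, true)).1.1) h0
  have h2 : α * (x (.mid, true)).1.1 = 0 := h1
  rw [h3] at h2
  have h4 : α * 1 = 0 := h2
  rw [mul_one] at h4
  exact h h4

/-- **Squares of rank one objects.** -/
theorem Fac.sq_shortExact {φ₀ φ₁ φ₂ φ₃ : Fac δ κ} (s₁ : φ₁.s = φ₀.s) (s₂ : φ₂.s = φ₀.s) (s₃ : φ₃.s = φ₀.s)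
    {n₀ n₁ n₂ n₃ : ℤ} {α₁ α₂ β₁ β₂ : κ[T;T⁻¹]} {d₁ d₂ c₁ c₂ : ℤ}
    (hn₁ : n₁ + d₁ = n₃) (hn₂ : n₂ + d₂ = n₃) (hn₀ : n₀ + d₂ = n₁)
    (he₁ : φ₁.e + n₁ + c₁ = φ₃.e + n₃) (he₂ : φ₂.e + n₂ + c₂ = φ₃.e + n₃)
    (he₀ : φ₀.e + n₀ + c₂ = φ₁.e + n₁)
    (ha : Bez α₁ α₂ d₁ d₂) (hb : Bez β₁ β₂ c₁ c₂)
    (g₁ : φ₃.g * α₁ = β₁ * φ₁.g) (h₁ : φ₃.h * β₁ = α₁ * φ₁.h)
    (g₂ : φ₃.g * α₂ = β₂ * φ₂.g) (h₂ : φ₃.h * β₂ = α₂ * φ₂.h)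
    (g₀ : φ₁.g * α₂ = β₂ * φ₀.g) (h₀ : φ₁.h * β₂ = α₂ * φ₀.h)
    (g₀' : φ₂.g * α₁ = β₁ * φ₀.g) (h₀' : φ₂.h * β₁ = α₁ * φ₀.h)
    (m₁ : ∀ v, α₂ ∈ Orl.Q.lat κ v (n₁ - n₀))
    (m₁' : ∀ v, β₂ ∈ Orl.Q.lat κ v ((n₁ + φ₁.e) - (n₀ + φ₀.e)))
    (m₂ : ∀ v, -α₁ ∈ Orl.Q.lat κ v (n₂ - n₀))
    (m₂' : ∀ v, -β₁ ∈ Orl.Q.lat κ v ((n₂ + φ₂.e) - (n₀ + φ₀.e)))
    (m₃ : ∀ v, α₁ ∈ Orl.Q.lat κ v (n₃ - n₁))
    (m₃' : ∀ v, β₁ ∈ Orl.Q.lat κ v ((n₃ + φ₃.e) - (n₁ + φ₁.e)))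
    (m₄ : ∀ v, α₂ ∈ Orl.Q.lat κ v (n₃ - n₂))
    (m₄' : ∀ v, β₂ ∈ Orl.Q.lat κ v ((n₃ + φ₃.e) - (n₂ + φ₂.e))) :
    ∃ w, (ShortComplex.mk
      (biprod.lift (Fac.pairHom s₁ α₂ β₂ g₀ h₀ m₁ m₁')
        (Fac.pairHom s₂ (-α₁) (-β₁) (by rw [mul_neg, neg_mul, g₀'])
          (by rw [mul_neg, neg_mul, h₀']) m₂ m₂'))
      (biprod.desc (Fac.pairHom (s₃.trans s₁.symm) α₁ β₁ g₁ h₁ m₃ m₃')
        (Fac.pairHom (s₃.trans s₂.symm) α₂ β₂ g₂ h₂ m₄ m₄')) w).ShortExact := by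
  refine Lattice.square_shortExact _ _ _ _ _ _ _ _ _ _ _ _ ?_ ?_ ?_ ?_
  · intro x
    ext1
    · change α₁ * (α₂ * x.1) + α₂ * (-α₁ * x.1) = 0
      ring
    · change β₁ * (β₂ * x.2) + β₂ * (-β₁ * x.2) = 0
      ring
  · intro s x hx h1 h2
    ext1
    · refine ha.inj ?_ (congrArg Prod.fst h1)
      have := congrArg Prod.fst h2
      change -α₁ * x.1 = 0 at this
      rwa [neg_mul, neg_eq_zero] at this
    · refine hb.inj ?_ (congrArg Prod.snd h1)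
      have := congrArg Prod.snd h2
      change -β₁ * x.2 = 0 at this
      rwa [neg_mul, neg_eq_zero] at this
  · intro s x hx y hy h
    obtain ⟨z1, hz1, e1, e1'⟩ := ha.exact (v := s.1) (n₀ := n₀) hn₁ hn₂ hn₀ hx.1 hy.1
      (congrArg Prod.fst h)
    obtain ⟨z2, hz2, e2, e2'⟩ := hb.exact (v := s.1) (n := n₃ + φ₃.e - 2)
      (n₀ := n₀ + φ₀.e - 2) (by omega) (by omega) (by omega) hx.2 hy.2
      (congrArg Prod.snd h)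
    refine ⟨φ₀.pr z1 z2, ⟨hz1, hz2⟩, ?_, ?_⟩
    · ext1
      · exact e1
      · exact e2
    · ext1
      · rw [Fac.pairL_fst, neg_mul]
        exact e1'
      · rw [Fac.pairL_snd, neg_mul]
        exact e2'
  · intro s z hz
    obtain ⟨x1, hx1, y1, hy1, e1⟩ := ha.surj (v := s.1) hn₁ hn₂ hz.1
    obtain ⟨x2, hx2, y2, hy2, e2⟩ := hb.surj (v := s.1) (n := n₃ + φ₃.e - 2)
      (n₁ := n₁ + φ₁.e - 2) (n₂ := n₂ + φ₂.e - 2) (by omega) (by omega) hz.2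
    refine ⟨φ₁.pr x1 x2, ⟨hx1, hx2⟩, φ₂.pr y1 y2, ⟨hy1, hy2⟩, ?_⟩
    ext1
    · exact e1
    · exact e2

/-- Squares, without naming the maps. -/
theorem Fac.sq {φ₀ φ₁ φ₂ φ₃ : Fac δ κ} (s₁ : φ₁.s = φ₀.s) (s₂ : φ₂.s = φ₀.s) (s₃ : φ₃.s = φ₀.s)
    {n₀ n₁ n₂ n₃ : ℤ} {α₁ α₂ β₁ β₂ : κ[T;T⁻¹]} {d₁ d₂ c₁ c₂ : ℤ}
    (hn₁ : n₁ + d₁ = n₃) (hn₂ : n₂ + d₂ = n₃) (hn₀ : n₀ + d₂ = n₁)
    (he₁ : φ₁.e + n₁ + c₁ = φ₃.e + n₃) (he₂ : φ₂.e + n₂ + c₂ = φ₃.e + n₃)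
    (he₀ : φ₀.e + n₀ + c₂ = φ₁.e + n₁)
    (ha : Bez α₁ α₂ d₁ d₂) (hb : Bez β₁ β₂ c₁ c₂)
    (g₁ : φ₃.g * α₁ = β₁ * φ₁.g) (h₁ : φ₃.h * β₁ = α₁ * φ₁.h)
    (g₂ : φ₃.g * α₂ = β₂ * φ₂.g) (h₂ : φ₃.h * β₂ = α₂ * φ₂.h)
    (g₀ : φ₁.g * α₂ = β₂ * φ₀.g) (h₀ : φ₁.h * β₂ = α₂ * φ₀.h)
    (g₀' : φ₂.g * α₁ = β₁ * φ₀.g) (h₀' : φ₂.h * β₁ = α₁ * φ₀.h) :
    Sq (φ₀.M n₀) (φ₁.M n₁) (φ₂.M n₂) (φ₃.M n₃) := by
  obtain ⟨w, h⟩ := Fac.sq_shortExact s₁ s₂ s₃ hn₁ hn₂ hn₀ he₁ he₂ he₀ ha hb g₁ h₁ g₂ h₂ g₀ h₀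
    g₀' h₀'
    (fun v => by convert ha.mem₂ v using 2; omega)
    (fun v => by convert hb.mem₂ v using 2; omega)
    (fun v => Submodule.neg_mem _ (by convert ha.mem₁ v using 2; omega))
    (fun v => Submodule.neg_mem _ (by convert hb.mem₁ v using 2; omega))
    (fun v => by convert ha.mem₁ v using 2; omega)
    (fun v => by convert hb.mem₁ v using 2; omega)
    (fun v => by convert ha.mem₂ v using 2; omega)
    (fun v => by convert hb.mem₂ v using 2; omega)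
  exact Sq.mk h

/-- The section `x = T` and `t = 1` of `O(1)` have no common zero. -/
theorem bez_xt : Bez (T 1 : κ[T;T⁻¹]) 1 1 1 := by
  have h := bez_lin (κ := κ) (u := 1) (w := 0) (u' := 0) (w' := -1) (by simp)
  simpa [lin] using h

/-- **Koszul square** of a rank one object. -/
theorem Fac.sq_xt (φ : Fac δ κ) (n : ℤ) :
    Sq (φ.M (n - 2)) (φ.M (n - 1)) (φ.M (n - 1)) (φ.M n) :=
  Fac.sq (φ₀ := φ) (φ₁ := φ) (φ₂ := φ) (φ₃ := φ) rfl rfl rfl (d₁ := 1) (d₂ := 1) (c₁ := 1)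
    (c₂ := 1) (by ring) (by ring) (by ring) (by ring) (by ring) (by ring) bez_xt bez_xt
    (by ring) (by ring) (by ring) (by ring) (by ring) (by ring) (by ring) (by ring)

/-- **Koszul square** of the line bundles. -/
theorem Fac.sqO_xt (φ : Fac δ κ) (n : ℤ) :
    Sq (φ.O (n - 2)) (φ.O (n - 1)) (φ.O (n - 1)) (φ.O n) := by
  have hb := bez_xt (κ := κ)
  have mem : ∀ (α : κ[T;T⁻¹]) (hg : φ.g * α = α * φ.g) (hh : φ.h * α = α * φ.h) {n n' : ℤ},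
      (∀ v, α ∈ Orl.Q.lat κ v (n' - n)) → ∀ s, ∀ x ∈ (φ.latO n).M s,
      Fac.pairL rfl α α hg hh x ∈ (φ.latO n').M s := by
    rintro α hg hh n n' hα ⟨v, b⟩ x hx
    cases b
    · simp only [Fac.latO, Bool.false_eq_true, if_false] at hx ⊢
      refine ⟨lat_mul' (hα v) hx.1 (by ring), ?_⟩
      rw [Fac.pairL_snd, hx.2, mul_zero]
    · simp only [Fac.latO, if_true, Submodule.mem_bot] at hx ⊢
      rw [hx, map_zero]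
  have c1 : ∀ v, (1 : κ[T;T⁻¹]) ∈ Orl.Q.lat κ v ((n - 1) - (n - 2)) := fun v => by
    convert hb.mem₂ v using 2; ring
  have cT : ∀ v, (T 1 : κ[T;T⁻¹]) ∈ Orl.Q.lat κ v ((n - 1) - (n - 2)) := fun v => by
    convert hb.mem₁ v using 2; ring
  have c1' : ∀ v, (1 : κ[T;T⁻¹]) ∈ Orl.Q.lat κ v (n - (n - 1)) := fun v => by
    convert hb.mem₂ v using 2; ring
  have cT' : ∀ v, (T 1 : κ[T;T⁻¹]) ∈ Orl.Q.lat κ v (n - (n - 1)) := fun v => by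
    convert hb.mem₁ v using 2; ring
  refine Lattice.square
    (Fac.pairL rfl 1 1 (mul_comm _ _) (mul_comm _ _)) (mem _ _ _ c1) (Fac.pairL_smul _ _ _ _ _)
    (Fac.pairL rfl (-T 1) (-T 1) (mul_comm _ _) (mul_comm _ _))
    (mem _ _ _ fun v => Submodule.neg_mem _ (cT v)) (Fac.pairL_smul _ _ _ _ _)
    (Fac.pairL rfl (T 1) (T 1) (mul_comm _ _) (mul_comm _ _)) (mem _ _ _ cT')
    (Fac.pairL_smul _ _ _ _ _)
    (Fac.pairL rfl 1 1 (mul_comm _ _) (mul_comm _ _)) (mem _ _ _ c1') (Fac.pairL_smul _ _ _ _ _)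
    ?_ ?_ ?_ ?_
  · intro x
    ext1
    · change T 1 * (1 * x.1) + 1 * (-T 1 * x.1) = (0 : κ[T;T⁻¹])
      ring
    · change T 1 * (1 * x.2) + 1 * (-T 1 * x.2) = (0 : κ[T;T⁻¹])
      ring
  · intro s x hx h1 h2
    ext1
    · have := congrArg Prod.fst h1
      change 1 * x.1 = 0 at this
      rwa [one_mul] at this
    · have := congrArg Prod.snd h1
      change 1 * x.2 = 0 at this
      rwa [one_mul] at this
  · rintro ⟨v, b⟩ x hx y hy h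
    cases b
    · simp only [Fac.latO, Bool.false_eq_true, if_false] at hx hy ⊢
      obtain ⟨z1, hz1, e1, e1'⟩ := hb.exact (v := v) (n := n) (n₀ := n - 2) (n₁ := n - 1)
        (n₂ := n - 1) (by ring) (by ring) (by ring) hx.1 hy.1 (congrArg Prod.fst h)
      refine ⟨φ.pr z1 0, ⟨hz1, rfl⟩, ?_, ?_⟩
      · ext1
        · exact e1
        · rw [Fac.pairL_snd, hx.2, Fac.pr_snd, mul_zero]
      · ext1
        · rw [Fac.pairL_fst, neg_mul]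
          exact e1'
        · rw [Fac.pairL_snd, hy.2, Fac.pr_snd, mul_zero]
    · simp only [Fac.latO, if_true, Submodule.mem_bot] at hx hy ⊢
      exact ⟨0, rfl, by rw [hx, map_zero], by rw [hy, map_zero]⟩
  · rintro ⟨v, b⟩ z hz
    cases b
    · simp only [Fac.latO, Bool.false_eq_true, if_false] at hz ⊢
      obtain ⟨x1, hx1, y1, hy1, e1⟩ := hb.surj (v := v) (n := n) (n₁ := n - 1) (n₂ := n - 1)
        (by ring) (by ring) hz.1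
      refine ⟨φ.pr x1 0, ⟨hx1, rfl⟩, φ.pr y1 0, ⟨hy1, rfl⟩, ?_⟩
      ext1
      · exact e1
      · change T 1 * 0 + 1 * 0 = z.2
        rw [hz.2, mul_zero, mul_zero, add_zero]
    · simp only [Fac.latO, if_true, Submodule.mem_bot] at hz ⊢
      exact ⟨0, rfl, 0, rfl, by rw [hz, map_zero, map_zero, add_zero]⟩

end Orl.Q
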