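import Pool.Agent.Work.MP_a6e60d_ag.Q.CutMM
import Pool.Agent.Work.MP_a6e60d_ag.Q.GenO

/-!
# The groups Ext out of the line bundles
-/

open CategoryTheory CategoryTheory.Abelian CategoryTheory.Limits LaurentPolynomial Quaternion
  Orl.LF

set_option linter.unusedSectionVars false

attribute [-instance] CategoryTheory.catToReflQuiver

universe w

namespace Orl.Q

section

variable {k : Type} [Field k] {δ : Dat k} {κ : Type} [Field κ] [Algebra k κ]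
  [HasExt.{w} (ModObj k κ (ModuleCat.{0} δ.Alg))] {φ φ' : Fac δ κ}

theorem Fac.acyc_OM {n n' : ℤ} (ha : -1 ≤ n' - n) (hb : -1 ≤ n' + φ'.e - 2 - n) :
    Acyc.{w} (φ.O n) (φ'.M n') :=
  Lattice.acyc_of_cut (φ.latO_stable n) (Fac.acyc_cutO' φ n .zero _) (Fac.acyc_cutO' φ n .inf _)
    (Fac.acyc_cutO' φ n .mid _) fun f =>
      Fac.split_homO (hM' := φ'.lat_stable n') ha hb (fun _ _ h1 h2 => ⟨h1, h2⟩) f

theorem Fac.acyc_OO {n n' : ℤ} (ha : -1 ≤ n' - n) : Acyc.{w} (φ.O n) (φ'.O n') :=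
  Lattice.acyc_of_cut (φ.latO_stable n) (Fac.acyc_cutO' φ n .zero _) (Fac.acyc_cutO' φ n .inf _)
    (Fac.acyc_cutO' φ n .mid _) fun f => Fac.split_homOO ha f

end

namespace Spl

variable {k : Type} [Field k] {δ : Dat k} {K : Type} [Field K] [Algebra k K]
  [HasExt.{w} (ModObj k K (ModuleCat.{0} δ.Alg))] (S : Spl δ K)

theorem tab_om {j : ℤ} {x : Finset (Fin 4) × ℤ} (ha : -1 ≤ x.2 - j)
    (hb : -1 ≤ x.2 + (x.1.card : ℤ) - 2 - j) : Acyc.{w} (S.O j) (S.Mx x) :=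
  Fac.acyc_OM (φ := S.fac ∅) (φ' := S.fac x.1) ha hb

theorem tab_oo {i j : ℤ} (h : -1 ≤ j - i) : Acyc.{w} (S.O i) (S.O j) :=
  Fac.acyc_OO (φ := S.fac ∅) (φ' := S.fac ∅) h

end Spl

end Orl.Q
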