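import Pool.Agent.Work.MP_a6e60d_ag.Q.PairSpl
import Pool.Agent.Work.MP_a6e60d_ag.Q.OApi
import Pool.Agent.Work.MP_a6e60d_ag.Q.Tab

/-!
# The maps between the rank one objects and the line bundles
-/

open CategoryTheory CategoryTheory.Limits LaurentPolynomial Quaternion Orl.LF

set_option linter.unusedSectionVars false

attribute [-instance] CategoryTheory.catToReflQuiver

namespace Orl.Q

/-! ### Global sections -/

section glob

variable {κ : Type} [CommRing κ]

theorem glob_eq_zero {n : ℤ} (hn : n < 0) {t : κ[T;T⁻¹]} (h : ∀ v, t ∈ lat κ v n) : t = 0 := by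
  ext m
  by_contra hm
  have h1 : 0 ≤ m := h .zero m hm
  have h2 : m ≤ n := h .inf m hm
  lia

theorem glob_zero {t : κ[T;T⁻¹]} (h : ∀ v, t ∈ lat κ v 0) : ∃ c : κ, t = C c := by
  refine ⟨t.coeff 0, ?_⟩
  ext m
  rw [C_apply]
  split_ifs with hm
  · rw [hm]
  · by_contra h'
    have h1 : 0 ≤ m := h .zero m h'
    have h2 : m ≤ 0 := h .inf m h'
    exact hm (by lia)

variable (k : Type) [Field k] (K : Type) [Field K] [Algebra k K]

/-- the global sections of `O(n)`, over the smaller field -/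
def glob (n : ℤ) : Submodule k K[T;T⁻¹] where
  carrier := {t | ∀ v, t ∈ lat K v n}
  add_mem' ha hb v := Submodule.add_mem _ (ha v) (hb v)
  zero_mem' _ := Submodule.zero_mem _
  smul_mem' c x hx v := by
    have h1 : c • x = algebraMap k K c • x := (algebraMap_smul K c x).symm
    rw [h1]
    exact Submodule.smul_mem _ _ (hx v)

theorem mem_glob {n : ℤ} {t : K[T;T⁻¹]} : t ∈ glob k K n ↔ ∀ v, t ∈ lat K v n := Iff.rfl

instance finite_glob [Module.Finite k K] (n : ℤ) : Module.Finite k (glob k K n) := by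
  let f : glob k K n →ₗ[k] (Fin (n + 1).toNat → K) :=
    { toFun := fun t i => t.1.coeff (i : ℕ)
      map_add' := fun a b => rfl
      map_smul' := fun c a => rfl }
  refine Module.Finite.of_injective f ?_
  rw [← LinearMap.ker_eq_bot, LinearMap.ker_eq_bot']
  intro t ht
  refine Subtype.ext ?_
  ext m
  by_contra hm
  have h1 : 0 ≤ m := t.2 .zero m hm
  have h2 : m ≤ n := t.2 .inf m hm
  have h3 := congrFun ht ⟨m.toNat, by lia⟩
  refine hm ?_
  have h4 : t.1.coeff ((m.toNat : ℕ) : ℤ) = 0 := h3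
  rwa [Int.toNat_of_nonneg h1] at h4

end glob

/-! ### Evaluation of morphisms -/

section kev

variable {k D V : Type} [Field k] [Ring D] [Algebra k D] [Fintype V] [DecidableEq V]
  {T : Tiling k D V} {N N' : Type} [AddCommGroup N] [Module k N] [Module D N]
  [IsScalarTower k D N] [AddCommGroup N'] [Module k N'] [Module D N'] [IsScalarTower k D N']
  {κ : Type} [Field κ] [Algebra k κ] [Module κ N] [IsScalarTower k κ N] [SMulCommClass κ D N]
  [Module κ N'] [IsScalarTower k κ N'] [SMulCommClass κ D N']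
  {M : Lattice T N} {M' : Lattice T N'} (hM : M.Stable κ) (hM' : M'.Stable κ)

/-- the evaluation of the morphisms of module objects at an element -/
noncomputable def Lattice.kev (x : M.El) (s : V) :
    (Lattice.kmod hM ⟶ Lattice.kmod hM') →ₗ[k] N' where
  toFun f := (((ModObj.homPt f).hom x : M'.El) s).1
  map_add' f g := rfl
  map_smul' r f := by
    let z : M'.El := (ModObj.homPt f).hom x
    have h : (algebraMap k T.Alg r • z : M'.El) = r • z := algebraMap_smul _ _ _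
    have h' := congrArg (fun y : M'.El => (y s).1) h
    exact h'

variable {hM} {hM'}

theorem Lattice.kev_khom (g : M.Fam M') (hg : g.IsK hM) (x : M.El) (s : V) :
    Lattice.kev hM hM' x s (g.khom hM' hg) = (g.f s (x s)).1 := rfl

end kev

/-! ### The maps between the rank one objects -/

section

variable {k : Type} [Field k] {δ : Dat k} {κ : Type} [Field κ] [Algebra k κ] {φ φ' : Fac δ κ}

theorem Fac.mem_lat_iff {n : ℤ} {s : Vx} {x : φ.N} :
    x ∈ (φ.lat n).M s ↔ x ∈ φ.pair s.1 n (n + φ.e - 2) := Iff.rfl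

theorem Fac.lat_mid_top (n : ℤ) : (φ.lat n).M (.mid, true) = ⊤ := by
  rw [eq_top_iff]
  exact fun x _ => ⟨mem_lat_mid _, mem_lat_mid _⟩

theorem PairMap.lin_lat {p : PairMap φ φ'} (hs : φ'.s = φ.s) {n n' : ℤ}
    (h : ∀ v, p.Pres v n n') (s : Vx) (x : φ.N) (hx : x ∈ (φ.lat n).M s) :
    p.lin hs x ∈ (φ'.lat n').M s :=
  (h s.1).lin_mem hs hx

noncomputable def PairMap.hom (p : PairMap φ φ') (hs : φ'.s = φ.s) (n n' : ℤ)
    (h : ∀ v, p.Pres v n n') : φ.M n ⟶ φ'.M n' :=
  Lattice.kmap (φ.lat_stable n) (φ'.lat_stable n') (p.lin hs) (PairMap.lin_lat hs h)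
    (p.lin_ksmul hs)

theorem PairMap.isK (p : PairMap φ φ') (hs : φ'.s = φ.s) {n n' : ℤ}
    (h : ∀ v, p.Pres v n n') :
    ((φ.lat n).mapD (φ'.lat n') (p.lin hs) (PairMap.lin_lat hs h)).IsK (φ.lat_stable n) :=
  Lattice.mapD_isK (φ.lat_stable n) (PairMap.lin_lat hs h) (p.lin_ksmul hs)

/-- the value of a map of lattices at an element -/
theorem PairMap.hom_apply (p : PairMap φ φ') (hs : φ'.s = φ.s) {n n' : ℤ}
    (h : ∀ v, p.Pres v n n') (x : (φ.lat n).El) (s : Vx) :
    (((ModObj.homPt (p.hom hs n n' h)).hom x : (φ'.lat n').El) s).1 = p.lin hs (x s).1 := rfl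

theorem PairMap.hom_ext {p p' : PairMap φ φ'} {hs : φ'.s = φ.s} {n n' : ℤ}
    {h : ∀ v, p.Pres v n n'} {h' : ∀ v, p'.Pres v n n'}
    (e : p.hom hs n n' h = p'.hom hs n n' h') : p = p' := by
  have e1 := Lattice.Fam.khom_injective (hg := p.isK hs h) (hh := p'.isK hs h') e
  have e2 : ∀ x : φ.N, p.lin hs x = p'.lin hs x := by
    intro x
    have hx : x ∈ (φ.lat n).M (.mid, true) := by rw [Fac.lat_mid_top]; trivial
    have e3 := congrArg (fun g : (φ.lat n).Fam (φ'.lat n') => (g.f (.mid, true) ⟨x, hx⟩).1) e1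
    exact e3
  refine PairMap.ext ?_ ?_
  · have := congrArg (fun z : φ'.N => z.1) (e2 (φ.vec 1 0))
    simpa using this
  · have := congrArg (fun z : φ'.N => z.2) (e2 (φ.vec 0 1))
    simpa using this

theorem PairMap.hom_eq_zero {p : PairMap φ φ'} {hs : φ'.s = φ.s} {n n' : ℤ}
    {h : ∀ v, p.Pres v n n'} (hx : p.x = 0) (hy : p.y = 0) : p.hom hs n n' h = 0 := by
  apply ModObj.hom_ext
  apply ModuleCat.hom_ext
  refine LinearMap.ext fun x => funext fun s => Subtype.ext ?_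
  refine (p.hom_apply hs h x s).trans ?_
  ext1
  · rw [PairMap.lin_fst, hx, zero_mul]
    rfl
  · rw [PairMap.lin_snd, hy, zero_mul]
    rfl

theorem PairMap.mono_hom {p : PairMap φ φ'} {hs : φ'.s = φ.s} {n n' : ℤ}
    {h : ∀ v, p.Pres v n n'} (hq : δ.q ≠ 0) (hx : p.x ≠ 0) : Mono (p.hom hs n n' h) := by
  refine (Lattice.Fam.khom_mono_iff (hM' := φ'.lat_stable n') (p.isK hs h)).2
    fun s x y hxy => ?_
  refine Subtype.ext (p.lin_injective hs hq hx ?_)
  exact congrArg Subtype.val hxy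

theorem PairMap.zact_hom {p p' : PairMap φ φ'} {hs : φ'.s = φ.s} {n n' : ℤ}
    {h : ∀ v, p.Pres v n n'} {h' : ∀ v, p'.Pres v n n'} {c : κ} (hx : p'.x = C c * p.x)
    (hy : p'.y = C c * p.y) :
    p'.hom hs n n' h' = (zact k κ δ.Cat c).app (φ.M n) ≫ p.hom hs n n' h := by
  apply ModObj.hom_ext
  apply ModuleCat.hom_ext
  refine LinearMap.ext fun x => funext fun s => Subtype.ext ?_
  refine (p'.hom_apply hs h' x s).trans ?_
  have e : p.lin hs (c • (x s).1) = p'.lin hs (x s).1 := by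
    rw [PairMap.lin_ksmul, ← Fac.C_smul]
    ext1
    · simp only [Fac.rsmul_fst, PairMap.lin_fst, hx, mul_assoc]
    · simp only [Fac.rsmul_snd, PairMap.lin_snd, hy, mul_assoc]
  exact e.symm

theorem PairMap.exists_hom (hs : φ'.s = φ.s) (h2 : (2 : κ) ≠ 0) (hs0 : φ.s ≠ 0) {n n' : ℤ}
    (f : φ.M n ⟶ φ'.M n') : ∃ (p : PairMap φ φ') (h : ∀ v, p.Pres v n n'), p.hom hs n n' h = f := by
  obtain ⟨g, hg, hf⟩ := Lattice.Fam.khom_surjective
    (hM := φ.lat_stable n) (hM' := φ'.lat_stable n') f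
  obtain ⟨f₀, hf₀, hfg⟩ := Lattice.Fam.exists_lin (Fac.lat_mid_top n) g
  have hK : ∀ (c : κ) x, f₀ (c • x) = c • f₀ x := by
    intro c x
    have hx : x ∈ (φ.lat n).M (.mid, true) := by rw [Fac.lat_mid_top]; trivial
    have h1 := hg (.mid, true) c ⟨x, hx⟩
    rw [← hfg] at h1
    exact h1
  obtain ⟨p, hp⟩ := PairMap.exists_lin hs h2 hs0 f₀ hK
  subst hp
  have h : ∀ v, p.Pres v n n' := fun v => PairMap.pres_of_lin_mem hs fun x hx => hf₀ (v, true) x hx
  refine ⟨p, h, ?_⟩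
  rw [← hf]
  subst hfg
  rfl

theorem Fac.not_isZero_M (φ : Fac δ κ) (n : ℤ) : ¬ IsZero (φ.M n) := by
  intro h
  have h1 : ∀ (p : PairMap φ φ) (h' : ∀ v, p.Pres v n n), p.hom rfl n n h' = 0 :=
    fun p h' => h.eq_of_src _ _
  have hid : ∀ v, (PairMap.id φ).Pres v n n := fun v => by
    rw [PairMap.pres_iff]
    refine ⟨?_, ?_⟩
    · rw [sub_self]
      exact one_mem_lat v
    · rw [sub_self, sub_self, add_zero]
      exact one_mem_lat v
  let z : PairMap φ φ := ⟨0, 0, by simp, by simp⟩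
  have hz : ∀ v, z.Pres v n n := fun v => by
    rw [PairMap.pres_iff]
    exact ⟨Submodule.zero_mem _, Submodule.zero_mem _⟩
  have h2 := PairMap.hom_ext ((h1 _ hid).trans (h1 z hz).symm)
  exact one_ne_zero (congrArg PairMap.x h2)


/-- the first entry of a map, linear over the smaller field -/
noncomputable def Fac.evx (φ φ' : Fac δ κ) (n n' : ℤ) : (φ.M n ⟶ φ'.M n') →ₗ[k] κ[T;T⁻¹] :=
  { toFun := fun z : φ'.N => z.1
    map_add' := fun _ _ => rfl
    map_smul' := fun c z => by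
      show algebraMap k κ c • z.1 = c • z.1
      rw [algebraMap_smul] : φ'.N →ₗ[k] κ[T;T⁻¹] } ∘ₗ
  Lattice.kev (φ.lat_stable n) (φ'.lat_stable n')
    ((φ.lat n).inj (.mid, true) ⟨φ.vec 1 0, by rw [Fac.lat_mid_top]; trivial⟩) (.mid, true)

theorem Fac.evx_hom (p : PairMap φ φ') (hs : φ'.s = φ.s) {n n' : ℤ} (h : ∀ v, p.Pres v n n') :
    Fac.evx φ φ' n n' (p.hom hs n n' h) = p.x := by
  have h1 : (p.lin hs (((φ.lat n).inj (.mid, true) ⟨φ.vec 1 0, by
      rw [Fac.lat_mid_top]; trivial⟩) (.mid, true)).1).1 = p.x := by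
    rw [Lattice.inj_same, PairMap.lin_fst, Fac.vec_fst, mul_one]
  exact h1

theorem Fac.finite_hom [Module.Finite k κ] (hs : φ'.s = φ.s) (h2 : (2 : κ) ≠ 0) (hs0 : φ.s ≠ 0)
    (hq : δ.q ≠ 0) (n n' : ℤ) : Module.Finite k (φ.M n ⟶ φ'.M n') := by
  have h1 : ∀ f, Fac.evx φ φ' n n' f ∈ glob k κ (n' - n) := by
    intro f v
    obtain ⟨p, h, rfl⟩ := PairMap.exists_hom hs h2 hs0 f
    rw [Fac.evx_hom]
    exact (PairMap.pres_iff.1 (h v)).1
  refine Module.Finite.of_injective ((Fac.evx φ φ' n n').codRestrict (glob k κ (n' - n)) h1) ?_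
  intro f f' e
  obtain ⟨p, h, rfl⟩ := PairMap.exists_hom hs h2 hs0 f
  obtain ⟨p', h', rfl⟩ := PairMap.exists_hom hs h2 hs0 f'
  have e1 : p.x = p'.x := by
    have := congrArg Subtype.val e
    rw [LinearMap.codRestrict_apply, LinearMap.codRestrict_apply, Fac.evx_hom,
      Fac.evx_hom] at this
    exact this
  have e2 : p.y = p'.y := by
    refine mul_right_cancel₀ (PairMap.g_ne φ hq) ?_
    rw [← p.hg, ← p'.hg, e1]
  have e3 := PairMap.ext e1 e2
  subst e3
  rfl

end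

end Orl.Q
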