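import Pool.Agent.Work.MP_a6e60d_ag.Q.TabHom

/-!
# The maps out of the line bundles
-/

open CategoryTheory CategoryTheory.Limits LaurentPolynomial Quaternion Orl.LF

set_option linter.unusedSectionVars false

attribute [-instance] CategoryTheory.catToReflQuiver

namespace Orl.Q

section

variable {k : Type} [Field k] {δ : Dat k} {κ : Type} [Field κ] [Algebra k κ] {φ φ' : Fac δ κ}

theorem Fac.mem_latO_false {n : ℤ} {v : Ch} {x : φ.N} :
    x ∈ (φ.latO n).M (v, false) ↔ x.1 ∈ Orl.Q.lat κ v n ∧ x.2 = 0 := Iff.rfl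

theorem Fac.mem_latO_true {n : ℤ} {v : Ch} {x : φ.N} :
    x ∈ (φ.latO n).M (v, true) ↔ x = 0 := Submodule.mem_bot k

theorem Fac.vec_mem_latO {n : ℤ} {v : Ch} {r : κ[T;T⁻¹]} (hr : r ∈ Orl.Q.lat κ v n) :
    φ.vec r 0 ∈ (φ.latO n).M (v, false) := ⟨hr, rfl⟩

/-- every family of maps out of `O(n)` is given by an element -/
theorem Fac.exists_latO {M' : Lattice δ.tiling φ'.N} {n : ℤ} (g : (φ.latO n).Fam M')
    (hg : g.IsK (φ.latO_stable n)) : ∃ y : φ'.N, ∀ v r (hr : r ∈ Orl.Q.lat κ v n),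
      (g.f (v, false) ⟨φ.vec r 0, Fac.vec_mem_latO hr⟩).1 = r • y := by
  have h1 : ∀ r : κ[T;T⁻¹], φ.vec r 0 ∈ (φ.latO n).M (.mid, false) :=
    fun r => Fac.vec_mem_latO (mem_lat_mid r)
  have key : ∀ r : κ[T;T⁻¹], (g.f (.mid, false) ⟨φ.vec r 0, h1 r⟩).1 =
      r • (g.f (.mid, false) ⟨φ.vec 1 0, h1 1⟩).1 := by
    intro r
    induction r using LaurentPolynomial.induction_on' with
    | add p q hp hq =>
      rw [add_smul, ← hp, ← hq]
      have e : (⟨φ.vec (p + q) 0, h1 (p + q)⟩ : (φ.latO n).M (.mid, false)) =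
          ⟨φ.vec p 0, h1 p⟩ + ⟨φ.vec q 0, h1 q⟩ := by
        refine Subtype.ext ?_
        show φ.vec (p + q) 0 = φ.vec p 0 + φ.vec q 0
        ext1
        · rfl
        · rw [Fac.add_snd]
          simp
      rw [e, map_add]
      rfl
    | C_mul_T m c =>
      have hx : (Fac.sc (T m) : δ.D) ∈ δ.tiling.L (.mid, false) (.mid, false) := by
        rw [Dat.tiling_L, Dat.tile_ff (Ch.le_refl _)]
        exact ⟨mem_lat_mid _, rfl, rfl, rfl⟩
      have e1 := g.smul' hx ⟨φ.vec 1 0, h1 1⟩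
      have e2 := hg (.mid, false) c ⟨(Fac.sc (T m) : δ.D) • φ.vec 1 0,
        (φ.latO n).smul_mem hx (h1 1)⟩
      have e3 : (⟨φ.vec (C c * T m) 0, h1 _⟩ : (φ.latO n).M (.mid, false)) =
          ⟨c • ((Fac.sc (T m) : δ.D) • φ.vec 1 0),
            φ.latO_stable n (.mid, false) c _ ((φ.latO n).smul_mem hx (h1 1))⟩ := by
        refine Subtype.ext ?_
        show φ.vec (C c * T m) 0 = c • ((Fac.sc (T m) : δ.D) • φ.vec 1 0)
        rw [Fac.sc_T_smul, ← Fac.C_smul]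
        ext1 <;> simp
      rw [e3]
      refine e2.trans ?_
      rw [mul_smul, Fac.C_smul, ← Fac.sc_T_smul]
      exact congrArg (fun z : φ'.N => c • z) e1
  refine ⟨(g.f (.mid, false) ⟨φ.vec 1 0, h1 1⟩).1, fun v r hr => ?_⟩
  rw [← key r]
  exact (g.agree (s := (.mid, false)) (t := (v, false)) (Ch.le_mid v) id _
    (Fac.vec_mem_latO hr) (h1 r)).symm

/-- the element of a map out of `O(n)`, linear over the smaller field -/
noncomputable def Fac.evO (φ : Fac δ κ) {φ' : Fac δ κ} (n : ℤ) {M' : Lattice δ.tiling φ'.N}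
    (hM' : M'.Stable κ) : (φ.O n ⟶ Lattice.kmod hM') →ₗ[k] φ'.N :=
  Lattice.kev (φ.latO_stable n) hM'
    ((φ.latO n).inj (.mid, false) ⟨φ.vec 1 0, Fac.vec_mem_latO (mem_lat_mid 1)⟩) (.mid, false)

theorem Fac.evO_khom {n : ℤ} {M' : Lattice δ.tiling φ'.N} {hM' : M'.Stable κ}
    {g : (φ.latO n).Fam M'} (hg : g.IsK (φ.latO_stable n)) {y : φ'.N}
    (hy : ∀ v r (hr : r ∈ Orl.Q.lat κ v n),
      (g.f (v, false) ⟨φ.vec r 0, Fac.vec_mem_latO hr⟩).1 = r • y) :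
    φ.evO n hM' (g.khom hM' hg) = y := by
  have h1 : (g.f (.mid, false) (((φ.latO n).inj (.mid, false)
      ⟨φ.vec 1 0, Fac.vec_mem_latO (mem_lat_mid 1)⟩) (.mid, false))).1 = y := by
    rw [Lattice.inj_same, hy .mid 1 (mem_lat_mid 1), one_smul]
  exact h1

/-- the element determines the family -/
theorem Fac.latO_ext {n : ℤ} {M' : Lattice δ.tiling φ'.N} {g g' : (φ.latO n).Fam M'} {y : φ'.N}
    (hy : ∀ v r (hr : r ∈ Orl.Q.lat κ v n),
      (g.f (v, false) ⟨φ.vec r 0, Fac.vec_mem_latO hr⟩).1 = r • y)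
    (hy' : ∀ v r (hr : r ∈ Orl.Q.lat κ v n),
      (g'.f (v, false) ⟨φ.vec r 0, Fac.vec_mem_latO hr⟩).1 = r • y) : g = g' := by
  refine Lattice.Fam.ext fun s x => ?_
  obtain ⟨v, b⟩ := s
  cases b
  · obtain ⟨x, hx1, hx2⟩ := x
    have hx : (⟨x, hx1, hx2⟩ : (φ.latO n).M (v, false)) =
        ⟨φ.vec x.1 0, Fac.vec_mem_latO hx1⟩ := Subtype.ext (by
      ext1
      · rfl
      · exact hx2)
    rw [hx, hy v x.1 hx1, hy' v x.1 hx1]
  · have hx : x = 0 := Subtype.ext (Fac.mem_latO_true.1 x.2)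
    rw [hx, map_zero, map_zero]

theorem Fac.exists_khomO {n : ℤ} {M' : Lattice δ.tiling φ'.N} {hM' : M'.Stable κ}
    (f : φ.O n ⟶ Lattice.kmod hM') : ∃ (g : (φ.latO n).Fam M') (hg : g.IsK (φ.latO_stable n)),
      g.khom hM' hg = f ∧ ∀ v r (hr : r ∈ Orl.Q.lat κ v n),
      (g.f (v, false) ⟨φ.vec r 0, Fac.vec_mem_latO hr⟩).1 = r • φ.evO n hM' f := by
  obtain ⟨g, hg, hf⟩ := Lattice.Fam.khom_surjective (hM := φ.latO_stable n) (hM' := hM') f
  obtain ⟨y, hy⟩ := Fac.exists_latO g hg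
  refine ⟨g, hg, hf, ?_⟩
  rw [← hf, Fac.evO_khom hg hy]
  exact hy

theorem Fac.evO_injective {n : ℤ} {M' : Lattice δ.tiling φ'.N} {hM' : M'.Stable κ} :
    Function.Injective (φ.evO n hM') := by
  intro f f' e
  obtain ⟨g, hg, rfl, hy⟩ := Fac.exists_khomO f
  obtain ⟨g', hg', rfl, hy'⟩ := Fac.exists_khomO f'
  rw [← e] at hy'
  have := Fac.latO_ext hy hy'
  subst this
  rfl

/-- the values of a map out of `O(n)` lie in the lattice -/
theorem Fac.evO_mem {n : ℤ} {M' : Lattice δ.tiling φ'.N} {hM' : M'.Stable κ}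
    (f : φ.O n ⟶ Lattice.kmod hM') (v : Ch) :
    gen κ v n • φ.evO n hM' f ∈ M'.M (v, false) := by
  obtain ⟨g, hg, h, hy⟩ := Fac.exists_khomO f
  rw [← hy v _ (gen_mem v n)]
  exact (g.f (v, false) _).2

/-- the element of a map from `O(n)` to `M(n')` -/
noncomputable def Fac.evOM (φ φ' : Fac δ κ) (n n' : ℤ) : (φ.O n ⟶ φ'.M n') →ₗ[k] φ'.N :=
  φ.evO n (φ'.lat_stable n')

/-- the element of a map from `O(n)` to `O(n')` -/
noncomputable def Fac.evOO (φ φ' : Fac δ κ) (n n' : ℤ) : (φ.O n ⟶ φ'.O n') →ₗ[k] φ'.N :=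
  φ.evO n (φ'.latO_stable n')

theorem Fac.evOM_injective (n n' : ℤ) : Function.Injective (Fac.evOM φ φ' n n') :=
  Fac.evO_injective

theorem Fac.evOO_injective (n n' : ℤ) : Function.Injective (Fac.evOO φ φ' n n') :=
  Fac.evO_injective

theorem Fac.evOM_mem {n n' : ℤ} (f : φ.O n ⟶ φ'.M n') (v : Ch) :
    (Fac.evOM φ φ' n n' f).1 ∈ Orl.Q.lat κ v (n' - n) ∧
      (Fac.evOM φ φ' n n' f).2 ∈ Orl.Q.lat κ v (n' + φ'.e - 2 - n) := by
  have h := Fac.evO_mem (hM' := φ'.lat_stable n') f v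
  exact ⟨(gen_mul_mem (by ring)).1 h.1, (gen_mul_mem (by ring)).1 h.2⟩

theorem gen_ne_zero {κ : Type} [Field κ] (v : Ch) (n : ℤ) : gen κ v n ≠ 0 := by
  intro h0
  have := gen_mul_neg (κ := κ) v n
  rw [h0, zero_mul] at this
  exact zero_ne_one this

theorem Fac.evOO_mem {n n' : ℤ} (f : φ.O n ⟶ φ'.O n') (v : Ch) :
    (Fac.evOO φ φ' n n' f).1 ∈ Orl.Q.lat κ v (n' - n) ∧ (Fac.evOO φ φ' n n' f).2 = 0 := by
  have h := Fac.evO_mem (hM' := φ'.latO_stable n') f v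
  exact ⟨(gen_mul_mem (by ring)).1 h.1, (mul_eq_zero.1 h.2).resolve_left (gen_ne_zero v n)⟩

/-- the two entries, linear over the smaller field -/
noncomputable def Fac.fstL (φ : Fac δ κ) : φ.N →ₗ[k] κ[T;T⁻¹] where
  toFun z := z.1
  map_add' _ _ := rfl
  map_smul' c z := by
    show algebraMap k κ c • z.1 = c • z.1
    rw [algebraMap_smul]

/-- the second entry, linear over the smaller field -/
noncomputable def Fac.sndL (φ : Fac δ κ) : φ.N →ₗ[k] κ[T;T⁻¹] where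
  toFun z := z.2
  map_add' _ _ := rfl
  map_smul' c z := by
    show algebraMap k κ c • z.2 = c • z.2
    rw [algebraMap_smul]

theorem Fac.finite_of_glob [Module.Finite k κ] {X : Type} [AddCommGroup X] [Module k X]
    (f : X →ₗ[k] φ.N) (hf : Function.Injective f) (a b : ℤ)
    (h : ∀ x v, (f x).1 ∈ Orl.Q.lat κ v a ∧ (f x).2 ∈ Orl.Q.lat κ v b) : Module.Finite k X := by
  let g : X →ₗ[k] glob k κ a × glob k κ b :=
    ((φ.fstL ∘ₗ f).codRestrict (glob k κ a) fun x v => (h x v).1).prod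
      ((φ.sndL ∘ₗ f).codRestrict (glob k κ b) fun x v => (h x v).2)
  refine Module.Finite.of_injective g ?_
  intro x y e
  refine hf ?_
  have e1 := congrArg (fun z : glob k κ a × glob k κ b => (z.1 : κ[T;T⁻¹])) e
  have e2 := congrArg (fun z : glob k κ a × glob k κ b => (z.2 : κ[T;T⁻¹])) e
  ext1
  · exact e1
  · exact e2

theorem Fac.finite_homOM [Module.Finite k κ] (n n' : ℤ) : Module.Finite k (φ.O n ⟶ φ'.M n') :=
  Fac.finite_of_glob (Fac.evOM φ φ' n n') (Fac.evOM_injective n n') (n' - n)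
    (n' + φ'.e - 2 - n) fun f v => Fac.evOM_mem f v

theorem Fac.finite_homOO [Module.Finite k κ] (n n' : ℤ) : Module.Finite k (φ.O n ⟶ φ'.O n') :=
  Fac.finite_of_glob (Fac.evOO φ φ' n n') (Fac.evOO_injective n n') (n' - n) 0
    fun f v => ⟨(Fac.evOO_mem f v).1, by
      rw [(Fac.evOO_mem f v).2]
      exact Submodule.zero_mem _⟩

theorem Fac.homOO_eq_zero {n n' : ℤ} (h : n' < n) (f : φ.O n ⟶ φ'.O n') : f = 0 := by
  apply Fac.evOO_injective
  rw [map_zero]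
  ext1
  · exact glob_eq_zero (n := n' - n) (by lia) fun v => (Fac.evOO_mem f v).1
  · exact (Fac.evOO_mem f .mid).2

theorem Fac.evOO_zact (c : κ) (n : ℤ) :
    Fac.evOO φ φ n n ((zact k κ δ.Cat c).app (φ.O n)) = c • φ.vec 1 0 := by
  have h4 : c • (((φ.latO n).inj (.mid, false)
      ⟨φ.vec 1 0, Fac.vec_mem_latO (mem_lat_mid 1)⟩) (.mid, false)).1 = c • φ.vec 1 0 := by
    rw [Lattice.inj_same]
  exact h4

theorem Fac.endO (n : ℤ) (f : φ.O n ⟶ φ.O n) : ∃ c : κ, f = (zact k κ δ.Cat c).app (φ.O n) := by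
  obtain ⟨c, hc⟩ := glob_zero (κ := κ) (t := (Fac.evOO φ φ n n f).1)
    fun v => by
      have := (Fac.evOO_mem f v).1
      rwa [sub_self] at this
  refine ⟨c, Fac.evOO_injective n n ?_⟩
  have h2 := (Fac.evOO_mem f .mid).2
  rw [Fac.evOO_zact, ← Fac.C_smul]
  ext1
  · rw [hc]
    simp
  · rw [h2]
    simp

theorem Fac.not_isZero_O (φ : Fac δ κ) (n : ℤ) : ¬ IsZero (φ.O n) := by
  intro h
  have h1 : (𝟙 (φ.O n) : φ.O n ⟶ φ.O n) = 0 := h.eq_of_src _ _
  have h2 : Fac.evOO φ φ n n (𝟙 (φ.O n)) = φ.vec 1 0 := by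
    have h4 : (((φ.latO n).inj (.mid, false)
        ⟨φ.vec 1 0, Fac.vec_mem_latO (mem_lat_mid 1)⟩) (.mid, false)).1 = φ.vec 1 0 := by
      rw [Lattice.inj_same]
    exact h4
  rw [h1, map_zero] at h2
  exact zero_ne_one (congrArg (fun z : φ.N => z.1) h2)

end

end Orl.Q
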