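import Pool.Agent.Work.MP_a6e60d_ag.Q.TLBlk
import Pool.Agent.Work.MP_a6e60d_ag.Q.Conj
import Pool.Agent.Work.MP_a6e60d_ag.Q.KOne
import Pool.Agent.Work.MP_a6e60d_ag.Fld.Spl

/-!
MP_a6e60d_ag, Q5: the conjugation under the automorphism `τ` of the splitting field over the cubic
field, on the objects of rank one and the line bundles.
-/

open CategoryTheory CategoryTheory.Limits Orl.LF Orl.Gal

attribute [-instance] CategoryTheory.catToReflQuiver

namespace Orl.Q

/-- The Galois group of a quadratic extension. -/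
theorem gal_of_finrank {L K : Type*} [Field L] [Field K] [Algebra L K] [FiniteDimensional L K]
    [IsGalois L K] (h : Module.finrank L K = 2) {τ : K ≃ₐ[L] K} (hτ : τ ≠ 1) (g : K ≃ₐ[L] K) :
    g = 1 ∨ g = τ := by
  classical
  have h1 : Nat.card (K ≃ₐ[L] K) = 2 := by rw [IsGalois.card_aut_eq_finrank, h]
  obtain ⟨x, y, hxy, hU⟩ := Nat.card_eq_two_iff.1 h1
  have key : ∀ z : K ≃ₐ[L] K, z = x ∨ z = y := fun z => by
    have : z ∈ ({x, y} : Set (K ≃ₐ[L] K)) := by rw [hU]; exact Set.mem_univ z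
    simpa using this
  rcases key g with rfl | rfl <;> rcases key τ with rfl | rfl <;>
    rcases key 1 with h3 | h3 <;> simp_all

namespace Spl

variable {k : Type} [Field k] {δ : Dat k} {L K : Type} [Field L] [Field K] [Algebra k L]
  [Algebra k K] [Algebra L K] [IsScalarTower k L K] (S : Spl δ K) (τ : K ≃ₐ[L] K)
  (hr : ∀ i, τ (S.r i) = S.r (Equiv.swap 1 2 i)) (hs : τ S.s = -S.s)

theorem mv_swap (I : Finset (Fin 4)) :
    mv (Equiv.swap 1 2) I = I.image (Equiv.swap (1 : Fin 4) 2) := by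
  have h : ∀ i : Fin 4, up4 (Equiv.swap 1 2) i = Equiv.swap (1 : Fin 4) 2 i := by decide
  rw [mv, Finset.map_eq_image]
  exact Finset.image_congr fun i _ => h i

include hr hs

/-- the conjugate of `M_I(n)` -/
theorem conj_tau (I : Finset (Fin 4)) (n : ℤ) : Nonempty ((conj k δ.Cat τ).obj (S.M I n) ≅
    S.M (I.image (Equiv.swap (1 : Fin 4) 2))ᶜ (n + I.card - 2)) := by
  have hc : (I.image (Equiv.swap (1 : Fin 4) 2)).card = I.card :=
    Finset.card_image_of_injective _ (Equiv.injective _)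
  refine ⟨S.conjM_neg τ (Equiv.swap 1 2) hr hs ?_ ?_⟩
  · rw [mv_swap]
    revert I
    decide
  · rw [card_compl, hc]
    ring

variable (hg : ∀ g : K ≃ₐ[L] K, g = 1 ∨ g = τ)

include hg

/-- The conjugation under the automorphism `τ`, for all twists. -/
theorem tauConjTw (m : ℤ) : TauConj (S.Mtw m) (S.Otw m) τ where
  gal := hg
  o j := ⟨S.conjO τ (j + m)⟩
  m x := by
    obtain ⟨e⟩ := S.conj_tau τ hr hs x.1 (x.2 + m)
    refine ⟨e ≪≫ eqToIso ?_⟩
    change S.M _ _ = S.M _ _
    congr 1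
    simp only [tauIx]
    ring

theorem tauConj : TauConj (fun x => S.M x.1 x.2) S.O τ where
  gal := hg
  o j := ⟨S.conjO τ j⟩
  m x := S.conj_tau τ hr hs x.1 x.2

end Spl

end Orl.Q

namespace Orl.Fld.FieldDatum

variable {k F L K : Type} [Field k] [Field F] [Field L] [Field K] [Algebra k F]
    [Algebra k L] [Algebra k K] [Algebra F K] [Algebra L K] [IsScalarTower k F K]
    [IsScalarTower k L K] (D : FieldDatum k F L K)

theorem tau_spl_r (i : Fin 3) : D.tau (D.spl.r i) = D.spl.r (Equiv.swap 1 2 i) := by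
  fin_cases i
  · exact D.tau_r0
  · exact D.tau_r
  · exact D.tau_r2

theorem tau_spl_s : D.tau D.spl.s = -D.spl.s := D.tau_sK

theorem tau_ne : D.tau ≠ 1 := by
  intro h
  have h1 := D.tau_spl_s
  rw [h] at h1
  have h2 : (2 : K) * D.spl.s = 0 := by
    have h3 : D.spl.s = -D.spl.s := h1
    linear_combination h3
  rcases mul_eq_zero.1 h2 with h3 | h3
  · exact D.twoK h3
  · exact D.spl.s_ne h3

theorem gal_tau (g : K ≃ₐ[L] K) : g = 1 ∨ g = D.tau := by
  have := D.finite_KL
  have := D.isGalois_KL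
  exact Orl.Q.gal_of_finrank D.finrank_KL D.tau_ne g

/-- The conjugation under `τ` on the objects over the splitting field. -/
theorem tauConjTw (m : ℤ) : Orl.Q.TauConj (D.spl.Mtw m) (D.spl.Otw m) D.tau :=
  D.spl.tauConjTw D.tau D.tau_spl_r D.tau_spl_s D.gal_tau m

theorem tauConj : Orl.Q.TauConj (fun x => D.spl.M x.1 x.2) D.spl.O D.tau :=
  D.spl.tauConj D.tau D.tau_spl_r D.tau_spl_s D.gal_tau

end Orl.Fld.FieldDatum
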