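import Mathlib

/-!
# Tiled algebras and their modules

`D` is a `k`-algebra, `V` a finite set of vertices and `L s t` a subspace of `D` for all vertices
`s, t` with `L s t * L t u ≤ L s u` and `1 ∈ L s s`.  The tiled algebra is the algebra of matrices
with entries in the subspaces `L s t`.  A tiled module is given by a `D`-module `N` and subspaces
`M s` with `L s t * M t ≤ M s`.
-/

open CategoryTheory

set_option linter.unusedSectionVars false

attribute [-instance] CategoryTheory.catToReflQuiver

namespace Orl.Q

/-- a tiling of the algebra `D` -/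
structure Tiling (k D V : Type) [Field k] [Ring D] [Algebra k D] where
  /-- the subspaces -/
  L : V → V → Submodule k D
  one_mem : ∀ s, 1 ∈ L s s
  mul_mem : ∀ {s t u : V} {x y : D}, x ∈ L s t → y ∈ L t u → x * y ∈ L s u

variable {k D V : Type} [Field k] [Ring D] [Algebra k D] [Fintype V] [DecidableEq V]

/-- the tiled algebra, as a subalgebra of the matrix algebra -/
def Tiling.sub (T : Tiling k D V) : Subalgebra k (Matrix V V D) where
  carrier := {A | ∀ s t, A s t ∈ T.L s t}
  mul_mem' {A B} hA hB s t := by
    rw [Matrix.mul_apply]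
    exact Submodule.sum_mem _ fun u _ => T.mul_mem (hA s u) (hB u t)
  add_mem' {A B} hA hB s t := Submodule.add_mem _ (hA s t) (hB s t)
  algebraMap_mem' r s t := by
    rw [Matrix.algebraMap_matrix_apply]
    split_ifs with h
    · subst h
      rw [Algebra.algebraMap_eq_smul_one]
      exact Submodule.smul_mem _ _ (T.one_mem s)
    · exact Submodule.zero_mem _

/-- the tiled algebra -/
abbrev Tiling.Alg (T : Tiling k D V) : Type := T.sub

theorem Tiling.mem_L {T : Tiling k D V} (A : T.Alg) (s t : V) : A.1 s t ∈ T.L s t := A.2 s t

@[ext] theorem Tiling.alg_ext {T : Tiling k D V} {A B : T.Alg} (h : ∀ s t, A.1 s t = B.1 s t) :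
    A = B := Subtype.ext (Matrix.ext h)

/-- the matrix unit with entry `x` in the place `(s, t)` -/
def Tiling.single (T : Tiling k D V) (s t : V) (x : D) (hx : x ∈ T.L s t) : T.Alg :=
  ⟨Matrix.single s t x, fun s' t' => by
    rw [Matrix.single_apply]
    split_ifs with h
    · obtain ⟨rfl, rfl⟩ := h
      exact hx
    · exact Submodule.zero_mem _⟩

/-- the idempotent of a vertex -/
def Tiling.e (T : Tiling k D V) (s : V) : T.Alg := T.single s s 1 (T.one_mem s)

theorem Tiling.single_mul {T : Tiling k D V} {s t u : V} {x y : D} (hx : x ∈ T.L s t)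
    (hy : y ∈ T.L t u) : T.single s t x hx * T.single t u y hy =
      T.single s u (x * y) (T.mul_mem hx hy) := by
  apply Subtype.ext
  simp [Tiling.single]

theorem Tiling.single_mul_ne {T : Tiling k D V} {s t t' u : V} {x y : D} (hx : x ∈ T.L s t)
    (hy : y ∈ T.L t' u) (h : t ≠ t') : T.single s t x hx * T.single t' u y hy = 0 := by
  apply Subtype.ext
  simp [Tiling.single, h]

theorem Tiling.sum_e (T : Tiling k D V) : ∑ s, T.e s = 1 := by
  apply Subtype.ext
  have h : ((∑ s, T.e s : T.Alg) : Matrix V V D) = ∑ i, Matrix.single i i (1 : D) := by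
    rw [AddSubmonoidClass.coe_finsetSum]
    rfl
  rw [h]
  exact Matrix.sum_single_one

/-- the datum of a tiled module: a `D`-module `N` and subspaces `M s` -/
structure Lattice (T : Tiling k D V) (N : Type) [AddCommGroup N] [Module k N] [Module D N]
    [IsScalarTower k D N] where
  /-- the subspaces -/
  M : V → Submodule k N
  smul_mem : ∀ {s t : V} {x : D} {n : N}, x ∈ T.L s t → n ∈ M t → x • n ∈ M s

section

variable {T : Tiling k D V} {N : Type} [AddCommGroup N] [Module k N] [Module D N]
  [IsScalarTower k D N]

/-- the type of the elements of a tiled module -/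
def Lattice.El (M : Lattice T N) : Type := ∀ s, M.M s

instance (M : Lattice T N) : AddCommGroup M.El := inferInstanceAs (AddCommGroup (∀ s, M.M s))

instance (M : Lattice T N) : Module k M.El := inferInstanceAs (Module k (∀ s, M.M s))

@[ext] theorem Lattice.El.ext' {M : Lattice T N} {x y : M.El} (h : ∀ s, (x s).1 = (y s).1) :
    x = y := funext fun s => Subtype.ext (h s)

@[simp] theorem Lattice.add_apply {M : Lattice T N} (x y : M.El) (s : V) :
    (x + y) s = x s + y s := rfl

@[simp] theorem Lattice.zero_apply {M : Lattice T N} (s : V) : (0 : M.El) s = 0 := rfl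

@[simp] theorem Lattice.ksmul_apply {M : Lattice T N} (c : k) (x : M.El) (s : V) :
    (c • x) s = c • x s := rfl

instance (M : Lattice T N) : SMul T.Alg M.El :=
  ⟨fun A x s => ⟨∑ t, A.1 s t • (x t).1, Submodule.sum_mem _ fun t _ =>
    M.smul_mem (A.2 s t) (x t).2⟩⟩

@[simp] theorem Lattice.smul_apply {M : Lattice T N} (A : T.Alg) (x : M.El) (s : V) :
    ((A • x) s).1 = ∑ t, A.1 s t • (x t).1 := rfl

instance (M : Lattice T N) : Module T.Alg M.El where
  one_smul x := by
    ext s
    rw [Lattice.smul_apply, Finset.sum_eq_single s]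
    · simp
    · intro t _ ht
      simp [Matrix.one_apply_ne ht.symm]
    · simp
  mul_smul A B x := by
    ext s
    simp only [Lattice.smul_apply, Finset.smul_sum, ← mul_smul]
    rw [Finset.sum_comm]
    refine Finset.sum_congr rfl fun t _ => ?_
    rw [← Finset.sum_smul]
    rfl
  smul_zero A := by
    ext s
    simp
  smul_add A x y := by
    ext s
    simp [smul_add, Finset.sum_add_distrib]
  add_smul A B x := by
    ext s
    simp [add_smul, Finset.sum_add_distrib]
  zero_smul x := by
    ext s
    simp

instance (M : Lattice T N) : IsScalarTower k T.Alg M.El where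
  smul_assoc c A x := by
    ext s
    simp [Finset.smul_sum]

/-- the tiled module as an object of the category of modules -/
def Lattice.mod (M : Lattice T N) : ModuleCat.{0} T.Alg := ModuleCat.of T.Alg M.El

end

end Orl.Q
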